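import Pool.Agent.Helper71.FC.Defs
import Pool.Agent.Helper28.FolReg.Use

/-! K1-2: division of forms.
Proofs.  `div1`: `UniqueFactorizationMonoid` argument (all `ξ_i μ_j = ξ_j μ_i`): if `μ = 0` then `n = 0` or `0` is a unit: impossible
unless the ring is trivial, so some `μ_j ≠ 0`; by induction on the number of prime factors of `μ_j` (or: localise, `ξ_j = (a/b) μ_j` with `a, b`
coprime, then `b` divides all `μ_i`, so `b` is a unit).  `div1_hom`: compare homogeneous components.
`saito`: `θ_jk` with `μ ∧ θ = 0`.  Put `η_k = θ_(i0 k)`, `μ_i0 θ_jk = μ_j η_k - μ_k η_j` (component `(i0,j,k)`), in particular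
`μ_j η_k ≡ μ_k η_j mod μ_i0`.  From `(i1,i2)`: `μ_i2 η_i1 ≡ μ_i1 η_i2`, so `Reg3` gives `η_i1 = g μ_i1 + μ_i0 u`; then
`μ_i1 (η_k - g μ_k) ≡ 0 mod μ_i0`, `Reg3` gives `η_k = g μ_k + μ_i0 ξ_k` for all `k ≠ i0`; put `ξ_i0 = -g` (`η_i0 = 0`).  Then
`μ_i0 θ_jk = μ_i0 (μ_j ξ_k - μ_k ξ_j)`; cancel.  Homogeneity: take homogeneous components. -/

set_option autoImplicit false

namespace Pool.Agent.Helper50.FC

open MvPolynomial
open Pool.Agent.Helper71.FC
open Pool.Agent.Helper28.FolReg (Reg2 Reg3)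
open Pool.Agent.Helper71.FL (w12 pf ct Dec Closed dd)
open scoped BigOperators

variable {n : ℕ} {ι : Type}

/-- coprime components -/
def Prim (μ : ι → Pn n) : Prop := ∀ p : Pn n, (∀ i, p ∣ μ i) → IsUnit p

private theorem hc_mul {p q : Pn n} {a : ℕ} (hp : p.IsHomogeneous a) (b : ℕ) :
    homogeneousComponent (a + b) (p * q) = p * homogeneousComponent b q := by
  have hs := sum_homogeneousComponent q
  have h1 : p * q = ∑ i ∈ Finset.range (q.totalDegree + 1), p * homogeneousComponent i q := by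
    rw [← Finset.mul_sum, hs]
  rw [h1, map_sum]
  have h2 : ∀ i ∈ Finset.range (q.totalDegree + 1),
      homogeneousComponent (a + b) (p * homogeneousComponent i q) =
        if i = b then p * homogeneousComponent b q else 0 := by
    intro i _
    have h3 : p * homogeneousComponent i q ∈ homogeneousSubmodule (Fin n) ℂ (a + i) :=
      hp.mul (homogeneousComponent_isHomogeneous i q)
    rw [homogeneousComponent_of_mem h3]
    by_cases h4 : i = b
    · subst h4
      rw [if_pos rfl, if_pos rfl]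
    · rw [if_neg h4, if_neg (by omega)]
  rw [Finset.sum_congr rfl h2, Finset.sum_ite_eq' (Finset.range (q.totalDegree + 1)) b]
  split_ifs with h5
  · rfl
  · rw [Finset.mem_range, not_lt] at h5
    rw [homogeneousComponent_eq_zero b q (by omega), mul_zero]

private theorem hc_mul_zero {p q : Pn n} {a b : ℕ} (hp : p.IsHomogeneous b) (hab : a < b) :
    homogeneousComponent a (p * q) = 0 := by
  have hs := sum_homogeneousComponent q
  have h1 : p * q = ∑ i ∈ Finset.range (q.totalDegree + 1), p * homogeneousComponent i q := by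
    rw [← Finset.mul_sum, hs]
  rw [h1, map_sum]
  apply Finset.sum_eq_zero
  intro i _
  have h3 : p * homogeneousComponent i q ∈ homogeneousSubmodule (Fin n) ℂ (b + i) :=
    hp.mul (homogeneousComponent_isHomogeneous i q)
  rw [homogeneousComponent_of_mem h3, if_neg (by omega)]

theorem div1 {μ ξ : ι → Pn n} (hμ : Prim μ) (h : ∀ i j, w11 ξ μ i j = 0) : ∃ g, ∀ i, ξ i = g * μ i := by
  by_cases h0 : ∀ i, μ i = 0
  · exfalso
    have h1 := hμ 0 (fun i => by rw [h0 i])
    exact not_isUnit_zero h1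
  · push Not at h0
    obtain ⟨j, hj⟩ := h0
    obtain ⟨b0, a0, c, hrel, hb, ha⟩ :=
      UniqueFactorizationMonoid.exists_reduced_factors (μ j) hj (ξ j)
    have hc : c ≠ 0 := by
      rintro rfl
      rw [zero_mul] at hb
      exact hj hb.symm
    have h2 : ∀ i, ξ i * b0 = a0 * μ i := by
      intro i
      have h3 := h i j
      unfold w11 at h3
      rw [← hb, ← ha] at h3
      apply mul_left_cancel₀ hc
      linear_combination h3
    have hunit : IsUnit b0 := by
      apply hμ
      intro i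
      exact hrel.dvd_of_dvd_mul_left (Dvd.intro_left (ξ i) (h2 i))
    obtain ⟨u, hu⟩ := hunit.exists_right_inv
    refine ⟨a0 * u, fun i => ?_⟩
    have h4 := h2 i
    linear_combination u * h4 - ξ i * hu

theorem div1_hom {μ ξ : ι → Pn n} {a b : ℕ} (hμ : Prim μ) (h : ∀ i j, w11 ξ μ i j = 0)
    (hξ : ∀ i, (ξ i).IsHomogeneous a) (hb : ∀ i, (μ i).IsHomogeneous b) :
    ∃ g : Pn n, g.IsHomogeneous (a - b) ∧ (a < b → g = 0) ∧ ∀ i, ξ i = g * μ i := by
  obtain ⟨g, hg⟩ := div1 hμ h
  by_cases hab : a < b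
  · refine ⟨0, isHomogeneous_zero _ _ _, fun _ => rfl, fun i => ?_⟩
    have h1 : homogeneousComponent a (ξ i) = ξ i := homogeneousComponent_eq_self (hξ i)
    rw [zero_mul, ← h1, hg i, mul_comm, hc_mul_zero (hb i) hab]
  · refine ⟨homogeneousComponent (a - b) g, homogeneousComponent_isHomogeneous _ _,
      fun h2 => absurd h2 hab, fun i => ?_⟩
    have h1 : homogeneousComponent a (ξ i) = ξ i := homogeneousComponent_eq_self (hξ i)
    have h3 := hc_mul (q := g) (hb i) (a - b)
    rw [Nat.add_sub_cancel' (not_lt.mp hab)] at h3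
    rw [mul_comm, ← h3, mul_comm (μ i) g, ← hg i, h1]

/-- division of 2-forms by a 1-form with three components forming a regular sequence -/
theorem saito {μ : ι → Pn n} {θ : ι → ι → Pn n} {i0 i1 i2 : ι} (hr : Reg3 (μ i0) (μ i1) (μ i2))
    (h0 : ∀ i, θ i i = 0) (h1 : ∀ i j, θ i j = - θ j i) (h2 : ∀ i j k, w12 μ θ i j k = 0) :
    ∃ ξ : ι → Pn n, ∀ i j, θ i j = w11 μ ξ i j := by
  have hdom : ∀ a b : Pn n, μ i0 * a = μ i0 * b → a = b := by
    intro a b hab
    have := hr.1 (a - b) (by rw [mul_sub, hab, sub_self])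
    exact sub_eq_zero.mp this
  have hA : ∀ j k, μ i0 * θ j k = μ j * θ i0 k - μ k * θ i0 j := by
    intro j k
    have h3 := h2 i0 j k
    unfold w12 at h3
    rw [h1 k i0] at h3
    linear_combination h3
  obtain ⟨u, g, hug⟩ := hr.2.2 (θ i0 i1) ⟨-θ i1 i2, θ i0 i2, by
    linear_combination hA i1 i2⟩
  have hB : ∀ k, ∃ x, θ i0 k - g * μ k = μ i0 * x := by
    intro k
    apply hr.2.1
    refine ⟨u * μ k + θ i1 k, ?_⟩
    have h4 := hA i1 k
    linear_combination -h4 + μ k * hug
  choose ξ hξ using hB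
  refine ⟨ξ, fun j k => ?_⟩
  apply hdom
  unfold w11
  rw [hA j k]
  linear_combination μ j * hξ k - μ k * hξ j

theorem saito_hom {μ : ι → Pn n} {θ : ι → ι → Pn n} {i0 i1 i2 : ι} (hr : Reg3 (μ i0) (μ i1) (μ i2))
    (h0 : ∀ i, θ i i = 0) (h1 : ∀ i j, θ i j = - θ j i) (h2 : ∀ i j k, w12 μ θ i j k = 0)
    {a b : ℕ} (hμ : ∀ i, (μ i).IsHomogeneous a) (hθ : ∀ i j, (θ i j).IsHomogeneous (a + b)) :
    ∃ ξ : ι → Pn n, (∀ i, (ξ i).IsHomogeneous b) ∧ ∀ i j, θ i j = w11 μ ξ i j := by
  obtain ⟨ξ, hξ⟩ := saito hr h0 h1 h2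
  refine ⟨fun i => homogeneousComponent b (ξ i), fun i => homogeneousComponent_isHomogeneous _ _,
    fun i j => ?_⟩
  have h3 : homogeneousComponent (a + b) (θ i j) = θ i j := homogeneousComponent_eq_self (hθ i j)
  unfold w11
  rw [← h3, hξ i j]
  unfold w11
  rw [map_sub, hc_mul (hμ i), hc_mul (hμ j)]

private theorem reg_span {s : Set (Pn n)} (hs : ∀ p ∈ s, p.IsHomogeneous 1) {l : Pn n}
    (hl : l.IsHomogeneous 1) (hls : l ∉ Submodule.span ℂ s) (a : Pn n)
    (ha : l * a ∈ Ideal.span s) : a ∈ Ideal.span s := by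
  obtain ⟨f, hf⟩ := (Submodule.span ℂ s).subtype.exists_leftInverse_of_injective
    (Submodule.ker_subtype _)
  have hf' : ∀ x : Submodule.span ℂ s, f (x : Pn n) = x := fun x => LinearMap.congr_fun hf x
  set σ : Pn n →ₐ[ℂ] Pn n := aeval (fun i => X i - (f (X i) : Pn n)) with hσ
  have hlin : ∀ p : Pn n, p.IsHomogeneous 1 → σ p = p - (f p : Pn n) := by
    intro p hp
    have hp' : p ∈ homogeneousSubmodule (Fin n) ℂ 1 := hp
    rw [homogeneousSubmodule_one_eq_span_X] at hp'
    refine Submodule.span_induction (p := fun q _ => σ q = q - (f q : Pn n)) ?_ ?_ ?_ ?_ hp'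
    · rintro _ ⟨i, rfl⟩
      rw [hσ, aeval_X]
    · rw [map_zero, map_zero, Submodule.coe_zero, sub_zero]
    · intro x y _ _ hx hy
      rw [map_add, map_add, hx, hy, Submodule.coe_add]
      ring
    · intro c x _ hx
      rw [map_smul, map_smul, hx, Submodule.coe_smul, smul_sub]
  have hker : ∀ p ∈ s, σ p = 0 := by
    intro p hp
    rw [hlin p (hs p hp)]
    have := hf' ⟨p, Submodule.subset_span hp⟩
    rw [this]
    exact sub_self p
  have hspan : ∀ x : Pn n, x ∈ Submodule.span ℂ s → x ∈ Ideal.span s := by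
    intro x hx
    refine Submodule.span_induction (p := fun q _ => q ∈ Ideal.span s) ?_ ?_ ?_ ?_ hx
    · intro y hy
      exact Ideal.subset_span hy
    · exact Ideal.zero_mem _
    · intro y z _ _ hy hz
      exact Ideal.add_mem _ hy hz
    · intro c y _ hy
      rw [smul_eq_C_mul]
      exact Ideal.mul_mem_left _ _ hy
  have hdiff : ∀ p : Pn n, p - σ p ∈ Ideal.span s := by
    intro p
    have hhom : (Ideal.Quotient.mkₐ ℂ (Ideal.span s)).comp σ =
        Ideal.Quotient.mkₐ ℂ (Ideal.span s) := by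
      apply algHom_ext
      intro i
      rw [AlgHom.comp_apply, hσ, aeval_X, map_sub]
      have : Ideal.Quotient.mkₐ ℂ (Ideal.span s) (f (X i) : Pn n) = 0 :=
        Ideal.Quotient.eq_zero_iff_mem.mpr (hspan _ (f (X i)).2)
      rw [this, sub_zero]
    have h3 := DFunLike.congr_fun hhom p
    rw [AlgHom.comp_apply] at h3
    exact Ideal.Quotient.eq.mp h3.symm
  have hσl : σ l ≠ 0 := by
    intro h3
    rw [hlin l hl] at h3
    apply hls
    rw [sub_eq_zero.mp h3]
    exact (f l).2
  have hσs : ∀ x ∈ Ideal.span s, σ x = 0 := by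
    intro x hx
    have : Ideal.span s ≤ RingHom.ker (σ : Pn n →+* Pn n) := by
      rw [Ideal.span_le]
      intro p hp
      exact hker p hp
    exact this hx
  have h4 := hσs _ ha
  rw [map_mul] at h4
  have h5 := (mul_eq_zero.mp h4).resolve_left hσl
  have h6 := hdiff a
  rw [h5, sub_zero] at h6
  exact h6

/-- linearly independent linear forms are a regular sequence -/
theorem reg3_linear (l : Fin 3 → Pn n) (hl : ∀ a, (l a).IsHomogeneous 1)
    (h : ∀ c : Fin 3 → ℂ, ∑ a, C (c a) * l a = 0 → c = 0) : Reg3 (l 0) (l 1) (l 2) := by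
  refine ⟨?_, ?_, ?_⟩
  · intro a ha
    refine (mul_eq_zero.mp ha).resolve_left (fun h0 => ?_)
    have := h ![1, 0, 0] (by simp [Fin.sum_univ_three, h0])
    simpa using congrFun this 0
  · rintro a ⟨u, hu⟩
    have h1 := reg_span (s := {l 0}) (l := l 1) (by
      rintro p rfl
      exact hl 0) (hl 1) (by
      intro h2
      obtain ⟨c, hc⟩ := Submodule.mem_span_singleton.mp h2
      have := h ![c, -1, 0] (by
        simp only [Fin.sum_univ_three, Matrix.cons_val_zero, Matrix.cons_val_one,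
          Matrix.cons_val_two, Matrix.cons_val]
        rw [← hc, smul_eq_C_mul]
        simp)
      simpa using congrFun this 1) a (by
      rw [hu]
      exact Ideal.mem_span_singleton.mpr (Dvd.intro _ rfl))
    obtain ⟨v, hv⟩ := Ideal.mem_span_singleton.mp h1
    exact ⟨v, hv⟩
  · rintro a ⟨u, v, huv⟩
    have h1 := reg_span (s := {l 0, l 1}) (l := l 2) (by
      rintro p (rfl | rfl)
      · exact hl 0
      · exact hl 1) (hl 2) (by
      intro h2
      obtain ⟨c, d, hc⟩ := Submodule.mem_span_pair.mp h2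
      have := h ![c, d, -1] (by
        simp only [Fin.sum_univ_three, Matrix.cons_val_zero, Matrix.cons_val_one,
          Matrix.cons_val_two, Matrix.cons_val]
        rw [← hc, smul_eq_C_mul, smul_eq_C_mul]
        simp)
      simpa using congrFun this 2) a (by
      rw [huv]
      exact Ideal.mem_span_pair.mpr ⟨u, v, by ring⟩)
    obtain ⟨c, d, hcd⟩ := Ideal.mem_span_pair.mp h1
    exact ⟨c, d, by rw [← hcd]; ring⟩

/-- two linearly independent linear forms are a regular sequence -/
theorem reg2_linear (l : Fin 2 → Pn n) (hl : ∀ a, (l a).IsHomogeneous 1)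
    (h : ∀ c : Fin 2 → ℂ, ∑ a, C (c a) * l a = 0 → c = 0) : Reg2 (l 0) (l 1) := by
  refine ⟨?_, ?_⟩
  · intro a ha
    refine (mul_eq_zero.mp ha).resolve_left (fun h0 => ?_)
    have := h ![1, 0] (by simp [Fin.sum_univ_two, h0])
    simpa using congrFun this 0
  · rintro a ⟨u, hu⟩
    have h1 := reg_span (s := {l 0}) (l := l 1) (by
      rintro p rfl
      exact hl 0) (hl 1) (by
      intro h2
      obtain ⟨c, hc⟩ := Submodule.mem_span_singleton.mp h2
      have := h ![c, -1] (by
        simp only [Fin.sum_univ_two, Matrix.cons_val_zero, Matrix.cons_val_one,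
          Matrix.cons_val]
        rw [← hc, smul_eq_C_mul]
        simp)
      simpa using congrFun this 1) a (by
      rw [hu]
      exact Ideal.mem_span_singleton.mpr (Dvd.intro _ rfl))
    obtain ⟨v, hv⟩ := Ideal.mem_span_singleton.mp h1
    exact ⟨v, hv⟩

end Pool.Agent.Helper50.FC
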