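import Pool.Agent.Helper50.FC.Poin
import Pool.Agent.Helper50.FC.Div

/-! K1-9: `σ ∈ E#_2` primitive with at least two missing variables.
Proofs.
`eig` (no quadratic eigenvectors).  `D = l_a ∂_b - l_b ∂_a` is a derivation with `D s = c s`, `D` maps linear forms onto `E = <l_a, l_b>`
(dimension 2), and the trace of `D` on `E` is `∂_b l_a - ∂_a l_b = - c ≠ 0`.  Let `μ1, μ2` be the eigenvalues of `D|E`, `μ1 + μ2 = - c`.
If `μ1, μ2 ≠ 0` then linear forms `= E ⊕ ker D`; the (generalised) eigenvalues of `D` on quadratic forms are `2μ1, μ1+μ2 = -c, 2μ2` (on `S²E`),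
`μ1, μ2` (on `E · ker D`), `0`.  If `c` is none of them all `s` vanish.  `c = 2μ1`: `μ2 = -3c/2`, the eigenvalue `c` occurs once, `s ∈ ℂ y1²`;
`c = μ1`: `μ2 = - 2c`, `s ∈ y1 · ker D` (`y1` the eigenvector of `D|E` for `μ1`): in all cases a common factor.  If `μ1 = 0`, `μ2 = -c`: the
eigenvalues on quadratic forms are `0, -c, -2c`, so `s = 0`.  (Alternative: with `s_aa = ∂_a²s` etc. constants, differentiating `c s = l_a ∂_b s - l_b ∂_a s`
twice shows that `(s_aa, s_ab, s_bb)` is an eigenvector of the second symmetric power of the 2x2 matrix, then once.)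
`P2`: for `a ∈ J`: `w12 σ θ a j k = 0` and `σ_a = 0` give `θ_aj σ_k = θ_ak σ_j`, `div1_hom`: `θ_aj = l_a σ_j`, `l_a` linear; the `l_a` are linearly
independent (not a cone).  Closedness `(a,b,j)` for `a,b ∈ J` (`θ_ab = l_a σ_b = 0`): `∂_a (l_b σ_j) = ∂_b (l_a σ_j)`, i.e.
`c σ_j = l_a ∂_b σ_j - l_b ∂_a σ_j`, `c = ∂_a l_b - ∂_b l_a`.  `eig`: `c = 0`.  So there is `Q` with `∂_a Q = l_a` (`a ∈ J`, `poincare_rel`), and
`l_a ∂_b σ_j = l_b ∂_a σ_j` with coprime `l_a, l_b` gives `∂_a σ_j = m_j l_a`, `m_j` constant independent of `a ∈ J`; `σ'_j = σ_j - m_j Q`.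
`θ1 = θ - dQ ∧ σ` is killed by `i_a` (`a ∈ J`), and `∂_a θ1_jk = l_a (dσ')_jk` by closedness; so `θ0 = θ1 - Q dσ'` satisfies `∂_a θ0 = 0`. -/

set_option autoImplicit false

namespace Pool.Agent.Helper50.FC

open MvPolynomial
open Pool.Agent.Helper71.FC
open Pool.Agent.Helper28.FolReg (Reg2 Reg3)
open Pool.Agent.Helper71.FL (w12 pf ct Dec Closed dd)
open scoped BigOperators

variable {n : ℕ}

private theorem const0 {f : Pn n} (h : f.IsHomogeneous 0) : ∃ c : ℂ, f = C c := by
  refine ⟨coeff 0 f, ?_⟩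
  refine (totalDegree_eq_zero_iff_eq_C (p := f)).mp ?_
  have := h.totalDegree_le
  omega

private theorem pcomm (i j : Fin n) (f : Pn n) : pderiv i (pderiv j f) = pderiv j (pderiv i f) := by
  have h : ⁅(pderiv i : Derivation ℂ (Pn n) (Pn n)), (pderiv j : Derivation ℂ (Pn n) (Pn n))⁆ = 0 := by
    apply MvPolynomial.derivation_ext
    intro k
    rw [Derivation.commutator_apply, pderiv_X, pderiv_X]
    simp only [Pi.single_apply, Derivation.zero_apply]
    split_ifs <;> simp
  have h2 := congrArg (fun D : Derivation ℂ (Pn n) (Pn n) => D f) h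
  simp only [Derivation.commutator_apply, Derivation.zero_apply] at h2
  exact sub_eq_zero.mp h2

private theorem pder_mul (i : Fin n) (f g : Pn n) :
    pderiv i (f * g) = pderiv i f * g + f * pderiv i g := by
  rw [Derivation.leibniz, smul_eq_mul, smul_eq_mul]; ring

private theorem pder_Cmul (i : Fin n) (c : ℂ) (g : Pn n) :
    pderiv i (C c * g) = C c * pderiv i g := by
  rw [pder_mul, pderiv_C, zero_mul, zero_add]

private theorem not_unit1 {y : Pn n} (hy : y.IsHomogeneous 1) : ¬ IsUnit y := by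
  intro hu
  have h1 : IsUnit (constantCoeff y) := hu.map _
  have h2 : constantCoeff y = 0 := by
    rw [constantCoeff_eq]
    exact hy.coeff_eq_zero (by simp)
  rw [h2] at h1
  exact not_isUnit_zero h1

private theorem exists_mu {c dt : ℂ} (hc0 : c ≠ 0) :
    ∃ μ : ℂ, μ ^ 2 + c * μ + dt = 0 ∧ μ + 2 * c ≠ 0 ∧ 3 * c + 2 * μ ≠ 0 := by
  obtain ⟨w, hw⟩ := IsAlgClosed.exists_pow_nat_eq (c ^ 2 - 4 * dt) (n := 2) (by norm_num)
  by_cases h : w + 3 * c = 0 ∨ w + 2 * c = 0
  · refine ⟨(-c - w) / 2, by linear_combination hw / 4, ?_, ?_⟩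
    · intro h2
      rcases h with h | h
      · apply hc0; linear_combination (2 * h2 + h) / 6
      · apply hc0; linear_combination (2 * h2 + h) / 5
    · intro h2
      rcases h with h | h
      · apply hc0; linear_combination (h2 + h) / 5
      · apply hc0; linear_combination (h2 + h) / 4
  · push Not at h
    refine ⟨(-c + w) / 2, by linear_combination hw / 4, ?_, ?_⟩
    · intro h2
      apply h.1; linear_combination 2 * h2
    · intro h2
      apply h.2; linear_combination h2

private theorem exists_pq {αa αb βa βb μ : ℂ}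
    (h : μ ^ 2 + (βa - αb) * μ + (αa * βb - αb * βa) = 0) :
    ∃ p q : ℂ, (p ≠ 0 ∨ q ≠ 0) ∧ p * αb + q * βb = μ * p ∧ -(p * αa) - q * βa = μ * q := by
  by_cases h1 : βb ≠ 0 ∨ μ - αb ≠ 0
  · exact ⟨βb, μ - αb, h1, by ring, by linear_combination -h⟩
  · push Not at h1
    obtain ⟨hb, hm⟩ := h1
    by_cases h2 : μ + βa ≠ 0 ∨ -αa ≠ 0
    · refine ⟨μ + βa, -αa, h2, ?_, ?_⟩
      · rw [hb]; linear_combination -(μ + βa) * hm
      · ring
    · push Not at h2
      refine ⟨1, 0, Or.inl one_ne_zero, ?_, ?_⟩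
      · linear_combination -hm
      · linear_combination h2.2

theorem eig {ι : Type} {a b : Fin n} (hab : a ≠ b) {la lb : Pn n} (h1 : la.IsHomogeneous 1) (h2 : lb.IsHomogeneous 1)
    (hi : ∀ s t : ℂ, C s * la + C t * lb = 0 → s = 0 ∧ t = 0) {c : ℂ} (hc : C c = pderiv a lb - pderiv b la)
    (hc0 : c ≠ 0) {s : ι → Pn n} (hs : ∀ j, (s j).IsHomogeneous 2)
    (he : ∀ j, C c * s j = la * pderiv b (s j) - lb * pderiv a (s j)) : ¬ Prim s := by
  obtain ⟨αa, hαa⟩ := const0 (h1.pderiv (i := a))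
  obtain ⟨αb, hαb⟩ := const0 (h1.pderiv (i := b))
  obtain ⟨βa, hβa⟩ := const0 (h2.pderiv (i := a))
  obtain ⟨βb, hβb⟩ := const0 (h2.pderiv (i := b))
  have hcc : c = βa - αb := by
    rw [hβa, hαb, ← C_sub] at hc
    exact C_injective _ _ hc
  obtain ⟨μ, hμ, hμ1, hμ2⟩ := exists_mu (c := c) (dt := αa * βb - αb * βa) hc0
  obtain ⟨p, q, hpq, e1, e2⟩ := exists_pq (αa := αa) (αb := αb) (βa := βa) (βb := βb) (μ := μ)
    (by rw [← hcc]; linear_combination hμ)
  have ht : ∀ j, C p * pderiv a (s j) + C q * pderiv b (s j) = 0 := by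
    intro j
    set t : Pn n := C p * pderiv a (s j) + C q * pderiv b (s j) with htd
    have hth : t.IsHomogeneous 1 := by
      have i1 := (isHomogeneous_C (Fin n) p).mul ((hs j).pderiv (i := a))
      have i2 := (isHomogeneous_C (Fin n) q).mul ((hs j).pderiv (i := b))
      exact i1.add i2
    obtain ⟨τa, hτa⟩ := const0 (hth.pderiv (i := a))
    obtain ⟨τb, hτb⟩ := const0 (hth.pderiv (i := b))
    have da := congrArg (fun f => pderiv a f) (he j)
    have db := congrArg (fun f => pderiv b f) (he j)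
    simp only [map_sub, pder_mul, pderiv_C, zero_mul, zero_add, hαa, hαb, hβa, hβb] at da db
    have ta : pderiv a t = C p * pderiv a (pderiv a (s j)) + C q * pderiv a (pderiv b (s j)) := by
      rw [htd, map_add, pder_Cmul, pder_Cmul]
    have tb : pderiv b t = C p * pderiv b (pderiv a (s j)) + C q * pderiv b (pderiv b (s j)) := by
      rw [htd, map_add, pder_Cmul, pder_Cmul]
    have cm := pcomm a b (s j)
    have k1 : C p * C αa + C q * C αb = -(C (μ + c) * C q : Pn n) := by
      rw [← C_mul, ← C_mul, ← C_mul, ← C_add, ← C_neg]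
      congr 1
      rw [hcc]; linear_combination -e2
    have k2 : C p * C βa + C q * C βb = (C (μ + c) * C p : Pn n) := by
      rw [← C_mul, ← C_mul, ← C_mul, ← C_add]
      congr 1
      rw [hcc]; linear_combination e1
    have key : C (2 * c + μ) * t = la * C τb - lb * C τa := by
      rw [← hτa, ← hτb, ta, tb]
      have hC : (C (2 * c + μ) : Pn n) = C c + C (μ + c) := by
        rw [← C_add]; congr 1; ring
      rw [hC]
      linear_combination C p * da + C q * db + (pderiv b (s j)) * k1 - (pderiv a (s j)) * k2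
        + (C p * la) * cm + (C q * lb) * cm
    have fa := congrArg (fun f => pderiv a f) key
    have fb := congrArg (fun f => pderiv b f) key
    simp only [map_sub, pder_mul, hαa, hαb, hβa, hβb, hτa, hτb, pderiv_C, mul_zero, zero_mul,
      zero_add, add_zero] at fa fb
    simp only [← C_mul, ← C_sub] at fa fb
    have fa' := C_injective _ _ fa
    have fb' := C_injective _ _ fb
    have hfac : 2 * c * (3 * c + 2 * μ) ≠ 0 := by
      refine mul_ne_zero (mul_ne_zero two_ne_zero hc0) hμ2
    have z1 : 2 * c * (3 * c + 2 * μ) * τa = 0 := by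
      subst hcc
      linear_combination (2 * (βa - αb) + μ - αb) * fa' + αa * fb' - τa * hμ
    have z2 : 2 * c * (3 * c + 2 * μ) * τb = 0 := by
      subst hcc
      linear_combination (2 * (βa - αb) + μ + βa) * fb' - βb * fa' - τb * hμ
    have y1 := (mul_eq_zero.mp z1).resolve_left hfac
    have y2 := (mul_eq_zero.mp z2).resolve_left hfac
    rw [y1, y2, C_0, mul_zero, mul_zero, sub_zero] at key
    refine (mul_eq_zero.mp key).resolve_left ?_
    intro h0
    apply hμ1
    have := C_eq_zero.mp h0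
    linear_combination this
  intro hP
  have hy : (C p * la + C q * lb).IsHomogeneous 1 := by
    have i1 := (isHomogeneous_C (Fin n) p).mul h1
    have i2 := (isHomogeneous_C (Fin n) q).mul h2
    simpa using i1.add i2
  refine not_unit1 hy (hP _ fun j => ?_)
  rcases hpq with hp | hq
  · have hpc : p * c ≠ 0 := mul_ne_zero hp hc0
    have e3 : C (p * c) * s j = (C p * la + C q * lb) * pderiv b (s j) := by
      rw [C_mul]
      linear_combination C p * he j - lb * ht j
    refine ⟨C (p * c)⁻¹ * pderiv b (s j), ?_⟩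
    have e4 : (C (p * c)⁻¹ * C (p * c) : Pn n) = 1 := by
      rw [← C_mul, inv_mul_cancel₀ hpc, C_1]
    linear_combination C (p * c)⁻¹ * e3 - s j * e4
  · have hpc : q * c ≠ 0 := mul_ne_zero hq hc0
    have e3 : C (q * c) * s j = -((C p * la + C q * lb) * pderiv a (s j)) := by
      rw [C_mul]
      linear_combination C q * he j + la * ht j
    refine ⟨-(C (q * c)⁻¹ * pderiv a (s j)), ?_⟩
    have e4 : (C (q * c)⁻¹ * C (q * c) : Pn n) = 1 := by
      rw [← C_mul, inv_mul_cancel₀ hpc, C_1]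
    linear_combination C (q * c)⁻¹ * e3 - s j * e4

theorem P2 {θ : F2 n} (h : Fol θ) (hc : ¬ Cone θ) {σ : F1 n} (hσ : σ ∈ EE θ 2) (hp : Prim σ)
    (J : Finset (Fin n)) (hJ : 2 ≤ J.card) (hJσ : ∀ i ∈ J, σ i = 0) :
    ∃ (Q : Pn n) (m : Fin n → ℂ) (σ' : F1 n) (θ0 : F2 n),
      Q.IsHomogeneous 2 ∧ (∀ i ∈ J, m i = 0) ∧
      (∀ i, (σ' i).IsHomogeneous 2) ∧ (∀ i ∈ J, σ' i = 0) ∧ (∀ i, ∀ j ∈ J, pderiv j (σ' i) = 0) ∧
      (∀ i j, (θ0 i j).IsHomogeneous 3) ∧ (∀ i, ∀ j ∈ J, θ0 i j = 0 ∧ θ0 j i = 0) ∧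
      (∀ i j, ∀ k ∈ J, pderiv k (θ0 i j) = 0) ∧
      (∀ i, σ i = C (m i) * Q + σ' i) ∧
      (∀ i j, θ i j = w11 (df Q) σ i j + Q * dd σ' i j + θ0 i j) ∧
      (∀ i ∈ J, ∀ j, θ i j = pderiv i Q * σ j) := by
  classical
  obtain ⟨hσh, hσw⟩ := mem_EE.mp hσ
  have anti : ∀ i j, θ i j = - θ j i := h.dec.2.1
  have hzero : ∀ i, θ i i = 0 := h.dec.1
  -- the linear forms
  have hl : ∀ a : Fin n, ∃ l : Pn n, a ∈ J → (l.IsHomogeneous 1 ∧ ∀ j, θ a j = l * σ j) := by
    intro a
    by_cases ha : a ∈ J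
    · have hw : ∀ i j, w11 (θ a) σ i j = 0 := by
        intro i j
        have e := hσw a j i
        unfold w12 at e
        rw [hJσ a ha] at e
        unfold w11
        have e2 := anti i a
        linear_combination -e + σ j * e2
      obtain ⟨g, hg1, _, hg2⟩ := div1_hom (a := 3) (b := 2) hp hw (fun i => h.hom a i) hσh
      exact ⟨g, fun _ => ⟨hg1, hg2⟩⟩
    · exact ⟨0, fun h0 => absurd h0 ha⟩
  choose l hl using hl
  -- two different indices
  obtain ⟨a, ha, b, hb, hab⟩ := Finset.one_lt_card.mp (show 1 < J.card by omega)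
  -- some component of σ is not zero
  have hσne : ∃ j, σ j ≠ 0 := by
    by_contra hcon
    push Not at hcon
    have := hp 0 (fun i => by rw [hcon i])
    exact not_isUnit_zero this
  -- linear independence
  have hind : ∀ a' ∈ J, ∀ b' ∈ J, a' ≠ b' → ∀ s t : ℂ, C s * l a' + C t * l b' = 0 → s = 0 ∧ t = 0 := by
    intro a' ha' b' hb' hab' s t hst
    by_contra hcon
    apply hc
    refine ⟨fun i => (if i = a' then s else 0) + (if i = b' then t else 0), ?_, ?_⟩
    · intro h0
      apply hcon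
      have h3 := congrFun h0 a'
      have h4 := congrFun h0 b'
      simp only [if_true, if_neg hab', if_neg hab'.symm, Pi.zero_apply, zero_add, add_zero] at h3 h4
      exact ⟨h3, h4⟩
    · intro j
      have h5 : av θ (fun i => (if i = a' then s else 0) + (if i = b' then t else 0)) j =
          C s * θ a' j + C t * θ b' j := by
        unfold av ct cv
        have h6 : ∀ i, C ((if i = a' then s else 0) + (if i = b' then t else 0)) * θ i j =
            (if i = a' then C s * θ a' j else 0) + (if i = b' then C t * θ b' j else 0) := by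
          intro i
          rw [C_add, add_mul]
          congr 1
          · split_ifs with h7
            · rw [h7]
            · rw [C_0, zero_mul]
          · split_ifs with h7
            · rw [h7]
            · rw [C_0, zero_mul]
        rw [Finset.sum_congr rfl (fun i _ => h6 i), Finset.sum_add_distrib,
          Finset.sum_ite_eq' Finset.univ a', Finset.sum_ite_eq' Finset.univ b']
        simp
      rw [h5, (hl a' ha').2 j, (hl b' hb').2 j]
      linear_combination σ j * hst
  have hlne : ∀ a' ∈ J, l a' ≠ 0 := by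
    intro a' ha' h0
    obtain ⟨b', hb', hab'⟩ : ∃ b' ∈ J, a' ≠ b' := by
      by_cases h8 : a' = a
      · exact ⟨b, hb, by rw [h8]; exact hab⟩
      · exact ⟨a, ha, h8⟩
    have := hind a' ha' b' hb' hab' 1 0 (by rw [h0, mul_zero, C_0, zero_mul, add_zero])
    exact one_ne_zero this.1
  -- closedness
  have hcl : ∀ a' ∈ J, ∀ b' ∈ J, ∀ j,
      (pderiv a' (l b') - pderiv b' (l a')) * σ j = l a' * pderiv b' (σ j) - l b' * pderiv a' (σ j) := by
    intro a' ha' b' hb' j
    have e := h.closed a' b' j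
    rw [anti j a', (hl a' ha').2 j, (hl b' hb').2 j, (hl a' ha').2 b', hJσ b' hb', mul_zero, map_zero,
      add_zero, map_neg, pder_mul, pder_mul] at e
    linear_combination e
  have hc0 : ∀ a' ∈ J, ∀ b' ∈ J, pderiv a' (l b') = pderiv b' (l a') := by
    intro a' ha' b' hb'
    by_cases hab' : a' = b'
    · rw [hab']
    · obtain ⟨c1, hc1⟩ := const0 ((hl b' hb').1.pderiv (i := a'))
      obtain ⟨c2, hc2⟩ := const0 ((hl a' ha').1.pderiv (i := b'))
      by_contra hne
      have hcne : c1 - c2 ≠ 0 := by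
        intro h0
        apply hne
        rw [hc1, hc2, sub_eq_zero.mp h0]
      refine eig hab' (hl a' ha').1 (hl b' hb').1 (hind a' ha' b' hb' hab') (c := c1 - c2)
        (by rw [hc1, hc2, C_sub]) hcne hσh (fun j => ?_) hp
      rw [C_sub, ← hc1, ← hc2]
      exact hcl a' ha' b' hb' j
  have hcr : ∀ a' ∈ J, ∀ b' ∈ J, ∀ j, l b' * pderiv a' (σ j) = l a' * pderiv b' (σ j) := by
    intro a' ha' b' hb' j
    have := hcl a' ha' b' hb' j
    rw [hc0 a' ha' b' hb', sub_self, zero_mul] at this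
    linear_combination this
  obtain ⟨Q, hQh, hQ⟩ := poincare_rel J l 1 (fun j hj => (hl j hj).1) hc0
  -- the constants m
  have hreg : Reg2 (l a) (l b) := by
    have := reg2_linear ![l a, l b] (by
      intro i
      fin_cases i
      · exact (hl a ha).1
      · exact (hl b hb).1) (by
      intro c hsum
      have h9 : C (c 0) * l a + C (c 1) * l b = 0 := by
        simpa [Fin.sum_univ_two] using hsum
      have h10 := hind a ha b hb hab _ _ h9
      funext i
      fin_cases i
      · exact h10.1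
      · exact h10.2)
    simpa using this
  have hm : ∀ j, ∃ m : ℂ, pderiv a (σ j) = C m * l a := by
    intro j
    obtain ⟨c, hc1, _⟩ := hreg.dvd_mul (hcr a ha b hb j)
    by_cases hc2 : c = 0
    · exact ⟨0, by rw [hc1, hc2, C_0, mul_zero, zero_mul]⟩
    · have hd : (l a * c).totalDegree = (l a).totalDegree + c.totalDegree :=
        totalDegree_mul_of_isDomain (hlne a ha) hc2
      have hd1 : (l a * c).totalDegree ≤ 1 := by
        rw [← hc1]
        exact ((hσh j).pderiv (i := a)).totalDegree_le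
      have hd2 : (l a).totalDegree = 1 := (hl a ha).1.totalDegree (hlne a ha)
      have hd3 : c.totalDegree = 0 := by omega
      have hd4 := totalDegree_eq_zero_iff_eq_C.mp hd3
      exact ⟨coeff 0 c, by rw [hc1, mul_comm, ← hd4]⟩
  choose m hm using hm
  have hmJ : ∀ k ∈ J, ∀ j, pderiv k (σ j) = C (m j) * l k := by
    intro k hk j
    have e := hcr k hk a ha j
    rw [hm j] at e
    have e2 : l a * (pderiv k (σ j) - C (m j) * l k) = 0 := by linear_combination e
    have e3 := (mul_eq_zero.mp e2).resolve_left (hlne a ha)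
    exact sub_eq_zero.mp e3
  have hm0 : ∀ i ∈ J, m i = 0 := by
    intro i hi
    have e := hm i
    rw [hJσ i hi, map_zero] at e
    have e2 := (mul_eq_zero.mp e.symm).resolve_right (hlne a ha)
    exact C_eq_zero.mp e2
  -- the forms
  have hs1 : ∀ i, (σ i - C (m i) * Q).IsHomogeneous 2 := by
    intro i
    have i1 := (isHomogeneous_C (Fin n) (m i)).mul hQh
    exact (hσh i).sub (by simpa using i1)
  have hs2 : ∀ i ∈ J, σ i - C (m i) * Q = 0 := by
    intro i hi
    rw [hJσ i hi, hm0 i hi, C_0, zero_mul, sub_zero]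
  have hs3 : ∀ i, ∀ j ∈ J, pderiv j (σ i - C (m i) * Q) = 0 := by
    intro i j hj
    rw [map_sub, pder_Cmul, hmJ j hj i, hQ j hj, sub_self]
  set σ' : F1 n := fun i => σ i - C (m i) * Q with hσ'
  have hσ'i : ∀ i, σ' i = σ i - C (m i) * Q := fun i => rfl
  have hdd3 : ∀ i j, ∀ k ∈ J, pderiv k (dd σ' i j) = 0 := by
    intro i j k hk
    unfold dd
    rw [map_sub, pcomm k i, pcomm k j, hσ'i, hσ'i, hs3 _ k hk, hs3 _ k hk, map_zero, map_zero,
      sub_zero]
  have hddJ : ∀ i ∈ J, ∀ j, dd σ' i j = 0 := by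
    intro i hi j
    unfold dd
    rw [hσ'i, hσ'i, hs3 _ i hi, hs2 i hi, map_zero, sub_zero]
  have hddh : ∀ i j, (dd σ' i j).IsHomogeneous 1 := by
    intro i j
    unfold dd
    exact ((hs1 j).pderiv (i := i)).sub ((hs1 i).pderiv (i := j))
  have hθ0 : ∀ i ∈ J, ∀ j, θ i j - w11 (df Q) σ i j - Q * dd σ' i j = 0 := by
    intro i hi j
    rw [hddJ i hi j, (hl i hi).2 j]
    unfold w11 df
    rw [hQ i hi, hJσ i hi]
    ring
  have hθa : ∀ i j, θ i j - w11 (df Q) σ i j - Q * dd σ' i j =
      -(θ j i - w11 (df Q) σ j i - Q * dd σ' j i) := by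
    intro i j
    rw [anti i j]
    unfold w11 dd
    ring
  refine ⟨Q, m, σ', fun i j => θ i j - w11 (df Q) σ i j - Q * dd σ' i j, hQh, hm0, hs1, hs2, hs3,
    ?_, ?_, ?_, ?_, ?_, ?_⟩
  · intro i j
    refine ((h.hom i j).sub ?_).sub ?_
    · unfold w11 df
      exact ((hQh.pderiv (i := i)).mul (hσh j)).sub ((hQh.pderiv (i := j)).mul (hσh i))
    · exact hQh.mul (hddh i j)
  · intro i j hj
    refine ⟨?_, hθ0 j hj i⟩
    show θ i j - w11 (df Q) σ i j - Q * dd σ' i j = 0
    rw [hθa i j, hθ0 j hj i, neg_zero]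
  · intro i j k hk
    show pderiv k (θ i j - w11 (df Q) σ i j - Q * dd σ' i j) = 0
    have e1 := h.closed k i j
    rw [anti j k, (hl k hk).2 j, (hl k hk).2 i, map_neg, pder_mul, pder_mul] at e1
    have e2 : pderiv k (w11 (df Q) σ i j) = pderiv i (l k) * σ j + pderiv i Q * (C (m j) * l k) -
        (pderiv j (l k) * σ i + pderiv j Q * (C (m i) * l k)) := by
      unfold w11 df
      rw [map_sub, pder_mul, pder_mul, pcomm k i, pcomm k j, hQ k hk, hmJ k hk, hmJ k hk]
    have e3 : dd σ' i j = (pderiv i (σ j) - C (m j) * pderiv i Q) -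
        (pderiv j (σ i) - C (m i) * pderiv j Q) := by
      unfold dd
      rw [hσ'i, hσ'i, map_sub, map_sub, pder_Cmul, pder_Cmul]
    rw [map_sub, map_sub, pder_mul, hdd3 i j k hk, hQ k hk, e2, e3]
    linear_combination e1
  · intro i
    rw [hσ'i]; ring
  · intro i j
    ring
  · intro i hi j
    rw [hQ i hi]
    exact (hl i hi).2 j

end Pool.Agent.Helper50.FC
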