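import Pool.Agent.Helper71.FC.Defs

/-! K1-1: relative Poincaré lemma for polynomial 1-forms, polynomials in few variables.
Proofs.  `poincare_rel`: for `j` let `I_j` be the linear map `x^μ ↦ x^(μ + e_j) / (μ_j + 1)` (`(basisMonomials _ _).constr ℂ`, as
`int0` in `Helper71/FL/Int0.lean`); `∂_j I_j f = f`, `∂_i I_j f = I_j ∂_i f` for `i ≠ j`, `I_j` raises the degree by one.  Induction on `J`
(`Finset.induction_on`): for `insert j0 J` let `g'` be a solution for `J` and `ρ = η_j0 - ∂_j0 g'`; `∂_j ρ = 0` for `j ∈ J`; take `g' + I_j0 ρ`.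
`few`: every monomial of `h` has exponent 0 at the variables outside `{a, b}` (or `{a}`); take the rename of `h` (`r = rename ι h` with
`ι : Fin n → Fin 3`, `a ↦ 0, b ↦ 1`, anything else `↦ 0`).  `few_inj`: `r` only involves the variables 0, 1, and `X a, X b` are
algebraically independent. -/

set_option autoImplicit false

namespace Pool.Agent.Helper50.FC

open MvPolynomial
open Pool.Agent.Helper71.FC
open Pool.Agent.Helper71.FL (w12 pf ct Dec Closed dd)
open scoped BigOperators

variable {n : ℕ}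

/-- integration with respect to `x_j`, no constant term -/
noncomputable def intj (j : Fin n) : Pn n →ₗ[ℂ] Pn n :=
  (basisMonomials (Fin n) ℂ).constr ℂ (fun μ =>
    monomial (μ + Finsupp.single j 1) (1 / ((μ j : ℂ) + 1)))

theorem intj_monomial (j : Fin n) (μ : Fin n →₀ ℕ) (b : ℂ) : intj j (monomial μ b) =
    monomial (μ + Finsupp.single j 1) (b * (1 / ((μ j : ℂ) + 1))) := by
  have h : (monomial μ b : Pn n) = b • (basisMonomials (Fin n) ℂ) μ := by
    rw [coe_basisMonomials, smul_monomial, smul_eq_mul, mul_one]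
  rw [h, map_smul]
  unfold intj
  rw [Module.Basis.constr_basis, smul_monomial, smul_eq_mul]

theorem pd_comm (i j : Fin n) (p : Pn n) : pderiv i (pderiv j p) = pderiv j (pderiv i p) := by
  have h : ⁅(pderiv i : Derivation ℂ (Pn n) (Pn n)), (pderiv j : Derivation ℂ (Pn n) (Pn n))⁆ = 0 := by
    refine MvPolynomial.derivation_ext (fun k => ?_)
    rw [Derivation.commutator_apply]
    classical
    simp only [pderiv_X, Derivation.zero_apply]
    rw [Pi.single_apply, Pi.single_apply]
    split_ifs <;> simp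
  have h2 := congrArg (fun D => D p) h
  simp only [Derivation.commutator_apply, Derivation.zero_apply] at h2
  exact sub_eq_zero.1 h2

theorem pderiv_intj (j : Fin n) (p : Pn n) : pderiv j (intj j p) = p := by
  induction p using MvPolynomial.induction_on' with
  | monomial μ b =>
    rw [intj_monomial, pderiv_monomial]
    have h1 : μ + Finsupp.single j 1 - Finsupp.single j 1 = μ := by
      ext k; simp
    rw [h1]
    congr 1
    have h2 : ((μ j : ℂ) + 1) ≠ 0 := by exact_mod_cast Nat.succ_ne_zero (μ j)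
    simp only [Finsupp.coe_add, Pi.add_apply, Finsupp.single_eq_same, Nat.cast_add, Nat.cast_one]
    field_simp
  | add p q hp hq => rw [map_add, map_add, hp, hq]

theorem pderiv_intj_ne {i j : Fin n} (hij : i ≠ j) (p : Pn n) :
    pderiv i (intj j p) = intj j (pderiv i p) := by
  induction p using MvPolynomial.induction_on' with
  | monomial μ b =>
    rw [intj_monomial, pderiv_monomial, pderiv_monomial, intj_monomial]
    have h3 : (Finsupp.single j 1 : Fin n →₀ ℕ) i = 0 := Finsupp.single_eq_of_ne hij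
    have h4 : (Finsupp.single i 1 : Fin n →₀ ℕ) j = 0 := Finsupp.single_eq_of_ne (Ne.symm hij)
    by_cases hz : μ i = 0
    · have e1 : (((μ + Finsupp.single j 1 : Fin n →₀ ℕ) i : ℕ) : ℂ) = 0 := by
        rw [Finsupp.add_apply, h3, hz]; simp
      rw [e1, hz]
      simp
    · have h1 : μ + Finsupp.single j 1 - Finsupp.single i 1 =
          μ - Finsupp.single i 1 + Finsupp.single j 1 := by
        ext k
        simp only [Finsupp.coe_tsub, Finsupp.coe_add, Pi.sub_apply, Pi.add_apply]
        by_cases hk : k = i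
        · subst hk
          rw [h3]; omega
        · rw [Finsupp.single_eq_of_ne hk]; omega
      rw [h1]
      congr 1
      have e1 : (μ + Finsupp.single j 1 : Fin n →₀ ℕ) i = μ i := by
        rw [Finsupp.add_apply, h3, add_zero]
      have e2 : (μ - Finsupp.single i 1 : Fin n →₀ ℕ) j = μ j := by
        rw [Finsupp.tsub_apply, h4, Nat.sub_zero]
      rw [e1, e2]
      ring
  | add p q hp hq => simp only [map_add, hp, hq]

theorem intj_hom (j : Fin n) {d : ℕ} {p : Pn n} (hp : p.IsHomogeneous d) :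
    (intj j p).IsHomogeneous (d + 1) := by
  rw [p.as_sum, map_sum]
  refine IsHomogeneous.sum _ _ _ (fun μ hμ => ?_)
  rw [intj_monomial]
  refine isHomogeneous_monomial _ ?_
  rw [map_add, Finsupp.degree_single]
  have h5 : Finsupp.degree μ = d := by
    rw [Finsupp.degree_eq_weight_one]
    exact hp (mem_support_iff.1 hμ)
  rw [h5]

/-- relative Poincaré lemma: a 1-form which is closed in the directions `J` is exact in the directions `J` -/
theorem poincare_rel (J : Finset (Fin n)) (η : F1 n) (d : ℕ) (hη : ∀ j ∈ J, (η j).IsHomogeneous d)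
    (hcl : ∀ i ∈ J, ∀ j ∈ J, pderiv i (η j) = pderiv j (η i)) :
    ∃ g : Pn n, g.IsHomogeneous (d + 1) ∧ ∀ j ∈ J, pderiv j g = η j := by
  induction J using Finset.induction_on with
  | empty => exact ⟨0, isHomogeneous_zero _ _ _, fun j hj => absurd hj (Finset.notMem_empty j)⟩
  | insert j0 J hj0 ih =>
    obtain ⟨g', hg1, hg2⟩ := ih (fun j hj => hη j (Finset.mem_insert_of_mem hj))
      (fun i hi j hj => hcl i (Finset.mem_insert_of_mem hi) j (Finset.mem_insert_of_mem hj))
    have hpd : (pderiv j0 g').IsHomogeneous d := by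
      have := hg1.pderiv (i := j0)
      simpa using this
    have hρ : (η j0 - pderiv j0 g').IsHomogeneous d :=
      (hη j0 (Finset.mem_insert_self j0 J)).sub hpd
    refine ⟨g' + intj j0 (η j0 - pderiv j0 g'), hg1.add (intj_hom j0 hρ), ?_⟩
    intro j hj
    rcases Finset.mem_insert.1 hj with rfl | hj'
    · rw [map_add, pderiv_intj]; ring
    · have hne : j ≠ j0 := fun h => hj0 (h ▸ hj')
      rw [map_add, pderiv_intj_ne hne, map_sub]
      have e1 : pderiv j (pderiv j0 g') = pderiv j0 (η j) := by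
        rw [← hg2 j hj']
        exact pd_comm j j0 g'
      rw [e1, hcl j hj j0 (Finset.mem_insert_self j0 J), sub_self, map_zero, add_zero, hg2 j hj']

/-- Poincaré lemma for 1-forms -/
theorem poincare1 (η : F1 n) (d : ℕ) (hη : ∀ j, (η j).IsHomogeneous d)
    (hcl : ∀ i j, pderiv i (η j) = pderiv j (η i)) :
    ∃ g : Pn n, g.IsHomogeneous (d + 1) ∧ ∀ j, pderiv j g = η j := by
  obtain ⟨g, h1, h2⟩ := poincare_rel Finset.univ η d (fun j _ => hη j) (fun i _ j _ => hcl i j)
  exact ⟨g, h1, fun j => h2 j (Finset.mem_univ j)⟩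

/-- the renaming of variables `a ↦ 0`, everything else to `1` -/
def rn (a : Fin n) : Fin n → Fin 3 := fun k => if k = a then 0 else 1

theorem rn_self (a : Fin n) : rn a a = 0 := if_pos rfl

theorem rn_ne {a k : Fin n} (h : k ≠ a) : rn a k = 1 := if_neg h

/-- a polynomial with zero derivative in the variable `j` does not involve it -/
theorem notMem_vars {m : ℕ} {j : Fin m} {h : MvPolynomial (Fin m) ℂ} (h0 : pderiv j h = 0) : j ∉ h.vars := by
  intro hj
  rw [mem_vars_iff_mem_support] at hj
  obtain ⟨μ, hμ, hμj⟩ := hj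
  have hne : μ j ≠ 0 := Finsupp.mem_support_iff.1 hμj
  have h1 := coeff_pderiv (i := j) h (μ - Finsupp.single j 1)
  have h2 : μ - Finsupp.single j 1 + Finsupp.single j 1 = μ := by
    ext k
    simp only [Finsupp.coe_tsub, Finsupp.coe_add, Pi.sub_apply, Pi.add_apply]
    by_cases hk : k = j
    · subst hk
      rw [Finsupp.single_eq_same]; omega
    · rw [Finsupp.single_eq_of_ne hk]; omega
  rw [h2, h0, coeff_zero] at h1
  have h6 : ∀ k : ℕ, (k : ℂ) + 1 ≠ 0 := fun k => by exact_mod_cast Nat.succ_ne_zero k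
  exact mul_ne_zero (mem_support_iff.1 hμ) (h6 _) h1.symm

/-- the chain rule -/
theorem chain {m : ℕ} (Φ : Fin m → Pn n) (a : Fin n) (r : MvPolynomial (Fin m) ℂ) :
    pderiv a (aeval Φ r) = ∑ c, aeval Φ (pderiv c r) * pderiv a (Φ c) := by
  induction r using MvPolynomial.induction_on with
  | C c =>
    simp only [← algebraMap_eq, AlgHom.commutes, Derivation.map_algebraMap, map_zero, zero_mul,
      Finset.sum_const_zero]
  | add p q hp hq => simp only [map_add, hp, hq, add_mul, Finset.sum_add_distrib]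
  | mul_X p k hp =>
    simp only [map_mul, aeval_X, Derivation.leibniz, hp, smul_eq_mul, pderiv_X, map_add]
    simp only [add_mul, Finset.sum_add_distrib]
    congr 1
    · rw [Finset.sum_eq_single k]
      · simp
      · intro b _ hb
        simp [Ne.symm hb]
      · intro h; exact absurd (Finset.mem_univ k) h
    · rw [Finset.mul_sum]
      exact Finset.sum_congr rfl (fun c _ => by ring)

/-- a polynomial in the two variables `x_a, x_b` is a polynomial in `Φ_0 = x_a`, `Φ_1 = x_b` -/
theorem few {a b : Fin n} (hab : a ≠ b) {h : Pn n} {d : ℕ} (hh : h.IsHomogeneous d)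
    (h0 : ∀ j, j ≠ a → j ≠ b → pderiv j h = 0) (Φ : Fin 3 → Pn n) (h1 : Φ 0 = X a) (h2 : Φ 1 = X b)
    (e : Fin 3 → ℕ) (he0 : e 0 = 1) (he1 : e 1 = 1) :
    ∃ r : MvPolynomial (Fin 3) ℂ, IsWeightedHomogeneous e r d ∧ pderiv 2 r = 0 ∧ aeval Φ r = h ∧
      aeval Φ (pderiv 0 r) = pderiv a h ∧ aeval Φ (pderiv 1 r) = pderiv b h := by
  have hr2 : pderiv 2 (rename (rn a) h) = 0 := by
    refine pderiv_eq_zero_of_notMem_vars (fun hm => ?_)
    obtain ⟨i, _, hi⟩ := mem_vars_rename _ _ hm
    by_cases hia : i = a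
    · rw [hia, rn_self] at hi; exact absurd hi (by decide)
    · rw [rn_ne hia] at hi; exact absurd hi (by decide)
  have hae : aeval Φ (rename (rn a) h) = h := by
    rw [aeval_rename]
    have h3 : (aeval (Φ ∘ rn a) : Pn n →ₐ[ℂ] Pn n) h = (aeval (X : Fin n → Pn n) : Pn n →ₐ[ℂ] Pn n) h := by
      refine eval₂Hom_congr' rfl (fun i hi _ => ?_) rfl
      by_cases hia : i = a
      · rw [Function.comp_apply, hia, rn_self, h1]
      · by_cases hib : i = b
        · rw [Function.comp_apply, rn_ne hia, h2, hib]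
        · exact absurd hi (notMem_vars (h0 i hia hib))
    rw [h3, aeval_X_left, AlgHom.id_apply]
  refine ⟨rename (rn a) h, ?_, hr2, hae, ?_, ?_⟩
  · rw [h.as_sum, map_sum]
    refine IsWeightedHomogeneous.sum _ _ _ (fun μ hμ => ?_)
    rw [rename_monomial]
    refine isWeightedHomogeneous_monomial _ _ _ ?_
    have hw := hh (mem_support_iff.1 hμ)
    rw [← hw]
    change Finsupp.linearCombination ℕ e (Finsupp.mapDomain (rn a) μ) = Finsupp.linearCombination ℕ 1 μ
    rw [Finsupp.linearCombination_mapDomain]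
    congr 2
    funext k
    by_cases hk : k = a
    · rw [Function.comp_apply, hk, rn_self, he0]; rfl
    · rw [Function.comp_apply, rn_ne hk, he1]; rfl
  · have h3 := chain Φ a (rename (rn a) h)
    rw [hae, Fin.sum_univ_three, hr2, map_zero, h1, h2, pderiv_X_self, pderiv_X_of_ne (Ne.symm hab)] at h3
    rw [h3]; ring
  · have h3 := chain Φ b (rename (rn a) h)
    rw [hae, Fin.sum_univ_three, hr2, map_zero, h1, h2, pderiv_X_self, pderiv_X_of_ne hab] at h3
    rw [h3]; ring

theorem few_inj {a b : Fin n} (hab : a ≠ b) (Φ : Fin 3 → Pn n) (h1 : Φ 0 = X a) (h2 : Φ 1 = X b)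
    {r : MvPolynomial (Fin 3) ℂ} (hr : pderiv 2 r = 0) (h : aeval Φ r = 0) : r = 0 := by
  have h3 : (rename (rn a) : Pn n →ₐ[ℂ] MvPolynomial (Fin 3) ℂ) (aeval Φ r) = r := by
    have h4 : ((rename (rn a) : Pn n →ₐ[ℂ] MvPolynomial (Fin 3) ℂ).comp (aeval Φ)) r =
        (AlgHom.id ℂ _) r := by
      refine hom_congr_vars (f₁ := (((rename (rn a) : Pn n →ₐ[ℂ] MvPolynomial (Fin 3) ℂ).comp (aeval Φ) :
        MvPolynomial (Fin 3) ℂ →ₐ[ℂ] MvPolynomial (Fin 3) ℂ) : MvPolynomial (Fin 3) ℂ →+* MvPolynomial (Fin 3) ℂ))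
        (f₂ := ((AlgHom.id ℂ _ : MvPolynomial (Fin 3) ℂ →ₐ[ℂ] MvPolynomial (Fin 3) ℂ) :
        MvPolynomial (Fin 3) ℂ →+* MvPolynomial (Fin 3) ℂ)) ?_ ?_ rfl
      · ext c; simp
      · intro i hi _
        have hi2 : i ≠ 2 := fun hc => notMem_vars hr (hc ▸ hi)
        simp only [RingHom.coe_coe, AlgHom.comp_apply, aeval_X, AlgHom.id_apply]
        fin_cases i
        · change rename (rn a) (Φ 0) = X 0
          rw [h1, rename_X, rn_self]
        · change rename (rn a) (Φ 1) = X 1
          rw [h2, rename_X, rn_ne (Ne.symm hab)]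
        · exact absurd rfl hi2
    exact h4
  rw [← h3, h, map_zero]

end Pool.Agent.Helper50.FC
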