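import Mathlib

/-! K1-25: Cartan's criterion in the form needed for the classification: a finite-dimensional anticommutative algebra over `ℂ` satisfying the
Jacobi identity, spanned by its products, with `trace (ad x ∘ ad x) = 0` for all `x`, is zero.
Proof: `LieRing`, `LieAlgebra` structure on a type synonym (or local instances); `killingForm` is zero by polarisation, so
`LieAlgebra.isSolvable_of_killingForm_apply_lie_eq_zero` (`Mathlib/Algebra/Lie/CartanCriterion.lean`) gives solvable; a solvable perfect Lie
algebra is zero. -/

set_option autoImplicit false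

namespace Pool.Agent.Helper50.FC

open scoped BigOperators

private theorem cl_aux {L : Type} [LieRing L] [LieAlgebra ℂ L] [FiniteDimensional ℂ L]
    (hperf : Submodule.span ℂ {⁅x, y⁆ | (x : L) (y : L)} = ⊤)
    (htr : ∀ x : L, LinearMap.trace ℂ L (LieAlgebra.ad ℂ L x ∘ₗ LieAlgebra.ad ℂ L x) = 0) :
    Subsingleton L := by
  have hd : ∀ x : L, killingForm ℂ L x x = 0 := by
    intro x
    rw [killingForm_apply_apply]
    exact htr x
  have hk : ∀ x y : L, killingForm ℂ L x y = 0 := by
    intro x y
    have h1 := hd (x + y)
    rw [map_add, map_add, LinearMap.add_apply, LinearMap.add_apply, hd, hd, zero_add, add_zero,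
      LieModule.traceForm_comm ℂ L L y x] at h1
    have h2 : (2 : ℂ) * killingForm ℂ L x y = 0 := by
      rw [two_mul]
      exact h1
    exact (mul_eq_zero.1 h2).resolve_left two_ne_zero
  have hs : LieAlgebra.IsSolvable L :=
    LieAlgebra.isSolvable_of_killingForm_apply_lie_eq_zero (R := ℂ) (L := L) (fun x y _ => hk x y)
  by_contra hcon
  have hn : Nontrivial L := not_subsingleton_iff_nontrivial.1 hcon
  have h1 := LieAlgebra.derivedSeries_lt_top_of_solvable ℂ L
  apply h1.ne
  rw [← LieSubmodule.toSubmodule_inj]
  have h2 := LieAlgebra.coe_derivedSeries_one_eq ℂ L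
  rw [hperf] at h2
  exact h2

theorem cartanL {V : Type} [AddCommGroup V] [Module ℂ V] [FiniteDimensional ℂ V]
    (br : V →ₗ[ℂ] V →ₗ[ℂ] V) (halt : ∀ x, br x x = 0)
    (hjac : ∀ x y z, br x (br y z) + br y (br z x) + br z (br x y) = 0)
    (hperf : Submodule.span ℂ (Set.range fun p : V × V => br p.1 p.2) = ⊤)
    (htr : ∀ x, LinearMap.trace ℂ V (br x ∘ₗ br x) = 0) : Subsingleton V := by
  have hskew : ∀ x y, br x y = - br y x := by
    intro x y
    have h1 := halt (x + y)
    rw [map_add, map_add, LinearMap.add_apply, LinearMap.add_apply, halt, halt, zero_add,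
      add_zero] at h1
    exact eq_neg_of_add_eq_zero_right h1
  let i1 : LieRing V :=
    { (inferInstance : AddCommGroup V) with
      bracket := fun x y => br x y
      add_lie := fun x y z => by
        show br (x + y) z = br x z + br y z
        rw [map_add, LinearMap.add_apply]
      lie_add := fun x y z => by
        show br x (y + z) = br x y + br x z
        rw [map_add]
      lie_self := fun x => halt x
      leibniz_lie := fun x y z => by
        show br x (br y z) = br (br x y) z + br y (br x z)
        have h1 := hjac x y z
        rw [hskew z (br x y), hskew z x, map_neg] at h1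
        have h2 : br x (br y z) - (br (br x y) z + br y (br x z)) = 0 := by
          rw [← h1]
          abel
        exact sub_eq_zero.1 h2 }
  let i2 : LieAlgebra ℂ V :=
    { (inferInstance : Module ℂ V) with
      lie_smul := fun t x y => by
        show br x (t • y) = t • br x y
        rw [map_smul] }
  refine @cl_aux V i1 i2 (inferInstanceAs (FiniteDimensional ℂ V)) ?_ (fun x => htr x)
  rw [← hperf]
  congr 1
  ext z
  constructor
  · rintro ⟨x, y, h⟩
    exact ⟨(x, y), h⟩
  · rintro ⟨⟨x, y⟩, h⟩
    exact ⟨x, y, h⟩

end Pool.Agent.Helper50.FC
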