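import Pool.Agent.Helper71.FC.GL

/-! K1-24: Cartan's identity for a closed 2-form and lemma POINT.
Vector fields are index functions `X : Fin n → Pn n`; `dv X f = ∑ j, X j * ∂_j f`, `brk X Y` is the commutator.
* `cartan2`: component `k` of `i_[X,Y] θ = i_X d i_Y θ - i_Y d i_X θ + d (i_X i_Y θ)` for closed alternating `θ`.
* `point`: insert `i_X θ = -q τ`, `i_Y θ = -q' τ`, `i_X τ = i_Y τ = 0`.
* `ctdd_mem`: `τ ∧ θ = 0`, `θ` closed: `dτ ∧ θ = 0`; contract with a field `X` with `i_X θ = 0`. -/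

set_option autoImplicit false

namespace Pool.Agent.Helper50.FC

open MvPolynomial
open scoped BigOperators
open Pool.Agent.Helper71.FL (w12 pf ct Dec Closed dd)
open Pool.Agent.Helper93 (lsub lmap OF pb)
open Pool.Agent.Helper71.FC

variable {n : ℕ}

/-- derivative of a polynomial along a vector field -/
noncomputable def dv (X : F1 n) (f : Pn n) : Pn n := ∑ j, X j * pderiv j f

/-- commutator of vector fields -/
noncomputable def brk (X Y : F1 n) : F1 n := fun i => dv X (Y i) - dv Y (X i)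

private theorem pt_pd_ct (X : F1 n) (θ : F2 n) (i k : Fin n) :
    pderiv i (ct X θ k) = ∑ b, (pderiv i (X b) * θ b k + X b * pderiv i (θ b k)) := by
  unfold ct
  rw [map_sum]
  refine Finset.sum_congr rfl fun b _ => ?_
  rw [Derivation.leibniz, smul_eq_mul, smul_eq_mul]
  ring

private theorem pt_ct_dd (X : F1 n) (α : F1 n) (k : Fin n) :
    ct X (dd α) k = ∑ a, X a * (pderiv a (α k) - pderiv k (α a)) := rfl

theorem cartan2 {θ : F2 n} (hd : ∀ i, θ i i = 0) (ha : ∀ i j, θ i j = -θ j i) (hc : Closed θ)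
    (X Y : F1 n) (k : Fin n) :
    ct (brk X Y) θ k = ct X (dd (ct Y θ)) k - ct Y (dd (ct X θ)) k +
      pderiv k (∑ i, X i * ct Y θ i) := by
  have h1 : ct X (dd (ct Y θ)) k = ∑ a, ∑ b, X a * ((pderiv a (Y b) * θ b k +
      Y b * pderiv a (θ b k)) - (pderiv k (Y b) * θ b a + Y b * pderiv k (θ b a))) := by
    rw [pt_ct_dd]
    refine Finset.sum_congr rfl fun a _ => ?_
    rw [pt_pd_ct, pt_pd_ct, ← Finset.sum_sub_distrib, Finset.mul_sum]
  have h2 : ct Y (dd (ct X θ)) k = ∑ a, ∑ b, Y b * ((pderiv b (X a) * θ a k +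
      X a * pderiv b (θ a k)) - (pderiv k (X a) * θ a b + X a * pderiv k (θ a b))) := by
    rw [pt_ct_dd, Finset.sum_comm]
    refine Finset.sum_congr rfl fun b _ => ?_
    rw [pt_pd_ct, pt_pd_ct, ← Finset.sum_sub_distrib, Finset.mul_sum]
  have h3 : pderiv k (∑ i, X i * ct Y θ i) = ∑ a, ∑ b, (pderiv k (X a) * (Y b * θ b a) +
      X a * (pderiv k (Y b) * θ b a + Y b * pderiv k (θ b a))) := by
    rw [map_sum]
    refine Finset.sum_congr rfl fun a _ => ?_
    rw [Derivation.leibniz, smul_eq_mul, smul_eq_mul, pt_pd_ct]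
    unfold ct
    rw [Finset.mul_sum, Finset.sum_mul, ← Finset.sum_add_distrib]
    exact Finset.sum_congr rfl fun b _ => by ring
  have h4 : ct (brk X Y) θ k = ∑ a, ∑ b, (X a * pderiv a (Y b) * θ b k -
      Y b * pderiv b (X a) * θ a k) := by
    have e1 : ct (brk X Y) θ k = (∑ b, ∑ a, X a * pderiv a (Y b) * θ b k) -
        ∑ a, ∑ b, Y b * pderiv b (X a) * θ a k := by
      rw [← Finset.sum_sub_distrib]
      show ∑ i, ((∑ j, X j * pderiv j (Y i)) - ∑ j, Y j * pderiv j (X i)) * θ i k = _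
      refine Finset.sum_congr rfl fun i _ => ?_
      rw [sub_mul, Finset.sum_mul, Finset.sum_mul]
    rw [e1, Finset.sum_comm, ← Finset.sum_sub_distrib]
    refine Finset.sum_congr rfl fun a _ => ?_
    rw [← Finset.sum_sub_distrib]
  rw [h1, h2, h3, h4, ← Finset.sum_sub_distrib, ← Finset.sum_add_distrib]
  refine Finset.sum_congr rfl fun a _ => ?_
  rw [← Finset.sum_sub_distrib, ← Finset.sum_add_distrib]
  refine Finset.sum_congr rfl fun b _ => ?_
  have h5 := hc a b k
  have h6 : pderiv b (θ k a) = - pderiv b (θ a k) := by rw [ha k a, map_neg]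
  rw [h6] at h5
  rw [ha a b, map_neg] at *
  linear_combination (- X a * Y b) * h5

private theorem pt_smul {θ : F2 n} {Y τ : F1 n} {q' : Pn n} (hY : ∀ j, ct Y θ j + q' * τ j = 0) :
    ct Y θ = fun j => -(q' * τ j) := by
  funext j
  exact eq_neg_of_add_eq_zero_left (hY j)

private theorem pt_ct_smul (X τ : F1 n) (q' : Pn n) (hXτ : pair X τ = 0) (k : Fin n) :
    ct X (dd fun j => -(q' * τ j)) k = -(dv X q' * τ k) - q' * ct X (dd τ) k := by
  have h1 : ct X (dd fun j => -(q' * τ j)) k = ∑ a, (-(X a * pderiv a q' * τ k) -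
      q' * (X a * (pderiv a (τ k) - pderiv k (τ a))) + pderiv k q' * (X a * τ a)) := by
    rw [pt_ct_dd]
    refine Finset.sum_congr rfl fun a _ => ?_
    rw [map_neg, map_neg, Derivation.leibniz, Derivation.leibniz, smul_eq_mul, smul_eq_mul,
      smul_eq_mul, smul_eq_mul]
    ring
  rw [h1, Finset.sum_add_distrib, Finset.sum_sub_distrib, ← Finset.mul_sum, ← Finset.mul_sum,
    Finset.sum_neg_distrib, ← Finset.sum_mul]
  have h2 : ∑ i, X i * τ i = 0 := hXτ
  rw [h2, mul_zero, add_zero]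
  rfl

theorem point {θ : F2 n} (hd : ∀ i, θ i i = 0) (ha : ∀ i j, θ i j = -θ j i) (hc : Closed θ)
    {X Y τ : F1 n} {q q' : Pn n} (hX : ∀ j, ct X θ j + q * τ j = 0)
    (hY : ∀ j, ct Y θ j + q' * τ j = 0) (hXτ : pair X τ = 0) (hYτ : pair Y τ = 0) (k : Fin n) :
    ct (brk X Y) θ k = (dv Y q - dv X q') * τ k + q * ct Y (dd τ) k - q' * ct X (dd τ) k := by
  rw [cartan2 hd ha hc X Y k, pt_smul hX, pt_smul hY, pt_ct_smul X τ q' hXτ,
    pt_ct_smul Y τ q hYτ]
  have h1 : ∑ i, X i * -(q' * τ i) = 0 := by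
    have h2 : ∑ i, X i * τ i = 0 := hXτ
    calc ∑ i, X i * -(q' * τ i) = -(q' * ∑ i, X i * τ i) := by
          rw [Finset.mul_sum, ← Finset.sum_neg_distrib]
          exact Finset.sum_congr rfl fun i _ => by ring
      _ = 0 := by rw [h2, mul_zero, neg_zero]
  rw [h1, map_zero]
  ring

/-- `X ⌟ θ = -q τ`, `τ ∧ θ = 0` implies `X ⌟ τ = 0` -/
theorem pair_zero {θ : F2 n} (hd : ∀ i, θ i i = 0) (ha : ∀ i j, θ i j = -θ j i)
    (hne : ∃ i j, θ i j ≠ 0) {X τ : F1 n} {q : Pn n} (hX : ∀ j, ct X θ j + q * τ j = 0)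
    (hτ : ∀ i j k, w12 τ θ i j k = 0) : pair X τ = 0 := by
  obtain ⟨j, k, hjk⟩ := hne
  have h1 : ∑ i, X i * w12 τ θ i j k = pair X τ * θ j k - τ j * ct X θ k + τ k * ct X θ j := by
    unfold pair ct w12
    rw [Finset.sum_mul, Finset.mul_sum, Finset.mul_sum, ← Finset.sum_sub_distrib,
      ← Finset.sum_add_distrib]
    refine Finset.sum_congr rfl fun i _ => ?_
    rw [ha k i]
    ring
  have h2 : ∑ i, X i * w12 τ θ i j k = 0 := Finset.sum_eq_zero fun i _ => by rw [hτ, mul_zero]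
  rw [h2] at h1
  have h3 := hX j
  have h4 := hX k
  have h5 : pair X τ * θ j k = 0 := by
    linear_combination -h1 + τ j * h4 - τ k * h3
  exact (mul_eq_zero.mp h5).resolve_right hjk

theorem ctdd_mem {θ : F2 n} (hc : Closed θ) (ha : ∀ i j, θ i j = -θ j i) {τ X : F1 n}
    (hτ : ∀ i j k, w12 τ θ i j k = 0) (hX : ∀ j, ct X θ j = 0) (i j k : Fin n) :
    w12 (ct X (dd τ)) θ i j k = 0 := by
  have key : ∀ l, dd τ l i * θ j k + dd τ l j * θ k i + dd τ l k * θ i j +
      (dd τ i j * θ l k + dd τ j k * θ l i + dd τ k i * θ l j) = 0 := by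
    intro l
    have d1 : pderiv l (w12 τ θ i j k) = 0 := by rw [hτ, map_zero]
    have d2 : pderiv i (w12 τ θ l j k) = 0 := by rw [hτ, map_zero]
    have d3 : pderiv j (w12 τ θ l i k) = 0 := by rw [hτ, map_zero]
    have d4 : pderiv k (w12 τ θ l i j) = 0 := by rw [hτ, map_zero]
    unfold w12 at d1 d2 d3 d4
    simp only [map_add, Derivation.leibniz, smul_eq_mul] at d1 d2 d3 d4
    have c1 := hc i j k
    have c2 := hc l j k
    have c3 := hc l i k
    have c4 := hc l i j
    have g1 : pderiv i (θ k l) = - pderiv i (θ l k) := by rw [ha k l, map_neg]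
    have g2 : pderiv j (θ k l) = - pderiv j (θ l k) := by rw [ha k l, map_neg]
    have g3 : pderiv i (θ j l) = - pderiv i (θ l j) := by rw [ha j l, map_neg]
    have g4 : pderiv k (θ j l) = - pderiv k (θ l j) := by rw [ha j l, map_neg]
    have g5 : pderiv j (θ i l) = - pderiv j (θ l i) := by rw [ha i l, map_neg]
    have g6 : pderiv k (θ i l) = - pderiv k (θ l i) := by rw [ha i l, map_neg]
    have g7 : pderiv l (θ k i) = - pderiv l (θ i k) := by rw [ha k i, map_neg]
    have g8 : pderiv j (θ k i) = - pderiv j (θ i k) := by rw [ha k i, map_neg]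
    have g9 : θ k i = - θ i k := ha k i
    have g10 : θ k l = - θ l k := ha k l
    have g11 : θ j l = - θ l j := ha j l
    have g12 : θ i l = - θ l i := ha i l
    unfold dd
    simp only [g1, g2, g3, g4, g5, g6, g7, g8, g9, g10, g11, g12, map_neg] at d1 d2 d3 d4 c1 c2 c3 c4 ⊢
    linear_combination d1 - d2 + d3 - d4 + τ l * c1 - τ i * c2 + τ j * c3 - τ k * c4
  have h1 : w12 (ct X (dd τ)) θ i j k = ∑ l, X l * (dd τ l i * θ j k + dd τ l j * θ k i +
      dd τ l k * θ i j + (dd τ i j * θ l k + dd τ j k * θ l i + dd τ k i * θ l j)) := by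
    have e1 : ∑ l, X l * (dd τ l i * θ j k + dd τ l j * θ k i +
      dd τ l k * θ i j + (dd τ i j * θ l k + dd τ j k * θ l i + dd τ k i * θ l j)) =
        w12 (ct X (dd τ)) θ i j k + (dd τ i j * ct X θ k + dd τ j k * ct X θ i +
          dd τ k i * ct X θ j) := by
      unfold w12 ct
      simp only [Finset.sum_mul, Finset.mul_sum, ← Finset.sum_add_distrib]
      exact Finset.sum_congr rfl fun l _ => by ring
    rw [e1, hX, hX, hX]
    ring
  rw [h1]
  exact Finset.sum_eq_zero fun l _ => by rw [key, mul_zero]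

end Pool.Agent.Helper50.FC
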