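import Pool.Agent.Helper50.FC.BD

/-! K1-27: the abstract data with `c` of rank 4 are impossible (a 6-dimensional perfect Lie algebra with Killing form zero).
`C v w x := c v w • x + c w x • v + c x v • w`.
* `BD.psi`: `c (e i) (e j) = nf4 i j`; `e 0` spans the kernel of `c`; let `m` be the vector of `BD.defect` for `r = e 0`.  Define `Ψ` on the basis by
  `Ψ (e 0) = m`, `Ψ (e 1) = J (e 3) (e 4) (e 1)`, `Ψ (e 2) = J (e 3) (e 4) (e 2)`, `Ψ (e 3) = J (e 1) (e 2) (e 3)`, `Ψ (e 4) = J (e 1) (e 2) (e 4)`.  Both sides of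
  `J v w x = Ψ (C v w x)` are alternating trilinear, so it is enough to check the ten basis triples (`J v (e 0) x = -c v x • m`).
* `BD.psi_K`: for `x` not in `ℂ e 0` there are `v, w` with `c v x = c w x = 0`, `c v w = 1` (`c` induces a symplectic form on `V / e 0`): `C v w x = x`, so
  `Ψ x = J v w x = (btm v (B w x) - btm w (B v x)) - btm (B v w) x ∈ K x` (`pt`, `k1`).  By `k2` (`S = ℂ e 0`) `Ψ = btm B c z`.
* `BD.jac4`: `B' v w := B v w + c v w • z` satisfies `btm B c v (B' w x) + cyclic = 0`.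
* `BD.rank4`: Lie algebra structure on `V5 × ℂ`: `[(v, s), (w, t)] = (B' v w, c v w)`; spanned by brackets (`onto` and the linear automorphism
  `(v, s) ↦ (v + s z, s)`); `trace (ad (x, s) ∘ ad (x, s)) = k x x`, `k x y := trace (B' x ∘ B' y)`; by Jacobi `B' (B' y x) = B' y ∘ B' x - B' x ∘ B' y`, so
  `k x (B' y x) = 0`, and `B' y x = B y x` if `c y x = 0`: `k = 0` by `inv2` (`S = ⊥`).  `cartanL` gives `Subsingleton (V5 × ℂ)`. -/

set_option autoImplicit false

namespace Pool.Agent.Helper50.FC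

open scoped BigOperators

variable (D : BD)

/-- `c v w • x + c w x • v + c x v • w` -/
def BD.C (v w x : V5) : V5 := D.c v w • x + D.c w x • v + D.c x v • w

private theorem fin_triple : ∀ i j k : Fin 5, i < j → j < k → ¬ i = 0 →
    (i = 1 ∧ j = 2 ∧ k = 3) ∨ (i = 1 ∧ j = 2 ∧ k = 4) ∨ (i = 1 ∧ j = 3 ∧ k = 4) ∨
      (i = 2 ∧ j = 3 ∧ k = 4) := by decide

private theorem neg_self_zero {W : Type} [AddCommGroup W] [Module ℂ W] {a : W} (h : a = -a) :
    a = 0 := by
  have h1 : (2 : ℂ) • a = 0 := by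
    rw [two_smul]
    nth_rewrite 2 [h]
    exact add_neg_cancel a
  exact (smul_eq_zero.1 h1).resolve_left two_ne_zero

private theorem ext3 {W : Type} [AddCommGroup W] [Module ℂ W] (e : Module.Basis (Fin 5) ℂ V5)
    (F : V5 → V5 → V5 → W) (hadd : ∀ v w x y, F v w (x + y) = F v w x + F v w y)
    (hsmul : ∀ v w (t : ℂ) x, F v w (t • x) = t • F v w x) (hcyc : ∀ v w x, F v w x = F w x v)
    (hskew : ∀ v w x, F w v x = -F v w x)
    (hbase : ∀ i j k : Fin 5, i < j → j < k → F (e i) (e j) (e k) = 0) (v w x : V5) :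
    F v w x = 0 := by
  have hvv : ∀ v x, F v v x = 0 := fun v x => neg_self_zero (hskew v v x)
  have hb1 : ∀ i j k : Fin 5, i < j → F (e i) (e j) (e k) = 0 := by
    intro i j k hij
    rcases lt_trichotomy j k with h | h | h
    · exact hbase i j k hij h
    · subst h
      rw [hcyc, hvv]
    · rcases lt_trichotomy i k with h' | h' | h'
      · rw [hcyc (e i) (e j) (e k), hskew (e k) (e j) (e i), ← hcyc (e i) (e k) (e j),
          hbase i k j h' h, neg_zero]
      · subst h'
        rw [hcyc, hcyc, hvv]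
      · rw [hcyc, hcyc, hbase k i j h' hij]
  have hb : ∀ i j k : Fin 5, F (e i) (e j) (e k) = 0 := by
    intro i j k
    rcases lt_trichotomy i j with h | h | h
    · exact hb1 i j k h
    · subst h
      exact hvv _ _
    · rw [hskew, hb1 j i k h, neg_zero]
  have hlin : ∀ v w : V5, (∀ i, F v w (e i) = 0) → ∀ x, F v w x = 0 := by
    intro v w h x
    let L : V5 →ₗ[ℂ] W :=
      { toFun := fun x => F v w x
        map_add' := fun x y => hadd v w x y
        map_smul' := fun t x => hsmul v w t x }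
    have hL : L = 0 := e.ext fun i => by
      show F v w (e i) = (0 : V5 →ₗ[ℂ] W) (e i)
      rw [h i, LinearMap.zero_apply]
    exact LinearMap.congr_fun hL x
  have s2 : ∀ i j x, F (e i) (e j) x = 0 := fun i j => hlin _ _ fun k => hb i j k
  have s3 : ∀ i x w, F x (e i) w = 0 := by
    intro i x w
    exact hlin x (e i) (fun j => by rw [hcyc]; exact s2 i j x) w
  have s4 : ∀ w x y, F w x y = 0 := by
    intro w x y
    exact hlin w x (fun i => by rw [hcyc]; exact s3 i x w) y
  exact s4 v w x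

private theorem btm_apply (v x : V5) : btm D.B D.c v x = (D.B v x, D.c v x) := rfl

private theorem btm_skew (v w : V5) : btm D.B D.c v w = -btm D.B D.c w v := by
  rw [btm_apply, btm_apply, D.skewB v w, D.skewc v w]
  rfl

private theorem J_add (v w x y : V5) : D.J v w (x + y) = D.J v w x + D.J v w y := by
  unfold BD.J btm
  simp only [map_add, LinearMap.add_apply, LinearMap.prod_apply, Function.prod_apply]
  ext <;> simp <;> ring

private theorem J_smul (v w : V5) (t : ℂ) (x : V5) : D.J v w (t • x) = t • D.J v w x := by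
  unfold BD.J btm
  simp only [map_smul, LinearMap.smul_apply, LinearMap.prod_apply, Function.prod_apply]
  ext <;> simp <;> ring

private theorem J_cyc (v w x : V5) : D.J v w x = D.J w x v := by
  unfold BD.J
  abel

private theorem J_skew (v w x : V5) : D.J w v x = -D.J v w x := by
  unfold BD.J
  rw [D.skewB v x, D.skewB x w, D.skewB w v]
  simp only [map_neg]
  abel

private theorem C_add (v w x y : V5) : D.C v w (x + y) = D.C v w x + D.C v w y := by
  unfold BD.C
  simp only [map_add, LinearMap.add_apply, smul_add, add_smul]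
  abel

private theorem C_smul (v w : V5) (t : ℂ) (x : V5) : D.C v w (t • x) = t • D.C v w x := by
  unfold BD.C
  simp only [map_smul, LinearMap.smul_apply, smul_add, smul_eq_mul, smul_smul]
  rw [mul_comm]

private theorem C_cyc (v w x : V5) : D.C v w x = D.C w x v := by
  unfold BD.C
  abel

private theorem C_skew (v w x : V5) : D.C w v x = -D.C v w x := by
  unfold BD.C
  rw [D.skewc w v, D.skewc v x, D.skewc x w]
  simp only [neg_smul]
  abel

private theorem c_e0 (e : Module.Basis (Fin 5) ℂ V5) (he : ∀ i j, D.c (e i) (e j) = nf4 i j)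
    (x : V5) : D.c (e 0) x = 0 := by
  have h : D.c (e 0) = 0 := e.ext fun j => by
    rw [he, LinearMap.zero_apply]
    simp [nf4]
  rw [h, LinearMap.zero_apply]

theorem BD.psi (e : Module.Basis (Fin 5) ℂ V5) (he : ∀ i j, D.c (e i) (e j) = nf4 i j) :
    ∃ Ψ : V5 →ₗ[ℂ] V5 × ℂ, ∀ v w x, D.J v w x = Ψ (D.C v w x) := by
  obtain ⟨m, hm⟩ := D.defect (e 0) (c_e0 D e he)
  let f : Fin 5 → V5 × ℂ := ![m, D.J (e 3) (e 4) (e 1), D.J (e 3) (e 4) (e 2),
    D.J (e 1) (e 2) (e 3), D.J (e 1) (e 2) (e 4)]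
  refine ⟨e.constr ℂ f, fun v w x => ?_⟩
  have hf : ∀ i, e.constr ℂ f (e i) = f i := fun i => e.constr_basis ℂ f i
  have key := ext3 e (fun v w x => D.J v w x - e.constr ℂ f (D.C v w x))
    (fun v w x y => by
      show D.J v w (x + y) - e.constr ℂ f (D.C v w (x + y)) = _
      rw [J_add, C_add, map_add]
      abel)
    (fun v w t x => by
      show D.J v w (t • x) - e.constr ℂ f (D.C v w (t • x)) = _
      rw [J_smul, C_smul, map_smul, smul_sub])
    (fun v w x => by
      show D.J v w x - e.constr ℂ f (D.C v w x) = D.J w x v - e.constr ℂ f (D.C w x v)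
      rw [J_cyc, C_cyc])
    (fun v w x => by
      show D.J w v x - e.constr ℂ f (D.C w v x) = -(D.J v w x - e.constr ℂ f (D.C v w x))
      rw [J_skew, C_skew, map_neg]
      abel)
    (by
      intro i j k hij hjk
      show D.J (e i) (e j) (e k) - e.constr ℂ f (D.C (e i) (e j) (e k)) = 0
      by_cases hi : i = 0
      · subst hi
        have h1 : D.J (e 0) (e j) (e k) = -(D.c (e k) (e j)) • m := by
          rw [J_cyc, J_cyc]
          exact hm (e k) (e j)
        have h2 : D.C (e 0) (e j) (e k) = D.c (e j) (e k) • e 0 := by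
          unfold BD.C
          rw [c_e0 D e he, D.skewc (e k) (e 0), c_e0 D e he]
          simp
        rw [h1, h2, map_smul, hf, D.skewc (e k) (e j)]
        show - -(D.c (e j) (e k)) • m - D.c (e j) (e k) • m = 0
        rw [neg_neg, sub_self]
      · have hC : D.C (e i) (e j) (e k) = nf4 i j • e k + nf4 j k • e i + nf4 k i • e j := by
          unfold BD.C
          rw [he, he, he]
        rw [hC, sub_eq_zero]
        have hcases : (i = 1 ∧ j = 2 ∧ k = 3) ∨ (i = 1 ∧ j = 2 ∧ k = 4) ∨
            (i = 1 ∧ j = 3 ∧ k = 4) ∨ (i = 2 ∧ j = 3 ∧ k = 4) := fin_triple i j k hij hjk hi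
        rcases hcases with ⟨rfl, rfl, rfl⟩ | ⟨rfl, rfl, rfl⟩ | ⟨rfl, rfl, rfl⟩ | ⟨rfl, rfl, rfl⟩
        · have : nf4 1 2 • e 3 + nf4 2 3 • e 1 + nf4 3 1 • e 2 = e 3 := by simp [nf4]
          rw [this, hf]
          rfl
        · have : nf4 1 2 • e 4 + nf4 2 4 • e 1 + nf4 4 1 • e 2 = e 4 := by simp [nf4]
          rw [this, hf]
          rfl
        · have : nf4 1 3 • e 4 + nf4 3 4 • e 1 + nf4 4 1 • e 3 = e 1 := by simp [nf4]
          rw [this, hf, J_cyc]
          rfl
        · have : nf4 2 3 • e 4 + nf4 3 4 • e 2 + nf4 4 2 • e 3 = e 2 := by simp [nf4]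
          rw [this, hf, J_cyc]
          rfl) v w x
  exact sub_eq_zero.1 key

private theorem c_ex (e : Module.Basis (Fin 5) ℂ V5) (he : ∀ i j, D.c (e i) (e j) = nf4 i j)
    (x : V5) : D.c (e 1) x = e.repr x 2 ∧ D.c (e 2) x = -e.repr x 1 ∧ D.c (e 3) x = e.repr x 4 ∧
      D.c (e 4) x = -e.repr x 3 := by
  have hx := e.sum_repr x
  rw [Fin.sum_univ_five] at hx
  have h : ∀ i, D.c (e i) x = e.repr x 0 * nf4 i 0 + e.repr x 1 * nf4 i 1 + e.repr x 2 * nf4 i 2 +
      e.repr x 3 * nf4 i 3 + e.repr x 4 * nf4 i 4 := by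
    intro i
    conv_lhs => rw [← hx]
    simp only [map_add, map_smul, he, smul_eq_mul]
  refine ⟨?_, ?_, ?_, ?_⟩
  · rw [h]; simp [nf4]
  · rw [h]; simp [nf4]
  · rw [h]; simp [nf4]
  · rw [h]; simp [nf4]

private theorem exists_vw (e : Module.Basis (Fin 5) ℂ V5) (he : ∀ i j, D.c (e i) (e j) = nf4 i j)
    {x : V5} (hx : x ∉ Submodule.span ℂ {e 0}) :
    ∃ v w, D.c v x = 0 ∧ D.c w x = 0 ∧ D.c v w = 1 := by
  obtain ⟨h1, h2, h3, h4⟩ := c_ex D e he x
  set x1 := e.repr x 1 with hx1
  set x2 := e.repr x 2 with hx2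
  set x3 := e.repr x 3 with hx3
  set x4 := e.repr x 4 with hx4
  have c11 : D.c (e 1) (e 1) = 0 := D.altc _
  have c22 : D.c (e 2) (e 2) = 0 := D.altc _
  have c33 : D.c (e 3) (e 3) = 0 := D.altc _
  have c44 : D.c (e 4) (e 4) = 0 := D.altc _
  have c12 : D.c (e 1) (e 2) = 1 := by rw [he]; simp [nf4]
  have c34 : D.c (e 3) (e 4) = 1 := by rw [he]; simp [nf4]
  have c13 : D.c (e 1) (e 3) = 0 := by rw [he]; simp [nf4]
  have c14 : D.c (e 1) (e 4) = 0 := by rw [he]; simp [nf4]
  have c23 : D.c (e 2) (e 3) = 0 := by rw [he]; simp [nf4]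
  have c24 : D.c (e 2) (e 4) = 0 := by rw [he]; simp [nf4]
  have c31 : D.c (e 3) (e 1) = 0 := by rw [he]; simp [nf4]
  have c41 : D.c (e 4) (e 1) = 0 := by rw [he]; simp [nf4]
  have c32 : D.c (e 3) (e 2) = 0 := by rw [he]; simp [nf4]
  have c42 : D.c (e 4) (e 2) = 0 := by rw [he]; simp [nf4]
  by_cases g1 : x1 = 0
  · by_cases g2 : x2 = 0
    · by_cases g3 : x3 = 0
      · by_cases g4 : x4 = 0
        · exfalso
          apply hx
          have hs := e.sum_repr x
          rw [Fin.sum_univ_five, ← hx1, ← hx2, ← hx3, ← hx4, g1, g2, g3, g4] at hs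
          simp only [zero_smul, add_zero] at hs
          rw [← hs]
          exact Submodule.smul_mem _ _ (Submodule.subset_span rfl)
        · refine ⟨e 1 + (-x2 / x4) • e 3, e 2 + (x1 / x4) • e 3, ?_, ?_, ?_⟩
          · simp only [map_add, map_smul, LinearMap.add_apply, LinearMap.smul_apply, smul_eq_mul,
              h1, h3]
            field_simp
            ring
          · simp only [map_add, map_smul, LinearMap.add_apply, LinearMap.smul_apply, smul_eq_mul,
              h2, h3]
            field_simp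
            ring
          · simp only [map_add, map_smul, LinearMap.add_apply, LinearMap.smul_apply, smul_eq_mul,
              c12, c13, c32, c33]
            ring
      · refine ⟨e 1 + (x2 / x3) • e 4, e 2 + (-x1 / x3) • e 4, ?_, ?_, ?_⟩
        · simp only [map_add, map_smul, LinearMap.add_apply, LinearMap.smul_apply, smul_eq_mul,
            h1, h4]
          field_simp
          ring
        · simp only [map_add, map_smul, LinearMap.add_apply, LinearMap.smul_apply, smul_eq_mul,
            h2, h4]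
          field_simp
          ring
        · simp only [map_add, map_smul, LinearMap.add_apply, LinearMap.smul_apply, smul_eq_mul,
            c12, c14, c42, c44]
          ring
    · refine ⟨e 3 + (-x4 / x2) • e 1, e 4 + (x3 / x2) • e 1, ?_, ?_, ?_⟩
      · simp only [map_add, map_smul, LinearMap.add_apply, LinearMap.smul_apply, smul_eq_mul,
          h1, h3]
        field_simp
        ring
      · simp only [map_add, map_smul, LinearMap.add_apply, LinearMap.smul_apply, smul_eq_mul,
          h1, h4]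
        field_simp
        ring
      · simp only [map_add, map_smul, LinearMap.add_apply, LinearMap.smul_apply, smul_eq_mul,
          c34, c31, c14, c11]
        ring
  · refine ⟨e 3 + (x4 / x1) • e 2, e 4 + (-x3 / x1) • e 2, ?_, ?_, ?_⟩
    · simp only [map_add, map_smul, LinearMap.add_apply, LinearMap.smul_apply, smul_eq_mul,
        h2, h3]
      field_simp
      ring
    · simp only [map_add, map_smul, LinearMap.add_apply, LinearMap.smul_apply, smul_eq_mul,
        h2, h4]
      field_simp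
      ring
    · simp only [map_add, map_smul, LinearMap.add_apply, LinearMap.smul_apply, smul_eq_mul,
        c34, c32, c24, c22]
      ring

theorem BD.psi_K (e : Module.Basis (Fin 5) ℂ V5) (he : ∀ i j, D.c (e i) (e j) = nf4 i j) :
    ∃ z : V5, ∀ v w x, D.J v w x = btm D.B D.c z (D.C v w x) := by
  obtain ⟨Ψ, hΨ⟩ := D.psi e he
  have hS : Submodule.span ℂ {e 0} ≠ (⊤ : Submodule ℂ V5) := by
    intro h
    have h1 : Module.finrank ℂ (Submodule.span ℂ {e 0}) ≤ 1 := by
      refine (finrank_span_le_card ({e 0} : Set V5)).trans ?_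
      simp
    rw [h, finrank_top, Module.finrank_fin_fun] at h1
    omega
  obtain ⟨z, hz⟩ := D.k2 Ψ (Submodule.span ℂ {e 0}) hS (by
    intro x hx
    obtain ⟨v, w, h1, h2, h3⟩ := exists_vw D e he hx
    have hC : D.C v w x = x := by
      unfold BD.C
      rw [h3, h2, D.skewc x v, h1]
      simp
    have hJ := hΨ v w x
    rw [hC] at hJ
    rw [← hJ]
    have h4 : D.J v w x = (btm D.B D.c v (D.B w x) - btm D.B D.c w (D.B v x)) -
        btm D.B D.c (D.B v w) x := by
      unfold BD.J
      rw [D.skewB x v, map_neg, btm_skew D x (D.B v w)]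
      abel
    rw [h4]
    exact Submodule.sub_mem _ (D.pt v w x h1 h2) (D.k1 _ _))
  exact ⟨z, fun v w x => by rw [hΨ, hz]⟩

theorem BD.jac4 (e : Module.Basis (Fin 5) ℂ V5) (he : ∀ i j, D.c (e i) (e j) = nf4 i j) :
    ∃ (z : V5) (B' : V5 →ₗ[ℂ] V5 →ₗ[ℂ] V5), (∀ v w, B' v w = D.B v w + D.c v w • z) ∧
      ∀ v w x, btm D.B D.c v (B' w x) + btm D.B D.c w (B' x v) + btm D.B D.c x (B' v w) = 0 := by
  obtain ⟨z, hz⟩ := D.psi_K e he
  refine ⟨z, D.B + D.c.compr₂ (LinearMap.toSpanSingleton ℂ V5 z), fun v w => rfl,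
    fun v w x => ?_⟩
  have h1 : ∀ v w, (D.B + D.c.compr₂ (LinearMap.toSpanSingleton ℂ V5 z)) v w =
      D.B v w + D.c v w • z := fun v w => rfl
  rw [h1, h1, h1, map_add, map_add, map_add, map_smul, map_smul, map_smul, btm_skew D v z,
    btm_skew D w z, btm_skew D x z]
  have h2 := hz v w x
  unfold BD.J BD.C at h2
  rw [map_add, map_add, map_smul, map_smul, map_smul] at h2
  rw [smul_neg, smul_neg, smul_neg]
  have h3 : btm D.B D.c v (D.B w x) + -(D.c w x • btm D.B D.c z v) +
      (btm D.B D.c w (D.B x v) + -(D.c x v • btm D.B D.c z w)) +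
      (btm D.B D.c x (D.B v w) + -(D.c v w • btm D.B D.c z x)) =
      (btm D.B D.c v (D.B w x) + btm D.B D.c w (D.B x v) + btm D.B D.c x (D.B v w)) -
      (D.c v w • btm D.B D.c z x + D.c w x • btm D.B D.c z v + D.c x v • btm D.B D.c z w) := by
    abel
  rw [h3, h2, sub_self]

theorem BD.rank4 (e : Module.Basis (Fin 5) ℂ V5) (he : ∀ i j, D.c (e i) (e j) = nf4 i j) :
    False := by
  obtain ⟨z, B', hB', hJ⟩ := D.jac4 e he
  have hJ1 : ∀ v w x, D.B v (B' w x) + D.B w (B' x v) + D.B x (B' v w) = 0 := fun v w x =>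
    congrArg Prod.fst (hJ v w x)
  have hJ2 : ∀ v w x, D.c v (B' w x) + D.c w (B' x v) + D.c x (B' v w) = 0 := fun v w x =>
    congrArg Prod.snd (hJ v w x)
  have hJB : ∀ v w x, B' v (B' w x) + B' w (B' x v) + B' x (B' v w) = 0 := by
    intro v w x
    rw [hB' v (B' w x), hB' w (B' x v), hB' x (B' v w)]
    have h1 := hJ1 v w x
    have h2 := hJ2 v w x
    have h3 : D.B v (B' w x) + D.c v (B' w x) • z + (D.B w (B' x v) + D.c w (B' x v) • z) +
        (D.B x (B' v w) + D.c x (B' v w) • z) =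
        (D.B v (B' w x) + D.B w (B' x v) + D.B x (B' v w)) +
        (D.c v (B' w x) + D.c w (B' x v) + D.c x (B' v w)) • z := by
      rw [add_smul, add_smul]
      abel
    rw [h3, h1, h2, zero_smul, add_zero]
  have hBalt : ∀ v, B' v v = 0 := by
    intro v
    rw [hB', D.altB, D.altc, zero_smul, add_zero]
  have hBskew : ∀ v w, B' v w = -B' w v := by
    intro v w
    rw [hB', hB', D.skewB v w, D.skewc v w, neg_smul]
    abel
  -- the form k
  let k : V5 →ₗ[ℂ] V5 →ₗ[ℂ] ℂ := LinearMap.mk₂ ℂ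
    (fun x y => LinearMap.trace ℂ V5 (B' x ∘ₗ B' y))
    (fun x x' y => by rw [map_add, LinearMap.add_comp, map_add])
    (fun t x y => by rw [map_smul, LinearMap.smul_comp, map_smul])
    (fun x y y' => by rw [map_add, LinearMap.comp_add, map_add])
    (fun t x y => by rw [map_smul, LinearMap.comp_smul, map_smul])
  have hk : ∀ x y, k x y = LinearMap.trace ℂ V5 (B' x ∘ₗ B' y) := fun x y => rfl
  have hk0 : k = 0 := by
    refine D.inv2 k ⊥ bot_ne_top (fun x y => ?_) (fun x _ y hyx => ?_)
    · rw [hk, hk]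
      exact LinearMap.trace_mul_comm ℂ (B' x) (B' y)
    · have h1 : D.B y x = B' y x := by rw [hB', hyx, zero_smul, add_zero]
      have h2 : B' (B' y x) = B' y ∘ₗ B' x - B' x ∘ₗ B' y := by
        refine LinearMap.ext fun w => ?_
        rw [LinearMap.sub_apply, LinearMap.comp_apply, LinearMap.comp_apply]
        have h3 := hJB y x w
        rw [hBskew w (B' y x), hBskew w y, map_neg] at h3
        have h4 : B' (B' y x) w = (B' y (B' x w) - B' x (B' y w)) -
            (B' y (B' x w) + -B' x (B' y w) + -B' (B' y x) w) := by abel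
        rw [h4, h3, sub_zero]
      rw [h1, hk, h2, LinearMap.comp_sub, map_sub, sub_eq_zero]
      have h5 := LinearMap.trace_mul_comm ℂ (B' x ∘ₗ B' y) (B' x)
      exact h5
  let br : (V5 × ℂ) →ₗ[ℂ] (V5 × ℂ) →ₗ[ℂ] (V5 × ℂ) := LinearMap.mk₂ ℂ
    (fun p q => (B' p.1 q.1, D.c p.1 q.1))
    (fun p p' q => by simp)
    (fun t p q => by simp)
    (fun p q q' => by simp)
    (fun t p q => by simp)
  have hbr : ∀ p q, br p q = (B' p.1 q.1, D.c p.1 q.1) := fun p q => rfl
  have hsub := cartanL br (fun p => by rw [hbr, hBalt, D.altc]; rfl)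
    (fun p q r => by
      rw [hbr, hbr, hbr, hbr, hbr, hbr]
      ext1
      · exact hJB p.1 q.1 r.1
      · exact hJ2 p.1 q.1 r.1)
    (by
      let φ : V5 × ℂ →ₗ[ℂ] V5 × ℂ :=
        (LinearMap.fst ℂ V5 ℂ + (LinearMap.toSpanSingleton ℂ V5 z) ∘ₗ LinearMap.snd ℂ V5 ℂ).prod
          (LinearMap.snd ℂ V5 ℂ)
      have hφ : ∀ p, φ p = (p.1 + p.2 • z, p.2) := fun p => rfl
      have hφs : LinearMap.range φ = ⊤ := by
        rw [LinearMap.range_eq_top]
        intro p
        refine ⟨(p.1 - p.2 • z, p.2), ?_⟩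
        rw [hφ]
        simp
      have h1 : Submodule.map φ (Submodule.span ℂ
          (Set.range fun p : V5 × V5 => btm D.B D.c p.1 p.2)) = ⊤ := by
        rw [D.onto, Submodule.map_top, hφs]
      rw [Submodule.map_span] at h1
      rw [eq_top_iff, ← h1]
      apply Submodule.span_mono
      rintro _ ⟨_, ⟨p, rfl⟩, rfl⟩
      refine ⟨((p.1, 0), (p.2, 0)), ?_⟩
      show br (p.1, 0) (p.2, 0) = φ (btm D.B D.c p.1 p.2)
      rw [hbr, hφ, btm_apply, hB'])
    (fun p => by
      have h1 : br p ∘ₗ br p = ((B' p.1 ∘ₗ B' p.1).prod (D.c p.1 ∘ₗ B' p.1)) ∘ₗ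
          LinearMap.fst ℂ V5 ℂ := by
        refine LinearMap.ext fun q => ?_
        rfl
      rw [h1, LinearMap.trace_comp_comm']
      have h2 : LinearMap.fst ℂ V5 ℂ ∘ₗ ((B' p.1 ∘ₗ B' p.1).prod (D.c p.1 ∘ₗ B' p.1)) =
          B' p.1 ∘ₗ B' p.1 := LinearMap.fst_prod _ _
      rw [h2, ← hk, hk0]
      rfl)
  have h1 : ((0 : V5), (1 : ℂ)) = ((0 : V5), (0 : ℂ)) := Subsingleton.elim _ _
  have h2 := congrArg Prod.snd h1
  exact one_ne_zero h2

end Pool.Agent.Helper50.FC
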