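import Pool.Agent.Helper50.FC.BD2D
import Pool.Agent.Helper50.FC.BD4

/-! The abstract data are impossible. -/

set_option autoImplicit false

namespace Pool.Agent.Helper50.FC

theorem BD.false (D : BD) : False := by
  rcases alt_cases D.c D.altc with h | ⟨e, he⟩ | ⟨e, he⟩
  · exact D.c_ne h
  · exact D.rank2 e he
  · exact D.rank4 e he

end Pool.Agent.Helper50.FC
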