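import Pool.Agent.Helper50.FC.KL
import Pool.Agent.Helper1.FG.AlpL

/-! K1-31: trace formula for linear fields tangent to a closed 2-form which is `i_(A_0) i_(A_1) i_(A_2) vol`.
* `lie_zero`: `L_M θ = d i_M θ + i_M dθ = 0`; directly: differentiate `∑ k, (M x)_k θ_kj = 0` with respect to `x_i`, subtract the same with `i, j` exchanged, use
  `Closed θ`.
* `lie_mins`: `μ (a, b) = det (e_a, e_b, v_0, v_1, v_2)`, `v_l = A_l x`.  `∑_k (M x)_k ∂_k v_l = A_l M x`; `∑_k M_ka μ (k, b) = det (M e_a, e_b, ..)`; and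
  `det (M e_a, e_b, v..) + det (e_a, M e_b, v..) + ∑_l det (.., M v_l, ..) = tr M * det (e_a, e_b, v..)` (sum over the rows; e.g. derivative of `det (1 + t M) det (..)`,
  or multilinearity and `det` of a matrix with two equal rows).  So the left side is `tr M * μ - ∑_l det (.., (M A_l - A_l M) x, ..) = (tr M - ∑ γ l l) μ`.
* `tr3`: `mins v = κ θ` with `κ` a non zero constant (`mins_prop`, `prim`, degrees; `mins_ne_zero` at `x0`). -/

set_option autoImplicit false

namespace Pool.Agent.Helper50.FC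

open MvPolynomial
open scoped BigOperators
open Pool.Agent.Helper71.FL (w12 pf ct Dec Closed dd at0 res)
open Pool.Agent.Helper71.FC
open Pool.Agent.Helper1.FG (mins alp Triv)

variable {n : ℕ}

private theorem pd_linF (M : Fin n → Fin n → ℂ) (k a : Fin n) :
    pderiv a (linF M k) = C (M k a) := by
  unfold linF
  rw [map_sum, Finset.sum_eq_single a]
  · rw [Derivation.leibniz, pderiv_C, smul_zero, add_zero, pderiv_X_self, smul_eq_mul, mul_one]
  · intro b _ hb
    rw [Derivation.leibniz, pderiv_C, smul_zero, add_zero, pderiv_X_of_ne hb, smul_zero]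
  · intro h
    exact absurd (Finset.mem_univ _) h

theorem lie_zero {θ : F2 n} (hd : ∀ i, θ i i = 0) (ha : ∀ i j, θ i j = -θ j i) (hc : Closed θ)
    {M : Fin n → Fin n → ℂ} (hM : M ∈ KL θ) (a b : Fin n) :
    ∑ k, linF M k * pderiv k (θ a b) + ∑ k, C (M k a) * θ k b + ∑ k, C (M k b) * θ a k = 0 := by
  have h1 : ∀ i j, ∑ k, (C (M k i) * θ k j + linF M k * pderiv i (θ k j)) = 0 := by
    intro i j
    have h2 : ∑ k, linF M k * θ k j = 0 := hM j
    have h3 := congrArg (pderiv i) h2
    rw [map_sum, map_zero] at h3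
    rw [← h3]
    refine Finset.sum_congr rfl fun k _ => ?_
    rw [Derivation.leibniz, pd_linF, smul_eq_mul, smul_eq_mul]
    ring
  have h4 := h1 a b
  have h5 := h1 b a
  have h6 : ∑ k, linF M k * pderiv k (θ a b) + ∑ k, C (M k a) * θ k b + ∑ k, C (M k b) * θ a k =
      ∑ k, (C (M k a) * θ k b + linF M k * pderiv a (θ k b)) -
        ∑ k, (C (M k b) * θ k a + linF M k * pderiv b (θ k a)) := by
    rw [← Finset.sum_add_distrib, ← Finset.sum_add_distrib, ← Finset.sum_sub_distrib]
    refine Finset.sum_congr rfl fun k _ => ?_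
    have h7 := hc k a b
    have h8 : pderiv a (θ b k) = - pderiv a (θ k b) := by rw [ha b k, map_neg]
    rw [h8] at h7
    rw [ha a k]
    linear_combination (linF M k) * h7
  rw [h6, h4, h5, sub_zero]

section det
variable {R ι : Type} [CommRing R]

private theorem der_prod [DecidableEq ι] (δ : R →+ R)
    (hδ : ∀ a b, δ (a * b) = a * δ b + b * δ a) (s : Finset ι) (f : ι → R) :
    δ (∏ i ∈ s, f i) = ∑ j ∈ s, (∏ i ∈ s.erase j, f i) * δ (f j) := by
  induction s using Finset.induction_on with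
  | empty =>
    have h := hδ 1 1
    rw [mul_one, one_mul] at h
    rw [Finset.prod_empty, Finset.sum_empty]
    have h2 : δ 1 + 0 = δ 1 + δ 1 := by rw [add_zero]; exact h
    exact (add_left_cancel h2).symm
  | insert a s ha ih =>
    rw [Finset.prod_insert ha, hδ, ih, Finset.sum_insert ha, Finset.erase_insert ha, add_comm,
      Finset.mul_sum]
    congr 1
    refine Finset.sum_congr rfl fun j hj => ?_
    have hja : a ≠ j := fun h => ha (h ▸ hj)
    rw [Finset.erase_insert_of_ne hja, Finset.prod_insert (fun h => ha (Finset.mem_of_mem_erase h)),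
      mul_assoc]

private theorem der_det [Fintype ι] [DecidableEq ι] (δ : R →+ R)
    (hδ : ∀ a b, δ (a * b) = a * δ b + b * δ a) (A : Matrix ι ι R) :
    δ A.det = ∑ j, (A.updateCol j (fun r => δ (A r j))).det := by
  rw [Matrix.det_apply, map_sum]
  simp only [Matrix.det_apply]
  rw [Finset.sum_comm]
  refine Finset.sum_congr rfl fun σ _ => ?_
  rw [← Finset.smul_sum, Units.smul_def, map_zsmul, ← Units.smul_def, der_prod δ hδ]
  congr 1
  refine Finset.sum_congr rfl fun j _ => ?_
  rw [← Finset.mul_prod_erase _ _ (Finset.mem_univ j), mul_comm]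
  congr 1
  · rw [Matrix.updateCol_self]
  · refine Finset.prod_congr rfl fun i hi => ?_
    rw [Matrix.updateCol_ne (Finset.ne_of_mem_erase hi)]

private theorem der_det_row [Fintype ι] [DecidableEq ι] (δ : R →+ R)
    (hδ : ∀ a b, δ (a * b) = a * δ b + b * δ a) (A : Matrix ι ι R) :
    δ A.det = ∑ j, (A.updateRow j (fun r => δ (A j r))).det := by
  rw [← Matrix.det_transpose, der_det δ hδ]
  refine Finset.sum_congr rfl fun j _ => ?_
  rw [Matrix.updateCol_transpose, Matrix.det_transpose]
  rfl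

private theorem tr_det [Fintype ι] [DecidableEq ι] (U B : Matrix ι ι R) :
    ∑ i, (U.updateRow i ((U * B) i)).det = U.det * B.trace := by
  have h1 : ∀ i, (U.updateRow i ((U * B) i)).det = ∑ j, U.adjugate j i * (U * B) i j := by
    intro i
    rw [← Matrix.cramer_transpose_apply, Matrix.cramer_eq_adjugate_mulVec,
      ← Matrix.adjugate_transpose]
    rfl
  have h2 : (U.adjugate * (U * B)).trace = U.det * B.trace := by
    rw [← Matrix.mul_assoc, Matrix.adjugate_mul, Matrix.smul_mul, Matrix.one_mul,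
      Matrix.trace_smul, smul_eq_mul]
  rw [← h2, Finset.sum_congr rfl fun i _ => h1 i, Finset.sum_comm]
  rfl

/-- the determinant as a linear function of the `i`-th row -/
private noncomputable def rowL [Fintype ι] [DecidableEq ι] (U : Matrix ι ι R) (i : ι) :
    (ι → R) →ₗ[R] R :=
  (Matrix.detRowAlternating (n := ι) (R := R)).toMultilinearMap.toLinearMap U i

private theorem rowL_apply [Fintype ι] [DecidableEq ι] (U : Matrix ι ι R) (i : ι) (w : ι → R) :
    rowL U i w = (U.updateRow i w).det := rfl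

end det

/-- the matrix with rows `e_a, e_b, v_0, v_1, v_2` -/
private noncomputable def UU {R : Type} [CommRing R] (v : Fin 3 → Fin 5 → R) (x y : Fin 5 → R) :
    Matrix (Fin 5) (Fin 5) R := Matrix.of (Fin.cons x (Fin.cons y v))

private theorem UU_upd0 {R : Type} [CommRing R] (v : Fin 3 → Fin 5 → R) (x y w : Fin 5 → R) :
    (UU v x y).updateRow 0 w = UU v w y := by
  show Function.update (Fin.cons x (Fin.cons y v) : Fin 5 → Fin 5 → R) 0 w = _
  rw [Fin.update_cons_zero]
  rfl

private theorem UU_upd1 {R : Type} [CommRing R] (v : Fin 3 → Fin 5 → R) (x y w : Fin 5 → R) :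
    (UU v x y).updateRow (Fin.succ 0) w = UU v x w := by
  show Function.update (Fin.cons x (Fin.cons y v) : Fin 5 → Fin 5 → R) (Fin.succ 0) w = _
  rw [← Fin.cons_update, Fin.update_cons_zero]
  rfl

theorem lie_mins (A : Fin 3 → Fin 5 → Fin 5 → ℂ) (M : Fin 5 → Fin 5 → ℂ) (γ : Fin 3 → Fin 3 → ℂ)
    (hγ : ∀ l i j, ∑ k, (M i k * A l k j - A l i k * M k j) = ∑ k, γ l k * A k i j) (a b : Fin 5) :
    ∑ k, linF M k * pderiv k (mins (k := 3) (fun l => linF (A l)) (a, b)) +
      ∑ k, C (M k a) * mins (k := 3) (fun l => linF (A l)) (k, b) +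
      ∑ k, C (M k b) * mins (k := 3) (fun l => linF (A l)) (a, k) =
      C (∑ i, M i i - ∑ l, γ l l) * mins (k := 3) (fun l => linF (A l)) (a, b) := by
  classical
  set v : Fin 3 → Fin 5 → Pn 5 := fun l => linF (A l) with hv
  set ea : Fin 5 → Pn 5 := Pi.single a 1 with hea
  set eb : Fin 5 → Pn 5 := Pi.single b 1 with heb
  set U : Matrix (Fin 5) (Fin 5) (Pn 5) := UU v ea eb with hU
  have hμ : mins (k := 3) v (a, b) = U.det := rfl
  let δ : Pn 5 →+ Pn 5 :=
    { toFun := fun p => ∑ k, linF M k * pderiv k p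
      map_zero' := by simp
      map_add' := fun p q => by
        rw [← Finset.sum_add_distrib]
        exact Finset.sum_congr rfl fun k _ => by rw [map_add, mul_add] }
  have hδ : ∀ p q, δ (p * q) = p * δ q + q * δ p := by
    intro p q
    show ∑ k, linF M k * pderiv k (p * q) = p * ∑ k, linF M k * pderiv k q +
      q * ∑ k, linF M k * pderiv k p
    rw [Finset.mul_sum, Finset.mul_sum, ← Finset.sum_add_distrib]
    refine Finset.sum_congr rfl fun k _ => ?_
    rw [Derivation.leibniz, smul_eq_mul, smul_eq_mul]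
    ring
  let B : Matrix (Fin 5) (Fin 5) (Pn 5) := Matrix.of fun k j => C (M j k)
  have hT := tr_det U B
  have hD := der_det_row δ hδ U
  rw [Fin.sum_univ_succ, Fin.sum_univ_succ] at hT hD
  -- rows of `U`
  have hr0 : U 0 = ea := rfl
  have hr1 : U (Fin.succ 0) = eb := rfl
  have hrl : ∀ l : Fin 3, U l.succ.succ = v l := fun l => rfl
  have hδs : ∀ c d : Fin 5, δ ((Pi.single c 1 : Fin 5 → Pn 5) d) = 0 := by
    intro c d
    have h1 : δ 1 = 0 := by
      show ∑ k, linF M k * pderiv k (1 : Pn 5) = 0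
      simp
    by_cases h : d = c
    · rw [h, Pi.single_eq_same, h1]
    · rw [Pi.single_eq_of_ne h, map_zero]
  have hD0 : (U.updateRow 0 (fun r => δ (U 0 r))).det = 0 := by
    have : (fun r => δ (U 0 r)) = 0 := _root_.funext fun r => hδs a r
    rw [this, ← rowL_apply, map_zero]
  have hD1 : (U.updateRow (Fin.succ 0) (fun r => δ (U (Fin.succ 0) r))).det = 0 := by
    have : (fun r => δ (U (Fin.succ 0) r)) = 0 := _root_.funext fun r => hδs b r
    rw [this, ← rowL_apply, map_zero]
  have hcol : ∀ c : Fin 5, ∀ w : Fin 5 → Pn 5, w = Pi.single c 1 →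
      (fun j => ∑ k, w k * B k j) = ∑ k, (C (M k c) : Pn 5) • (Pi.single k 1 : Fin 5 → Pn 5) := by
    intro c w hw
    refine _root_.funext fun j => ?_
    rw [hw, Finset.sum_apply, Finset.sum_eq_single c, Finset.sum_eq_single j]
    · simp [B]
    · intro k _ hk
      simp [Pi.single_eq_of_ne (Ne.symm hk)]
    · intro h
      exact absurd (Finset.mem_univ _) h
    · intro k _ hk
      simp [Pi.single_eq_of_ne hk]
    · intro h
      exact absurd (Finset.mem_univ _) h
  have hT0 : (U.updateRow 0 ((U * B) 0)).det = ∑ k, C (M k a) * mins (k := 3) v (k, b) := by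
    have h1 : (U * B) 0 = ∑ k, (C (M k a) : Pn 5) • (Pi.single k 1 : Fin 5 → Pn 5) := hcol a ea rfl
    rw [← rowL_apply, h1, map_sum]
    refine Finset.sum_congr rfl fun k _ => ?_
    rw [map_smul, rowL_apply, UU_upd0, smul_eq_mul]
    rfl
  have hT1 : (U.updateRow (Fin.succ 0) ((U * B) (Fin.succ 0))).det =
      ∑ k, C (M k b) * mins (k := 3) v (a, k) := by
    have h1 : (U * B) (Fin.succ 0) = ∑ k, (C (M k b) : Pn 5) • (Pi.single k 1 : Fin 5 → Pn 5) :=
      hcol b eb rfl
    rw [← rowL_apply, h1, map_sum]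
    refine Finset.sum_congr rfl fun k _ => ?_
    rw [map_smul, rowL_apply, UU_upd1, smul_eq_mul]
    rfl
  have hTr : B.trace = C (∑ i, M i i) := by
    rw [map_sum]
    rfl
  -- the rows `v l`
  have hrow : ∀ l : Fin 3, (U * B) l.succ.succ =
      (fun r => δ (U l.succ.succ r)) + ∑ k, (C (γ l k) : Pn 5) • v k := by
    intro l
    refine _root_.funext fun j => ?_
    have h1 : (U * B) l.succ.succ j = ∑ k, linF (A l) k * C (M j k) := rfl
    have h2 : δ (U l.succ.succ j) = ∑ k, linF M k * C (A l j k) := by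
      show ∑ k, linF M k * pderiv k (linF (A l) j) = _
      refine Finset.sum_congr rfl fun k _ => ?_
      rw [pd_linF]
    have h3 : (∑ k, (C (γ l k) : Pn 5) • v k) j = ∑ i, C (∑ k, γ l k * A k j i) * X i := by
      rw [Finset.sum_apply]
      have h4 : ∀ k, ((C (γ l k) : Pn 5) • v k) j = ∑ i, C (γ l k * A k j i) * X i := by
        intro k
        show C (γ l k) * linF (A k) j = _
        unfold linF
        rw [Finset.mul_sum]
        exact Finset.sum_congr rfl fun i _ => by rw [C_mul]; ring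
      rw [Finset.sum_congr rfl fun k _ => h4 k, Finset.sum_comm]
      refine Finset.sum_congr rfl fun i _ => ?_
      rw [map_sum, Finset.sum_mul]
    rw [Pi.add_apply, h1, h2, h3]
    have h5 : ∑ k, linF (A l) k * C (M j k) = ∑ i, C (∑ k, M j k * A l k i) * X i := by
      unfold linF
      simp only [Finset.sum_mul, map_sum]
      rw [Finset.sum_comm]
      refine Finset.sum_congr rfl fun i _ => Finset.sum_congr rfl fun k _ => ?_
      rw [C_mul]; ring
    have h6 : ∑ k, linF M k * C (A l j k) = ∑ i, C (∑ k, A l j k * M k i) * X i := by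
      unfold linF
      simp only [Finset.sum_mul, map_sum]
      rw [Finset.sum_comm]
      refine Finset.sum_congr rfl fun i _ => Finset.sum_congr rfl fun k _ => ?_
      rw [C_mul]; ring
    rw [h5, h6, ← Finset.sum_add_distrib]
    refine Finset.sum_congr rfl fun i _ => ?_
    rw [← add_mul, ← C_add]
    congr 2
    have h7 := hγ l j i
    rw [Finset.sum_sub_distrib] at h7
    linear_combination h7
  have hs : ∀ l : Fin 3, ∑ k, rowL U l.succ.succ ((C (γ l k) : Pn 5) • v k) =
      C (γ l l) * U.det := by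
    intro l
    rw [Finset.sum_eq_single l]
    · rw [map_smul, rowL_apply, ← hrl, Matrix.updateRow_eq_self, smul_eq_mul]
    · intro k _ hk
      rw [map_smul, rowL_apply]
      have h1 : (U.updateRow l.succ.succ (v k)).det = 0 := by
        have hne : l.succ.succ ≠ k.succ.succ := by
          intro h
          exact hk (Fin.succ_injective _ (Fin.succ_injective _ h)).symm
        apply Matrix.det_zero_of_row_eq hne
        rw [Matrix.updateRow_self, Matrix.updateRow_ne hne.symm, hrl]
      rw [h1, smul_zero]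
    · intro h
      exact absurd (Finset.mem_univ _) h
  have hl : ∀ l : Fin 3, (U.updateRow l.succ.succ ((U * B) l.succ.succ)).det =
      (U.updateRow l.succ.succ (fun r => δ (U l.succ.succ r))).det + C (γ l l) * U.det := by
    intro l
    rw [← rowL_apply, hrow, map_add, map_sum, rowL_apply, hs l]
  rw [hT0, hT1, Finset.sum_congr rfl fun l _ => hl l, Finset.sum_add_distrib, hTr] at hT
  rw [hD0, hD1, zero_add, zero_add] at hD
  have hδμ : ∑ k, linF M k * pderiv k (mins (k := 3) v (a, b)) = δ U.det := rfl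
  rw [hδμ, hD, hμ, C_sub, map_sum C (fun l => γ l l), sub_mul, Finset.sum_mul]
  linear_combination hT

/-- a form proportional to a primitive form is a multiple of it -/
private theorem mul_of_prim {I : Type} {f g : I → Pn n} (hf : ∀ p, (∀ i, p ∣ f i) → IsUnit p)
    (h : ∀ i j, f i * g j = f j * g i) : ∃ c : Pn n, ∀ i, g i = c * f i := by
  have key : ∀ t : Pn n, t ≠ 0 → ∀ m, (∀ i, t ∣ m * f i) → t ∣ m := by
    intro t
    induction t using UniqueFactorizationMonoid.induction_on_prime with
    | h₁ => intro h0; exact absurd rfl h0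
    | h₂ x hx => intro _ m _; exact hx.dvd
    | h₃ a p ha hp ih =>
      intro _ m hm
      have h1 : ∃ i, ¬ p ∣ f i := by
        by_contra hcon
        push Not at hcon
        exact hp.not_isUnit (hf p hcon)
      obtain ⟨i, hi⟩ := h1
      have h2 : p ∣ m := by
        have h3 : p ∣ m * f i := (Dvd.intro _ rfl).trans (hm i)
        exact (hp.dvd_or_dvd h3).resolve_right hi
      obtain ⟨m', rfl⟩ := h2
      apply mul_dvd_mul_left
      apply ih ha
      intro j
      have h4 := hm j
      rw [mul_assoc] at h4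
      exact (mul_dvd_mul_iff_left hp.ne_zero).1 h4
  have hex : ∃ i, f i ≠ 0 := by
    by_contra hcon
    push Not at hcon
    exact not_isUnit_zero (hf 0 fun i => by rw [hcon i])
  obtain ⟨i, hi⟩ := hex
  obtain ⟨c, hc⟩ := key (f i) hi (g i) (fun j => ⟨g j, by rw [h i j]; ring⟩)
  refine ⟨c, fun j => ?_⟩
  apply mul_left_cancel₀ hi
  rw [h i j, hc]
  ring

private theorem det_hom (N : Matrix (Fin 5) (Fin 5) (Pn 5)) (d : Fin 5 → ℕ)
    (h : ∀ i j, (N i j).IsHomogeneous (d i)) : N.det.IsHomogeneous (∑ i, d i) := by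
  rw [Matrix.det_apply]
  apply IsHomogeneous.sum
  intro σ _
  have h1 : (∏ i, N (σ i) i).IsHomogeneous (∑ i, d (σ i)) :=
    IsHomogeneous.prod _ _ _ fun i _ => h (σ i) i
  rw [Equiv.sum_comp σ d] at h1
  rcases Int.units_eq_one_or (Equiv.Perm.sign σ) with h2 | h2
  · rw [h2, one_smul]
    exact h1
  · rw [h2, Units.neg_smul, one_smul]
    exact h1.neg

/-- `mins v = c θ` with a non zero constant `c` -/
private theorem mins_const {θ : F2 5} (h : Fol θ) (A : Fin 3 → Fin 5 → Fin 5 → ℂ)
    (hA : ∀ l, A l ∈ KL θ) (x0 : Fin 5 → ℂ)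
    (hind : LinearIndependent ℂ (fun (l : Fin 3) (i : Fin 5) => ∑ j, A l i j * x0 j)) :
    ∃ c : ℂ, ∃ p : Fin 5 × Fin 5, mins (k := 3) (fun l => linF (A l)) p ≠ 0 ∧
      ∀ i j, mins (k := 3) (fun l => linF (A l)) (i, j) = C c * θ i j := by
  classical
  obtain ⟨v, hv⟩ : ∃ v : Fin 3 → Fin 5 → Pn 5, v = fun l => linF (A l) := ⟨_, rfl⟩
  rw [← hv]
  have hprop : ∀ p q : Fin 5 × Fin 5, θ p.1 p.2 * mins (k := 3) v q =
      θ q.1 q.2 * mins (k := 3) v p := fun p q =>
    mins_prop h.dec.2.1 h.dec.1 (v := v) (fun l j => by rw [hv]; exact hA l j) p.1 p.2 q.1 q.2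
  obtain ⟨c, hc⟩ : ∃ c : Pn 5, ∀ p : Fin 5 × Fin 5, mins (k := 3) v p = c * θ p.1 p.2 :=
    mul_of_prim (f := fun p : Fin 5 × Fin 5 => θ p.1 p.2) (g := fun p => mins (k := 3) v p)
      (fun p hp => h.prim p fun i j => hp (i, j)) hprop
  -- nonzero at `x0`
  obtain ⟨p, hp⟩ := mins_ne_zero hind
  have hev : eval x0 (mins (k := 3) v p) =
      mins (k := 3) (fun (l : Fin 3) (i : Fin 5) => ∑ j, A l i j * x0 j) p := by
    have h1 := Pool.Agent.Helper1.FG.alp_map (k := 3) v (eval x0 : Pn 5 →+* ℂ)
      (Pi.single p.1 1) (Pi.single p.2 1)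
    have h2 : ∀ q : Fin 5, (fun i => eval x0 ((Pi.single q 1 : Fin 5 → Pn 5) i)) =
        (Pi.single q 1 : Fin 5 → ℂ) := by
      intro q
      refine _root_.funext fun i => ?_
      by_cases hq : i = q
      · rw [hq, Pi.single_eq_same, Pi.single_eq_same, map_one]
      · rw [Pi.single_eq_of_ne hq, Pi.single_eq_of_ne hq, map_zero]
    have h3 : (fun (l : Fin 3) (i : Fin 5) => eval x0 (v l i)) =
        fun (l : Fin 3) (i : Fin 5) => ∑ j, A l i j * x0 j := by
      refine _root_.funext fun l => _root_.funext fun i => ?_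
      simp [hv, linF]
    rw [h2, h2, h3] at h1
    exact h1.symm
  have hpne : mins (k := 3) v p ≠ 0 := by
    intro h0
    rw [h0, map_zero] at hev
    exact hp hev.symm
  have hθp : θ p.1 p.2 ≠ 0 := by
    intro h0
    apply hpne
    rw [hc p, h0, mul_zero]
  have hc0 : c ≠ 0 := by
    rintro rfl
    apply hpne
    rw [hc p, zero_mul]
  have hdeg : (mins (k := 3) v p).IsHomogeneous 3 := by
    have h1 := det_hom (UU v (Pi.single p.1 1) (Pi.single p.2 1)) (Fin.cons 0 (Fin.cons 0 fun _ => 1))
      (by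
        have hs : ∀ q j : Fin 5, ((Pi.single q 1 : Fin 5 → Pn 5) j).IsHomogeneous 0 := by
          intro q j
          by_cases hq : j = q
          · rw [hq, Pi.single_eq_same]
            exact isHomogeneous_one _ _
          · rw [Pi.single_eq_of_ne hq]
            exact isHomogeneous_zero _ _ _
        intro i j
        refine Fin.cases ?_ (fun i => Fin.cases ?_ (fun l => ?_) i) i
        · exact hs p.1 j
        · exact hs p.2 j
        · show (v l j).IsHomogeneous 1
          rw [hv]
          show (linF (A l) j).IsHomogeneous 1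
          unfold linF
          apply IsHomogeneous.sum
          intro k _
          have := (isHomogeneous_C (Fin 5) (A l j k)).mul (isHomogeneous_X ℂ k)
          rwa [zero_add] at this)
    exact h1
  have hcdeg : c.totalDegree = 0 := by
    have h2 := totalDegree_mul_of_isDomain hc0 hθp
    rw [← hc p, hdeg.totalDegree hpne, (h.hom p.1 p.2).totalDegree hθp] at h2
    omega
  refine ⟨coeff 0 c, p, hpne, fun i j => ?_⟩
  rw [← totalDegree_eq_zero_iff_eq_C.1 hcdeg]
  exact hc (i, j)

private theorem lie_smul {θ : F2 5} (M : Fin 5 → Fin 5 → ℂ) (μ : Fin 5 × Fin 5 → Pn 5) (c : ℂ)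
    (hmu : ∀ i j, μ (i, j) = C c * θ i j) (a b : Fin 5) :
    ∑ k, linF M k * pderiv k (μ (a, b)) + ∑ k, C (M k a) * μ (k, b) + ∑ k, C (M k b) * μ (a, k) =
      C c * (∑ k, linF M k * pderiv k (θ a b) + ∑ k, C (M k a) * θ k b +
        ∑ k, C (M k b) * θ a k) := by
  rw [mul_add, mul_add, Finset.mul_sum, Finset.mul_sum, Finset.mul_sum]
  refine congrArg₂ (fun a b => a + b) (congrArg₂ (fun a b => a + b) ?_ ?_) ?_
  · refine Finset.sum_congr rfl fun k _ => ?_
    rw [hmu, Derivation.leibniz, pderiv_C, smul_zero, add_zero, smul_eq_mul]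
    ring
  · refine Finset.sum_congr rfl fun k _ => ?_
    rw [hmu]
    ring
  · refine Finset.sum_congr rfl fun k _ => ?_
    rw [hmu]
    ring

theorem tr3 {θ : F2 5} (h : Fol θ) (A : Fin 3 → Fin 5 → Fin 5 → ℂ) (hA : ∀ l, A l ∈ KL θ)
    (x0 : Fin 5 → ℂ) (hind : LinearIndependent ℂ (fun (l : Fin 3) (i : Fin 5) => ∑ j, A l i j * x0 j))
    (M : Fin 5 → Fin 5 → ℂ) (hM : M ∈ KL θ) (γ : Fin 3 → Fin 3 → ℂ)
    (hγ : ∀ l i j, ∑ k, (M i k * A l k j - A l i k * M k j) = ∑ k, γ l k * A k i j) :
    ∑ i, M i i = ∑ l, γ l l := by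
  obtain ⟨c, p, hpne, hmu⟩ := mins_const h A hA x0 hind
  have e1 := lie_mins A M γ hγ p.1 p.2
  have e2 := lie_zero h.dec.1 h.dec.2.1 h.closed hM p.1 p.2
  rw [lie_smul M (mins (k := 3) (fun l => linF (A l))) c hmu p.1 p.2, e2, mul_zero] at e1
  have e5 := (mul_eq_zero.1 e1.symm).resolve_right hpne
  have e6 : (∑ i, M i i - ∑ l, γ l l) = 0 := C_injective (Fin 5) ℂ (e5.trans C_0.symm)
  exact sub_eq_zero.1 e6

end Pool.Agent.Helper50.FC
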