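import Pool.Agent.Helper50.FC.CxDef
import Pool.Agent.Helper50.FC.Tr3

/-! K1-35: `pt`, `mt`, `tr` from lemma POINT and the trace formula.
* `Cx.brk_eval`: commutator of linear fields: `[X_v, X_w](x) = B w (B v x) - B v (B w x)`; `dv (X_v) q_w` at `x` is `c w (B v x)`.
* `Cx.pt`: `point` with `X = X_v`, `Y = X_w`, `q = q_v`, `q' = q_w`, `τ` (`rel`, `pair_zero`), evaluated at `x` with `c v x = c w x = 0`: the last two terms vanish, so
  `avt (B w (B v x) - B v (B w x), c w (B v x) - c v (B w x))` vanishes at `x`.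
* `Cx.mt`: `c r · = 0`: `q_r = 0`, `i_(X_r) θ = 0`, `ct (X_r) (dd τ) ∈ EE θ 3` (`ctdd_mem`; homogeneous of degree 3), `= avt m`; `point` with `X = X_r`, `Y = X_v`:
  `i_[X_r, X_v] θ = - (X_r q_v) τ - q_v avt m`, at `x`: `avt (B v (B r x) - B r (B v x), c v (B r x)) + c v x • avt m` vanishes at `x`; `c r · = 0`.
* `Cx.tr`: `tr3` with the matrices of `B (r l)`, `B M` (in `KL θ` by `rel`); `B (r l) x0` are independent for some `x0` outside the kernel of `c`
  (`∑ t_l B (r l) x0 = 0` gives `btm (∑ t_l r_l) x0 = 0`, so `∑ t_l r_l ∈ ℂ x0` for general `x0` by `hgen`; `c ≠ 0` may be assumed: if `c = 0` then all `btm v x` lie in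
  `V5 × 0`, `onto` (file `CxOnto`) fails). -/

set_option autoImplicit false

namespace Pool.Agent.Helper50.FC

open MvPolynomial
open scoped BigOperators
open Pool.Agent.Helper71.FL (w12 pf ct Dec Closed dd at0 res)
open Pool.Agent.Helper71.FC

variable {θ : F2 5} (G : Cx θ)

private theorem lin_sum (L : V5 →ₗ[ℂ] ℂ) (y : V5) : ∑ j, y j * L (Pi.single j 1) = L y := by
  have h1 : y = ∑ j, y j • (Pi.single j 1 : V5) := by
    funext b
    rw [Finset.sum_apply, Finset.sum_eq_single b]
    · simp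
    · intro b' _ hb'
      simp [Ne.symm hb']
    · intro h; exact absurd (Finset.mem_univ _) h
  conv_rhs => rw [h1]
  rw [map_sum]
  exact Finset.sum_congr rfl fun j _ => by rw [map_smul, smul_eq_mul]

private theorem lin_sum' (B : V5 →ₗ[ℂ] V5) (y : V5) (i : Fin 5) :
    ∑ j, y j * B (Pi.single j 1) i = B y i :=
  lin_sum ((LinearMap.proj i).comp B) y

private theorem pd_lin (a : Fin 5 → ℂ) (j : Fin 5) :
    pderiv j (∑ l, C (a l) * X l : Pn 5) = C (a j) := by
  classical
  rw [map_sum, Finset.sum_eq_single j]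
  · rw [pderiv_C_mul, pderiv_X_self, mul_one]
  · intro b _ hb
    rw [pderiv_C_mul, pderiv_X_of_ne hb, mul_zero]
  · intro h; exact absurd (Finset.mem_univ _) h

private theorem dv_fld_eval (v x : V5) (a : Fin 5 → ℂ) :
    eval x (dv (G.fld v) (∑ l, C (a l) * X l)) = ∑ j, G.B v x j * a j := by
  unfold dv
  rw [map_sum]
  refine Finset.sum_congr rfl fun j _ => ?_
  rw [pd_lin, map_mul, eval_C, G.eval_fld]

theorem Cx.brk_eval (v w x : V5) (i : Fin 5) :
    eval x (brk (G.fld v) (G.fld w) i) = G.B w (G.B v x) i - G.B v (G.B w x) i := by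
  unfold brk
  have h1 : ∀ a b : V5, eval x (dv (G.fld a) (G.fld b i)) = G.B b (G.B a x) i := by
    intro a b
    have h2 := dv_fld_eval G a x (fun j => G.B b (Pi.single j 1) i)
    rw [lin_sum'] at h2
    exact h2
  rw [map_sub, h1, h1]

theorem Cx.dv_eval (v w x : V5) : eval x (dv (G.fld v) (G.q w)) = G.c w (G.B v x) := by
  have h2 := dv_fld_eval G v x (fun j => G.c w (Pi.single j 1))
  rw [lin_sum] at h2
  exact h2

private theorem eval_avt (p : V5 × ℂ) (x : V5) (k : Fin 5) :
    eval x (avt θ G.τ p k) = (∑ i, p.1 i * eval x (θ i k)) + p.2 * eval x (G.τ k) := by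
  unfold avt av ct cv
  rw [map_add, map_sum, map_mul, eval_C]
  congr 1
  refine Finset.sum_congr rfl fun i _ => ?_
  rw [map_mul, eval_C]

private theorem eval_ct_brk (v w x : V5) (k : Fin 5) :
    eval x (ct (brk (G.fld v) (G.fld w)) θ k) =
      ∑ i, (G.B w (G.B v x) i - G.B v (G.B w x) i) * eval x (θ i k) := by
  unfold ct
  rw [map_sum]
  refine Finset.sum_congr rfl fun i _ => ?_
  rw [map_mul, G.brk_eval]

private theorem th_ne {θ : F2 5} (G : Cx θ) : ∃ i j, θ i j ≠ 0 := by
  by_contra hcon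
  push Not at hcon
  have h1 := G.cy.fol.prim (X 0) (fun i j => by rw [hcon i j]; exact dvd_zero _)
  have h2 := h1.map (eval (0 : Fin 5 → ℂ))
  simp at h2

private theorem Cx.pnt (v w : V5) (k : Fin 5) :
    ct (brk (G.fld v) (G.fld w)) θ k = (dv (G.fld w) (G.q v) - dv (G.fld v) (G.q w)) * G.τ k +
      G.q v * ct (G.fld w) (dd G.τ) k - G.q w * ct (G.fld v) (dd G.τ) k := by
  have hd := G.cy.fol.dec
  have hτ := (mem_EE.mp G.hτ).2
  exact point hd.1 hd.2.1 G.cy.fol.closed (G.rel v) (G.rel w)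
    (pair_zero hd.1 hd.2.1 (th_ne G) (G.rel v) hτ) (pair_zero hd.1 hd.2.1 (th_ne G) (G.rel w) hτ) k

theorem Cx.pt (v w x : V5) (hv : G.c v x = 0) (hw : G.c w x = 0) :
    btm G.B G.c v (G.B w x) - btm G.B G.c w (G.B v x) ∈ G.Km x := by
  intro k
  have h1 := congrArg (eval x) (G.pnt v w k)
  rw [eval_ct_brk] at h1
  simp only [map_add, map_sub, map_mul, G.eval_q, hv, hw, zero_mul, add_zero, sub_zero,
    G.dv_eval] at h1
  rw [eval_avt]
  show (∑ i, (G.B v (G.B w x) i - G.B w (G.B v x) i) * eval x (θ i k)) +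
    (G.c v (G.B w x) - G.c w (G.B v x)) * eval x (G.τ k) = 0
  rw [← h1, ← Finset.sum_add_distrib]
  refine Finset.sum_eq_zero fun i _ => ?_
  ring

theorem Cx.mt (r : V5) (hr : ∀ x, G.c r x = 0) : ∃ m : V5 × ℂ, ∀ v x,
    btm G.B G.c v (G.B r x) - btm G.B G.c r (G.B v x) + G.c v x • m ∈ G.Km x := by
  have hd := G.cy.fol.dec
  have hτ := mem_EE.mp G.hτ
  have hq : G.q r = 0 := by
    unfold Cx.q
    refine Finset.sum_eq_zero fun j _ => ?_
    rw [hr, C_0, zero_mul]
  have hct : ∀ j, ct (G.fld r) θ j = 0 := by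
    intro j
    have := G.rel r j
    rwa [hq, zero_mul, add_zero] at this
  have hmem : ct (G.fld r) (dd G.τ) ∈ EE θ 3 := by
    rw [mem_EE]
    refine ⟨fun i => ?_, fun i j k => ctdd_mem G.cy.fol.closed hd.2.1 hτ.2 hct i j k⟩
    unfold ct
    apply IsHomogeneous.sum
    intro l _
    have h1 : (G.fld r l).IsHomogeneous 1 := by
      unfold Cx.fld linF
      apply IsHomogeneous.sum
      intro j _
      apply IsHomogeneous.C_mul
      exact isHomogeneous_X ℂ j
    have h2 : (dd G.τ l i).IsHomogeneous 2 := by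
      unfold dd
      exact ((hτ.1 i).pderiv).sub ((hτ.1 l).pderiv)
    exact h1.mul h2
  obtain ⟨m, hm⟩ := G.rep _ hmem
  refine ⟨m, fun v x k => ?_⟩
  have h1 := congrArg (eval x) (G.pnt r v k)
  rw [eval_ct_brk, hm] at h1
  simp only [map_add, map_sub, map_mul, G.eval_q, hr, zero_mul, add_zero, zero_sub,
    G.dv_eval] at h1
  have h3 := eval_avt G m x k
  rw [eval_avt]
  show (∑ i, (G.B v (G.B r x) i - G.B r (G.B v x) i + G.c v x * m.1 i) * eval x (θ i k)) +
    (G.c v (G.B r x) - G.c r (G.B v x) + G.c v x * m.2) * eval x (G.τ k) = 0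
  have h4 : ∑ i, (G.B v (G.B r x) i - G.B r (G.B v x) i + G.c v x * m.1 i) * eval x (θ i k) =
      (∑ i, (G.B v (G.B r x) i - G.B r (G.B v x) i) * eval x (θ i k)) +
        G.c v x * ∑ i, m.1 i * eval x (θ i k) := by
    rw [Finset.mul_sum, ← Finset.sum_add_distrib]
    refine Finset.sum_congr rfl fun i _ => ?_
    ring
  rw [h4, hr]
  linear_combination h1 - G.c v x * h3

theorem Cx.tr (hc : G.c ≠ 0) (r : Fin 3 → V5) (hr : LinearIndependent ℂ r)
    (hr0 : ∀ l x, G.c (r l) x = 0) (M : V5) (hM : ∀ x, G.c M x = 0) (γ : Fin 3 → Fin 3 → ℂ)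
    (hγ : ∀ l x, G.B M (G.B (r l) x) - G.B (r l) (G.B M x) = ∑ k, γ l k • G.B (r k) x) :
    LinearMap.trace ℂ V5 (G.B M) = ∑ l, γ l l := by
  classical
  have hKL : ∀ v, (∀ x, G.c v x = 0) → (fun i j => G.B v (Pi.single j 1) i) ∈ KL θ := by
    intro v hv j
    have hq : G.q v = 0 := by
      unfold Cx.q
      refine Finset.sum_eq_zero fun j _ => ?_
      rw [hv, C_0, zero_mul]
    have := G.rel v j
    rwa [hq, zero_mul, add_zero] at this
  -- a general point
  obtain ⟨x0, hx1, hx2⟩ : ∃ x0 : V5, (∀ u, btm G.B G.c u x0 = 0 → ∃ t : ℂ, u = t • x0) ∧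
      x0 ∉ Submodule.span ℂ (Set.range r) := by
    have hlt : Submodule.span ℂ (Set.range r) < ⊤ := by
      rw [lt_top_iff_ne_top]
      intro htop
      have h1 := finrank_span_eq_card hr
      rw [htop, finrank_top, Module.finrank_fin_fun, Fintype.card_fin] at h1
      omega
    obtain ⟨f, hf, hle⟩ := Submodule.exists_le_ker_of_lt_top _ hlt
    obtain ⟨F, hF, hFx⟩ := G.hgen
    have hf' : (∑ j, C (f (Pi.single j 1)) * X j : Pn 5) ≠ 0 := by
      intro h0
      apply hf
      apply LinearMap.ext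
      intro y
      have h1 := congrArg (eval y) h0
      rw [map_sum, map_zero] at h1
      rw [LinearMap.zero_apply, ← lin_sum f y, ← h1]
      refine Finset.sum_congr rfl fun j _ => ?_
      rw [map_mul, eval_C, eval_X, mul_comm]
    obtain ⟨x0, hx0⟩ : ∃ x, eval x (F * ∑ j, C (f (Pi.single j 1)) * X j) ≠ 0 := by
      by_contra hcon
      push Not at hcon
      apply mul_ne_zero hF hf'
      apply MvPolynomial.funext
      intro x
      rw [hcon x, map_zero]
    rw [map_mul] at hx0
    refine ⟨x0, hFx x0 (left_ne_zero_of_mul hx0), fun hmem => ?_⟩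
    apply right_ne_zero_of_mul hx0
    have h1 : f x0 = 0 := hle hmem
    rw [map_sum, ← h1, ← lin_sum f x0]
    refine Finset.sum_congr rfl fun j _ => ?_
    rw [map_mul, eval_C, eval_X, mul_comm]
  have hsum : ∀ (v y : V5) (i : Fin 5), ∑ k, G.B v (Pi.single k 1) i * y k = G.B v y i := by
    intro v y i
    rw [← lin_sum' (G.B v) y i]
    exact Finset.sum_congr rfl fun k _ => mul_comm _ _
  have key := tr3 G.cy.fol (fun l i j => G.B (r l) (Pi.single j 1) i) (fun l => hKL (r l) (hr0 l))
    x0 (by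
      have h1 : (fun (l : Fin 3) (i : Fin 5) => ∑ j, G.B (r l) (Pi.single j 1) i * x0 j) =
          fun l => G.B (r l) x0 := by
        funext l i
        exact hsum (r l) x0 i
      rw [h1, Fintype.linearIndependent_iff]
      intro t ht
      have h2 : btm G.B G.c (∑ l, t l • r l) x0 = 0 := by
        apply Prod.ext
        · show G.B (∑ l, t l • r l) x0 = 0
          rw [← ht, map_sum, LinearMap.sum_apply]
          exact Finset.sum_congr rfl fun l _ => by rw [map_smul, LinearMap.smul_apply]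
        · show G.c (∑ l, t l • r l) x0 = 0
          rw [map_sum, LinearMap.sum_apply]
          exact Finset.sum_eq_zero fun l _ => by
            rw [map_smul, LinearMap.smul_apply, hr0, smul_zero]
      obtain ⟨s, hs⟩ := hx1 _ h2
      have hs0 : s = 0 := by
        by_contra hne
        apply hx2
        have h3 : x0 = s⁻¹ • ∑ l, t l • r l := by
          rw [hs, smul_smul, inv_mul_cancel₀ hne, one_smul]
        rw [h3]
        apply Submodule.smul_mem
        apply Submodule.sum_mem
        intro l _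
        exact Submodule.smul_mem _ _ (Submodule.subset_span ⟨l, rfl⟩)
      rw [hs0, zero_smul] at hs
      exact (Fintype.linearIndependent_iff.mp hr) t hs)
    (fun i j => G.B M (Pi.single j 1) i) (hKL M hM) γ (by
      intro l i j
      rw [Finset.sum_sub_distrib]
      have h1 := congrFun (hγ l (Pi.single j 1)) i
      rw [Pi.sub_apply, Finset.sum_apply] at h1
      rw [hsum M (G.B (r l) (Pi.single j 1)) i, hsum (r l) (G.B M (Pi.single j 1)) i, h1]
      exact Finset.sum_congr rfl fun k _ => by rw [Pi.smul_apply, smul_eq_mul])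
  rw [← key, LinearMap.trace_eq_matrix_trace ℂ (Pi.basisFun ℂ (Fin 5))]
  unfold Matrix.trace
  refine Finset.sum_congr rfl fun i _ => ?_
  rw [Matrix.diag_apply, LinearMap.toMatrix_apply]
  simp

end Pool.Agent.Helper50.FC
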