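import Pool.Agent.Helper50.FC.CxInv
import Pool.Agent.Helper50.FC.CxPt
import Pool.Agent.Helper50.FC.BDf

/-! K1-36: case Y, `z = 4`, `e_3 = 6`, `ker Bt = 0` is impossible.
* `Cx.c_ne`: `onto`.
* `z4_ii`: `av θ` is injective (no cone) with values in `EE θ 3` (`av_mem_EE`), so there is `τ ∈ EE θ 3` outside, `EE θ 3 = av ⊕ ℂ τ` (dimension 6 = 5 + 1); `B`, `c` = coordinates
  of `Bt`. -/

set_option autoImplicit false

namespace Pool.Agent.Helper50.FC

open MvPolynomial
open scoped BigOperators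
open Pool.Agent.Helper71.FL (w12 pf ct Dec Closed dd at0 res)
open Pool.Agent.Helper71.FC

theorem Cx.c_ne {θ : F2 5} (G : Cx θ) : G.c ≠ 0 := by
  intro h
  have h1 : Submodule.span ℂ (Set.range fun p : V5 × V5 => btm G.B G.c p.1 p.2) ≤
      LinearMap.ker (LinearMap.snd ℂ V5 ℂ) := by
    rw [Submodule.span_le]
    rintro _ ⟨p, rfl⟩
    show (G.c p.1) p.2 = 0
    rw [h]
    rfl
  rw [G.onto] at h1
  have h2 : ((0 : V5), (1 : ℂ)) ∈ LinearMap.ker (LinearMap.snd ℂ V5 ℂ) := h1 Submodule.mem_top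
  have h3 : (1 : ℂ) = 0 := h2
  exact one_ne_zero h3

theorem Cx.false {θ : F2 5} (G : Cx θ) : False :=
  BD.false
    { B := G.B
      c := G.c
      K := G.Km
      altB := G.altB
      altc := G.altc
      k1 := fun v x => G.hK v x
      k2 := fun Ψ S hS h => G.k2 Ψ S hS h
      k3 := fun u h => G.k3 u h
      rk3 := fun v hv => G.rk3 v hv
      onto := G.onto
      inv1 := fun f S hS h => G.inv1 f S hS h
      inv2 := fun k S hS hk h => G.inv2 k S hS hk h
      pt := fun v w x hv hw => G.pt v w x hv hw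
      mt := fun r hr => G.mt r hr
      tr := fun r hr hr0 M hM γ hγ => G.tr G.c_ne r hr hr0 M hM γ hγ }

/-- `v ↦ av θ v` as a linear map to `EE θ 3` -/
private noncomputable def avL {θ : F2 5} (h : CY θ) : V5 →ₗ[ℂ] EE θ 3 where
  toFun := fun v => ⟨av θ v, av_mem_EE h.fol.dec h.fol.hom v⟩
  map_add' := by
    intro v w
    refine Subtype.ext (_root_.funext fun i => ?_)
    show av θ (v + w) i = av θ v i + av θ w i
    unfold av ct cv
    rw [← Finset.sum_add_distrib]
    refine Finset.sum_congr rfl fun j _ => ?_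
    rw [Pi.add_apply, C_add, add_mul]
  map_smul' := by
    intro t v
    refine Subtype.ext (_root_.funext fun i => ?_)
    show av θ (t • v) i = t • av θ v i
    rw [smul_eq_C_mul]
    unfold av ct cv
    rw [Finset.mul_sum]
    refine Finset.sum_congr rfl fun j _ => ?_
    rw [Pi.smul_apply, smul_eq_mul, C_mul, mul_assoc]

private theorem avL_inj {θ : F2 5} (h : CY θ) (v : V5) (hv : avL h v = 0) : v = 0 := by
  by_contra hc
  refine h.nc ⟨v, hc, fun j => ?_⟩
  have h1 : av θ v = 0 := congrArg Subtype.val hv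
  rw [h1]
  rfl

theorem z4_ii {θ : F2 5} (h : CY θ) (h6 : Module.finrank ℂ (EE θ 3) = 6)
    (Bt : V5 →ₗ[ℂ] V5 →ₗ[ℂ] EE θ 3) (halt : ∀ x, Bt x x = 0)
    (hK : ∀ v x i, eval x ((Bt v x : F1 5) i) = 0) (hinj : ∀ v, Bt v = 0 → v = 0)
    (hRL : ∀ Ψ : V5 →ₗ[ℂ] EE θ 3, (∀ x i, eval x ((Ψ x : F1 5) i) = 0) → ∃ z, Ψ = Bt z)
    (hgen : Gen (fun x : V5 => ∀ u, Bt u x = 0 → ∃ t : ℂ, u = t • x)) : False := by
  have hfin : Module.Finite ℂ (EE θ 3) := finite_EE θ 3
  -- an element outside of the range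
  have hlt : LinearMap.range (avL h) < ⊤ := by
    rw [lt_top_iff_ne_top]
    intro htop
    have h1 : Module.finrank ℂ (LinearMap.range (avL h)) ≤ Module.finrank ℂ V5 :=
      LinearMap.finrank_range_le (avL h)
    rw [htop, finrank_top, h6, Module.finrank_fin_fun] at h1
    omega
  obtain ⟨τ, -, hτ⟩ := SetLike.exists_of_lt hlt
  -- the coordinates
  let L : V5 × ℂ →ₗ[ℂ] EE θ 3 := (avL h).coprod (LinearMap.toSpanSingleton ℂ (EE θ 3) τ)
  have hL : ∀ p, L p = avL h p.1 + p.2 • τ := fun p => by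
    show ((avL h).coprod (LinearMap.toSpanSingleton ℂ (EE θ 3) τ)) p = _
    rw [LinearMap.coprod_apply, LinearMap.toSpanSingleton_apply]
  have hLinj : Function.Injective L := by
    rw [← LinearMap.ker_eq_bot, LinearMap.ker_eq_bot']
    intro p hp
    rw [hL] at hp
    have h2 : p.2 = 0 := by
      by_contra hc
      refine hτ ⟨-(p.2⁻¹ • p.1), ?_⟩
      rw [map_neg, map_smul, eq_neg_of_add_eq_zero_left hp, smul_neg, neg_neg, smul_smul,
        inv_mul_cancel₀ hc, one_smul]
    rw [h2, zero_smul, add_zero] at hp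
    exact Prod.ext (avL_inj h _ hp) h2
  have hdim : Module.finrank ℂ (V5 × ℂ) = Module.finrank ℂ (EE θ 3) := by
    rw [h6, Module.finrank_prod, Module.finrank_fin_fun, Module.finrank_self]
  let Φ : (V5 × ℂ) ≃ₗ[ℂ] EE θ 3 := LinearMap.linearEquivOfInjective L hLinj hdim
  have hΦ : ∀ p, Φ p = L p := fun p => LinearMap.linearEquivOfInjective_apply hLinj hdim p
  have hav : ∀ p, avt θ (τ : F1 5) p = (Φ p : F1 5) := by
    intro p
    rw [hΦ, hL]
    refine _root_.funext fun i => ?_
    show av θ p.1 i + C p.2 * (τ : F1 5) i = av θ p.1 i + p.2 • (τ : F1 5) i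
    rw [smul_eq_C_mul]
  let B : V5 →ₗ[ℂ] V5 →ₗ[ℂ] V5 := Bt.compr₂ ((LinearMap.fst ℂ V5 ℂ).comp Φ.symm.toLinearMap)
  let c : V5 →ₗ[ℂ] V5 →ₗ[ℂ] ℂ := Bt.compr₂ ((LinearMap.snd ℂ V5 ℂ).comp Φ.symm.toLinearMap)
  have hbt : ∀ v x, btm B c v x = Φ.symm (Bt v x) := fun v x => rfl
  have hbt' : ∀ v x, Φ (btm B c v x) = Bt v x := fun v x => by
    rw [hbt, LinearEquiv.apply_symm_apply]
  exact Cx.false (θ := θ)
    { cy := h
      τ := (τ : F1 5)
      hτ := τ.2
      B := B
      c := c
      rep := by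
        intro f hf
        refine ⟨Φ.symm ⟨f, hf⟩, ?_⟩
        rw [hav, LinearEquiv.apply_symm_apply]
      inj := by
        intro p hp
        rw [hav] at hp
        have h1 : Φ p = 0 := Subtype.ext hp
        exact (LinearEquiv.map_eq_zero_iff Φ).1 h1
      altB := by
        intro v
        show (Φ.symm (Bt v v)).1 = 0
        rw [halt, map_zero]
        rfl
      altc := by
        intro v
        show (Φ.symm (Bt v v)).2 = 0
        rw [halt, map_zero]
        rfl
      hK := by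
        intro v x i
        rw [hav, hbt']
        exact hK v x i
      hRL := by
        intro Ψ hΨ
        obtain ⟨z, hz⟩ := hRL (Φ.toLinearMap.comp Ψ) (fun x i => by
          have h1 := hΨ x i
          rw [hav] at h1
          exact h1)
        refine ⟨z, LinearMap.ext fun x => ?_⟩
        rw [hbt, ← hz]
        show Ψ x = Φ.symm (Φ (Ψ x))
        rw [LinearEquiv.symm_apply_apply]
      hgen := by
        refine hgen.mono fun x hx u hu => hx u ?_
        rw [← hbt', hu, map_zero]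
      hinj := by
        intro v hv
        refine hinj v (LinearMap.ext fun x => ?_)
        rw [← hbt', hv]
        show Φ 0 = 0
        rw [map_zero] }

end Pool.Agent.Helper50.FC
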