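import Pool.Agent.Helper50.FC.CartanL

/-! K1-26: case `z = 4`, `ker Bt = 0`: the abstract linear algebra data and the Jacobi defect.
Origin of the data (not needed for the proofs): `F = EE θ 3 = av(V) ⊕ ℂ τ ≅ V × ℂ`, `K x = {f ∈ F : f(x) = 0}`, `Bt v x = (B v x, c v x) ∈ K x`.
* `BD.defect`: for `c r · = 0`: take `m` from `mt`; adding `-(B (B v r) x, c (B v r) x) ∈ K x` (`k1`) we get `(J v r x, Jc v r x) + c v x • m ∈ K x`
  for all `v, x`, linear in `x`, so by `k2` (`S = ⊥`) equal to `(B (u v) x, c (u v) x)`; `z ↦ (B z ·, c z ·)` is injective (`rk3`), so `u` is linear in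
  `v`; `x = v` gives `B (u v) v = 0`, `c (u v) v = 0`, so `u v = t • v` (`k3`); `v = r` gives `t = 0` (if `r ≠ 0`).
* `alt_cases`: normal form of an alternating bilinear form on a space of dimension 5. -/

set_option autoImplicit false

namespace Pool.Agent.Helper50.FC

open scoped BigOperators

/-- `ℂ^5` -/
abbrev V5 : Type := Fin 5 → ℂ

/-- `x ↦ (B v x, c v x)` -/
def btm (B : V5 →ₗ[ℂ] V5 →ₗ[ℂ] V5) (c : V5 →ₗ[ℂ] V5 →ₗ[ℂ] ℂ) (v : V5) : V5 →ₗ[ℂ] V5 × ℂ :=
  (B v).prod (c v)

/-- the data -/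
structure BD where
  B : V5 →ₗ[ℂ] V5 →ₗ[ℂ] V5
  c : V5 →ₗ[ℂ] V5 →ₗ[ℂ] ℂ
  K : V5 → Submodule ℂ (V5 × ℂ)
  altB : ∀ v, B v v = 0
  altc : ∀ v, c v v = 0
  k1 : ∀ v x, btm B c v x ∈ K x
  k2 : ∀ (Ψ : V5 →ₗ[ℂ] V5 × ℂ) (S : Submodule ℂ V5), S ≠ ⊤ → (∀ x, x ∉ S → Ψ x ∈ K x) →
    ∃ z, Ψ = btm B c z
  k3 : ∀ u : V5 →ₗ[ℂ] V5, (∀ v, btm B c (u v) v = 0) → ∃ t : ℂ, ∀ v, u v = t • v
  rk3 : ∀ v, v ≠ 0 → 3 ≤ Module.finrank ℂ (LinearMap.range (btm B c v))
  onto : Submodule.span ℂ (Set.range fun p : V5 × V5 => btm B c p.1 p.2) = ⊤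
  inv1 : ∀ (f : V5 →ₗ[ℂ] ℂ) (S : Submodule ℂ V5), S ≠ ⊤ →
    (∀ x, x ∉ S → ∀ y, c y x = 0 → f (B y x) = 0) → f = 0
  inv2 : ∀ (k : V5 →ₗ[ℂ] V5 →ₗ[ℂ] ℂ) (S : Submodule ℂ V5), S ≠ ⊤ → (∀ x y, k x y = k y x) →
    (∀ x, x ∉ S → ∀ y, c y x = 0 → k x (B y x) = 0) → k = 0
  pt : ∀ v w x, c v x = 0 → c w x = 0 → btm B c v (B w x) - btm B c w (B v x) ∈ K x
  mt : ∀ r, (∀ x, c r x = 0) → ∃ m : V5 × ℂ, ∀ v x,
    btm B c v (B r x) - btm B c r (B v x) + c v x • m ∈ K x
  tr : ∀ r : Fin 3 → V5, LinearIndependent ℂ r → (∀ l x, c (r l) x = 0) → ∀ M, (∀ x, c M x = 0) →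
    ∀ γ : Fin 3 → Fin 3 → ℂ, (∀ l x, B M (B (r l) x) - B (r l) (B M x) = ∑ k, γ l k • B (r k) x) →
    LinearMap.trace ℂ V5 (B M) = ∑ l, γ l l

variable (D : BD)

/-- the Jacobi defect -/
def BD.J (v w x : V5) : V5 × ℂ :=
  btm D.B D.c v (D.B w x) + btm D.B D.c w (D.B x v) + btm D.B D.c x (D.B v w)

theorem BD.skewB (v w : V5) : D.B v w = -D.B w v := by
  have h := D.altB (v + w)
  simp only [map_add, LinearMap.add_apply, D.altB, zero_add, add_zero] at h
  exact eq_neg_of_add_eq_zero_right h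

theorem BD.skewc (v w : V5) : D.c v w = -D.c w v := by
  have h := D.altc (v + w)
  simp only [map_add, LinearMap.add_apply, D.altc, zero_add, add_zero] at h
  exact eq_neg_of_add_eq_zero_right h

theorem BD.defect (r : V5) (hr : ∀ x, D.c r x = 0) :
    ∃ m : V5 × ℂ, ∀ v x, D.J v r x = -(D.c v x) • m := by
  by_cases hr0 : r = 0
  · refine ⟨0, fun v x => ?_⟩
    subst hr0
    unfold BD.J
    simp [btm]
  obtain ⟨m, hm⟩ := D.mt r hr
  refine ⟨m, ?_⟩
  have hsk : ∀ a b : V5, btm D.B D.c a b = -btm D.B D.c b a := by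
    intro a b
    refine Prod.ext ?_ ?_
    · exact D.skewB a b
    · exact D.skewc a b
  have hself : ∀ a : V5, btm D.B D.c a a = 0 := fun a => Prod.ext (D.altB a) (D.altc a)
  have hadd : ∀ a b x : V5, btm D.B D.c (a + b) x = btm D.B D.c a x + btm D.B D.c b x := by
    intro a b x
    refine Prod.ext ?_ ?_
    · show D.B (a + b) x = D.B a x + D.B b x
      rw [map_add, LinearMap.add_apply]
    · show D.c (a + b) x = D.c a x + D.c b x
      rw [map_add, LinearMap.add_apply]
  have hsmul : ∀ (t : ℂ) (a x : V5), btm D.B D.c (t • a) x = t • btm D.B D.c a x := by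
    intro t a x
    refine Prod.ext ?_ ?_
    · show D.B (t • a) x = t • D.B a x
      rw [map_smul, LinearMap.smul_apply]
    · show D.c (t • a) x = t • D.c a x
      rw [map_smul, LinearMap.smul_apply]
  have hinj : ∀ z : V5, (∀ x, btm D.B D.c z x = 0) → z = 0 := by
    intro z hz
    by_contra hne
    have h1 := D.rk3 z hne
    have h2 : btm D.B D.c z = 0 := LinearMap.ext hz
    rw [h2, LinearMap.range_zero, finrank_bot] at h1
    omega
  have htop : (⊥ : Submodule ℂ V5) ≠ ⊤ := bot_ne_top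
  -- the linear map
  have hex : ∀ v : V5, ∃ z, ∀ x, D.J v r x + D.c v x • m = btm D.B D.c z x := by
    intro v
    obtain ⟨z, hz⟩ := D.k2 ((btm D.B D.c v).comp (D.B r) - (btm D.B D.c r).comp (D.B v)
      - btm D.B D.c (D.B v r) + (D.c v).smulRight m) ⊥ htop (by
        intro x _
        have h1 := hm v x
        have h2 := D.k1 (D.B v r) x
        have h3 := (D.K x).sub_mem h1 h2
        have h4 : ((btm D.B D.c v).comp (D.B r) - (btm D.B D.c r).comp (D.B v)
            - btm D.B D.c (D.B v r) + (D.c v).smulRight m) x =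
            btm D.B D.c v (D.B r x) - btm D.B D.c r (D.B v x) + D.c v x • m -
              btm D.B D.c (D.B v r) x := by
          simp only [LinearMap.add_apply, LinearMap.sub_apply, LinearMap.comp_apply,
            LinearMap.smulRight_apply]
          abel
        rw [h4]
        exact h3)
    refine ⟨z, fun x => ?_⟩
    rw [← hz]
    simp only [LinearMap.add_apply, LinearMap.sub_apply, LinearMap.comp_apply,
      LinearMap.smulRight_apply]
    unfold BD.J
    rw [hsk x (D.B v r), D.skewB x v, map_neg]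
    abel
  choose u hu using hex
  have hJadd : ∀ v w x, D.J (v + w) r x = D.J v r x + D.J w r x := by
    intro v w x
    unfold BD.J
    rw [hadd, map_add (D.B x), map_add (btm D.B D.c r), map_add D.B, LinearMap.add_apply,
      map_add (btm D.B D.c x)]
    abel
  have hJsmul : ∀ (t : ℂ) v x, D.J (t • v) r x = t • D.J v r x := by
    intro t v x
    unfold BD.J
    rw [hsmul, map_smul (D.B x), map_smul (btm D.B D.c r), map_smul D.B, LinearMap.smul_apply,
      map_smul (btm D.B D.c x), smul_add, smul_add]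
  have hulin : ∃ U : V5 →ₗ[ℂ] V5, ∀ v, U v = u v := by
    refine ⟨{ toFun := u, map_add' := ?_, map_smul' := ?_ }, fun v => rfl⟩
    · intro v w
      rw [← sub_eq_zero]
      refine hinj _ fun x => ?_
      rw [sub_eq_add_neg, hadd, ← neg_one_smul ℂ (u v + u w), hsmul, hadd, ← hu, ← hu, ← hu, hJadd,
        map_add, LinearMap.add_apply, add_smul]
      module
    · intro t v
      rw [← sub_eq_zero]
      refine hinj _ fun x => ?_
      rw [RingHom.id_apply, sub_eq_add_neg, hadd, ← neg_one_smul ℂ (t • u v), hsmul, hsmul, ← hu, ← hu,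
        hJsmul, map_smul, LinearMap.smul_apply, smul_eq_mul]
      module
  obtain ⟨U, hU⟩ := hulin
  obtain ⟨t, ht⟩ := D.k3 U (by
    intro v
    rw [hU, ← hu, D.altc, zero_smul, add_zero]
    unfold BD.J
    rw [D.altB, map_zero, D.skewB r v, map_neg]
    abel)
  have h0 : t • r = 0 := by
    refine hinj _ fun x => ?_
    rw [← ht, hU, ← hu, hr, zero_smul, add_zero]
    unfold BD.J
    rw [D.altB, map_zero, D.skewB x r, map_neg]
    abel
  have ht0 : t = 0 := by
    rcases smul_eq_zero.1 h0 with h | h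
    · exact h
    · exact absurd h hr0
  intro v x
  have h1 := hu v x
  rw [← hU, ht, ht0, zero_smul] at h1
  have h2 : btm D.B D.c 0 x = 0 := by
    have := hsmul 0 0 x
    rwa [zero_smul, zero_smul] at this
  rw [h2] at h1
  rw [neg_smul]
  exact eq_neg_of_add_eq_zero_left h1

/-- rank 2 -/
def nf2 : Fin 5 → Fin 5 → ℂ :=
  fun i j => if i = 3 ∧ j = 4 then 1 else if i = 4 ∧ j = 3 then -1 else 0

/-- rank 4 -/
def nf4 : Fin 5 → Fin 5 → ℂ :=
  fun i j => if i = 1 ∧ j = 2 then 1 else if i = 2 ∧ j = 1 then -1 else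
    if i = 3 ∧ j = 4 then 1 else if i = 4 ∧ j = 3 then -1 else 0

theorem alt_cases (c : V5 →ₗ[ℂ] V5 →ₗ[ℂ] ℂ) (h : ∀ v, c v v = 0) :
    c = 0 ∨ (∃ e : Module.Basis (Fin 5) ℂ V5, ∀ i j, c (e i) (e j) = nf2 i j) ∨
      ∃ e : Module.Basis (Fin 5) ℂ V5, ∀ i j, c (e i) (e j) = nf4 i j := by
  have hsk : ∀ a b, c a b = -c b a := by
    intro a b
    have h1 := h (a + b)
    simp only [map_add, LinearMap.add_apply, h, zero_add, add_zero] at h1
    exact eq_neg_of_add_eq_zero_right h1
  by_cases hc : c = 0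
  · exact Or.inl hc
  refine Or.inr ?_
  obtain ⟨a, b, hab⟩ : ∃ a b, c a b = 1 := by
    by_contra hn
    push_neg at hn
    apply hc
    refine LinearMap.ext fun a => LinearMap.ext fun b => ?_
    by_contra hne
    apply hn ((c a b)⁻¹ • a) b
    rw [map_smul, LinearMap.smul_apply, smul_eq_mul]
    exact inv_mul_cancel₀ hne
  have hba : c b a = -1 := by rw [hsk, hab]
  have hV : Module.finrank ℂ V5 = 5 := by simp [V5]
  by_cases h2 : ∀ p q, c a p = 0 → c b p = 0 → c a q = 0 → c b q = 0 → c p q = 0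
  · left
    have h3 : 3 ≤ Module.finrank ℂ (LinearMap.ker ((c a).prod (c b))) := by
      have h4 := LinearMap.finrank_range_add_finrank_ker ((c a).prod (c b))
      have h5 : Module.finrank ℂ (LinearMap.range ((c a).prod (c b))) ≤ 2 := by
        refine (Submodule.finrank_le _).trans ?_
        simp
      omega
    obtain ⟨w, hw⟩ := exists_linearIndependent_of_le_finrank h3
    have hwk : ∀ i, c a (w i) = 0 ∧ c b (w i) = 0 := by
      intro i
      have h4 := (w i).2
      rw [LinearMap.mem_ker] at h4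
      exact ⟨congrArg Prod.fst h4, congrArg Prod.snd h4⟩
    have hw' : LinearIndependent ℂ (fun i => (w i : V5)) :=
      hw.map' (Submodule.subtype _) (Submodule.ker_subtype _)
    have hwa : ∀ i, c (w i) a = 0 := fun i => by rw [hsk, (hwk i).1, neg_zero]
    have hwb : ∀ i, c (w i) b = 0 := fun i => by rw [hsk, (hwk i).2, neg_zero]
    have hww : ∀ i j, c (w i) (w j) = 0 := fun i j =>
      h2 _ _ (hwk i).1 (hwk i).2 (hwk j).1 (hwk j).2
    have hli : LinearIndependent ℂ ![(w 0 : V5), w 1, w 2, a, b] := by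
      rw [Fintype.linearIndependent_iff]
      intro g hg
      rw [Fin.sum_univ_five] at hg
      simp only [Matrix.cons_val] at hg
      have e1 := congrArg (c a) hg
      have e2 := congrArg (c b) hg
      simp only [map_add, map_smul, smul_eq_mul, map_zero, (hwk _).1, (hwk _).2, h, hab, hba,
        mul_zero, zero_add, add_zero, mul_one, mul_neg, neg_eq_zero] at e1 e2
      rw [e1, e2, zero_smul, zero_smul, add_zero, add_zero] at hg
      rw [Fintype.linearIndependent_iff] at hw'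
      have h6 := hw' ![g 0, g 1, g 2] (by
        rw [Fin.sum_univ_three]
        simpa using hg)
      intro i
      fin_cases i
      · exact h6 0
      · exact h6 1
      · exact h6 2
      · exact e2
      · exact e1
    refine ⟨basisOfLinearIndependentOfCardEqFinrank hli (by rw [hV]; rfl), ?_⟩
    intro i j
    rw [coe_basisOfLinearIndependentOfCardEqFinrank]
    fin_cases i <;> fin_cases j <;>
      simp [nf2, hwa, hwb, hww, h, hab, hba, (hwk _).1, (hwk _).2]
  · right
    push_neg at h2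
    obtain ⟨p', q, hap', hbp', haq, hbq, hpq'⟩ := h2
    obtain ⟨p, hap, hbp, hpq⟩ : ∃ p, c a p = 0 ∧ c b p = 0 ∧ c p q = 1 := by
      refine ⟨(c p' q)⁻¹ • p', ?_, ?_, ?_⟩
      · rw [map_smul, hap', smul_zero]
      · rw [map_smul, hbp', smul_zero]
      · rw [map_smul, LinearMap.smul_apply, smul_eq_mul]
        exact inv_mul_cancel₀ hpq'
    have hqp : c q p = -1 := by rw [hsk, hpq]
    have hpa : c p a = 0 := by rw [hsk, hap, neg_zero]
    have hpb : c p b = 0 := by rw [hsk, hbp, neg_zero]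
    have hqa : c q a = 0 := by rw [hsk, haq, neg_zero]
    have hqb : c q b = 0 := by rw [hsk, hbq, neg_zero]
    obtain ⟨w, hw0, haw, hbw, hpw, hqw⟩ : ∃ w, w ≠ 0 ∧ c a w = 0 ∧ c b w = 0 ∧ c p w = 0 ∧ c q w = 0 := by
      have h3 := LinearMap.ker_ne_bot_of_finrank_lt
        (f := (((c a).prod (c b)).prod ((c p).prod (c q)))) (by
          rw [hV]
          simp)
      obtain ⟨w, hw1, hw2⟩ := (Submodule.ne_bot_iff _).1 h3
      rw [LinearMap.mem_ker] at hw1
      exact ⟨w, hw2, congrArg (fun t => t.1.1) hw1, congrArg (fun t => t.1.2) hw1,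
        congrArg (fun t => t.2.1) hw1, congrArg (fun t => t.2.2) hw1⟩
    have hwa : c w a = 0 := by rw [hsk, haw, neg_zero]
    have hwb : c w b = 0 := by rw [hsk, hbw, neg_zero]
    have hwp : c w p = 0 := by rw [hsk, hpw, neg_zero]
    have hwq : c w q = 0 := by rw [hsk, hqw, neg_zero]
    have hli : LinearIndependent ℂ ![w, p, q, a, b] := by
      rw [Fintype.linearIndependent_iff]
      intro g hg
      rw [Fin.sum_univ_five] at hg
      simp only [Matrix.cons_val] at hg
      have e1 := congrArg (c a) hg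
      have e2 := congrArg (c b) hg
      have e3 := congrArg (c p) hg
      have e4 := congrArg (c q) hg
      simp only [map_add, map_smul, smul_eq_mul, map_zero, haw, hbw, hpw, hqw, hap, hbp, haq, hbq,
        hpa, hpb, hqa, hqb, hpq, hqp, h, hab, hba,
        mul_zero, zero_add, add_zero, mul_one, mul_neg, neg_eq_zero] at e1 e2 e3 e4
      rw [e1, e2, e3, e4] at hg
      simp only [zero_smul, add_zero] at hg
      have e0 : g 0 = 0 := by
        rcases smul_eq_zero.1 hg with h' | h'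
        · exact h'
        · exact absurd h' hw0
      intro i
      fin_cases i
      · exact e0
      · exact e4
      · exact e3
      · exact e2
      · exact e1
    refine ⟨basisOfLinearIndependentOfCardEqFinrank hli (by rw [hV]; rfl), ?_⟩
    intro i j
    rw [coe_basisOfLinearIndependentOfCardEqFinrank]
    fin_cases i <;> fin_cases j <;>
      simp [nf4, haw, hbw, hpw, hqw, hap, hbp, haq, hbq, hpa, hpb, hqa, hqb, hpq, hqp, h, hab, hba,
        hwa, hwb, hwp, hwq]

/-- `onto` fails if `c = 0` -/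
theorem BD.c_ne : D.c ≠ 0 := by
  intro h
  have h1 : Submodule.span ℂ (Set.range fun p : V5 × V5 => btm D.B D.c p.1 p.2) ≤
      LinearMap.ker (LinearMap.snd ℂ V5 ℂ) := by
    rw [Submodule.span_le]
    rintro _ ⟨p, rfl⟩
    show (D.c p.1) p.2 = 0
    rw [h]
    rfl
  rw [D.onto] at h1
  have h2 : ((0 : V5), (1 : ℂ)) ∈ LinearMap.ker (LinearMap.snd ℂ V5 ℂ) := h1 Submodule.mem_top
  have h3 : (1 : ℂ) = 0 := h2
  exact one_ne_zero h3

end Pool.Agent.Helper50.FC
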