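import Pool.Agent.Helper50.FC.BD

/-! K1-28: the abstract data with `c` of rank 2: the representation `r ↦ B r` of `R = {r : c r · = 0}` on `V5`.
`c (e i) (e j) = nf2 i j`, so `R = <e 0, e 1, e 2>`; `W = V5 / R` with the volume form `c`.
* `BD.rep`, `BD.rep_mem`: the two components of `J r r' x = 0` (`BD.defect` with `v = r'`; `btm` is skew).
* `BD.sympl`: the second component of `BD.defect` is `c v (B r x) + c (B r v) x = -(c v x) * m.2`.  By `D.tr` for `r_l = e l` (`l = 0, 1, 2`), `M = r`, `γ l k` = coordinates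
  of `B r (e l) ∈ R` (use `rep`, `rep_mem`), the trace of `B r` is the trace of its block on `R`, so `(B r (e 3))_3 + (B r (e 4))_4 = 0`; take `v = e 3`, `x = e 4`: `m.2 = 0`.
  Hence `q_r (v, w) := c v (B r w)` is symmetric and vanishes if `w ∈ R` or `v ∈ R`.
* `BD.r2_A`: `f := c (e 3) ·` is not zero, `f (B r x) = 0`.  For `x ∉ R` (`S = R`) and `c y x = 0` we have `y = r + t x`, `r ∈ R`, so `B y x = B r x`: `inv1`.
* `BD.r2_B`: `k := q_(r1)`; for `y = r + t x` as before `k x (B y x) = c x (B r1 (B r x)) = -c (B r1 x) (B r x)` and `B r x - λ B r1 x ∈ R` (as `q_r = λ q_(r1)` and `c` is non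
  degenerate on `W`), so this is `-λ c (B r1 x) (B r1 x) = 0`: `inv2`. -/

set_option autoImplicit false

namespace Pool.Agent.Helper50.FC

open scoped BigOperators

variable (D : BD)

theorem BD.rep (r r' : V5) (hr : ∀ x, D.c r x = 0) (hr' : ∀ x, D.c r' x = 0) (x : V5) :
    D.B r (D.B r' x) - D.B r' (D.B r x) = D.B (D.B r r') x := by
  obtain ⟨m, hm⟩ := D.defect r hr
  have h1 := congrArg Prod.fst (hm r' x)
  rw [hr' x, neg_zero, zero_smul] at h1
  have h2 : D.B r' (D.B r x) + D.B r (D.B x r') + D.B x (D.B r' r) = 0 := h1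
  rw [D.skewB x r', map_neg, D.skewB x (D.B r' r), D.skewB r' r, map_neg, LinearMap.neg_apply,
    neg_neg] at h2
  have h3 : D.B (D.B r r') x - (D.B r (D.B r' x) - D.B r' (D.B r x)) = 0 := by
    rw [← h2]
    abel
  exact (sub_eq_zero.mp h3).symm

theorem BD.rep_mem (r r' : V5) (hr : ∀ x, D.c r x = 0) (hr' : ∀ x, D.c r' x = 0) (x : V5) :
    D.c (D.B r r') x = 0 := by
  obtain ⟨m, hm⟩ := D.defect r hr
  have h1 := congrArg Prod.snd (hm r' x)
  rw [hr' x, neg_zero, zero_smul] at h1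
  have h2 : D.c r' (D.B r x) + D.c r (D.B x r') + D.c x (D.B r' r) = 0 := h1
  rw [hr', hr, D.skewc x (D.B r' r), D.skewB r' r, map_neg, LinearMap.neg_apply, neg_neg,
    zero_add, zero_add] at h2
  exact h2

private theorem BD.cform (e : Module.Basis (Fin 5) ℂ V5) (he : ∀ i j, D.c (e i) (e j) = nf2 i j)
    (y x : V5) : D.c y x = e.repr y 3 * e.repr x 4 - e.repr y 4 * e.repr x 3 := by
  have hy : y = e.repr y 0 • e 0 + e.repr y 1 • e 1 + e.repr y 2 • e 2 + e.repr y 3 • e 3 +
      e.repr y 4 • e 4 := by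
    have h1 := e.sum_repr y
    rw [Fin.sum_univ_five] at h1
    exact h1.symm
  have hx : x = e.repr x 0 • e 0 + e.repr x 1 • e 1 + e.repr x 2 • e 2 + e.repr x 3 • e 3 +
      e.repr x 4 • e 4 := by
    have h1 := e.sum_repr x
    rw [Fin.sum_univ_five] at h1
    exact h1.symm
  generalize e.repr y 0 = a0 at *
  generalize e.repr y 1 = a1 at *
  generalize e.repr y 2 = a2 at *
  generalize e.repr y 3 = a3 at *
  generalize e.repr y 4 = a4 at *
  generalize e.repr x 0 = b0 at *
  generalize e.repr x 1 = b1 at *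
  generalize e.repr x 2 = b2 at *
  generalize e.repr x 3 = b3 at *
  generalize e.repr x 4 = b4 at *
  rw [hy, hx]
  simp only [map_add, map_smul, LinearMap.add_apply, LinearMap.smul_apply, smul_eq_mul, he]
  simp [nf2]
  ring

private theorem BD.mem_R' (e : Module.Basis (Fin 5) ℂ V5) (he : ∀ i j, D.c (e i) (e j) = nf2 i j)
    {r : V5} : (∀ x, D.c r x = 0) ↔ e.repr r 3 = 0 ∧ e.repr r 4 = 0 := by
  constructor
  · intro h
    constructor
    · have h1 := h (e 4)
      rw [D.cform e he] at h1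
      simpa using h1
    · have h1 := h (e 3)
      rw [D.cform e he] at h1
      simpa using h1
  · rintro ⟨h3, h4⟩ x
    rw [D.cform e he, h3, h4]
    ring

private theorem BD.split (e : Module.Basis (Fin 5) ℂ V5) (he : ∀ i j, D.c (e i) (e j) = nf2 i j)
    {x y : V5} (hx : ¬ ∀ z, D.c x z = 0) (hyx : D.c y x = 0) :
    ∃ (r : V5) (t : ℂ), (∀ z, D.c r z = 0) ∧ y = r + t • x := by
  rw [D.mem_R' e he] at hx
  rw [D.cform e he] at hyx
  by_cases h3 : e.repr x 3 = 0
  · have h4 : e.repr x 4 ≠ 0 := fun h4 => hx ⟨h3, h4⟩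
    have h5 : e.repr y 3 = 0 := by
      rw [h3, mul_zero, sub_zero] at hyx
      rcases mul_eq_zero.mp hyx with h | h
      · exact h
      · exact absurd h h4
    refine ⟨y - (e.repr y 4 / e.repr x 4) • x, e.repr y 4 / e.repr x 4, ?_, by abel⟩
    rw [D.mem_R' e he]
    constructor
    · rw [map_sub, map_smul, Finsupp.sub_apply, Finsupp.smul_apply, h3, h5]
      simp
    · rw [map_sub, map_smul, Finsupp.sub_apply, Finsupp.smul_apply, smul_eq_mul]
      field_simp
      ring
  · refine ⟨y - (e.repr y 3 / e.repr x 3) • x, e.repr y 3 / e.repr x 3, ?_, by abel⟩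
    rw [D.mem_R' e he]
    constructor
    · rw [map_sub, map_smul, Finsupp.sub_apply, Finsupp.smul_apply, smul_eq_mul]
      field_simp
      ring
    · rw [map_sub, map_smul, Finsupp.sub_apply, Finsupp.smul_apply, smul_eq_mul]
      field_simp
      linear_combination -hyx

private theorem BD.By (x r : V5) (t : ℂ) : D.B (r + t • x) x = D.B r x := by
  rw [map_add, map_smul, LinearMap.add_apply, LinearMap.smul_apply, D.altB, smul_zero, add_zero]

section
variable (e : Module.Basis (Fin 5) ℂ V5) (he : ∀ i j, D.c (e i) (e j) = nf2 i j)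
include he

theorem BD.mem_R {r : V5} : (∀ x, D.c r x = 0) ↔ r ∈ Submodule.span ℂ {e 0, e 1, e 2} := by
  rw [D.mem_R' e he]
  constructor
  · rintro ⟨h3, h4⟩
    have h1 := e.sum_repr r
    rw [Fin.sum_univ_five, h3, h4, zero_smul, zero_smul, add_zero, add_zero] at h1
    rw [← h1]
    have m0 : e 0 ∈ Submodule.span ℂ {e 0, e 1, e 2} := Submodule.subset_span (by simp)
    have m1 : e 1 ∈ Submodule.span ℂ {e 0, e 1, e 2} := Submodule.subset_span (by simp)
    have m2 : e 2 ∈ Submodule.span ℂ {e 0, e 1, e 2} := Submodule.subset_span (by simp)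
    exact Submodule.add_mem _ (Submodule.add_mem _ (Submodule.smul_mem _ _ m0)
      (Submodule.smul_mem _ _ m1)) (Submodule.smul_mem _ _ m2)
  · intro h
    have h1 : Submodule.span ℂ {e 0, e 1, e 2} ≤
        LinearMap.ker (e.coord 3) ⊓ LinearMap.ker (e.coord 4) := by
      rw [Submodule.span_le]
      rintro z hz
      simp only [Set.mem_insert_iff, Set.mem_singleton_iff] at hz
      rcases hz with rfl | rfl | rfl <;>
        exact ⟨by simp [LinearMap.mem_ker], by simp [LinearMap.mem_ker]⟩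
    have h2 := h1 h
    exact ⟨by simpa using h2.1, by simpa using h2.2⟩

theorem BD.sympl (r : V5) (hr : ∀ x, D.c r x = 0) (v w : V5) :
    D.c (D.B r v) w + D.c v (D.B r w) = 0 := by
  obtain ⟨m, hm⟩ := D.defect r hr
  have key : ∀ v x, D.c v (D.B r x) + D.c (D.B r v) x = -(D.c v x) * m.2 := by
    intro v x
    have h1 : D.c v (D.B r x) + D.c r (D.B x v) + D.c x (D.B v r) = -(D.c v x) * m.2 :=
      congrArg Prod.snd (hm v x)
    rw [hr, D.skewc x (D.B v r), D.skewB v r, map_neg, LinearMap.neg_apply, neg_neg,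
      add_zero] at h1
    exact h1
  have hR : ∀ l : Fin 3, ∀ x, D.c (e (Fin.castLE (by omega : 3 ≤ 5) l)) x = 0 := by
    intro l x
    rw [D.cform e he]
    fin_cases l <;> simp
  have htr := D.tr (fun l : Fin 3 => e (Fin.castLE (by omega : 3 ≤ 5) l))
    (e.linearIndependent.comp _ (Fin.castLE_injective (by omega : 3 ≤ 5))) hR r hr
    (fun l k => e.repr (D.B r (e (Fin.castLE (by omega : 3 ≤ 5) l)))
      (Fin.castLE (by omega : 3 ≤ 5) k)) (by
      intro l x
      rw [D.rep r _ hr (hR l)]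
      have h1 := (D.mem_R' e he).1 (D.rep_mem r _ hr (hR l))
      have h2 := e.sum_repr (D.B r (e (Fin.castLE (by omega : 3 ≤ 5) l)))
      rw [Fin.sum_univ_five, h1.1, h1.2, zero_smul, zero_smul, add_zero, add_zero] at h2
      rw [Fin.sum_univ_three]
      conv_lhs => rw [← h2]
      rw [map_add, map_add, map_smul, map_smul, map_smul]
      rfl)
  rw [LinearMap.trace_eq_matrix_trace ℂ e, Matrix.trace, Fin.sum_univ_five,
    Fin.sum_univ_three] at htr
  simp only [Matrix.diag_apply, LinearMap.toMatrix_apply] at htr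
  have htr' : e.repr (D.B r (e 3)) 3 + e.repr (D.B r (e 4)) 4 = 0 := by
    have h0 : e.repr (D.B r (e 0)) 0 + e.repr (D.B r (e 1)) 1 + e.repr (D.B r (e 2)) 2 +
        e.repr (D.B r (e 3)) 3 + e.repr (D.B r (e 4)) 4 =
        e.repr (D.B r (e 0)) 0 + e.repr (D.B r (e 1)) 1 + e.repr (D.B r (e 2)) 2 := htr
    linear_combination h0
  have h34 := key (e 3) (e 4)
  rw [he, D.cform e he, D.cform e he] at h34
  have hm2 : m.2 = 0 := by
    simp [nf2] at h34
    linear_combination h34 - htr'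
  have h1 := key v w
  rw [hm2, mul_zero] at h1
  linear_combination h1

theorem BD.r2_A (h : ∀ r, (∀ x, D.c r x = 0) → ∀ v w, D.c v (D.B r w) = 0) : False := by
  have hS : Submodule.span ℂ {e 0, e 1, e 2} ≠ ⊤ := by
    intro htop
    have h1 : e 3 ∈ Submodule.span ℂ {e 0, e 1, e 2} := by rw [htop]; exact Submodule.mem_top
    have h2 := (D.mem_R e he).2 h1 (e 4)
    rw [he] at h2
    simp [nf2] at h2
  have h1 := D.inv1 (D.c (e 3)) _ hS (by
    intro x hx y hyx
    have hx' : ¬ ∀ z, D.c x z = 0 := fun hz => hx ((D.mem_R e he).1 hz)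
    obtain ⟨r, t, hr, rfl⟩ := D.split e he hx' hyx
    rw [D.By]
    exact h r hr _ _)
  have h2 := congrArg (fun f : V5 →ₗ[ℂ] ℂ => f (e 4)) h1
  simp only [he] at h2
  simp [nf2] at h2

theorem BD.r2_B (r1 : V5) (hr1 : ∀ x, D.c r1 x = 0) (hne : ∃ v w, D.c v (D.B r1 w) ≠ 0)
    (h : ∀ r, (∀ x, D.c r x = 0) → ∃ t : ℂ, ∀ v w, D.c v (D.B r w) = t * D.c v (D.B r1 w)) :
    False := by
  have hS : Submodule.span ℂ {e 0, e 1, e 2} ≠ ⊤ := by
    intro htop
    have h1 : e 3 ∈ Submodule.span ℂ {e 0, e 1, e 2} := by rw [htop]; exact Submodule.mem_top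
    have h2 := (D.mem_R e he).2 h1 (e 4)
    rw [he] at h2
    simp [nf2] at h2
  have h1 := D.inv2 (D.c.compl₂ (D.B r1)) _ hS (by
    intro x y
    rw [LinearMap.compl₂_apply, LinearMap.compl₂_apply]
    have h2 := D.sympl e he r1 hr1 x y
    rw [D.skewc y]
    linear_combination h2) (by
    intro x hx y hyx
    have hx' : ¬ ∀ z, D.c x z = 0 := fun hz => hx ((D.mem_R e he).1 hz)
    obtain ⟨r, t, hr, rfl⟩ := D.split e he hx' hyx
    rw [D.By, LinearMap.compl₂_apply]
    have h2 := D.sympl e he r1 hr1 x (D.B r x)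
    obtain ⟨s, hs⟩ := h r hr
    have h3 := hs (D.B r1 x) x
    rw [D.altc, mul_zero] at h3
    rw [h3, zero_add] at h2
    exact h2)
  obtain ⟨v, w, hvw⟩ := hne
  apply hvw
  have h2 := congrArg (fun f : V5 →ₗ[ℂ] V5 →ₗ[ℂ] ℂ => f v w) h1
  simpa using h2

end

end Pool.Agent.Helper50.FC
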