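import Pool.Agent.Helper50.FC.BD2

/-! K1-29: the abstract data with `c` of rank 2 (continued): the image of `R` in `sl(W)` is 2-dimensional.
Write `s(r)` for the action of `B r` on `W = V5 / R`: a traceless `2 × 2` matrix (`BD.sympl`; `W` has the basis `e 3`, `e 4`), `s(B r r') = [s(r), s(r')]` (`BD.rep`),
`s(r) = 0` iff `q_r = 0`, i.e. `c v (B r w) = 0` for all `v, w`.
* `BD.borel`: `{r ∈ R : s(r) = 0}` is `ℂ r0` (`dim R = 3`), an ideal: `B r r0 ∈ ℂ r0`.  `x' := B a b`: `s(x') = [s(a), s(b)] ≠ 0` (commuting traceless `2 × 2` matrices are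
  proportional), `s(x')` is a combination of `s(a)`, `s(b)`, `tr (s(x')²) = 0` (`x' = α a + β b + ..`, `tr (s(x') [s(a), s(b)])` is `0` by invariance of the trace form), so
  `s(x')` is nilpotent.  Take `a' ∈ {a, b}` with `s(a'), s(x')` independent: `[s(a'), s(x')] = t s(x')`, `t ≠ 0`; `h := (2 / t) a'`, `x := x'`.  `w₊` = image of `s(x)`,
  `s(x) w₋ = w₊`, `w₋` an eigenvector of `s(h)` (its eigenvalues are `1` on `w₊` and `-1`).  `B x r0 = 0` by `BD.rep a b r0`.
* `BD.borel_mu`: `φ := B r0` maps `V5` into `R` (`q_(r0) = 0`), rank at least 3 (`rk3`, `c r0 · = 0`), so onto `R`; `φ(R) = ℂ μ r0`, so `μ ≠ 0` and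
  `φ(w₋), φ(w₊)` are a basis of `R / ℂ r0`; `B h (φ w) = φ (B h w) + μ φ w` (`BD.rep`), and `B h` has on `R / ℂ r0 = <h, x>` the eigenvalues `0, 2`:
  `{μ - 1, μ + 1} = {0, 2}`.
* `BD.r2_C`: `μ = 1`; replace `x` by `x - κ r0` (then `B h x = 2 x`).  Correct `w₋` by an element of `R` such that `B h w₋ = -w₋` in `V5` (on `R` the operator `B h` has
  eigenvalues `0, 2, 1`), put `w₊ := B x w₋`: `B h w₊ = w₊` (`BD.rep`), `u := B x w₊` satisfies `B h u = 3 u`, but `B h` is diagonal with eigenvalues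
  `0, 2, 1, -1, 1` in the basis `h, x, r0, w₋, w₊`, so `u = 0`.  So `B x` has rank 2 (`h ↦ -2 x`, `w₋ ↦ w₊`, the others to `0`), `c x · = 0`: contradiction to
  `rk3`. -/

set_option autoImplicit false

namespace Pool.Agent.Helper50.FC

open scoped BigOperators

variable (D : BD)

private theorem BD.two_dimP (r y z : V5) (h0 : r ≠ 0) (hr : ∀ v, D.c r v = 0)
    (h : ∀ v, ∃ s t : ℂ, D.B r v = s • y + t • z) : False := by
  have h1 := D.rk3 r h0
  have h2 : LinearMap.range (btm D.B D.c r) ≤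
      Submodule.span ℂ (({((y, 0) : V5 × ℂ), (z, 0)} : Finset (V5 × ℂ)) : Set (V5 × ℂ)) := by
    rintro _ ⟨v, rfl⟩
    obtain ⟨s, t, hst⟩ := h v
    have h3 : btm D.B D.c r v = s • ((y, 0) : V5 × ℂ) + t • ((z, 0) : V5 × ℂ) := by
      refine Prod.ext ?_ ?_
      · simp [btm, hst]
      · simp [btm, hr]
    rw [h3]
    simp only [Finset.coe_insert, Finset.coe_singleton]
    exact Submodule.mem_span_pair.2 ⟨s, t, rfl⟩
  have h3 := (Submodule.finrank_mono h2).trans (finrank_span_finset_le_card _)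
  have h4 : Finset.card ({((y, 0) : V5 × ℂ), (z, 0)} : Finset (V5 × ℂ)) ≤ 2 :=
    Finset.card_le_two
  omega

private theorem coords5P {a0 a1 a2 a3 a4 : V5} (hli : LinearIndependent ℂ ![a0, a1, a2, a3, a4])
    (u : V5) : ∃ t0 t1 t2 t3 t4 : ℂ, u = t0 • a0 + t1 • a1 + t2 • a2 + t3 • a3 + t4 • a4 := by
  let b := basisOfLinearIndependentOfCardEqFinrank hli (by simp)
  refine ⟨b.repr u 0, b.repr u 1, b.repr u 2, b.repr u 3, b.repr u 4, ?_⟩
  have h1 := b.sum_repr u
  rw [Fin.sum_univ_five] at h1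
  simpa [b] using h1.symm

private theorem li5P {a0 a1 a2 a3 a4 : V5} (hli : LinearIndependent ℂ ![a0, a1, a2, a3, a4])
    {t0 t1 t2 t3 t4 : ℂ} (h : t0 • a0 + t1 • a1 + t2 • a2 + t3 • a3 + t4 • a4 = 0) :
    t0 = 0 ∧ t1 = 0 ∧ t2 = 0 ∧ t3 = 0 ∧ t4 = 0 := by
  have h1 := Fintype.linearIndependent_iff.1 hli ![t0, t1, t2, t3, t4]
    (by rw [Fin.sum_univ_five]; simpa using h)
  exact ⟨h1 0, h1 1, h1 2, h1 3, h1 4⟩

private theorem mk5P {a0 a1 a2 a3 a4 : V5}
    (h : ∀ t0 t1 t2 t3 t4 : ℂ, t0 • a0 + t1 • a1 + t2 • a2 + t3 • a3 + t4 • a4 = 0 →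
      t0 = 0 ∧ t1 = 0 ∧ t2 = 0 ∧ t3 = 0 ∧ t4 = 0) :
    LinearIndependent ℂ ![a0, a1, a2, a3, a4] := by
  rw [Fintype.linearIndependent_iff]
  intro g hg
  rw [Fin.sum_univ_five] at hg
  obtain ⟨h0, h1, h2, h3, h4⟩ := h (g 0) (g 1) (g 2) (g 3) (g 4) (by simpa using hg)
  intro i
  fin_cases i
  · exact h0
  · exact h1
  · exact h2
  · exact h3
  · exact h4

section
variable (e : Module.Basis (Fin 5) ℂ V5) (he : ∀ i j, D.c (e i) (e j) = nf2 i j)
include he

private theorem BD.decP (w : V5) (x : V5) :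
    D.c (w + D.c (e 4) w • e 3 - D.c (e 3) w • e 4) x = 0 := by
  revert x
  have h1 := e.sum_repr w
  rw [Fin.sum_univ_five] at h1
  have h3 : D.c (e 3) w = e.repr w 4 := by
    conv_lhs => rw [← h1]
    simp only [map_add, map_smul, he, smul_eq_mul]
    simp [nf2]
  have h4 : D.c (e 4) w = -e.repr w 3 := by
    conv_lhs => rw [← h1]
    simp only [map_add, map_smul, he, smul_eq_mul]
    simp [nf2]
  rw [D.mem_R e he, h3, h4]
  have h5 : w + (-e.repr w 3) • e 3 - e.repr w 4 • e 4 =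
      e.repr w 0 • e 0 + e.repr w 1 • e 1 + e.repr w 2 • e 2 := by
    conv_lhs =>
      enter [1, 1]
      rw [← h1]
    simp only [neg_smul]
    abel
  rw [h5]
  refine Submodule.add_mem _ (Submodule.add_mem _ (Submodule.smul_mem _ _ ?_)
    (Submodule.smul_mem _ _ ?_)) (Submodule.smul_mem _ _ ?_)
  · exact Submodule.subset_span (by simp)
  · exact Submodule.subset_span (by simp)
  · exact Submodule.subset_span (by simp)

private theorem BD.memP (y : V5) (h3 : D.c (e 3) y = 0) (h4 : D.c (e 4) y = 0) (v : V5) :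
    D.c v y = 0 := by
  have h := D.decP e he y v
  rw [h3, h4, zero_smul, zero_smul, add_zero, sub_zero] at h
  rw [D.skewc, h, neg_zero]

private theorem BD.smatP (r : V5) (hr : ∀ x, D.c r x = 0) :
    ∃ a1 a2 a3 : ℂ, ∀ w, D.c (e 3) (D.B r w) = a1 * D.c (e 3) w + a2 * D.c (e 4) w ∧
      D.c (e 4) (D.B r w) = a3 * D.c (e 3) w - a1 * D.c (e 4) w := by
  refine ⟨D.c (e 3) (D.B r (e 4)), -D.c (e 3) (D.B r (e 3)), D.c (e 4) (D.B r (e 4)), ?_⟩
  intro w
  have hs := D.sympl e he r hr (e 3) (e 4)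
  rw [D.skewc (D.B r (e 3)) (e 4)] at hs
  have h1 := D.rep_mem r _ hr (D.decP e he w)
  have h2 : ∀ x, D.c x (D.B r (w + D.c (e 4) w • e 3 - D.c (e 3) w • e 4)) = 0 := by
    intro x
    rw [D.skewc, h1, neg_zero]
  have h3 := h2 (e 3)
  have h4 := h2 (e 4)
  simp only [map_add, map_sub, map_smul, smul_eq_mul] at h3 h4
  constructor
  · linear_combination h3
  · linear_combination h4 + D.c (e 4) w * hs

private theorem BD.RcoordsP {a b r : V5} (ha : ∀ x, D.c a x = 0) (hb : ∀ x, D.c b x = 0)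
    (hr : ∀ x, D.c r x = 0) (hli : LinearIndependent ℂ ![a, b, r]) {y : V5}
    (hy : ∀ x, D.c y x = 0) : ∃ p q u : ℂ, y = p • a + q • b + u • r := by
  have h1 : Submodule.span ℂ (Set.range ![a, b, r]) ≤
      Submodule.span ℂ ({e 0, e 1, e 2} : Set V5) := by
    rw [Submodule.span_le]
    rintro _ ⟨i, rfl⟩
    fin_cases i
    · exact (D.mem_R e he).1 ha
    · exact (D.mem_R e he).1 hb
    · exact (D.mem_R e he).1 hr
  have h2 : Module.finrank ℂ (Submodule.span ℂ ({e 0, e 1, e 2} : Set V5)) ≤ 3 := by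
    have h := finrank_span_finset_le_card (R := ℂ) ({e 0, e 1, e 2} : Finset V5)
    have h' : Finset.card ({e 0, e 1, e 2} : Finset V5) ≤ 3 := Finset.card_le_three
    simp only [Finset.coe_insert, Finset.coe_singleton] at h
    exact h.trans h'
  have h3 : Module.finrank ℂ (Submodule.span ℂ (Set.range ![a, b, r])) = 3 := by
    rw [finrank_span_eq_card hli]
    simp
  have h4 := Submodule.eq_of_le_of_finrank_le h1 (by rw [h3]; exact h2)
  have h5 : y ∈ Submodule.span ℂ (Set.range ![a, b, r]) := by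
    rw [h4]
    exact (D.mem_R e he).1 hy
  obtain ⟨g, hg⟩ := (Submodule.mem_span_range_iff_exists_fun ℂ).1 h5
  rw [Fin.sum_univ_three] at hg
  exact ⟨g 0, g 1, g 2, by simpa using hg.symm⟩

theorem BD.borel (a b r0 : V5) (ha : ∀ x, D.c a x = 0) (hb : ∀ x, D.c b x = 0)
    (hr0 : ∀ x, D.c r0 x = 0) (h0 : r0 ≠ 0) (hq : ∀ v w, D.c v (D.B r0 w) = 0)
    (hab : ∀ s t : ℂ, (∀ v w, D.c v (D.B (s • a + t • b) w) = 0) → s = 0 ∧ t = 0) :
    ∃ (h x wm wp : V5) (κ μ : ℂ), (∀ v, D.c h v = 0) ∧ (∀ v, D.c x v = 0) ∧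
      LinearIndependent ℂ ![h, x, r0, wm, wp] ∧ D.B h x = (2 : ℂ) • x + κ • r0 ∧
      D.B h r0 = μ • r0 ∧ D.B x r0 = 0 ∧ (∀ v, D.c v (D.B h wm + wm) = 0) ∧
      (∀ v, D.c v (D.B h wp - wp) = 0) ∧ (∀ v, D.c v (D.B x wm - wp) = 0) ∧
      (∀ v, D.c v (D.B x wp) = 0) := by
  -- coordinates
  obtain ⟨a1, a2, a3, hA⟩ := D.smatP e he a ha
  obtain ⟨b1, b2, b3, hB⟩ := D.smatP e he b hb
  have hR0 : ∀ v w, D.c v (D.B w r0) = 0 := by
    intro v w
    rw [D.skewB, map_neg, hq, neg_zero]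
  have hli : LinearIndependent ℂ ![a, b, r0] := by
    rw [Fintype.linearIndependent_iff]
    intro g hg
    rw [Fin.sum_univ_three] at hg
    have hg' : g 0 • a + g 1 • b + g 2 • r0 = 0 := by simpa using hg
    have h1 : g 0 • a + g 1 • b = -g 2 • r0 := by
      rw [neg_smul]
      exact eq_neg_of_add_eq_zero_left hg'
    obtain ⟨h2, h3⟩ := hab (g 0) (g 1) (by
      intro v w
      rw [h1]
      simp [hq])
    have h4 : g 2 = 0 := by
      rw [h2, h3, zero_smul, zero_smul, zero_add, zero_add] at hg'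
      exact (smul_eq_zero.1 hg').resolve_right h0
    intro i
    fin_cases i
    · exact h2
    · exact h3
    · exact h4
  -- `r ∈ R` acts on `r0` by a scalar
  have hsc : ∀ r, (∀ x, D.c r x = 0) → ∃ μ : ℂ, D.B r r0 = μ • r0 := by
    intro r hr
    obtain ⟨p, q, u, h1⟩ := D.RcoordsP e he ha hb hr0 hli (D.rep_mem r r0 hr hr0)
    have h2 : ∀ v w, D.c v (D.B (p • a + q • b) w) = 0 := by
      intro v w
      have h3 : p • a + q • b = D.B r r0 - u • r0 := by
        rw [h1]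
        abel
      rw [h3, map_sub, LinearMap.sub_apply, ← D.rep r r0 hr hr0]
      have h4 : ∀ x, D.c (D.B r0 w) x = 0 := by
        intro x
        rw [D.skewc, hq, neg_zero]
      have h5 := D.rep_mem r (D.B r0 w) hr h4 v
      rw [D.skewc, neg_eq_zero] at h5
      simp [h5, hq]
    obtain ⟨h3, h4⟩ := hab p q h2
    refine ⟨u, ?_⟩
    rw [h1, h3, h4, zero_smul, zero_smul, zero_add, zero_add]
  obtain ⟨p, q, u, hx⟩ := D.RcoordsP e he ha hb hr0 hli (D.rep_mem a b ha hb)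
  obtain ⟨μa, hμa⟩ := hsc a ha
  obtain ⟨μb, hμb⟩ := hsc b hb
  -- the structure constants
  have hcom : ∀ w, D.B a (D.B b w) - D.B b (D.B a w) =
      p • D.B a w + q • D.B b w + u • D.B r0 w := by
    intro w
    rw [D.rep a b ha hb, hx]
    simp only [map_add, map_smul, LinearMap.add_apply, LinearMap.smul_apply]
  have e33 : D.c (e 3) (e 3) = 0 := D.altc _
  have e44 : D.c (e 4) (e 4) = 0 := D.altc _
  have e34 : D.c (e 3) (e 4) = 1 := by rw [he]; simp [nf2]
  have e43 : D.c (e 4) (e 3) = -1 := by rw [he]; simp [nf2]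
  have hX : ∀ w, (a2 * b3 - a3 * b2 - (p * a1 + q * b1)) * D.c (e 3) w +
      (2 * (a1 * b2 - a2 * b1) - (p * a2 + q * b2)) * D.c (e 4) w = 0 := by
    intro w
    have h1 := congrArg (D.c (e 3)) (hcom w)
    simp only [map_add, map_sub, map_smul, smul_eq_mul, hA, hB, hq, mul_zero, add_zero] at h1
    linear_combination h1
  have hY : ∀ w, (2 * (a3 * b1 - a1 * b3) - (p * a3 + q * b3)) * D.c (e 3) w -
      (a2 * b3 - a3 * b2 - (p * a1 + q * b1)) * D.c (e 4) w = 0 := by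
    intro w
    have h1 := congrArg (D.c (e 4)) (hcom w)
    simp only [map_add, map_sub, map_smul, smul_eq_mul, hA, hB, hq, mul_zero, add_zero] at h1
    linear_combination h1
  have r1 : a2 * b3 - a3 * b2 = p * a1 + q * b1 := by
    have h1 := hX (e 4)
    rw [e34, e44] at h1
    linear_combination h1
  have r2 : 2 * (a1 * b2 - a2 * b1) = p * a2 + q * b2 := by
    have h1 := hX (e 3)
    rw [e33, e43] at h1
    linear_combination -h1
  have r3 : 2 * (a3 * b1 - a1 * b3) = p * a3 + q * b3 := by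
    have h1 := hY (e 4)
    rw [e34, e44] at h1
    linear_combination h1
  -- linear independence of the matrices
  have hM : ∀ s t : ℂ, s * a1 + t * b1 = 0 → s * a2 + t * b2 = 0 → s * a3 + t * b3 = 0 →
      s = 0 ∧ t = 0 := by
    intro s t h1 h2 h3
    apply hab s t
    intro v w
    refine D.memP e he _ ?_ ?_ v
    · simp only [map_add, map_smul, LinearMap.add_apply, LinearMap.smul_apply, smul_eq_mul, hA, hB]
      linear_combination D.c (e 3) w * h1 + D.c (e 4) w * h2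
    · simp only [map_add, map_smul, LinearMap.add_apply, LinearMap.smul_apply, smul_eq_mul, hA, hB]
      linear_combination D.c (e 3) w * h3 - D.c (e 4) w * h1
  have hpq : p ≠ 0 ∨ q ≠ 0 := by
    by_contra hcon
    push Not at hcon
    obtain ⟨hp, hq'⟩ := hcon
    rw [hp, hq'] at r1 r2 r3
    have k1 : a1 * b2 = a2 * b1 := by linear_combination r2 / 2
    have k2 : a2 * b3 = a3 * b2 := by linear_combination r1
    have k3 : a3 * b1 = a1 * b3 := by linear_combination r3 / 2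
    obtain ⟨m1, m2⟩ := hM b1 (-a1) (by ring) (by linear_combination -k1) (by linear_combination k3)
    obtain ⟨m3, m4⟩ := hM b2 (-a2) (by linear_combination k1) (by ring)
      (by linear_combination -k2)
    obtain ⟨m5, m6⟩ := hM b3 (-a3) (by linear_combination -k3) (by linear_combination k2) (by ring)
    obtain ⟨m7, -⟩ := hM 1 0 (by linear_combination -m2) (by linear_combination -m4)
      (by linear_combination -m6)
    exact one_ne_zero m7
  obtain ⟨s, t, hst⟩ : ∃ s t : ℂ, s * q - t * p = 2 := by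
    rcases hpq with h | h
    · exact ⟨0, -2 / p, by field_simp; ring⟩
    · exact ⟨2 / q, 0, by field_simp; ring⟩
  -- the elements `h`, `x`
  obtain ⟨h, hh⟩ : ∃ h : V5, h = s • a + t • b := ⟨_, rfl⟩
  obtain ⟨x, hxx⟩ : ∃ x : V5, x = p • a + q • b := ⟨_, rfl⟩
  have hhR : ∀ v, D.c h v = 0 := by
    intro v
    rw [hh]
    simp [ha, hb]
  have hxR : ∀ v, D.c x v = 0 := by
    intro v
    rw [hxx]
    simp [ha, hb]
  obtain ⟨h1, hh1⟩ : ∃ z : ℂ, z = s * a1 + t * b1 := ⟨_, rfl⟩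
  obtain ⟨h2, hh2⟩ : ∃ z : ℂ, z = s * a2 + t * b2 := ⟨_, rfl⟩
  obtain ⟨h3, hh3⟩ : ∃ z : ℂ, z = s * a3 + t * b3 := ⟨_, rfl⟩
  obtain ⟨n1, hn1⟩ : ∃ z : ℂ, z = p * a1 + q * b1 := ⟨_, rfl⟩
  obtain ⟨n2, hn2⟩ : ∃ z : ℂ, z = p * a2 + q * b2 := ⟨_, rfl⟩
  obtain ⟨n3, hn3⟩ : ∃ z : ℂ, z = p * a3 + q * b3 := ⟨_, rfl⟩
  have hH3 : ∀ w, D.c (e 3) (D.B h w) = h1 * D.c (e 3) w + h2 * D.c (e 4) w := by
    intro w
    rw [hh, hh1, hh2]
    simp only [map_add, map_smul, LinearMap.add_apply, LinearMap.smul_apply, smul_eq_mul, hA, hB]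
    ring
  have hH4 : ∀ w, D.c (e 4) (D.B h w) = h3 * D.c (e 3) w - h1 * D.c (e 4) w := by
    intro w
    rw [hh, hh1, hh3]
    simp only [map_add, map_smul, LinearMap.add_apply, LinearMap.smul_apply, smul_eq_mul, hA, hB]
    ring
  have hN3 : ∀ w, D.c (e 3) (D.B x w) = n1 * D.c (e 3) w + n2 * D.c (e 4) w := by
    intro w
    rw [hxx, hn1, hn2]
    simp only [map_add, map_smul, LinearMap.add_apply, LinearMap.smul_apply, smul_eq_mul, hA, hB]
    ring
  have hN4 : ∀ w, D.c (e 4) (D.B x w) = n3 * D.c (e 3) w - n1 * D.c (e 4) w := by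
    intro w
    rw [hxx, hn1, hn3]
    simp only [map_add, map_smul, LinearMap.add_apply, LinearMap.smul_apply, smul_eq_mul, hA, hB]
    ring
  -- `[H, N] = 2 N`
  have c1 : h2 * n3 - h3 * n2 = 2 * n1 := by
    rw [hh2, hh3, hn2, hn3]
    have : (s * a2 + t * b2) * (p * a3 + q * b3) - (s * a3 + t * b3) * (p * a2 + q * b2) =
        (s * q - t * p) * (a2 * b3 - a3 * b2) := by ring
    rw [this, hst, r1, hn1]
  have c2 : h1 * n2 - h2 * n1 = n2 := by
    rw [hh1, hh2, hn1]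
    have : (s * a1 + t * b1) * n2 - (s * a2 + t * b2) * (p * a1 + q * b1) =
        (s * q - t * p) * (a1 * b2 - a2 * b1) := by rw [hn2]; ring
    rw [this, hst, r2, hn2]
  have c3 : h3 * n1 - h1 * n3 = n3 := by
    rw [hh1, hh3, hn1]
    have : (s * a3 + t * b3) * (p * a1 + q * b1) - (s * a1 + t * b1) * n3 =
        (s * q - t * p) * (a3 * b1 - a1 * b3) := by rw [hn3]; ring
    rw [this, hst, r3, hn3]
  have ctr : 2 * h1 * n1 + h2 * n3 + h3 * n2 = 0 := by
    linear_combination -h1 * c1 - h2 * c3 - h3 * c2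
  have d1 : h1 * n1 + h2 * n3 = n1 := by linear_combination (ctr + c1) / 2
  have d2 : h1 * n1 + h3 * n2 = -n1 := by linear_combination (ctr - c1) / 2
  -- `N ^ 2 = 0`
  have dN : n1 * n1 + n2 * n3 = 0 := by
    linear_combination (-n1 * c1 - n3 * c2 - n2 * c3) / 2
  have hNne : n1 ≠ 0 ∨ n2 ≠ 0 ∨ n3 ≠ 0 := by
    by_contra hcon
    push Not at hcon
    obtain ⟨g1, g2, g3⟩ := hcon
    rw [hn1] at g1
    rw [hn2] at g2
    rw [hn3] at g3
    obtain ⟨g4, g5⟩ := hM p q g1 g2 g3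
    rcases hpq with g | g
    · exact g g4
    · exact g g5
  -- `H ^ 2 = 1`
  have dH : h1 * h1 + h2 * h3 = 1 := by
    have k1 : (h1 * h1 + h2 * h3 - 1) * n1 = 0 := by
      linear_combination h1 * d1 + h2 * c3 + d1
    have k2 : (h1 * h1 + h2 * h3 - 1) * n2 = 0 := by
      linear_combination h1 * c2 + h2 * d2 + c2
    have k3 : (h1 * h1 + h2 * h3 - 1) * n3 = 0 := by
      linear_combination h3 * d1 - h1 * c3 + c3
    rcases hNne with g | g | g
    · exact sub_eq_zero.1 ((mul_eq_zero.1 k1).resolve_right g)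
    · exact sub_eq_zero.1 ((mul_eq_zero.1 k2).resolve_right g)
    · exact sub_eq_zero.1 ((mul_eq_zero.1 k3).resolve_right g)
  obtain ⟨w, hw⟩ : ∃ w, ¬ (D.c (e 3) (D.B x w) = 0 ∧ D.c (e 4) (D.B x w) = 0) := by
    by_contra hcon
    push Not at hcon
    have g1 := (hcon (e 4)).1
    have g2 := (hcon (e 4)).2
    have g3 := (hcon (e 3)).1
    rw [hN3, e34, e44] at g1
    rw [hN4, e34, e44] at g2
    rw [hN3, e33, e43] at g3
    rcases hNne with g | g | g
    · exact g (by linear_combination g1)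
    · exact g (by linear_combination -g3)
    · exact g (by linear_combination g2)
  obtain ⟨wp, hwp⟩ : ∃ z : V5, z = D.B x w := ⟨_, rfl⟩
  obtain ⟨wm, hwm⟩ : ∃ z : V5, z = (1 / 2 : ℂ) • (w - D.B h w) := ⟨_, rfl⟩
  have hp3 : D.c (e 3) wp = n1 * D.c (e 3) w + n2 * D.c (e 4) w := by rw [hwp, hN3]
  have hp4 : D.c (e 4) wp = n3 * D.c (e 3) w - n1 * D.c (e 4) w := by rw [hwp, hN4]
  have hm3 : D.c (e 3) wm = (1 / 2) * (D.c (e 3) w - (h1 * D.c (e 3) w + h2 * D.c (e 4) w)) := by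
    rw [hwm, map_smul, map_sub, hH3, smul_eq_mul]
  have hm4 : D.c (e 4) wm = (1 / 2) * (D.c (e 4) w - (h3 * D.c (e 3) w - h1 * D.c (e 4) w)) := by
    rw [hwm, map_smul, map_sub, hH4, smul_eq_mul]
  rw [← hwp] at hw
  -- the relations modulo `R`
  have E1 : ∀ v, D.c v (D.B h wm + wm) = 0 := by
    refine fun v => D.memP e he _ ?_ ?_ v
    · rw [map_add, hH3, hm3, hm4]
      linear_combination (-1 / 2) * D.c (e 3) w * dH
    · rw [map_add, hH4, hm3, hm4]
      linear_combination (-1 / 2) * D.c (e 4) w * dH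
  have E2 : ∀ v, D.c v (D.B h wp - wp) = 0 := by
    refine fun v => D.memP e he _ ?_ ?_ v
    · rw [map_sub, hH3, hp3, hp4]
      linear_combination D.c (e 3) w * d1 + D.c (e 4) w * c2
    · rw [map_sub, hH4, hp3, hp4]
      linear_combination D.c (e 3) w * c3 + D.c (e 4) w * d2
  have E3 : ∀ v, D.c v (D.B x wm - wp) = 0 := by
    refine fun v => D.memP e he _ ?_ ?_ v
    · rw [map_sub, hN3, hp3, hm3, hm4]
      linear_combination (-1 / 2) * D.c (e 3) w * d2 + (1 / 2) * D.c (e 4) w * c2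
    · rw [map_sub, hN4, hp4, hm3, hm4]
      linear_combination (1 / 2) * D.c (e 3) w * c3 - (1 / 2) * D.c (e 4) w * d1
  have E4 : ∀ v, D.c v (D.B x wp) = 0 := by
    refine fun v => D.memP e he _ ?_ ?_ v
    · rw [hN3, hp3, hp4]
      linear_combination D.c (e 3) w * dN
    · rw [hN4, hp3, hp4]
      linear_combination D.c (e 4) w * dN
  refine ⟨h, x, wm, wp, 2 * u, s * μa + t * μb, hhR, hxR, ?_, ?_, ?_, ?_, E1, E2, E3, E4⟩
  · apply mk5P
    intro t0 t1 t2 t3 t4 ht
    have hr03 : D.c (e 3) r0 = 0 := by rw [D.skewc, hr0, neg_zero]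
    have hr04 : D.c (e 4) r0 = 0 := by rw [D.skewc, hr0, neg_zero]
    have hh03 : D.c (e 3) h = 0 := by rw [D.skewc, hhR, neg_zero]
    have hh04 : D.c (e 4) h = 0 := by rw [D.skewc, hhR, neg_zero]
    have hx03 : D.c (e 3) x = 0 := by rw [D.skewc, hxR, neg_zero]
    have hx04 : D.c (e 4) x = 0 := by rw [D.skewc, hxR, neg_zero]
    have g3 := congrArg (D.c (e 3)) ht
    have g4 := congrArg (D.c (e 4)) ht
    simp only [map_add, map_smul, smul_eq_mul, hr03, hr04, hh03, hh04, hx03, hx04, mul_zero,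
      zero_add, map_zero] at g3 g4
    have k3 := E3 (e 3)
    have k4 := E3 (e 4)
    rw [map_sub, hN3] at k3
    rw [map_sub, hN4] at k4
    have l3 := E4 (e 3)
    have l4 := E4 (e 4)
    rw [hN3] at l3
    rw [hN4] at l4
    have z3 : t3 = 0 := by
      have q3 : t3 * D.c (e 3) wp = 0 := by
        linear_combination n1 * g3 + n2 * g4 - t3 * k3 - t4 * l3
      have q4 : t3 * D.c (e 4) wp = 0 := by
        linear_combination n3 * g3 - n1 * g4 - t3 * k4 - t4 * l4
      by_contra hne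
      exact hw ⟨(mul_eq_zero.1 q3).resolve_left hne, (mul_eq_zero.1 q4).resolve_left hne⟩
    have z4 : t4 = 0 := by
      rw [z3] at g3 g4
      by_contra hne
      apply hw
      constructor
      · exact (mul_eq_zero.1 (by linear_combination g3 : t4 * D.c (e 3) wp = 0)).resolve_left hne
      · exact (mul_eq_zero.1 (by linear_combination g4 : t4 * D.c (e 4) wp = 0)).resolve_left hne
    rw [z3, z4, zero_smul, zero_smul, add_zero, add_zero] at ht
    have hab3 := Fintype.linearIndependent_iff.1 hli ![t0 * s + t1 * p, t0 * t + t1 * q, t2] (by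
      rw [Fin.sum_univ_three]
      simp only [Matrix.cons_val_zero, Matrix.cons_val_one, Matrix.cons_val]
      rw [← ht, hh, hxx]
      module)
    have y0 : t0 * s + t1 * p = 0 := hab3 0
    have y1 : t0 * t + t1 * q = 0 := hab3 1
    have y2 : t2 = 0 := hab3 2
    have z0 : t0 = 0 := by
      linear_combination (-t0 / 2) * hst + (q / 2) * y0 - (p / 2) * y1
    have z1 : t1 = 0 := by
      linear_combination (-t1 / 2) * hst - (t / 2) * y0 + (s / 2) * y1
    exact ⟨z0, z1, y2, z3, z4⟩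
  · have k1 : D.B h x = (s * q - t * p) • D.B a b := by
      rw [hh, hxx]
      simp only [map_add, map_smul, LinearMap.add_apply, LinearMap.smul_apply, D.altB]
      rw [D.skewB b a]
      module
    rw [k1, hst, hx, hxx]
    module
  · rw [hh]
    simp only [map_add, map_smul, LinearMap.add_apply, LinearMap.smul_apply, hμa, hμb]
    module
  · have k1 : x = D.B a b - u • r0 := by
      rw [hxx, hx]
      abel
    rw [k1, map_sub, LinearMap.sub_apply, ← D.rep a b ha hb, map_smul, LinearMap.smul_apply,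
      D.altB, smul_zero, sub_zero, hμa, hμb, map_smul, map_smul, hμa, hμb, smul_smul, smul_smul,
      mul_comm, sub_self]


theorem BD.borel_mu {h x wm wp r0 : V5} {κ μ : ℂ} (hh : ∀ v, D.c h v = 0) (hx : ∀ v, D.c x v = 0)
    (hr0 : ∀ x, D.c r0 x = 0) (hq : ∀ v w, D.c v (D.B r0 w) = 0)
    (hli : LinearIndependent ℂ ![h, x, r0, wm, wp]) (hhx : D.B h x = (2 : ℂ) • x + κ • r0)
    (hhr : D.B h r0 = μ • r0) (hxr : D.B x r0 = 0) (hm : ∀ v, D.c v (D.B h wm + wm) = 0)
    (hp : ∀ v, D.c v (D.B h wp - wp) = 0) : μ = 1 := by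
  by_contra hne
  have hli3 : LinearIndependent ℂ ![h, x, r0] := by
    rw [Fintype.linearIndependent_iff]
    intro g hg
    rw [Fin.sum_univ_three] at hg
    have hg' : g 0 • h + g 1 • x + g 2 • r0 = 0 := by simpa using hg
    obtain ⟨k0, k1, k2, -, -⟩ := li5P hli (t0 := g 0) (t1 := g 1) (t2 := g 2) (t3 := 0) (t4 := 0)
      (by rw [zero_smul, zero_smul, add_zero, add_zero, hg'])
    intro i
    fin_cases i
    · exact k0
    · exact k1
    · exact k2
  have h0 : r0 ≠ 0 := by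
    intro hz
    obtain ⟨-, -, k2, -, -⟩ := li5P hli (t0 := 0) (t1 := 0) (t2 := 1) (t3 := 0) (t4 := 0)
      (by rw [hz]; simp)
    exact one_ne_zero k2
  -- `φ = B r0` on `R`
  have hφR : ∀ y, (∀ v, D.c v y = 0) → ∃ z : ℂ, D.B r0 y = z • r0 := by
    intro y hy
    have hy' : ∀ v, D.c y v = 0 := by
      intro v
      rw [D.skewc, hy, neg_zero]
    obtain ⟨p, q, u, hpq⟩ := D.RcoordsP e he hh hx hr0 hli3 hy'
    refine ⟨-p * μ, ?_⟩
    rw [hpq]
    simp only [map_add, map_smul, D.altB]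
    rw [D.skewB r0 h, D.skewB r0 x, hhr, hxr]
    module
  have hin : ∀ w, ∀ v, D.c (D.B r0 w) v = 0 := by
    intro w v
    rw [D.skewc, hq, neg_zero]
  obtain ⟨m0, m1, m2, hmm⟩ := D.RcoordsP e he hh hx hr0 hli3 (hin wm)
  obtain ⟨n0, n1, n2, hnn⟩ := D.RcoordsP e he hh hx hr0 hli3 (hin wp)
  obtain ⟨zm, hzm⟩ := hφR _ hm
  obtain ⟨zp, hzp⟩ := hφR _ hp
  have hm' := D.rep h r0 hh hr0 wm
  have hp' := D.rep h r0 hh hr0 wp
  have hm2 : D.B r0 (D.B h wm) = zm • r0 - D.B r0 wm := by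
    rw [← hzm, map_add]
    abel
  have hp2 : D.B r0 (D.B h wp) = zp • r0 + D.B r0 wp := by
    rw [← hzp, map_sub]
    abel
  rw [hm2, hhr, map_smul, LinearMap.smul_apply, hmm] at hm'
  rw [hp2, hhr, map_smul, LinearMap.smul_apply, hnn] at hp'
  simp only [map_add, map_smul, D.altB, hhx, hhr] at hm' hp'
  obtain ⟨a0, a1, -, -, -⟩ := li5P hli (t0 := m0 - μ * m0) (t1 := 3 * m1 - μ * m1)
    (t2 := m1 * κ + m2 * μ - zm + m2 - μ * m2) (t3 := 0) (t4 := 0) (by
      have := sub_eq_zero.2 hm'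
      rw [← this]
      module)
  obtain ⟨b0, b1, -, -, -⟩ := li5P hli (t0 := -n0 - μ * n0) (t1 := n1 - μ * n1)
    (t2 := n1 * κ + n2 * μ - zp - n2 - μ * n2) (t3 := 0) (t4 := 0) (by
      have := sub_eq_zero.2 hp'
      rw [← this]
      module)
  have hμ1 : 1 - μ ≠ 0 := fun hc => hne (sub_eq_zero.1 hc).symm
  have m00 : m0 = 0 := by
    have : (1 - μ) * m0 = 0 := by linear_combination a0
    exact (mul_eq_zero.1 this).resolve_left hμ1
  have n10 : n1 = 0 := by
    have : (1 - μ) * n1 = 0 := by linear_combination b1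
    exact (mul_eq_zero.1 this).resolve_left hμ1
  have hor : m1 = 0 ∨ n0 = 0 := by
    by_contra hcon
    push Not at hcon
    have k1 : 3 - μ = 0 := (mul_eq_zero.1 (by linear_combination a1 : (3 - μ) * m1 = 0)).resolve_right
      hcon.1
    have k2 : -1 - μ = 0 := (mul_eq_zero.1 (by linear_combination b0 : (-1 - μ) * n0 = 0)).resolve_right
      hcon.2
    have k3 : (4 : ℂ) = 0 := by linear_combination k1 - k2
    norm_num at k3
  rw [m00, zero_smul, zero_add] at hmm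
  rw [n10, zero_smul, add_zero] at hnn
  rcases hor with h1 | h1
  · rw [h1, zero_smul, zero_add] at hmm
    refine D.two_dimP r0 r0 (D.B r0 wp) h0 hr0 ?_
    intro v
    obtain ⟨t0, t1, t2, t3, t4, ht⟩ := coords5P hli v
    refine ⟨-t0 * μ + t3 * m2, t4, ?_⟩
    rw [ht]
    simp only [map_add, map_smul, D.altB]
    rw [D.skewB r0 h, D.skewB r0 x, hhr, hxr, hmm]
    module
  · rw [h1, zero_smul, zero_add] at hnn
    refine D.two_dimP r0 r0 (D.B r0 wm) h0 hr0 ?_
    intro v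
    obtain ⟨t0, t1, t2, t3, t4, ht⟩ := coords5P hli v
    refine ⟨-t0 * μ + t4 * n2, t3, ?_⟩
    rw [ht]
    simp only [map_add, map_smul, D.altB]
    rw [D.skewB r0 h, D.skewB r0 x, hhr, hxr, hnn]
    module

theorem BD.r2_C (a b r0 : V5) (ha : ∀ x, D.c a x = 0) (hb : ∀ x, D.c b x = 0)
    (hr0 : ∀ x, D.c r0 x = 0) (h0 : r0 ≠ 0) (hq : ∀ v w, D.c v (D.B r0 w) = 0)
    (hab : ∀ s t : ℂ, (∀ v w, D.c v (D.B (s • a + t • b) w) = 0) → s = 0 ∧ t = 0) : False := by
  obtain ⟨h, x, wm, wp, κ, μ, hh, hx, hli, hhx, hhr, hxr, hm, hp, hxm, hxp⟩ :=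
    D.borel e he a b r0 ha hb hr0 h0 hq hab
  have hμ : μ = 1 := D.borel_mu e he hh hx hr0 hq hli hhx hhr hxr hm hp
  rw [hμ, one_smul] at hhr
  have hli3 : LinearIndependent ℂ ![h, x, r0] := by
    rw [Fintype.linearIndependent_iff]
    intro g hg
    rw [Fin.sum_univ_three] at hg
    have hg' : g 0 • h + g 1 • x + g 2 • r0 = 0 := by simpa using hg
    obtain ⟨k0, k1, k2, -, -⟩ := li5P hli (t0 := g 0) (t1 := g 1) (t2 := g 2) (t3 := 0) (t4 := 0)
      (by rw [zero_smul, zero_smul, add_zero, add_zero, hg'])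
    intro i
    fin_cases i
    · exact k0
    · exact k1
    · exact k2
  -- the corrected `x`
  obtain ⟨y, hy⟩ : ∃ y : V5, y = x + κ • r0 := ⟨_, rfl⟩
  have hyR : ∀ v, D.c y v = 0 := by
    intro v
    rw [hy]
    simp [hx, hr0]
  have hhy : D.B h y = (2 : ℂ) • y := by
    rw [hy, map_add, map_smul, hhx, hhr]
    module
  have hyr : D.B y r0 = 0 := by
    rw [hy]
    simp only [map_add, map_smul, LinearMap.add_apply, LinearMap.smul_apply, hxr, D.altB,
      smul_zero, add_zero]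
  -- the corrected `wm`
  have hρR : ∀ v, D.c (D.B h wm + wm) v = 0 := by
    intro v
    rw [D.skewc, hm, neg_zero]
  obtain ⟨p0, p1, p2, hρ⟩ := D.RcoordsP e he hh hx hr0 hli3 hρR
  obtain ⟨σ, hσ⟩ : ∃ σ : V5, σ = (-p0) • h + (-p1 / 3) • y + (-(p2 - κ * p1) / 2) • r0 := ⟨_, rfl⟩
  have hσR : ∀ v, D.c σ v = 0 := by
    intro v
    rw [hσ]
    simp [hh, hyR, hr0]
  obtain ⟨u, hu⟩ : ∃ u : V5, u = wm + σ := ⟨_, rfl⟩
  have hBhu : D.B h u = -u := by
    have k1 : D.B h σ + σ = (-p0) • h + (-p1) • y + (-(p2 - κ * p1)) • r0 := by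
      rw [hσ]
      simp only [map_add, map_smul, D.altB, hhy, hhr]
      module
    have k2 : D.B h u + u = 0 := by
      have k3 : D.B h u + u = (D.B h wm + wm) + (D.B h σ + σ) := by
        rw [hu, map_add]
        abel
      rw [k3, hρ, k1, hy]
      module
    exact eq_neg_of_add_eq_zero_left k2
  obtain ⟨v, hv⟩ : ∃ v : V5, v = D.B y u := ⟨_, rfl⟩
  have hBhv : D.B h v = v := by
    have k1 := D.rep h y hh hyR u
    rw [hBhu, map_neg, hhy, map_smul, LinearMap.smul_apply, ← hv] at k1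
    have k2 : D.B h v = (2 : ℂ) • v + -v := by
      rw [← k1]
      abel
    rw [k2]
    module
  obtain ⟨z, hz⟩ : ∃ z : V5, z = D.B y v := ⟨_, rfl⟩
  have hBhz : D.B h z = (3 : ℂ) • z := by
    have k1 := D.rep h y hh hyR v
    rw [hBhv, hhy, map_smul, LinearMap.smul_apply, ← hz] at k1
    have k2 : D.B h z = (2 : ℂ) • z + z := by
      rw [← k1]
      abel
    rw [k2]
    module
  -- `v ≡ wp` modulo `R`
  have hvR : ∀ w, D.c (v - wp) w = 0 := by
    intro w
    have k1 : v - wp = (D.B x wm - wp) + κ • D.B r0 wm + D.B y σ := by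
      rw [hv, hu, hy]
      simp only [map_add, map_smul, LinearMap.add_apply, LinearMap.smul_apply]
      abel
    rw [k1, map_add, map_add, LinearMap.add_apply, LinearMap.add_apply,
      D.rep_mem y σ hyR hσR, D.skewc (D.B x wm - wp), hxm, map_smul, LinearMap.smul_apply,
      D.skewc (D.B r0 wm), hq]
    simp
  obtain ⟨s0, s1, s2, hs⟩ := D.RcoordsP e he hh hx hr0 hli3 hvR
  have hli' : LinearIndependent ℂ ![h, y, r0, u, v] := by
    apply mk5P
    intro t0 t1 t2 t3 t4 ht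
    have hvs : v = wp + (s0 • h + s1 • x + s2 • r0) := by
      rw [← hs]
      abel
    have k1 : t0 • h + t1 • y + t2 • r0 + t3 • u + t4 • v =
        (t0 + t3 * (-p0) + t4 * s0) • h + (t1 + t3 * (-p1 / 3) + t4 * s1) • x +
        (t2 + t1 * κ + t3 * (-p1 / 3 * κ + -(p2 - κ * p1) / 2) + t4 * s2) • r0 +
        t3 • wm + t4 • wp := by
      rw [hvs, hu, hσ, hy]
      module
    rw [k1] at ht
    obtain ⟨g0, g1, g2, g3, g4⟩ := li5P hli ht
    rw [g3, g4] at g0 g1 g2
    have f0 : t0 = 0 := by linear_combination g0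
    have f1 : t1 = 0 := by linear_combination g1
    have f2 : t2 = 0 := by
      rw [f1] at g2
      linear_combination g2
    exact ⟨f0, f1, f2, g3, g4⟩
  have hz0 : z = 0 := by
    obtain ⟨t0, t1, t2, t3, t4, ht⟩ := coords5P hli' z
    have k1 := hBhz
    rw [ht] at k1
    simp only [map_add, map_smul, D.altB, hhy, hhr, hBhu, hBhv] at k1
    obtain ⟨g0, g1, g2, g3, g4⟩ := li5P hli' (t0 := -3 * t0) (t1 := -t1) (t2 := -2 * t2)
      (t3 := -4 * t3) (t4 := -2 * t4) (by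
        have := sub_eq_zero.2 k1
        rw [← this]
        module)
    have f0 : t0 = 0 := by linear_combination (-1 / 3) * g0
    have f1 : t1 = 0 := by linear_combination -g1
    have f2 : t2 = 0 := by linear_combination (-1 / 2) * g2
    have f3 : t3 = 0 := by linear_combination (-1 / 4) * g3
    have f4 : t4 = 0 := by linear_combination (-1 / 2) * g4
    rw [ht, f0, f1, f2, f3, f4]
    simp
  have hy0 : y ≠ 0 := by
    intro hc
    obtain ⟨-, k1, -, -, -⟩ := li5P hli' (t0 := 0) (t1 := 1) (t2 := 0) (t3 := 0) (t4 := 0)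
      (by rw [hc]; simp)
    exact one_ne_zero k1
  refine D.two_dimP y y v hy0 hyR ?_
  intro w
  obtain ⟨t0, t1, t2, t3, t4, ht⟩ := coords5P hli' w
  refine ⟨-2 * t0, t3, ?_⟩
  rw [ht]
  simp only [map_add, map_smul, D.altB]
  rw [D.skewB y h, hhy, hyr, ← hv, ← hz, hz0]
  module

end

end Pool.Agent.Helper50.FC
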