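import Pool.Agent.Helper50.FC.BD2C

/-! K1-30: the abstract data are impossible.
* `BD.triple`: `r ↦` (action of `B r` on `W = V5 / R`) is an injective linear map from `R` (dimension 3) to the traceless `2 × 2` matrices (`BD.sympl`; basis `e 3`, `e 4` of `W`), so
  bijective: take `h, x, y ∈ R` acting by `diag (1, -1)`, `E`, `F`.  The relations follow from `BD.rep`, `BD.rep_mem` and injectivity.
* `BD.r2_D`: `T := ρ(h)² + 2 ρ(x) ρ(y) + 2 ρ(y) ρ(x)`, `ρ(r) = D.B r`, commutes with `ρ(h), ρ(x), ρ(y)` (`noncomm_ring` from the commutators given by `BD.rep`), so with all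
  `ρ(r)`, `r ∈ R`.  `T = 3` on `W`, `T = 8` on `R`.  So `P := T - 3` maps `V5` into `R`, `P = 5` on `R`.  Let `β (r, r') := 2 h_r h_(r') + x_r y_(r') + y_r x_(r')` in
  the basis `h, x, y` of `R`: `β ([a, r], r') + β (r, [a, r']) = 0`.  `k v w := β (P v, P w)` is symmetric, not zero, and `k x (B r x) = β (P x, [r, P x]) = 0`
  for `r ∈ R`; as in `r2_A` (`S = R`) this contradicts `inv2`.
* `BD.rank2`: the four cases.  `BD.false`: `alt_cases`, `BD.c_ne`, `BD.rank4`. -/

set_option autoImplicit false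

namespace Pool.Agent.Helper50.FC

open scoped BigOperators

variable (D : BD)

private theorem BD.cformQ (e : Module.Basis (Fin 5) ℂ V5) (he : ∀ i j, D.c (e i) (e j) = nf2 i j)
    (y x : V5) : D.c y x = e.repr y 3 * e.repr x 4 - e.repr y 4 * e.repr x 3 := by
  have hy : y = e.repr y 0 • e 0 + e.repr y 1 • e 1 + e.repr y 2 • e 2 + e.repr y 3 • e 3 +
      e.repr y 4 • e 4 := by
    have h1 := e.sum_repr y
    rw [Fin.sum_univ_five] at h1
    exact h1.symm
  have hx : x = e.repr x 0 • e 0 + e.repr x 1 • e 1 + e.repr x 2 • e 2 + e.repr x 3 • e 3 +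
      e.repr x 4 • e 4 := by
    have h1 := e.sum_repr x
    rw [Fin.sum_univ_five] at h1
    exact h1.symm
  generalize e.repr y 0 = a0 at *
  generalize e.repr y 1 = a1 at *
  generalize e.repr y 2 = a2 at *
  generalize e.repr y 3 = a3 at *
  generalize e.repr y 4 = a4 at *
  generalize e.repr x 0 = b0 at *
  generalize e.repr x 1 = b1 at *
  generalize e.repr x 2 = b2 at *
  generalize e.repr x 3 = b3 at *
  generalize e.repr x 4 = b4 at *
  rw [hy, hx]
  simp only [map_add, map_smul, LinearMap.add_apply, LinearMap.smul_apply, smul_eq_mul, he]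
  simp [nf2]
  ring

private theorem BD.mem_RQ (e : Module.Basis (Fin 5) ℂ V5) (he : ∀ i j, D.c (e i) (e j) = nf2 i j)
    {r : V5} : (∀ x, D.c r x = 0) ↔ e.repr r 3 = 0 ∧ e.repr r 4 = 0 := by
  constructor
  · intro h
    constructor
    · have h1 := h (e 4)
      rw [D.cformQ e he] at h1
      simpa using h1
    · have h1 := h (e 3)
      rw [D.cformQ e he] at h1
      simpa using h1
  · rintro ⟨h3, h4⟩ x
    rw [D.cformQ e he, h3, h4]
    ring

private theorem BD.splitQ (e : Module.Basis (Fin 5) ℂ V5) (he : ∀ i j, D.c (e i) (e j) = nf2 i j)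
    {x y : V5} (hx : ¬ ∀ z, D.c x z = 0) (hyx : D.c y x = 0) :
    ∃ (r : V5) (t : ℂ), (∀ z, D.c r z = 0) ∧ y = r + t • x := by
  rw [D.mem_RQ e he] at hx
  rw [D.cformQ e he] at hyx
  by_cases h3 : e.repr x 3 = 0
  · have h4 : e.repr x 4 ≠ 0 := fun h4 => hx ⟨h3, h4⟩
    have h5 : e.repr y 3 = 0 := by
      rw [h3, mul_zero, sub_zero] at hyx
      rcases mul_eq_zero.mp hyx with h | h
      · exact h
      · exact absurd h h4
    refine ⟨y - (e.repr y 4 / e.repr x 4) • x, e.repr y 4 / e.repr x 4, ?_, by abel⟩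
    rw [D.mem_RQ e he]
    constructor
    · rw [map_sub, map_smul, Finsupp.sub_apply, Finsupp.smul_apply, h3, h5]
      simp
    · rw [map_sub, map_smul, Finsupp.sub_apply, Finsupp.smul_apply, smul_eq_mul]
      field_simp
      ring
  · refine ⟨y - (e.repr y 3 / e.repr x 3) • x, e.repr y 3 / e.repr x 3, ?_, by abel⟩
    rw [D.mem_RQ e he]
    constructor
    · rw [map_sub, map_smul, Finsupp.sub_apply, Finsupp.smul_apply, smul_eq_mul]
      field_simp
      ring
    · rw [map_sub, map_smul, Finsupp.sub_apply, Finsupp.smul_apply, smul_eq_mul]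
      field_simp
      linear_combination -hyx

private theorem BD.ByQ (x r : V5) (t : ℂ) : D.B (r + t • x) x = D.B r x := by
  rw [map_add, map_smul, LinearMap.add_apply, LinearMap.smul_apply, D.altB, smul_zero, add_zero]

/-- three linear forms -/
private noncomputable def BD.sg (e : Module.Basis (Fin 5) ℂ V5) : V5 →ₗ[ℂ] (Fin 3 → ℂ) where
  toFun r := ![D.c (e 3) (D.B r (e 4)), -D.c (e 3) (D.B r (e 3)), D.c (e 4) (D.B r (e 4))]
  map_add' x y := by
    funext j
    fin_cases j <;> simp [add_comm]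
  map_smul' t x := by
    funext j
    fin_cases j <;> simp

section
variable (e : Module.Basis (Fin 5) ℂ V5) (he : ∀ i j, D.c (e i) (e j) = nf2 i j)
include he

private theorem BD.decQ (w : V5) (x : V5) :
    D.c (w + D.c (e 4) w • e 3 - D.c (e 3) w • e 4) x = 0 := by
  revert x
  have h1 := e.sum_repr w
  rw [Fin.sum_univ_five] at h1
  have h3 : D.c (e 3) w = e.repr w 4 := by
    conv_lhs => rw [← h1]
    simp only [map_add, map_smul, he, smul_eq_mul]
    simp [nf2]
  have h4 : D.c (e 4) w = -e.repr w 3 := by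
    conv_lhs => rw [← h1]
    simp only [map_add, map_smul, he, smul_eq_mul]
    simp [nf2]
  rw [D.mem_R e he, h3, h4]
  have h5 : w + (-e.repr w 3) • e 3 - e.repr w 4 • e 4 =
      e.repr w 0 • e 0 + e.repr w 1 • e 1 + e.repr w 2 • e 2 := by
    conv_lhs =>
      enter [1, 1]
      rw [← h1]
    simp only [neg_smul]
    abel
  rw [h5]
  refine Submodule.add_mem _ (Submodule.add_mem _ (Submodule.smul_mem _ _ ?_)
    (Submodule.smul_mem _ _ ?_)) (Submodule.smul_mem _ _ ?_)
  · exact Submodule.subset_span (by simp)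
  · exact Submodule.subset_span (by simp)
  · exact Submodule.subset_span (by simp)

private theorem BD.memQ (y : V5) (h3 : D.c (e 3) y = 0) (h4 : D.c (e 4) y = 0) (v : V5) :
    D.c v y = 0 := by
  have h := D.decQ e he y v
  rw [h3, h4, zero_smul, zero_smul, add_zero, sub_zero] at h
  rw [D.skewc, h, neg_zero]

/-- the matrix of `B r` on `W` -/
private theorem BD.smatQ (r : V5) (hr : ∀ x, D.c r x = 0) (w : V5) :
    D.c (e 3) (D.B r w) = D.sg e r 0 * D.c (e 3) w + D.sg e r 1 * D.c (e 4) w ∧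
      D.c (e 4) (D.B r w) = D.sg e r 2 * D.c (e 3) w - D.sg e r 0 * D.c (e 4) w := by
  have g0 : D.sg e r 0 = D.c (e 3) (D.B r (e 4)) := rfl
  have g1 : D.sg e r 1 = -D.c (e 3) (D.B r (e 3)) := rfl
  have g2 : D.sg e r 2 = D.c (e 4) (D.B r (e 4)) := rfl
  rw [g0, g1, g2]
  have hs := D.sympl e he r hr (e 3) (e 4)
  rw [D.skewc (D.B r (e 3)) (e 4)] at hs
  have h1 := D.rep_mem r _ hr (D.decQ e he w)
  have h2 : ∀ x, D.c x (D.B r (w + D.c (e 4) w • e 3 - D.c (e 3) w • e 4)) = 0 := by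
    intro x
    rw [D.skewc, h1, neg_zero]
  have h3 := h2 (e 3)
  have h4 := h2 (e 4)
  simp only [map_add, map_sub, map_smul, smul_eq_mul] at h3 h4
  constructor
  · linear_combination h3
  · linear_combination h4 + D.c (e 4) w * hs

/-- commutators -/
private theorem BD.comQ (r z : V5) (hr : ∀ x, D.c r x = 0) (hz : ∀ x, D.c z x = 0) :
    D.sg e (D.B r z) 0 = D.sg e r 1 * D.sg e z 2 - D.sg e r 2 * D.sg e z 1 ∧
    D.sg e (D.B r z) 1 = 2 * (D.sg e r 0 * D.sg e z 1 - D.sg e r 1 * D.sg e z 0) ∧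
    D.sg e (D.B r z) 2 = 2 * (D.sg e r 2 * D.sg e z 0 - D.sg e r 0 * D.sg e z 2) := by
  have e33 : D.c (e 3) (e 3) = 0 := D.altc _
  have e44 : D.c (e 4) (e 4) = 0 := D.altc _
  have e34 : D.c (e 3) (e 4) = 1 := by rw [he]; simp [nf2]
  have e43 : D.c (e 4) (e 3) = -1 := by rw [he]; simp [nf2]
  have g0 : D.sg e (D.B r z) 0 = D.c (e 3) (D.B (D.B r z) (e 4)) := rfl
  have g1 : D.sg e (D.B r z) 1 = -D.c (e 3) (D.B (D.B r z) (e 3)) := rfl
  have g2 : D.sg e (D.B r z) 2 = D.c (e 4) (D.B (D.B r z) (e 4)) := rfl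
  have a3 := fun w => (D.smatQ e he r hr w).1
  have a4 := fun w => (D.smatQ e he r hr w).2
  have b3 := fun w => (D.smatQ e he z hz w).1
  have b4 := fun w => (D.smatQ e he z hz w).2
  rw [g0, g1, g2, ← D.rep r z hr hz, ← D.rep r z hr hz, map_sub, map_sub, map_sub]
  simp only [a3, a4, b3, b4, e33, e44, e34, e43]
  refine ⟨?_, ?_, ?_⟩ <;> ring

private theorem BD.zeroQ (hinj : ∀ r, (∀ x, D.c r x = 0) → (∀ v w, D.c v (D.B r w) = 0) → r = 0)
    (r : V5) (hr : ∀ x, D.c r x = 0) (h0 : D.sg e r 0 = 0) (h1 : D.sg e r 1 = 0)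
    (h2 : D.sg e r 2 = 0) : r = 0 := by
  apply hinj r hr
  intro v w
  refine D.memQ e he _ ?_ ?_ v
  · rw [(D.smatQ e he r hr w).1, h0, h1]
    ring
  · rw [(D.smatQ e he r hr w).2, h0, h2]
    ring

private theorem BD.surQ (hinj : ∀ r, (∀ x, D.c r x = 0) → (∀ v w, D.c v (D.B r w) = 0) → r = 0)
    (a : Fin 3 → ℂ) : ∃ r, (∀ x, D.c r x = 0) ∧ D.sg e r = a := by
  let R : Submodule ℂ V5 := Submodule.span ℂ ({e 0, e 1, e 2} : Set V5)
  have hR : ∀ r : V5, r ∈ R ↔ ∀ x, D.c r x = 0 := fun r => (D.mem_R e he).symm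
  have hdim : 3 ≤ Module.finrank ℂ R := by
    have h1 : LinearIndependent ℂ (fun i : Fin 3 => e (Fin.castLE (by omega : 3 ≤ 5) i)) :=
      e.linearIndependent.comp _ (Fin.castLE_injective (by omega : 3 ≤ 5))
    have h2 := finrank_span_eq_card h1
    rw [Fintype.card_fin] at h2
    rw [← h2]
    apply Submodule.finrank_mono
    rw [Submodule.span_le]
    rintro _ ⟨i, rfl⟩
    fin_cases i
    · exact Submodule.subset_span (by simp)
    · exact Submodule.subset_span (by simp)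
    · exact Submodule.subset_span (by simp)
  have hker : Function.Injective ((D.sg e).domRestrict R) := by
    rw [← LinearMap.ker_eq_bot, LinearMap.ker_eq_bot']
    rintro ⟨r, hr⟩ hz
    have hz' : D.sg e r = 0 := hz
    have hr' := (hR r).1 hr
    have := D.zeroQ e he hinj r hr' (by rw [hz']; rfl) (by rw [hz']; rfl) (by rw [hz']; rfl)
    exact Subtype.ext this
  have hrange : LinearMap.range ((D.sg e).domRestrict R) = ⊤ := by
    apply Submodule.eq_top_of_finrank_eq
    have h1 := LinearMap.finrank_range_of_inj hker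
    have h2 : Module.finrank ℂ (LinearMap.range ((D.sg e).domRestrict R)) ≤
        Module.finrank ℂ (Fin 3 → ℂ) := Submodule.finrank_le _
    have h3 : Module.finrank ℂ (Fin 3 → ℂ) = 3 := by simp
    omega
  have ha : a ∈ LinearMap.range ((D.sg e).domRestrict R) := by
    rw [hrange]
    exact Submodule.mem_top
  obtain ⟨⟨r, hr⟩, hra⟩ := ha
  exact ⟨r, (hR r).1 hr, hra⟩

private theorem BD.tripQ (hinj : ∀ r, (∀ x, D.c r x = 0) → (∀ v w, D.c v (D.B r w) = 0) → r = 0) :
    ∃ h x y : V5, (∀ v, D.c h v = 0) ∧ (∀ v, D.c x v = 0) ∧ (∀ v, D.c y v = 0) ∧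
      D.sg e h = ![-1, 0, 0] ∧ D.sg e x = ![0, 0, -1] ∧ D.sg e y = ![0, -1, 0] ∧
      D.B h x = (2 : ℂ) • x ∧ D.B h y = (-2 : ℂ) • y ∧ D.B x y = h := by
  obtain ⟨h, hh, sh⟩ := D.surQ e he hinj ![-1, 0, 0]
  obtain ⟨x, hx, sx⟩ := D.surQ e he hinj ![0, 0, -1]
  obtain ⟨y, hy, sy⟩ := D.surQ e he hinj ![0, -1, 0]
  have key : ∀ (r z u : V5), (∀ x, D.c r x = 0) → (∀ x, D.c z x = 0) → (∀ x, D.c u x = 0) →
      D.sg e (D.B r z) = D.sg e u → D.B r z = u := by
    intro r z u hr hz hu hs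
    rw [← sub_eq_zero]
    refine D.zeroQ e he hinj _ ?_ ?_ ?_ ?_
    · intro w
      rw [map_sub, LinearMap.sub_apply, D.rep_mem r z hr hz, hu, sub_zero]
    · rw [map_sub, hs, sub_self]
      rfl
    · rw [map_sub, hs, sub_self]
      rfl
    · rw [map_sub, hs, sub_self]
      rfl
  refine ⟨h, x, y, hh, hx, hy, sh, sx, sy, ?_, ?_, ?_⟩
  · refine key h x _ hh hx (by intro w; rw [map_smul, LinearMap.smul_apply, hx, smul_zero]) ?_
    obtain ⟨c0, c1, c2⟩ := D.comQ e he h x hh hx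
    rw [map_smul]
    funext j
    fin_cases j
    · show D.sg e (D.B h x) 0 = _
      rw [c0, sh, sx]
      simp
    · show D.sg e (D.B h x) 1 = _
      rw [c1, sh, sx]
      simp
    · show D.sg e (D.B h x) 2 = _
      rw [c2, sh, sx]
      simp
  · refine key h y _ hh hy (by intro w; rw [map_smul, LinearMap.smul_apply, hy, smul_zero]) ?_
    obtain ⟨c0, c1, c2⟩ := D.comQ e he h y hh hy
    rw [map_smul]
    funext j
    fin_cases j
    · show D.sg e (D.B h y) 0 = _
      rw [c0, sh, sy]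
      simp
    · show D.sg e (D.B h y) 1 = _
      rw [c1, sh, sy]
      simp
    · show D.sg e (D.B h y) 2 = _
      rw [c2, sh, sy]
      simp
  · refine key x y _ hx hy hh ?_
    obtain ⟨c0, c1, c2⟩ := D.comQ e he x y hx hy
    funext j
    fin_cases j
    · show D.sg e (D.B x y) 0 = _
      rw [c0, sh, sx, sy]
      simp
    · show D.sg e (D.B x y) 1 = _
      rw [c1, sh, sx, sy]
      simp
    · show D.sg e (D.B x y) 2 = _
      rw [c2, sh, sx, sy]
      simp

theorem BD.triple (hinj : ∀ r, (∀ x, D.c r x = 0) → (∀ v w, D.c v (D.B r w) = 0) → r = 0) :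
    ∃ h x y : V5, (∀ v, D.c h v = 0) ∧ (∀ v, D.c x v = 0) ∧ (∀ v, D.c y v = 0) ∧
      LinearIndependent ℂ ![h, x, y] ∧ D.B h x = (2 : ℂ) • x ∧ D.B h y = (-2 : ℂ) • y ∧
      D.B x y = h ∧ (∀ v, D.c v (D.B h (e 3) - e 3) = 0) ∧ (∀ v, D.c v (D.B h (e 4) + e 4) = 0) ∧
      (∀ v, D.c v (D.B x (e 3)) = 0) ∧ (∀ v, D.c v (D.B x (e 4) - e 3) = 0) ∧
      (∀ v, D.c v (D.B y (e 3) - e 4) = 0) ∧ (∀ v, D.c v (D.B y (e 4)) = 0) := by
  obtain ⟨h, x, y, hh, hx, hy, sh, sx, sy, e1, e2, e3⟩ := D.tripQ e he hinj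
  have e33 : D.c (e 3) (e 3) = 0 := D.altc _
  have e44 : D.c (e 4) (e 4) = 0 := D.altc _
  have e34 : D.c (e 3) (e 4) = 1 := by rw [he]; simp [nf2]
  have e43 : D.c (e 4) (e 3) = -1 := by rw [he]; simp [nf2]
  have h3 := fun w => (D.smatQ e he h hh w).1
  have h4 := fun w => (D.smatQ e he h hh w).2
  have x3 := fun w => (D.smatQ e he x hx w).1
  have x4 := fun w => (D.smatQ e he x hx w).2
  have y3 := fun w => (D.smatQ e he y hy w).1
  have y4 := fun w => (D.smatQ e he y hy w).2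
  rw [sh] at h3 h4
  rw [sx] at x3 x4
  rw [sy] at y3 y4
  refine ⟨h, x, y, hh, hx, hy, ?_, e1, e2, e3, ?_, ?_, ?_, ?_, ?_, ?_⟩
  · rw [Fintype.linearIndependent_iff]
    intro g hg
    rw [Fin.sum_univ_three] at hg
    have hg' : g 0 • h + g 1 • x + g 2 • y = 0 := by simpa using hg
    have hs := congrArg (D.sg e) hg'
    rw [map_add, map_add, map_smul, map_smul, map_smul, sh, sx, sy, map_zero] at hs
    have s0 := congrFun hs 0
    have s1 := congrFun hs 1
    have s2 := congrFun hs 2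
    simp at s0 s1 s2
    intro i
    fin_cases i
    · exact s0
    · exact s2
    · exact s1
  · refine fun v => D.memQ e he _ ?_ ?_ v
    · rw [map_sub, h3, e33, e43]
      simp
    · rw [map_sub, h4, e33, e43]
      simp
  · refine fun v => D.memQ e he _ ?_ ?_ v
    · rw [map_add, h3, e34, e44]
      simp
    · rw [map_add, h4, e34, e44]
      simp
  · refine fun v => D.memQ e he _ ?_ ?_ v
    · rw [x3, e33, e43]
      simp
    · rw [x4, e33, e43]
      simp
  · refine fun v => D.memQ e he _ ?_ ?_ v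
    · rw [map_sub, x3, e34, e44, e33]
      simp
    · rw [map_sub, x4, e34, e44, e43]
      simp
  · refine fun v => D.memQ e he _ ?_ ?_ v
    · rw [map_sub, y3, e33, e43, e34]
      simp
    · rw [map_sub, y4, e33, e43, e44]
      simp
  · refine fun v => D.memQ e he _ ?_ ?_ v
    · rw [y3, e34, e44]
      simp
    · rw [y4, e34, e44]
      simp

theorem BD.r2_D (hinj : ∀ r, (∀ x, D.c r x = 0) → (∀ v w, D.c v (D.B r w) = 0) → r = 0) :
    False := by
  obtain ⟨h, x, y, hh, hx, hy, sh, sx, sy, e1, e2, e3⟩ := D.tripQ e he hinj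
  have h3 := fun w => (D.smatQ e he h hh w).1
  have h4 := fun w => (D.smatQ e he h hh w).2
  have x3 := fun w => (D.smatQ e he x hx w).1
  have x4 := fun w => (D.smatQ e he x hx w).2
  have y3 := fun w => (D.smatQ e he y hy w).1
  have y4 := fun w => (D.smatQ e he y hy w).2
  rw [sh] at h3 h4
  rw [sx] at x3 x4
  rw [sy] at y3 y4
  simp only [Matrix.cons_val_zero, Matrix.cons_val_one, Matrix.cons_val, zero_mul, neg_mul, one_mul,
    add_zero, zero_add, zero_sub, sub_zero, neg_neg, neg_zero, sub_neg_eq_add] at h3 h4 x3 x4 y3 y4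
  -- normal ordering
  have n1 : ∀ w, D.B x (D.B h w) = D.B h (D.B x w) - (2 : ℂ) • D.B x w := by
    intro w
    have := D.rep h x hh hx w
    rw [e1, map_smul, LinearMap.smul_apply] at this
    rw [← this]
    abel
  have n2 : ∀ w, D.B y (D.B h w) = D.B h (D.B y w) + (2 : ℂ) • D.B y w := by
    intro w
    have := D.rep h y hh hy w
    rw [e2, map_smul, LinearMap.smul_apply] at this
    have h2 : D.B y (D.B h w) = D.B h (D.B y w) - (-2 : ℂ) • D.B y w := by
      rw [← this]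
      abel
    rw [h2]
    module
  have n3 : ∀ w, D.B x (D.B y w) = D.B y (D.B x w) + D.B h w := by
    intro w
    have := D.rep x y hx hy w
    rw [e3] at this
    rw [← this]
    abel
  obtain ⟨P, hP⟩ : ∃ P : V5 →ₗ[ℂ] V5, ∀ v, P v = D.B h (D.B h v) + (2 : ℂ) • D.B x (D.B y v) +
      (2 : ℂ) • D.B y (D.B x v) - (3 : ℂ) • v :=
    ⟨(D.B h).comp (D.B h) + (2 : ℂ) • (D.B x).comp (D.B y) + (2 : ℂ) • (D.B y).comp (D.B x) -
      (3 : ℂ) • LinearMap.id, fun v => rfl⟩
  have hPR : ∀ v w, D.c (P v) w = 0 := by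
    intro v w
    rw [D.skewc, neg_eq_zero]
    refine D.memQ e he _ ?_ ?_ w
    · rw [hP]
      simp only [map_add, map_sub, map_smul, smul_eq_mul, h3, h4, x3, x4, y3, y4]
      ring
    · rw [hP]
      simp only [map_add, map_sub, map_smul, smul_eq_mul, h3, h4, x3, x4, y3, y4]
      ring
  have cx : ∀ v, P (D.B x v) = D.B x (P v) := by
    intro v
    rw [hP, hP]
    simp only [n1, n2, n3, map_add, map_sub, map_smul]
    module
  have cy : ∀ v, P (D.B y v) = D.B y (P v) := by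
    intro v
    rw [hP, hP]
    simp only [n1, n2, n3, map_add, map_sub, map_smul]
    module
  have ch : ∀ v, P (D.B h v) = D.B h (P v) := by
    intro v
    rw [hP, hP]
    simp only [n1, n2, n3, map_add, map_sub, map_smul]
    module
  have hPh : P h = (5 : ℂ) • h := by
    rw [hP, D.altB, map_zero, D.skewB x h, e1, D.skewB y h, e2]
    simp only [map_neg, map_smul, e3]
    rw [D.skewB y x, e3]
    module
  -- `r ∈ R` is a combination
  have hcomb : ∀ r, (∀ z, D.c r z = 0) → ∃ p q u : ℂ, r = p • h + q • x + u • y := by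
    intro r hr
    refine ⟨-D.sg e r 0, -D.sg e r 2, -D.sg e r 1, ?_⟩
    rw [← sub_eq_zero]
    have hz : D.sg e (r - (-D.sg e r 0 • h + -D.sg e r 2 • x + -D.sg e r 1 • y)) = 0 := by
      rw [map_sub, map_add, map_add, map_smul, map_smul, map_smul, sh, sx, sy]
      funext j
      fin_cases j <;> simp
    refine D.zeroQ e he hinj _ ?_ (by rw [hz]; rfl) (by rw [hz]; rfl) (by rw [hz]; rfl)
    intro w
    simp [hr, hh, hx, hy]
  have hcom : ∀ r, (∀ z, D.c r z = 0) → ∀ v, P (D.B r v) = D.B r (P v) := by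
    intro r hr v
    obtain ⟨p, q, u, rfl⟩ := hcomb r hr
    simp only [map_add, map_smul, LinearMap.add_apply, LinearMap.smul_apply, ch, cx, cy]
  -- the form
  obtain ⟨k, hk⟩ : ∃ k : V5 →ₗ[ℂ] V5 →ₗ[ℂ] ℂ, ∀ v w, k v w =
      2 * (D.sg e (P v) 0 * D.sg e (P w) 0) + D.sg e (P v) 1 * D.sg e (P w) 2 +
      D.sg e (P v) 2 * D.sg e (P w) 1 := by
    refine ⟨LinearMap.mk₂ ℂ (fun v w => 2 * (D.sg e (P v) 0 * D.sg e (P w) 0) +
      D.sg e (P v) 1 * D.sg e (P w) 2 + D.sg e (P v) 2 * D.sg e (P w) 1) ?_ ?_ ?_ ?_,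
      fun v w => rfl⟩
    · intro a b w
      simp only [map_add, Pi.add_apply]
      ring
    · intro t a w
      simp only [map_smul, Pi.smul_apply, smul_eq_mul]
      ring
    · intro a b w
      simp only [map_add, Pi.add_apply]
      ring
    · intro t a w
      simp only [map_smul, Pi.smul_apply, smul_eq_mul]
      ring
  have hS : Submodule.span ℂ {e 0, e 1, e 2} ≠ ⊤ := by
    intro htop
    have h1 : e 3 ∈ Submodule.span ℂ {e 0, e 1, e 2} := by rw [htop]; exact Submodule.mem_top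
    have h2 := (D.mem_R e he).2 h1 (e 4)
    rw [he] at h2
    simp [nf2] at h2
  have hk0 := D.inv2 k _ hS (by
    intro a b
    rw [hk, hk]
    ring) (by
    intro z hz w hwz
    have hz' : ¬ ∀ u, D.c z u = 0 := fun hu => hz ((D.mem_R e he).1 hu)
    obtain ⟨r, t, hr, rfl⟩ := D.splitQ e he hz' hwz
    rw [D.ByQ, hk, hcom r hr]
    obtain ⟨c0, c1, c2⟩ := D.comQ e he r (P z) hr (hPR z)
    rw [c0, c1, c2]
    ring)
  have h1 : k h h = 0 := by rw [hk0]; rfl
  rw [hk, hPh, map_smul, sh] at h1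
  simp at h1

theorem BD.rank2 : False := by
  by_cases hinj : ∀ r, (∀ x, D.c r x = 0) → (∀ v w, D.c v (D.B r w) = 0) → r = 0
  · exact D.r2_D e he hinj
  push Not at hinj
  obtain ⟨r0, hr0, hq, h0⟩ := hinj
  by_cases hab : ∃ a b : V5, (∀ x, D.c a x = 0) ∧ (∀ x, D.c b x = 0) ∧
      ∀ s t : ℂ, (∀ v w, D.c v (D.B (s • a + t • b) w) = 0) → s = 0 ∧ t = 0
  · obtain ⟨a, b, ha, hb, h⟩ := hab
    exact D.r2_C e he a b r0 ha hb hr0 h0 hq h
  by_cases hA : ∀ r, (∀ x, D.c r x = 0) → ∀ v w, D.c v (D.B r w) = 0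
  · exact D.r2_A e he hA
  push Not at hA
  obtain ⟨r1, hr1, v1, w1, hne⟩ := hA
  refine D.r2_B e he r1 hr1 ⟨v1, w1, hne⟩ ?_
  intro r hr
  by_contra hcon
  apply hab
  refine ⟨r1, r, hr1, hr, ?_⟩
  intro s t hst
  have hst' : ∀ v w, s * D.c v (D.B r1 w) + t * D.c v (D.B r w) = 0 := by
    intro v w
    have := hst v w
    simpa using this
  have ht : t = 0 := by
    by_contra ht
    apply hcon
    refine ⟨-s / t, fun v w => ?_⟩
    have := hst' v w
    field_simp
    linear_combination this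
  refine ⟨?_, ht⟩
  have := hst' v1 w1
  rw [ht, zero_mul, add_zero] at this
  exact (mul_eq_zero.1 this).resolve_right hne

end

end Pool.Agent.Helper50.FC
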