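import Pool.Agent.Helper71.FC.Rest
import Pool.Agent.Helper1.FG.Defs

/-! K1-16: linear vector fields annihilated by `θ`, restriction inequalities, and the 2-form of three vector fields in dimension 5.
* `EE_rs_le`: `EE_ker`.  `EE_rs_bot`: multiplication by `X 0 ^ (d - d')` is injective, so `EE (rs2 θ) d' = ⊥` for `d' ≤ d`; induction on `d'` with
  `EE_ker0`, `EE_ker`.
* `KL_finrank`: `A ↦ ct (linF A) θ` maps the space of matrices to `EE θ 4` (`Dec θ` contracted), kernel `KL θ`.
* `mins_prop`: `mins v` is the 2-form `i_(v_0) i_(v_1) i_(v_2) vol` (up to sign); over the fraction field: if the `v l` are dependent then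
  `mins v = 0`; otherwise a 2-form annihilated by three independent vectors of a 5-dimensional space is a multiple of it. -/

set_option autoImplicit false

namespace Pool.Agent.Helper50.FC

open MvPolynomial
open scoped BigOperators
open Pool.Agent.Helper71.FL (w12 pf ct Dec Closed dd at0 res)
open Pool.Agent.Helper93 (lsub lmap OF pb)
open Pool.Agent.Helper71.FC
open Pool.Agent.Helper1.FG (mins alp Triv)

variable {n m k : ℕ}

theorem EE_rs_le {θ : F2 (n + 1)} (hne : ∃ i j, rs2 θ i j ≠ 0) (d : ℕ) :
    Module.finrank ℂ (EE θ (d + 1)) ≤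
      Module.finrank ℂ (EE (rs2 θ) (d + 1)) + Module.finrank ℂ (EE θ d) := by
  have := finite_EE θ (d + 1)
  have := finite_EE θ d
  have := finite_EE (rs2 θ) (d + 1)
  let R : EE θ (d + 1) →ₗ[ℂ] EE (rs2 θ) (d + 1) :=
    { toFun := fun ξ => ⟨res ξ.1, res_mem_EE ξ.2⟩
      map_add' := by
        intro a b
        apply Subtype.ext
        refine _root_.funext fun i => ?_
        show at0 n ℂ (a.1 i.succ + b.1 i.succ) = at0 n ℂ (a.1 i.succ) + at0 n ℂ (b.1 i.succ)
        exact map_add _ _ _
      map_smul' := by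
        intro c a
        apply Subtype.ext
        refine _root_.funext fun i => ?_
        show at0 n ℂ (c • a.1 i.succ) = c • at0 n ℂ (a.1 i.succ)
        exact map_smul _ _ _ }
  let μ : EE θ d →ₗ[ℂ] EE θ (d + 1) :=
    { toFun := fun η => ⟨fun i => X 0 * η.1 i, by
        refine ⟨fun i => ?_, fun i j l => ?_⟩
        · have := (isHomogeneous_X ℂ (0 : Fin (n + 1))).mul (η.2.1 i)
          rwa [add_comm 1 d] at this
        · rw [Pool.Agent.Helper71.FL.w12_smul, η.2.2, mul_zero]⟩
      map_add' := by
        intro a b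
        apply Subtype.ext
        refine _root_.funext fun i => ?_
        show X 0 * (a.1 i + b.1 i) = X 0 * a.1 i + X 0 * b.1 i
        ring
      map_smul' := by
        intro c a
        apply Subtype.ext
        refine _root_.funext fun i => ?_
        show X 0 * (c • a.1 i) = c • (X 0 * a.1 i)
        rw [mul_smul_comm] }
  have h1 := LinearMap.finrank_range_add_finrank_ker R
  have h2 : Module.finrank ℂ (LinearMap.range R) ≤
      Module.finrank ℂ (EE (rs2 θ) (d + 1)) := Submodule.finrank_le _
  have h3 : LinearMap.ker R ≤ LinearMap.range μ := by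
    rintro ⟨ξ, hξ⟩ hk
    have h4 : ∀ i, res ξ i = 0 := fun i => congrFun (congrArg Subtype.val hk) i
    obtain ⟨η, hη, he⟩ := EE_ker hne hξ h4
    exact ⟨⟨η, hη⟩, Subtype.ext (_root_.funext fun i => (he i).symm)⟩
  have h4 := Submodule.finrank_mono h3
  have h5 := LinearMap.finrank_range_le μ
  omega

theorem EE_bot_of_le {θ : F2 (n + 1)} {d d' : ℕ} (h : EE θ d = ⊥) (hd : d' ≤ d) :
    EE θ d' = ⊥ := by
  rw [eq_bot_iff]
  intro ξ hξ
  have h1 : (fun i => X 0 ^ (d - d') * ξ i : F1 (n + 1)) ∈ EE θ d := by
    refine ⟨fun i => ?_, fun i j l => ?_⟩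
    · have := ((isHomogeneous_X ℂ (0 : Fin (n + 1))).pow (d - d')).mul (hξ.1 i)
      have h2 : 1 * (d - d') + d' = d := by omega
      rwa [h2] at this
    · rw [Pool.Agent.Helper71.FL.w12_smul, hξ.2, mul_zero]
  rw [h, Submodule.mem_bot] at h1
  rw [Submodule.mem_bot]
  refine _root_.funext fun i => ?_
  have h2 : X 0 ^ (d - d') * ξ i = 0 := congrFun h1 i
  exact (mul_eq_zero.1 h2).resolve_left (pow_ne_zero _ (X_ne_zero _))

theorem EE_rs_bot {θ : F2 (n + 2)} (hne : ∃ i j, rs2 θ i j ≠ 0) {d : ℕ}
    (h : EE (rs2 θ) d = ⊥) : EE θ d = ⊥ := by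
  have key : ∀ d', d' ≤ d → EE θ d' = ⊥ := by
    intro d'
    induction d' with
    | zero =>
      intro hd
      rw [eq_bot_iff]
      intro ξ hξ
      have h1 := res_mem_EE hξ
      rw [EE_bot_of_le h hd, Submodule.mem_bot] at h1
      rw [Submodule.mem_bot]
      exact EE_ker0 hne hξ (fun i => congrFun h1 i)
    | succ d' ih =>
      intro hd
      rw [eq_bot_iff]
      intro ξ hξ
      have h1 := res_mem_EE hξ
      rw [EE_bot_of_le h hd, Submodule.mem_bot] at h1
      obtain ⟨η, hη, he⟩ := EE_ker hne hξ (fun i => congrFun h1 i)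
      rw [ih (by omega), Submodule.mem_bot] at hη
      rw [Submodule.mem_bot]
      refine _root_.funext fun i => ?_
      rw [he, hη]
      exact mul_zero _
  exact key d le_rfl

/-- if `EE (rs2 θ) d = 0` then sections of degree `d + 1` are determined by their restriction -/
theorem EE_rs_inj {θ : F2 (n + 2)} (hne : ∃ i j, rs2 θ i j ≠ 0) {d : ℕ}
    (h : EE (rs2 θ) d = ⊥) {ξ : F1 (n + 2)} (hξ : ξ ∈ EE θ (d + 1))
    (h0 : ∀ i : Fin (n + 1), at0 (n + 1) ℂ (ξ i.succ) = 0) : ξ = 0 := by
  obtain ⟨η, hη, he⟩ := EE_ker hne hξ h0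
  rw [EE_rs_bot hne h, Submodule.mem_bot] at hη
  refine _root_.funext fun i => ?_
  rw [he, hη]
  exact mul_zero _

/-- the linear vector field with matrix `A` -/
noncomputable def linF (A : Fin n → Fin n → ℂ) : F1 n := fun i => ∑ j, C (A i j) * X j

/-- the linear vector fields annihilated by `θ` -/
noncomputable def KL (θ : F2 n) : Submodule ℂ (Fin n → Fin n → ℂ) where
  carrier := {A | ∀ j, ct (linF A) θ j = 0}
  add_mem' := by
    intro A B hA hB j
    have := hA j
    have := hB j
    simp only [ct, linF, Pi.add_apply, C_add, add_mul, Finset.sum_add_distrib] at *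
    rw [hA j, hB j, add_zero]
  zero_mem' := by
    intro j
    simp [ct, linF]
  smul_mem' := by
    intro c A hA j
    have h := hA j
    simp only [ct, linF, Pi.smul_apply, smul_eq_mul, C_mul, mul_assoc, ← Finset.mul_sum] at *
    rw [h, mul_zero]

theorem KL_finrank {θ : F2 n} (hθ : ∀ i j, (θ i j).IsHomogeneous 3) (hdec : Dec θ) :
    n * n ≤ Module.finrank ℂ (KL θ) + Module.finrank ℂ (EE θ 4) := by
  have := finite_EE θ 4
  have hh : ∀ A : Fin n → Fin n → ℂ, ∀ j, (ct (linF A) θ j).IsHomogeneous 4 := by
    intro A j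
    unfold ct
    apply IsHomogeneous.sum
    intro i _
    have h1 : (linF A i).IsHomogeneous 1 := by
      unfold linF
      apply IsHomogeneous.sum
      intro l _
      have := (isHomogeneous_C (Fin n) (A i l)).mul (isHomogeneous_X ℂ l)
      rwa [zero_add] at this
    exact h1.mul (hθ i j)
  let Λ : (Fin n → Fin n → ℂ) →ₗ[ℂ] EE θ 4 :=
    { toFun := fun A => ⟨ct (linF A) θ, hh A, fun i j l => Pool.Agent.Helper71.FL.w12_ct hdec _ i j l⟩
      map_add' := by
        intro A B
        apply Subtype.ext
        refine _root_.funext fun j => ?_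
        show ct (linF (A + B)) θ j = ct (linF A) θ j + ct (linF B) θ j
        simp only [ct, linF, Pi.add_apply, C_add, add_mul, Finset.sum_add_distrib]
      map_smul' := by
        intro c A
        apply Subtype.ext
        refine _root_.funext fun j => ?_
        show ct (linF (c • A)) θ j = c • ct (linF A) θ j
        simp only [ct, linF, Pi.smul_apply, smul_eq_mul, C_mul, mul_assoc, ← Finset.mul_sum,
          smul_eq_C_mul] }
  have h1 := LinearMap.finrank_range_add_finrank_ker Λ
  have h2 : Module.finrank ℂ (LinearMap.range Λ) ≤ Module.finrank ℂ (EE θ 4) :=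
    Submodule.finrank_le _
  have h3 : LinearMap.ker Λ ≤ KL θ := by
    intro A hA j
    exact congrFun (congrArg Subtype.val hA) j
  have h4 := Submodule.finrank_mono h3
  have h5 : Module.finrank ℂ (Fin n → Fin n → ℂ) = n * n := by
    simp [Module.finrank_pi_fintype]
  omega

section alt
variable {R : Type} [CommRing R]

private theorem alp_self (v : Fin k → Fin (k + 2) → R) (x : Fin (k + 2) → R) : alp v x x = 0 := by
  unfold alp
  refine Matrix.det_zero_of_row_eq (i := 0) (j := 1) ?_ rfl
  intro h
  exact absurd (congrArg Fin.val h) (by simp)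

private noncomputable def alpL (v : Fin k → Fin (k + 2) → R) (y : Fin (k + 2) → R) :
    (Fin (k + 2) → R) →ₗ[R] R :=
  (Matrix.detRowAlternating (n := Fin (k + 2)) (R := R)).toMultilinearMap.toLinearMap
    (Fin.cons 0 (Fin.cons y v)) 0

private noncomputable def alpR (v : Fin k → Fin (k + 2) → R) (x : Fin (k + 2) → R) :
    (Fin (k + 2) → R) →ₗ[R] R :=
  (Matrix.detRowAlternating (n := Fin (k + 2)) (R := R)).toMultilinearMap.toLinearMap
    (Fin.cons x (Fin.cons 0 v)) 1

private theorem alpL_apply (v : Fin k → Fin (k + 2) → R) (x y : Fin (k + 2) → R) :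
    alpL v y x = alp v x y := by
  show Matrix.det (Function.update (Fin.cons 0 (Fin.cons y v)) 0 x) = _
  rw [Fin.update_cons_zero]
  rfl

private theorem upd1 (v : Fin k → Fin (k + 2) → R) (x y z : Fin (k + 2) → R) :
    Function.update (Fin.cons x (Fin.cons z v) : Fin (k + 2) → Fin (k + 2) → R) 1 y =
      Fin.cons x (Fin.cons y v) := by
  have h1 : (1 : Fin (k + 2)) = Fin.succ 0 := rfl
  rw [h1, ← Fin.cons_update, Fin.update_cons_zero]

private theorem alpR_apply (v : Fin k → Fin (k + 2) → R) (x y : Fin (k + 2) → R) :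
    alpR v x y = alp v x y := by
  show Matrix.det (Function.update (Fin.cons x (Fin.cons 0 v)) 1 y) = _
  rw [upd1]
  rfl

private theorem alp_swap (v : Fin k → Fin (k + 2) → R) (x y : Fin (k + 2) → R) :
    alp v x y = - alp v y x := by
  have h := alp_self v (x + y)
  rw [← alpL_apply, map_add, alpL_apply, alpL_apply, ← alpR_apply, ← alpR_apply, map_add, map_add,
    alpR_apply, alpR_apply, alpR_apply, alpR_apply, alp_self, alp_self, zero_add, add_zero] at h
  exact eq_neg_of_add_eq_zero_left h

private theorem alp_v (v : Fin k → Fin (k + 2) → R) (y : Fin (k + 2) → R) (l : Fin k) :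
    alp v (v l) y = 0 := by
  unfold alp
  refine Matrix.det_zero_of_row_eq (i := 0) (j := l.succ.succ) ?_ rfl
  intro h
  exact absurd (congrArg Fin.val h) (by simp)

private theorem cram (v : Fin k → Fin (k + 2) → R) (f : (Fin (k + 2) → R) →ₗ[R] R)
    (hf : ∀ l, f (v l) = 0) (a b x : Fin (k + 2) → R) :
    alp v a b * f x = alp v x b * f a - alp v x a * f b := by
  set A : Matrix (Fin (k + 2)) (Fin (k + 2)) R :=
    Matrix.of (Fin.cons a (Fin.cons b v)) with hA
  have h := Matrix.mulVec_cramer A.transpose x
  have h1 : A.transpose.mulVec (A.transpose.cramer x) = ∑ l, (A.transpose.cramer x) l • A l := by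
    refine _root_.funext fun i => ?_
    rw [Finset.sum_apply]
    unfold Matrix.mulVec dotProduct
    refine Finset.sum_congr rfl fun l _ => ?_
    show A l i * A.transpose.cramer x l = A.transpose.cramer x l * A l i
    rw [mul_comm]
  rw [h1] at h
  have h2 := congrArg f h
  rw [map_sum, map_smul, Matrix.det_transpose, smul_eq_mul, Fin.sum_univ_succ,
    Fin.sum_univ_succ] at h2
  have h3 : ∀ l : Fin k, f ((A.transpose.cramer x) l.succ.succ • A l.succ.succ) = 0 := by
    intro l
    have h4 : A l.succ.succ = v l := rfl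
    rw [map_smul, h4, hf, smul_zero]
  rw [Finset.sum_eq_zero fun l _ => h3 l, add_zero, map_smul, map_smul, smul_eq_mul, smul_eq_mul,
    Matrix.cramer_transpose_apply, Matrix.cramer_transpose_apply] at h2
  have h5 : (A.updateRow 0 x).det = alp v x b := by
    show Matrix.det (Function.update (Fin.cons a (Fin.cons b v)) 0 x) = _
    rw [Fin.update_cons_zero]
    rfl
  have h6 : (A.updateRow (Fin.succ 0) x).det = - alp v x a := by
    rw [← alp_swap]
    show Matrix.det (Function.update (Fin.cons a (Fin.cons b v)) 1 x) = _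
    rw [upd1]
    rfl
  have h7 : A 0 = a := rfl
  have h8 : A (Fin.succ 0) = b := rfl
  have h9 : A.det = alp v a b := rfl
  rw [h5, h6, h7, h8, h9] at h2
  rw [← h2]
  ring

end alt

theorem mins_prop {R : Type} [CommRing R] [IsDomain R] {Θ : Fin 5 → Fin 5 → R}
    (halt : ∀ i j, Θ i j = -Θ j i) (hd : ∀ i, Θ i i = 0) {v : Fin 3 → Fin 5 → R}
    (hv : ∀ l j, ∑ i, v l i * Θ i j = 0) (i j a b : Fin 5) :
    Θ i j * mins (k := 3) v (a, b) = Θ a b * mins (k := 3) v (i, j) := by
  classical
  set D : Fin 5 → Fin 5 → R := fun a b => mins (k := 3) v (a, b) with hDdef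
  have hDa : ∀ a b, D a b = - D b a := fun a b =>
    alp_swap (k := 3) v (Pi.single a 1) (Pi.single b 1)
  let B : Fin 5 → (Fin 5 → R) →ₗ[R] R := fun j =>
    { toFun := fun z => ∑ i, z i * Θ i j
      map_add' := by
        intro z w
        rw [← Finset.sum_add_distrib]
        exact Finset.sum_congr rfl fun i _ => by rw [Pi.add_apply]; ring
      map_smul' := by
        intro c z
        show ∑ i, (c • z) i * Θ i j = c * ∑ i, z i * Θ i j
        rw [Finset.mul_sum]
        exact Finset.sum_congr rfl fun i _ => by rw [Pi.smul_apply, smul_eq_mul]; ring }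
  have hB : ∀ i j, B j (Pi.single i 1) = Θ i j := by
    intro i j
    show ∑ l, (Pi.single i 1 : Fin 5 → R) l * Θ l j = Θ i j
    rw [Finset.sum_eq_single i]
    · rw [Pi.single_eq_same, one_mul]
    · intro l _ hl
      rw [Pi.single_eq_of_ne hl, zero_mul]
    · intro h
      exact absurd (Finset.mem_univ _) h
  have hP : ∀ a b x y, D a b * Θ x y = D x b * Θ a y - D x a * Θ b y := by
    intro a b x y
    have h := cram (k := 3) v (B y) (fun l => hv l y) (Pi.single a 1) (Pi.single b 1)
      (Pi.single x 1)
    rw [hB, hB, hB] at h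
    exact h
  have hQ : ∀ a b x y, D a b * D x y = D x b * D a y - D x a * D b y := by
    intro a b x y
    have h := cram (k := 3) v (alpL (k := 3) v (Pi.single y 1))
      (fun l => by rw [alpL_apply]; exact alp_v (k := 3) v _ l) (Pi.single a 1) (Pi.single b 1)
      (Pi.single x 1)
    rw [alpL_apply, alpL_apply, alpL_apply] at h
    exact h
  have hR : ∀ x a b, D x b * Θ a x = D x a * Θ b x := by
    intro x a b
    have h := hP a b x x
    rw [hd, mul_zero] at h
    exact (sub_eq_zero.1 h.symm)
  have key : ∀ i j a b, D i j * (D i j * Θ a b - D a b * Θ i j) = 0 := by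
    intro i j a b
    have e1 := hP i j a b
    have e2 := hR i b j
    have e3 := hR j b i
    have e4 := hQ a b i j
    rw [halt b i, halt j i] at e2
    rw [halt b j, hDa j i] at e3
    rw [hDa i a, hDa b j] at e4
    have e5 : D i j * Θ i b = D i b * Θ i j := by linear_combination -e2
    have e6 : D i j * Θ j b = D j b * Θ i j := by linear_combination e3
    linear_combination (D i j) * e1 + (D a j) * e5 - (D a i) * e6 - (Θ i j) * e4
  show Θ i j * D a b = Θ a b * D i j
  rcases eq_or_ne (D i j) 0 with h0 | h0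
  · rcases eq_or_ne (D a b) 0 with h1 | h1
    · rw [h0, h1, mul_zero, mul_zero]
    · have h2 := (mul_eq_zero.1 (key a b i j)).resolve_left h1
      linear_combination h2
  · have h2 := (mul_eq_zero.1 (key i j a b)).resolve_left h0
    linear_combination -h2

theorem mins_ne_zero {K : Type} [Field K] {v : Fin 3 → Fin 5 → K} (hv : LinearIndependent K v) :
    ∃ p, mins (k := 3) v p ≠ 0 := by
  classical
  by_contra hcon
  push Not at hcon
  obtain ⟨y, hy⟩ := exists_linearIndependent_cons_of_lt_finrank hv
    (by rw [Module.finrank_fin_fun]; norm_num)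
  obtain ⟨x, hx⟩ := exists_linearIndependent_cons_of_lt_finrank hy
    (by rw [Module.finrank_fin_fun]; norm_num)
  have hu : IsUnit (Matrix.of (Fin.cons x (Fin.cons y v) : Fin 5 → Fin 5 → K)) := by
    rw [← Matrix.linearIndependent_rows_iff_isUnit]
    exact hx
  rw [Matrix.isUnit_iff_isUnit_det] at hu
  apply hu.ne_zero
  have h1 : ∀ b, alp (k := 3) v x (Pi.single b 1) = 0 := by
    intro b
    rw [← alpL_apply, LinearMap.pi_apply_eq_sum_univ]
    refine Finset.sum_eq_zero fun a _ => ?_
    have h2 : (fun j => if a = j then (1 : K) else 0) = Pi.single a 1 := by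
      refine _root_.funext fun j => ?_
      rw [Pi.single_apply]
      simp only [eq_comm]
    rw [h2, alpL_apply]
    have h3 : alp (k := 3) v (Pi.single a 1) (Pi.single b 1) = 0 := hcon (a, b)
    rw [h3, smul_zero]
  show alp (k := 3) v x y = 0
  rw [← alpR_apply, LinearMap.pi_apply_eq_sum_univ]
  refine Finset.sum_eq_zero fun b _ => ?_
  have h2 : (fun j => if b = j then (1 : K) else 0) = Pi.single b 1 := by
    refine _root_.funext fun j => ?_
    rw [Pi.single_apply]
    simp only [eq_comm]
  rw [h2, alpR_apply, h1, smul_zero]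

end Pool.Agent.Helper50.FC
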