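import Pool.Agent.Helper71.FC.CaseY
import Pool.Agent.Helper50.FC.BD
import Pool.Agent.Helper50.FC.Point
import Pool.Agent.Helper50.FC.KL

/-! K1-32: case Y, `z = 4`, `ker Bt = 0`: the concrete context and the first fields of `BD`.
* `Cx.k2`: for every `i` the polynomial `x ↦ (av θ (Ψ x).1 i + C (Ψ x).2 * τ i)(x)` vanishes outside a proper subspace, so everywhere; `hRL`.
* `Cx.k3`: for general `x` (`hgen`) `u x ∈ ℂ x`, so `u x ∧ x = 0` for all `x`: `u` is a scalar.
* `Cx.rk3`: if the range of `Ψ = btm B c v` has dimension at most 2 then `Ψ x = l1(x) p1 + l2(x) p2` with linear forms `l1, l2` (independent, or one of them not needed) and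
  with `f_s := av θ p_s.1 + C p_s.2 τ` we get `l1 f_1 + l2 f_2 = 0` (polynomial identity from `hK`), so `l2 ∣ f_1`, `f_1 = l2 ξ`, `ξ ∈ EE θ 2 = 0`, `f_1 = 0`, `f_2 = 0`;
  `inj`: `Ψ = 0`; `hinj`: `v = 0`. -/

set_option autoImplicit false

namespace Pool.Agent.Helper50.FC

open MvPolynomial
open scoped BigOperators
open Pool.Agent.Helper71.FL (w12 pf ct Dec Closed dd at0 res)
open Pool.Agent.Helper71.FC

/-- the 1-form `a_v + s τ` -/
noncomputable def avt (θ : F2 5) (τ : F1 5) (p : V5 × ℂ) : F1 5 := fun i => av θ p.1 i + C p.2 * τ i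

/-- the context: `EE θ 3 = av (V5) ⊕ ℂ τ`, `Bt v x = avt (btm B c v x)` -/
structure Cx (θ : F2 5) where
  cy : CY θ
  τ : F1 5
  hτ : τ ∈ EE θ 3
  B : V5 →ₗ[ℂ] V5 →ₗ[ℂ] V5
  c : V5 →ₗ[ℂ] V5 →ₗ[ℂ] ℂ
  rep : ∀ f ∈ EE θ 3, ∃ p, f = avt θ τ p
  inj : ∀ p, avt θ τ p = 0 → p = 0
  altB : ∀ v, B v v = 0
  altc : ∀ v, c v v = 0
  hK : ∀ v x i, eval x (avt θ τ (btm B c v x) i) = 0
  hRL : ∀ Ψ : V5 →ₗ[ℂ] V5 × ℂ, (∀ x i, eval x (avt θ τ (Ψ x) i) = 0) → ∃ z, Ψ = btm B c z
  hgen : Gen (fun x : V5 => ∀ u, btm B c u x = 0 → ∃ t : ℂ, u = t • x)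
  hinj : ∀ v, btm B c v = 0 → v = 0

variable {θ : F2 5} (G : Cx θ)

theorem avt_add (τ : F1 5) (p q : V5 × ℂ) (i : Fin 5) :
    avt θ τ (p + q) i = avt θ τ p i + avt θ τ q i := by
  unfold avt av ct cv
  simp only [Prod.fst_add, Prod.snd_add, Pi.add_apply, C_add, add_mul, Finset.sum_add_distrib]
  ring

theorem avt_smul (τ : F1 5) (t : ℂ) (p : V5 × ℂ) (i : Fin 5) :
    avt θ τ (t • p) i = C t * avt θ τ p i := by
  unfold avt av ct cv
  simp only [Prod.smul_fst, Prod.smul_snd, Pi.smul_apply, smul_eq_mul, C_mul, mul_assoc, mul_add,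
    Finset.mul_sum]

theorem Cx.avt_mem (p : V5 × ℂ) : avt θ G.τ p ∈ EE θ 3 := by
  have h := (EE θ 3).add_mem (av_mem_EE G.cy.fol.dec G.cy.fol.hom p.1)
    ((EE θ 3).smul_mem p.2 G.hτ)
  have e : avt θ G.τ p = av θ p.1 + p.2 • G.τ := by
    refine _root_.funext fun i => ?_
    show av θ p.1 i + C p.2 * G.τ i = av θ p.1 i + p.2 • G.τ i
    rw [smul_eq_C_mul]
  rw [e]
  exact h

/-- the elements vanishing at `x` -/
def Cx.Km (x : V5) : Submodule ℂ (V5 × ℂ) where
  carrier := {p | ∀ i, eval x (avt θ G.τ p i) = 0}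
  add_mem' := by
    intro p q hp hq i
    rw [avt_add, map_add, hp i, hq i, add_zero]
  zero_mem' := by
    intro i
    have h : avt θ G.τ 0 i = C (0 : ℂ) * avt θ G.τ 0 i := by
      rw [← avt_smul, zero_smul]
    rw [h, map_mul, eval_C, zero_mul]
  smul_mem' := by
    intro t p hp i
    rw [avt_smul, map_mul, hp i, mul_zero]

/-- the linear field `x ↦ B v x` -/
noncomputable def Cx.fld (v : V5) : F1 5 := linF (fun i j => G.B v (Pi.single j 1) i)

/-- the linear form `x ↦ c v x` -/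
noncomputable def Cx.q (v : V5) : Pn 5 := ∑ j, C (G.c v (Pi.single j 1)) * X j

/-- the linear form of a functional -/
private noncomputable def cdp (f : V5 →ₗ[ℂ] ℂ) : Pn 5 := ∑ j, C (f (Pi.single j 1)) * X j

private theorem cdp_eval (f : V5 →ₗ[ℂ] ℂ) (x : V5) : eval x (cdp f) = f x := by
  have hx : x = ∑ j, x j • (Pi.single j (1 : ℂ) : V5) := by
    refine _root_.funext fun i => ?_
    rw [Finset.sum_apply, Finset.sum_eq_single i]
    · rw [Pi.smul_apply, Pi.single_eq_same, smul_eq_mul, mul_one]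
    · intro j _ hj
      rw [Pi.smul_apply, Pi.single_eq_of_ne (Ne.symm hj), smul_zero]
    · intro h
      exact absurd (Finset.mem_univ i) h
  have h1 : f x = ∑ j, x j * f (Pi.single j 1) := by
    conv_lhs => rw [hx]
    rw [map_sum]
    refine Finset.sum_congr rfl fun j _ => ?_
    rw [map_smul, smul_eq_mul]
  rw [h1]
  unfold cdp
  rw [map_sum]
  refine Finset.sum_congr rfl fun j _ => ?_
  rw [map_mul, eval_C, eval_X, mul_comm]

private theorem cdp_hom (f : V5 →ₗ[ℂ] ℂ) : (cdp f).IsHomogeneous 1 := by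
  unfold cdp
  refine IsHomogeneous.sum _ _ _ fun j _ => ?_
  have := (isHomogeneous_C (Fin 5) (f (Pi.single j 1))).mul (isHomogeneous_X ℂ j)
  rwa [zero_add] at this

private theorem cdp_ne {f : V5 →ₗ[ℂ] ℂ} (hf : f ≠ 0) : cdp f ≠ 0 := by
  intro h
  refine hf (LinearMap.ext fun x => ?_)
  rw [← cdp_eval, h, map_zero]
  rfl

private theorem cd_av (v x : V5) (j : Fin 5) :
    eval x (av θ v j) = ∑ i, v i * eval x (θ i j) := by
  unfold av ct cv
  rw [map_sum]
  refine Finset.sum_congr rfl fun i _ => ?_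
  rw [map_mul, eval_C]

private theorem cd_avt (τ : F1 5) (p : V5 × ℂ) (x : V5) (j : Fin 5) :
    eval x (avt θ τ p j) = (∑ i, p.1 i * eval x (θ i j)) + p.2 * eval x (τ j) := by
  unfold avt
  rw [map_add, map_mul, eval_C, cd_av]

theorem Cx.eval_fld (v x : V5) (i : Fin 5) : eval x (G.fld v i) = G.B v x i :=
  cdp_eval ((LinearMap.proj i).comp (G.B v)) x

theorem Cx.eval_q (v x : V5) : eval x (G.q v) = G.c v x :=
  cdp_eval (G.c v) x

/-- `i_(X_v) θ + q_v τ = 0` -/
theorem Cx.rel (v : V5) (j : Fin 5) : ct (G.fld v) θ j + G.q v * G.τ j = 0 := by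
  refine MvPolynomial.funext fun x => ?_
  have h := G.hK v x j
  rw [cd_avt] at h
  rw [map_zero, map_add, map_mul, G.eval_q]
  unfold ct
  rw [map_sum]
  refine Eq.trans ?_ h
  refine congrArg₂ (· + ·) (Finset.sum_congr rfl fun i _ => ?_) rfl
  rw [map_mul, G.eval_fld]
  rfl

private noncomputable def cdP (θ : F2 5) (τ : F1 5) (Ψ : V5 →ₗ[ℂ] V5 × ℂ) (j : Fin 5) : Pn 5 :=
  (∑ i, cdp ((LinearMap.proj i).comp ((LinearMap.fst ℂ V5 ℂ).comp Ψ)) * θ i j) +
    cdp ((LinearMap.snd ℂ V5 ℂ).comp Ψ) * τ j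

private theorem cdP_eval (τ : F1 5) (Ψ : V5 →ₗ[ℂ] V5 × ℂ) (j : Fin 5) (x : V5) :
    eval x (cdP θ τ Ψ j) = eval x (avt θ τ (Ψ x) j) := by
  rw [cd_avt]
  unfold cdP
  rw [map_add, map_mul, cdp_eval, map_sum]
  refine congrArg₂ (· + ·) (Finset.sum_congr rfl fun i _ => ?_) rfl
  rw [map_mul, cdp_eval]
  rfl

theorem Cx.k2 (Ψ : V5 →ₗ[ℂ] V5 × ℂ) (S : Submodule ℂ V5) (hS : S ≠ ⊤)
    (h : ∀ x, x ∉ S → Ψ x ∈ G.Km x) : ∃ z, Ψ = btm G.B G.c z := by
  apply G.hRL
  obtain ⟨f, hf, hSf⟩ := Submodule.exists_le_ker_of_lt_top S (lt_top_iff_ne_top.2 hS)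
  intro x i
  rw [← cdP_eval]
  have h1 : cdp f * cdP θ G.τ Ψ i = 0 := by
    refine MvPolynomial.funext fun y => ?_
    rw [map_zero, map_mul, cdp_eval]
    by_cases hy : f y = 0
    · rw [hy, zero_mul]
    · have hyS : y ∉ S := fun hh => hy (LinearMap.mem_ker.1 (hSf hh))
      have h2 := h y hyS i
      rw [cdP_eval, h2, mul_zero]
  rw [(mul_eq_zero.1 h1).resolve_left (cdp_ne hf), map_zero]

theorem Cx.k3 (u : V5 →ₗ[ℂ] V5) (h : ∀ v, btm G.B G.c (u v) v = 0) : ∃ t : ℂ, ∀ v, u v = t • v := by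
  have h1 : ∀ i j : Fin 5, ∀ x : V5, u x i * x j = u x j * x i := by
    intro i j x
    have h2 : cdp ((LinearMap.proj i).comp u) * X j - cdp ((LinearMap.proj j).comp u) * X i = 0 := by
      apply eq_zero_of_gen
      refine G.hgen.mono fun y hy => ?_
      obtain ⟨t, ht⟩ := hy (u y) (h y)
      rw [map_sub, map_mul, map_mul, cdp_eval, cdp_eval, eval_X, eval_X]
      show u y i * y j - u y j * y i = 0
      rw [ht, Pi.smul_apply, Pi.smul_apply, smul_eq_mul, smul_eq_mul]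
      ring
    have h3 : eval x (cdp ((LinearMap.proj i).comp u) * X j -
        cdp ((LinearMap.proj j).comp u) * X i) = 0 := by rw [h2, map_zero]
    rw [map_sub, map_mul, map_mul, cdp_eval, cdp_eval, eval_X, eval_X] at h3
    exact sub_eq_zero.1 h3
  obtain ⟨a, ha⟩ := LinearMap.exists_eq_smul_id_of_forall_notLinearIndependent (f := u) (by
    intro v hv
    rw [LinearIndependent.pair_iff] at hv
    have hv0 : v ≠ 0 := by
      rintro rfl
      have := (hv 1 0 (by rw [map_zero, smul_zero, smul_zero, add_zero])).1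
      exact one_ne_zero this
    obtain ⟨j, hj⟩ : ∃ j, v j ≠ 0 := by
      by_contra hc
      push Not at hc
      exact hv0 (_root_.funext hc)
    have h4 := (hv (u v j) (-(v j)) (by
      refine _root_.funext fun i => ?_
      have h5 := h1 i j v
      rw [Pi.add_apply, Pi.smul_apply, Pi.smul_apply, smul_eq_mul, smul_eq_mul, Pi.zero_apply]
      linear_combination -h5)).2
    exact hj (neg_eq_zero.1 h4))
  refine ⟨a, fun v => ?_⟩
  rw [ha]
  rfl

private theorem cd_hc_mul {p q : Pn 5} {a : ℕ} (hp : p.IsHomogeneous a) (b : ℕ) :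
    homogeneousComponent (a + b) (p * q) = p * homogeneousComponent b q := by
  have hs := sum_homogeneousComponent q
  have h1 : p * q = ∑ i ∈ Finset.range (q.totalDegree + 1), p * homogeneousComponent i q := by
    rw [← Finset.mul_sum, hs]
  rw [h1, map_sum]
  have h2 : ∀ i ∈ Finset.range (q.totalDegree + 1),
      homogeneousComponent (a + b) (p * homogeneousComponent i q) =
        if i = b then p * homogeneousComponent b q else 0 := by
    intro i _
    have h3 : p * homogeneousComponent i q ∈ homogeneousSubmodule (Fin 5) ℂ (a + i) :=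
      hp.mul (homogeneousComponent_isHomogeneous i q)
    rw [homogeneousComponent_of_mem h3]
    by_cases h4 : i = b
    · subst h4
      rw [if_pos rfl, if_pos rfl]
    · rw [if_neg h4, if_neg (by omega)]
  rw [Finset.sum_congr rfl h2, Finset.sum_ite_eq' (Finset.range (q.totalDegree + 1)) b]
  split_ifs with h5
  · rfl
  · rw [Finset.mem_range, not_lt] at h5
    rw [homogeneousComponent_eq_zero b q (by omega), mul_zero]

private theorem cd_hom_div {l f : Pn 5} {d : ℕ} (hl : l.IsHomogeneous 1) (hl0 : l ≠ 0)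
    (h : (l * f).IsHomogeneous (1 + d)) : f.IsHomogeneous d := by
  have h1 : f - homogeneousComponent d f = 0 := by
    have h2 : l * (f - homogeneousComponent d f) = 0 := by
      rw [mul_sub, ← cd_hc_mul hl d, homogeneousComponent_of_mem h, if_pos rfl, sub_self]
    exact (mul_eq_zero.1 h2).resolve_left hl0
  rw [sub_eq_zero.1 h1]
  exact homogeneousComponent_isHomogeneous d f

/-- a section divisible by a linear form is zero -/
private theorem cd_div0 (hcy : CY θ) {l : Pn 5} (hl : l.IsHomogeneous 1) (hl0 : l ≠ 0) {f : F1 5}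
    (hf : f ∈ EE θ 3) (hd : ∀ i, l ∣ f i) : f = 0 := by
  choose ξ hξ using hd
  have h1 : ξ ∈ EE θ 2 := by
    refine ⟨fun i => cd_hom_div hl hl0 (by rw [← hξ i]; exact hf.1 i), fun i j k => ?_⟩
    have h2 := hf.2 i j k
    have h3 : l * w12 ξ θ i j k = 0 := by
      rw [← h2]
      unfold w12
      rw [hξ i, hξ j, hξ k]
      ring
    exact (mul_eq_zero.1 h3).resolve_left hl0
  rw [hcy.e2, Submodule.mem_bot] at h1
  refine _root_.funext fun i => ?_
  rw [hξ i, h1]
  exact mul_zero l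

private theorem cd_fin (hcy : CY θ) (r : ℕ) (hr : r < 3) (Λ : Fin r → V5 →ₗ[ℂ] ℂ)
    (f : Fin r → F1 5) (hf : ∀ a, f a ∈ EE θ 3) (hsurj : ∀ y : Fin r → ℂ, ∃ x, ∀ a, Λ a x = y a)
    (hne : ∀ a, Λ a ≠ 0) (hf0 : ∀ a, f a ≠ 0) (hid : ∀ i, ∑ a, cdp (Λ a) * f a i = 0) : r = 0 := by
  match r, hr with
  | 0, _ => rfl
  | 1, _ =>
    exfalso
    refine hf0 0 (_root_.funext fun i => ?_)
    have h1 := hid i
    rw [Fin.sum_univ_one] at h1
    exact (mul_eq_zero.1 h1).resolve_left (cdp_ne (hne 0))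
  | 2, _ =>
    exfalso
    refine hf0 0 (cd_div0 hcy (cdp_hom (Λ 1)) (cdp_ne (hne 1)) (hf 0) fun i => ?_)
    have h1 := hid i
    rw [Fin.sum_univ_two] at h1
    have h2 : cdp (Λ 1) ∣ cdp (Λ 0) * f 0 i :=
      ⟨-(f 1 i), by linear_combination h1⟩
    rcases (prime_of_hom_one (cdp_hom (Λ 1)) (cdp_ne (hne 1))).dvd_or_dvd h2 with h3 | h3
    · exfalso
      obtain ⟨g, hg⟩ := h3
      obtain ⟨x, hx⟩ := hsurj ![1, 0]
      have h4 := hx 0
      have h5 : Λ 0 x = Λ 1 x * eval x g := by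
        rw [← cdp_eval (Λ 0) x, hg, map_mul, cdp_eval]
      have h6 := hx 1
      rw [h4, h6] at h5
      simp at h5
    · exact h3

/-- a non zero map has range of dimension at least 3 -/
private theorem cd_rk (Ψ : V5 →ₗ[ℂ] V5 × ℂ) (h : ∀ x i, eval x (avt θ G.τ (Ψ x) i) = 0)
    (hr : Module.finrank ℂ (LinearMap.range Ψ) < 3) : Ψ = 0 := by
  set r := Module.finrank ℂ (LinearMap.range Ψ) with hrdef
  let b : Module.Basis (Fin r) ℂ (LinearMap.range Ψ) := Module.finBasis ℂ (LinearMap.range Ψ)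
  let Λ : Fin r → V5 →ₗ[ℂ] ℂ := fun a => (b.coord a).comp Ψ.rangeRestrict
  have hΨ : ∀ x, Ψ x = ∑ a, Λ a x • (b a : V5 × ℂ) := by
    intro x
    have h1 := b.sum_repr (Ψ.rangeRestrict x)
    have h2 := congrArg Subtype.val h1
    rw [AddSubmonoidClass.coe_finsetSum] at h2
    exact h2.symm
  have hsurj : ∀ y : Fin r → ℂ, ∃ x, ∀ a, Λ a x = y a := by
    intro y
    obtain ⟨x, hx⟩ := LinearMap.surjective_rangeRestrict Ψ (∑ a, y a • b a)
    refine ⟨x, fun a => ?_⟩
    show b.repr (Ψ.rangeRestrict x) a = y a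
    rw [hx, b.repr_sum_self]
  have hne : ∀ a, Λ a ≠ 0 := by
    intro a h0
    obtain ⟨x, hx⟩ := hsurj (fun _ => 1)
    have := hx a
    rw [h0] at this
    exact one_ne_zero this.symm
  have hb0 : ∀ a, avt θ G.τ (b a : V5 × ℂ) ≠ 0 := by
    intro a h0
    have h1 := G.inj _ h0
    exact b.ne_zero a (Subtype.ext h1)
  have hid : ∀ i, ∑ a, cdp (Λ a) * avt θ G.τ (b a : V5 × ℂ) i = 0 := by
    intro i
    refine MvPolynomial.funext fun x => ?_
    have h1 := h x i
    rw [hΨ x, cd_avt] at h1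
    rw [map_zero, map_sum]
    refine Eq.trans ?_ h1
    rw [Prod.fst_sum, Prod.snd_sum, Finset.sum_mul]
    have h2 : ∀ k, (∑ a, Λ a x • (b a : V5 × ℂ)).1 k = ∑ a, Λ a x * (b a : V5 × ℂ).1 k := by
      intro k
      rw [Prod.fst_sum, Finset.sum_apply]
      rfl
    rw [← Prod.fst_sum]
    simp only [h2, Finset.sum_mul]
    rw [Finset.sum_comm, ← Finset.sum_add_distrib]
    refine Finset.sum_congr rfl fun a _ => ?_
    rw [map_mul, cdp_eval, cd_avt, mul_add, Finset.mul_sum]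
    refine congrArg₂ (· + ·) (Finset.sum_congr rfl fun k _ => ?_) ?_
    · ring
    · rw [Prod.smul_snd, smul_eq_mul]
      ring
  have hr0 : r = 0 := cd_fin G.cy r hr Λ (fun a => avt θ G.τ (b a : V5 × ℂ))
    (fun a => G.avt_mem _) hsurj hne hb0 hid
  refine LinearMap.ext fun x => ?_
  have h2 := finrank_zero_iff_forall_zero.1 (hrdef ▸ hr0) (Ψ.rangeRestrict x)
  exact congrArg Subtype.val h2

theorem Cx.rk3 (v : V5) (hv : v ≠ 0) :
    3 ≤ Module.finrank ℂ (LinearMap.range (btm G.B G.c v)) := by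
  by_contra hc
  exact hv (G.hinj v (cd_rk G _ (G.hK v) (not_le.1 hc)))

end Pool.Agent.Helper50.FC
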