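import Pool.Agent.Helper50.FC.CxOnto

/-! K1-34: `inv1`, `inv2`: invariant polynomials of degree 1 and 2 vanish.
* `ker_form` (over a field): a covector vanishing on the kernel of a decomposable alternating `Θ` satisfies `f ∧ Θ = 0` (if `Θ ≠ 0`, `Θ a b ≠ 0`, the kernel is defined by the two
  covectors `Θ a ·`, `Θ b ·`, and `Θ a b * Θ = (Θ a ·) ∧ (Θ b ·)` by `pf = 0`).
* `Cx.inv_aux`: `x` general and not in `S`: if `t` is in the kernel of `θ(x)` then `(t, 0) ∈ Km x`, so `(t, 0) = btm y x` (`gen_K`): `c y x = 0`, `t = B y x`.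
* `Cx.inv1`: the constant 1-form `f` satisfies `w12 f θ = 0` at general points: `f ∈ EE θ 0 = ⊥`.  `Cx.inv2`: the same for the 1-form `x ↦ k x ·` with linear
  coefficients: in `EE θ 1 = ⊥`. -/

set_option autoImplicit false

namespace Pool.Agent.Helper50.FC

open MvPolynomial
open scoped BigOperators
open Pool.Agent.Helper71.FL (w12 pf ct Dec Closed dd at0 res)
open Pool.Agent.Helper71.FC

theorem ker_form {n : ℕ} {Θ : Fin n → Fin n → ℂ} (hd : Dec Θ) {f : Fin n → ℂ}
    (h : ∀ t : Fin n → ℂ, (∀ j, ct t Θ j = 0) → ∑ i, f i * t i = 0) (i j k : Fin n) :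
    w12 f Θ i j k = 0 := by
  classical
  have key : ∀ g : Fin n → ℂ, ∑ l, g l * (Pi.single i (Θ j k) + Pi.single j (Θ k i) +
      Pi.single k (Θ i j) : Fin n → ℂ) l = g i * Θ j k + g j * Θ k i + g k * Θ i j := by
    intro g
    simp only [Pi.add_apply, mul_add, Finset.sum_add_distrib]
    have h1 : ∀ (a : Fin n) (c : ℂ), ∑ l, g l * (Pi.single a c : Fin n → ℂ) l = g a * c := by
      intro a c
      rw [Finset.sum_eq_single a]
      · rw [Pi.single_eq_same]
      · intro b _ hb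
        rw [Pi.single_eq_of_ne hb, mul_zero]
      · intro ha
        exact absurd (Finset.mem_univ a) ha
    rw [h1, h1, h1]
  have h2 := h (Pi.single i (Θ j k) + Pi.single j (Θ k i) + Pi.single k (Θ i j)) (fun l => by
    have h3 := key (fun a => Θ a l)
    have h4 := hd.2.2 i j k l
    unfold ct
    unfold pf at h4
    have h5 : ∑ a, (Pi.single i (Θ j k) + Pi.single j (Θ k i) + Pi.single k (Θ i j) :
        Fin n → ℂ) a * Θ a l = ∑ a, Θ a l * (Pi.single i (Θ j k) + Pi.single j (Θ k i) +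
        Pi.single k (Θ i j) : Fin n → ℂ) a := Finset.sum_congr rfl fun a _ => mul_comm _ _
    rw [h5, h3]
    have h6 := hd.2.1 k i
    rw [h6]
    linear_combination h4)
  rw [key] at h2
  exact h2

private theorem gen_zero {n : ℕ} {P : Pn n} (h : Gen (fun x : Fin n → ℂ => eval x P = 0)) :
    P = 0 := by
  obtain ⟨F, hF, h⟩ := h
  have h1 : F * P = 0 := by
    refine MvPolynomial.funext fun x => ?_
    rw [map_mul, map_zero]
    by_cases hx : eval x F = 0
    · rw [hx, zero_mul]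
    · rw [h x hx, mul_zero]
  exact (mul_eq_zero.1 h1).resolve_left hF

private theorem eval_w12 {n : ℕ} (ξ : F1 n) (θ : F2 n) (x : Fin n → ℂ) (i j k : Fin n) :
    eval x (w12 ξ θ i j k) =
      w12 (fun a => eval x (ξ a)) (fun a b => eval x (θ a b)) i j k :=
  (Pool.Agent.Helper71.FL.w12_map (eval x) ξ θ i j k).symm

private theorem gen_not_mem (S : Submodule ℂ V5) (hS : S ≠ ⊤) : Gen (fun x : V5 => x ∉ S) := by
  obtain ⟨ℓ, hℓ, hS'⟩ := Submodule.exists_le_ker_of_lt_top S (lt_top_iff_ne_top.2 hS)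
  have hsum : ∀ x : V5, ℓ x = ∑ i, x i * ℓ (Pi.single i 1) := by
    intro x
    conv_lhs => rw [← Finset.univ_sum_single x]
    rw [map_sum]
    refine Finset.sum_congr rfl fun i _ => ?_
    have h1 : (Pi.single i (x i) : V5) = x i • Pi.single i (1 : ℂ) := by
      rw [← Pi.single_smul, smul_eq_mul, mul_one]
    rw [h1, map_smul, smul_eq_mul]
  have hev : ∀ x : V5, eval x (∑ i, C (ℓ (Pi.single i 1)) * X i : Pn 5) = ℓ x := by
    intro x
    rw [map_sum, hsum]
    refine Finset.sum_congr rfl fun i _ => ?_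
    rw [map_mul, eval_C, eval_X, mul_comm]
  refine ⟨∑ i, C (ℓ (Pi.single i 1)) * X i, fun h0 => hℓ ?_, fun x hx hxS => hx ?_⟩
  · apply LinearMap.ext
    intro x
    rw [← hev, h0, map_zero, LinearMap.zero_apply]
  · rw [hev]
    exact hS' hxS

variable {θ : F2 5} (G : Cx θ)

theorem Cx.inv_aux (S : Submodule ℂ V5) (hS : S ≠ ⊤) :
    Gen (fun x : V5 => x ∉ S ∧ ∀ t : V5, (∀ j, ct t (fun a b => eval x (θ a b)) j = 0) →
      ∃ y, G.c y x = 0 ∧ t = G.B y x) := by
  refine ((gen_not_mem S hS).and G.gen_K).mono fun x hx => ⟨hx.1, fun t ht => ?_⟩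
  obtain ⟨v, hv⟩ := hx.2 (t, 0) (by
    intro i
    have h1 := ht i
    show eval x (av θ t i + C (0 : ℂ) * G.τ i) = 0
    rw [C_0, zero_mul, add_zero]
    unfold av ct cv
    unfold ct at h1
    rw [map_sum, ← h1]
    refine Finset.sum_congr rfl fun a _ => ?_
    rw [map_mul, eval_C])
  refine ⟨v, ?_, ?_⟩
  · exact (congrArg Prod.snd hv).symm
  · exact congrArg Prod.fst hv

private theorem Cx.gen_form (G : Cx θ) (ξ : F1 5) (S : Submodule ℂ V5) (hS : S ≠ ⊤)
    (h : ∀ x, x ∉ S → ∀ y, G.c y x = 0 → ∑ i, eval x (ξ i) * G.B y x i = 0) (i j k : Fin 5) :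
    w12 ξ θ i j k = 0 := by
  refine gen_zero ((G.inv_aux S hS).mono fun x hx => ?_)
  rw [eval_w12]
  refine ker_form (Dec.map (eval x) G.cy.fol.dec) (fun t ht => ?_) i j k
  obtain ⟨y, hy, rfl⟩ := hx.2 t ht
  exact h x hx.1 y hy

private theorem sum_single (f : V5 →ₗ[ℂ] ℂ) (x : V5) :
    f x = ∑ i, f (Pi.single i 1) * x i := by
  conv_lhs => rw [← Finset.univ_sum_single x]
  rw [map_sum]
  refine Finset.sum_congr rfl fun i _ => ?_
  have h1 : (Pi.single i (x i) : V5) = x i • Pi.single i (1 : ℂ) := by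
    rw [← Pi.single_smul, smul_eq_mul, mul_one]
  rw [h1, map_smul, smul_eq_mul, mul_comm]

theorem Cx.inv1 (f : V5 →ₗ[ℂ] ℂ) (S : Submodule ℂ V5) (hS : S ≠ ⊤)
    (h : ∀ x, x ∉ S → ∀ y, G.c y x = 0 → f (G.B y x) = 0) : f = 0 := by
  have h1 : (fun i => C (f (Pi.single i 1)) : F1 5) ∈ EE θ 0 := by
    refine ⟨fun i => isHomogeneous_C _ _, G.gen_form _ S hS fun x hx y hy => ?_⟩
    simp only [eval_C]
    rw [← sum_single]
    exact h x hx y hy
  rw [G.cy.e0] at h1
  apply LinearMap.ext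
  intro x
  rw [sum_single f x, LinearMap.zero_apply]
  refine Finset.sum_eq_zero fun i _ => ?_
  have h2 : C (f (Pi.single i 1)) = (0 : Pn 5) := congrFun h1 i
  rw [C_eq_zero] at h2
  rw [h2, zero_mul]

theorem Cx.inv2 (k : V5 →ₗ[ℂ] V5 →ₗ[ℂ] ℂ) (S : Submodule ℂ V5) (hS : S ≠ ⊤)
    (hk : ∀ x y, k x y = k y x)
    (h : ∀ x, x ∉ S → ∀ y, G.c y x = 0 → k x (G.B y x) = 0) : k = 0 := by
  have hev : ∀ (i : Fin 5) (x : V5),
      eval x (∑ j, C (k (Pi.single j 1) (Pi.single i 1)) * X j : Pn 5) = k x (Pi.single i 1) := by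
    intro i x
    rw [hk x (Pi.single i 1), sum_single (k (Pi.single i 1)) x, map_sum]
    refine Finset.sum_congr rfl fun j _ => ?_
    rw [map_mul, eval_C, eval_X, hk]
  have h1 : (fun i => ∑ j, C (k (Pi.single j 1) (Pi.single i 1)) * X j : F1 5) ∈ EE θ 1 := by
    refine ⟨fun i => ?_, G.gen_form _ S hS fun x hx y hy => ?_⟩
    · refine IsHomogeneous.sum _ _ _ fun j _ => ?_
      have := (isHomogeneous_C (Fin 5) (k (Pi.single j 1) (Pi.single i 1))).mul
        (isHomogeneous_X ℂ j)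
      rwa [zero_add] at this
    · simp only [hev]
      rw [← sum_single]
      exact h x hx y hy
  rw [G.cy.e1] at h1
  apply LinearMap.ext
  intro x
  apply LinearMap.ext
  intro y
  rw [sum_single (k x) y, LinearMap.zero_apply, LinearMap.zero_apply]
  refine Finset.sum_eq_zero fun i _ => ?_
  have h2 : (∑ j, C (k (Pi.single j 1) (Pi.single i 1)) * X j : Pn 5) = 0 := congrFun h1 i
  have h3 := hev i x
  rw [h2, map_zero] at h3
  rw [← h3, zero_mul]

end Pool.Agent.Helper50.FC
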