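import Pool.Agent.Helper50.FC.CxDef
import Pool.Agent.Helper50.FC.Div

/-! K1-33: more fields of `BD`: `onto`, and the description of `K x` for general `x`.
* `prop_av` (case Y, any `n`): `A = av θ u`, `A' = av θ w` are not zero (no cone); if `w11 A A' = 0`, let `g` be the gcd of the `A i` (homogeneous), `A = g ξ`, `ξ` without common
  factor, `A' = g' ξ`.  If `deg ξ = 3` then `A' = c A`, `av θ (w - c u) = 0`, contradiction to independence; if `deg ξ ≤ 2` then `ξ ∈ EE θ (deg ξ) = 0`.
* `Cx.gen_K`: for general `x` the space `Km x` is `{btm v x : v}`: `v ↦ btm v x` has kernel `ℂ x` (`hgen`, `altB`, `altc`), so its image has dimension 4 (in `Km x` by `hK`);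
  evaluation `V5 × ℂ → values at x` has a rank at least 2 for general `x` (two `av θ (e_i)` independent at `x`, as `prop_av`), so `dim Km x ≤ 4`.
* `Cx.onto`: let `U` be the span of all `btm v w`, `U ≠ ⊤`.  For general `x`: `U ⊇ Km x` of dimension 4, so `dim U ≥ 4`, `dim U ≤ 5`, and the values at `x` of the elements of
  `U` form a space of dimension at most 1: `w11 (avt p) (avt p') = 0` for `p, p' ∈ U` (at general `x`, so as polynomials).  `U ∩ (V5 × 0)` has dimension at least 3: `prop_av`. -/

set_option autoImplicit false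

namespace Pool.Agent.Helper50.FC

open MvPolynomial
open scoped BigOperators
open Pool.Agent.Helper71.FL (w12 pf ct Dec Closed dd at0 res)
open Pool.Agent.Helper71.FC

private theorem hcm {n : ℕ} {p q : Pn n} {a : ℕ} (hp : p.IsHomogeneous a) (b : ℕ) :
    homogeneousComponent (a + b) (p * q) = p * homogeneousComponent b q := by
  have hs := sum_homogeneousComponent q
  have h1 : p * q = ∑ i ∈ Finset.range (q.totalDegree + 1), p * homogeneousComponent i q := by
    rw [← Finset.mul_sum, hs]
  rw [h1, map_sum]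
  have h2 : ∀ i ∈ Finset.range (q.totalDegree + 1),
      homogeneousComponent (a + b) (p * homogeneousComponent i q) =
        if i = b then p * homogeneousComponent b q else 0 := by
    intro i _
    have h3 : p * homogeneousComponent i q ∈ homogeneousSubmodule (Fin n) ℂ (a + i) :=
      hp.mul (homogeneousComponent_isHomogeneous i q)
    rw [homogeneousComponent_of_mem h3]
    by_cases h4 : i = b
    · subst h4
      rw [if_pos rfl, if_pos rfl]
    · rw [if_neg h4, if_neg (by omega)]
  rw [Finset.sum_congr rfl h2, Finset.sum_ite_eq' (Finset.range (q.totalDegree + 1)) b]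
  split_ifs with h5
  · rfl
  · rw [Finset.mem_range, not_lt] at h5
    rw [homogeneousComponent_eq_zero b q (by omega), mul_zero]

private theorem exists_prim {n d : ℕ} {ι : Type} {A : ι → Pn n}
    (hA : ∀ i, (A i).IsHomogeneous d) (hne : ∃ i, A i ≠ 0) :
    ∃ (k : ℕ) (ξ : ι → Pn n), (∀ i, (ξ i).IsHomogeneous k) ∧ Prim ξ ∧ (∃ i, ξ i ≠ 0) ∧
      ∀ i j, w11 ξ A i j = 0 := by
  classical
  have hex : ∃ k : ℕ, ∃ ξ : ι → Pn n, (∀ i, (ξ i).IsHomogeneous k) ∧ (∃ i, ξ i ≠ 0) ∧
      ∀ i j, w11 ξ A i j = 0 := by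
    refine ⟨d, A, hA, hne, fun i j => ?_⟩
    unfold w11
    ring
  obtain ⟨ξ, h1, ⟨i0, h2⟩, h3⟩ := Nat.find_spec hex
  refine ⟨Nat.find hex, ξ, h1, ?_, ⟨i0, h2⟩, h3⟩
  intro p hp
  by_contra hu
  choose η hη using hp
  have hp0 : p ≠ 0 := by
    rintro rfl
    apply h2
    rw [hη i0, zero_mul]
  have hη0 : η i0 ≠ 0 := by
    intro h
    apply h2
    rw [hη i0, h, mul_zero]
  have hpd : p.totalDegree ≠ 0 := by
    intro h
    rw [totalDegree_eq_zero_iff_eq_C] at h
    apply hu
    rw [h]
    have h4 : coeff 0 p ≠ 0 := by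
      intro h5
      apply hp0
      rw [h, h5, C_0]
    exact (IsUnit.mk0 _ h4).map C
  have hdeg : Nat.find hex = p.totalDegree + (η i0).totalDegree := by
    rw [← totalDegree_mul_of_isDomain hp0 hη0, ← hη i0]
    exact ((h1 i0).totalDegree h2).symm
  obtain ⟨m, hm, hm0⟩ : ∃ m, m ≤ (η i0).totalDegree ∧ homogeneousComponent m (η i0) ≠ 0 := by
    by_contra hcon
    push Not at hcon
    apply hη0
    rw [← sum_homogeneousComponent (η i0)]
    apply Finset.sum_eq_zero
    intro i hi
    exact hcon i (by rw [Finset.mem_range] at hi; omega)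
  refine Nat.find_min hex (m := m) (by omega)
    ⟨fun i => homogeneousComponent m (η i), fun i => homogeneousComponent_isHomogeneous _ _,
      ⟨i0, hm0⟩, fun i j => ?_⟩
  have h6 : w11 η A i j = 0 := by
    have h7 : p * w11 η A i j = w11 ξ A i j := by
      unfold w11
      rw [hη i, hη j]
      ring
    rw [h3] at h7
    exact (mul_eq_zero.mp h7).resolve_left hp0
  have h8 := congrArg (homogeneousComponent (d + m)) h6
  unfold w11 at h8 ⊢
  rw [map_sub, map_zero, mul_comm (η i), mul_comm (η j), hcm (hA j), hcm (hA i)] at h8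
  linear_combination h8

theorem prop_av {n : ℕ} {θ : F2 n} (h : CY θ) {u w : Fin n → ℂ}
    (hli : LinearIndependent ℂ ![u, w]) : ∃ i j, w11 (av θ u) (av θ w) i j ≠ 0 := by
  by_contra hcon
  push Not at hcon
  have hu := av_mem_EE h.fol.dec h.fol.hom u
  have hw := av_mem_EE h.fol.dec h.fol.hom w
  rw [mem_EE] at hu hw
  have hu0 : u ≠ 0 := by
    have := hli.ne_zero 0
    simpa using this
  have hne : ∃ i, av θ u i ≠ 0 := by
    by_contra hc
    push Not at hc
    exact h.nc ⟨u, hu0, hc⟩
  obtain ⟨k, ξ, hξ, hprim, ⟨i0, hi0⟩, hw1⟩ := exists_prim hu.1 hne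
  have hw2 : ∀ i j, w11 (av θ u) ξ i j = 0 := by
    intro i j
    have := hw1 i j
    unfold w11 at this ⊢
    linear_combination -this
  obtain ⟨g, hg, hgz, hgA⟩ := div1_hom hprim hw2 hu.1 hξ
  have hg0 : g ≠ 0 := by
    rintro rfl
    obtain ⟨i, hi⟩ := hne
    apply hi
    rw [hgA i, zero_mul]
  have hw3 : ∀ i j, w11 (av θ w) ξ i j = 0 := by
    intro i j
    have h1 := hcon i j
    unfold w11 at h1 ⊢
    rw [hgA i, hgA j] at h1
    have h2 : g * (av θ w i * ξ j - av θ w j * ξ i) = 0 := by linear_combination -h1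
    exact (mul_eq_zero.mp h2).resolve_left hg0
  obtain ⟨g', hg', -, hgA'⟩ := div1_hom hprim hw3 hw.1 hξ
  have hk3 : k ≤ 3 := by
    by_contra hk
    exact hg0 (hgz (by omega))
  have hmem : ξ ∈ EE θ k := by
    rw [mem_EE]
    refine ⟨hξ, fun i j l => ?_⟩
    have h1 := hu.2 i j l
    unfold w12 at h1 ⊢
    rw [hgA i, hgA j, hgA l] at h1
    have h2 : g * (ξ i * θ j l + ξ j * θ l i + ξ l * θ i j) = 0 := by linear_combination h1
    exact (mul_eq_zero.mp h2).resolve_left hg0
  have hz : ∀ {d : ℕ}, EE θ d = ⊥ → k = d → False := by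
    rintro d hd rfl
    rw [hd, Submodule.mem_bot] at hmem
    apply hi0
    rw [hmem]
    rfl
  have hk : k = 3 := by
    rcases Nat.lt_or_ge k 3 with hk | hk
    · exfalso
      interval_cases k
      · exact hz h.e0 rfl
      · exact hz h.e1 rfl
      · exact hz h.e2 rfl
    · omega
  subst hk
  rw [← totalDegree_zero_iff_isHomogeneous, totalDegree_eq_zero_iff_eq_C] at hg hg'
  set a := coeff 0 g with ha
  set b := coeff 0 g' with hb
  have hcomb : ∀ j, av θ (b • u - a • w) j = 0 := by
    intro j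
    have h1 : av θ (b • u - a • w) j = C b * av θ u j - C a * av θ w j := by
      unfold av ct cv
      rw [Finset.mul_sum, Finset.mul_sum, ← Finset.sum_sub_distrib]
      refine Finset.sum_congr rfl fun i _ => ?_
      rw [Pi.sub_apply, Pi.smul_apply, Pi.smul_apply, smul_eq_mul, smul_eq_mul, C_sub, C_mul, C_mul]
      ring
    rw [h1, hgA, hgA', hg, hg']
    ring
  have h2 : b • u - a • w = 0 := by
    by_contra hc
    exact h.nc ⟨_, hc, hcomb⟩
  have h3 := LinearIndependent.pair_iff.mp hli b (-a) (by rw [neg_smul, ← sub_eq_add_neg]; exact h2)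
  apply hg0
  rw [hg]
  have : a = 0 := by simpa using h3.2
  rw [this, C_0]

variable {θ : F2 5} (G : Cx θ)

/-- evaluation at `x` -/
private noncomputable def evm (x : V5) : (V5 × ℂ) →ₗ[ℂ] V5 where
  toFun p := fun i => eval x (avt θ G.τ p i)
  map_add' := by
    intro p q
    funext i
    show eval x (avt θ G.τ (p + q) i) = eval x (avt θ G.τ p i) + eval x (avt θ G.τ q i)
    rw [avt_add, map_add]
  map_smul' := by
    intro t p
    funext i
    show eval x (avt θ G.τ (t • p) i) = t * eval x (avt θ G.τ p i)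
    rw [avt_smul, map_mul, eval_C]

private theorem ker_evm (x : V5) : LinearMap.ker (evm G x) = G.Km x := by
  ext p
  rw [LinearMap.mem_ker]
  constructor
  · intro h i
    exact congrFun h i
  · intro h
    funext i
    exact h i

/-- the map `v ↦ (B v x, c v x)` -/
private noncomputable def tm (x : V5) : V5 →ₗ[ℂ] V5 × ℂ := (G.B.flip x).prod (G.c.flip x)

private theorem tm_apply (x v : V5) : tm G x v = btm G.B G.c v x := rfl

private theorem tm_le (x : V5) : LinearMap.range (tm G x) ≤ G.Km x := by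
  rintro _ ⟨v, rfl⟩ i
  rw [tm_apply]
  exact G.hK v x i

private theorem avt_zero (v : V5) (i : Fin 5) : avt θ G.τ (v, 0) i = av θ v i := by
  unfold avt
  simp

private theorem gen_rk : Gen (fun x : V5 => 2 ≤ Module.finrank ℂ (LinearMap.range (evm G x))) := by
  have hli : LinearIndependent ℂ ![(Pi.single 0 1 : Fin 5 → ℂ), (Pi.single 1 1 : Fin 5 → ℂ)] := by
    rw [LinearIndependent.pair_iff]
    intro s t h
    have h0 := congrFun h 0
    have h1 := congrFun h 1
    simp at h0 h1
    exact ⟨h0, h1⟩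
  obtain ⟨i, j, hij⟩ := prop_av G.cy hli
  refine ⟨_, hij, fun x hx => ?_⟩
  have hind : LinearIndependent ℂ ![evm G x (Pi.single 0 1, 0), evm G x (Pi.single 1 1, 0)] := by
    rw [LinearIndependent.pair_iff]
    intro s t h
    have hi := congrFun h i
    have hj := congrFun h j
    have e1 : s * eval x (av θ (Pi.single 0 1) i) + t * eval x (av θ (Pi.single 1 1) i) = 0 := by
      rw [← avt_zero G, ← avt_zero G]
      exact hi
    have e2 : s * eval x (av θ (Pi.single 0 1) j) + t * eval x (av θ (Pi.single 1 1) j) = 0 := by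
      rw [← avt_zero G, ← avt_zero G]
      exact hj
    unfold w11 at hx
    rw [map_sub, map_mul, map_mul] at hx
    constructor
    · have : s * (eval x (av θ (Pi.single 0 1) i) * eval x (av θ (Pi.single 1 1) j) -
          eval x (av θ (Pi.single 0 1) j) * eval x (av θ (Pi.single 1 1) i)) = 0 := by
        linear_combination eval x (av θ (Pi.single 1 1) j) * e1 -
          eval x (av θ (Pi.single 1 1) i) * e2
      exact (mul_eq_zero.mp this).resolve_right hx
    · have : t * (eval x (av θ (Pi.single 0 1) i) * eval x (av θ (Pi.single 1 1) j) -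
          eval x (av θ (Pi.single 0 1) j) * eval x (av θ (Pi.single 1 1) i)) = 0 := by
        linear_combination eval x (av θ (Pi.single 0 1) i) * e2 -
          eval x (av θ (Pi.single 0 1) j) * e1
      exact (mul_eq_zero.mp this).resolve_right hx
  have h2 := finrank_span_eq_card hind
  rw [Fintype.card_fin] at h2
  refine h2.ge.trans ?_
  apply Submodule.finrank_mono
  rw [Submodule.span_le]
  rintro _ ⟨a, rfl⟩
  fin_cases a
  · exact ⟨_, rfl⟩
  · exact ⟨_, rfl⟩

private theorem gen_K' : Gen (fun x : V5 => G.Km x = LinearMap.range (tm G x) ∧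
    Module.finrank ℂ (G.Km x) = 4) := by
  refine ((gen_rk G).and G.hgen).mono ?_
  rintro x ⟨h1, h2⟩
  have h3 := (evm G x).finrank_range_add_finrank_ker
  rw [ker_evm, Module.finrank_prod, Module.finrank_fin_fun, Module.finrank_self] at h3
  have h4 := (tm G x).finrank_range_add_finrank_ker
  rw [Module.finrank_fin_fun] at h4
  have h5 : Module.finrank ℂ (LinearMap.ker (tm G x)) ≤ 1 := by
    have h6 : LinearMap.ker (tm G x) ≤ Submodule.span ℂ {x} := by
      intro u hu
      rw [LinearMap.mem_ker, tm_apply] at hu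
      obtain ⟨t, ht⟩ := h2 u hu
      rw [ht]
      exact Submodule.smul_mem _ _ (Submodule.mem_span_singleton_self x)
    refine (Submodule.finrank_mono h6).trans ?_
    have h7 := finrank_span_le_card (R := ℂ) ({x} : Set V5)
    simpa using h7
  have h7 := Submodule.finrank_mono (tm_le G x)
  have h8 : LinearMap.range (tm G x) = G.Km x :=
    Submodule.eq_of_le_of_finrank_le (tm_le G x) (by omega)
  refine ⟨h8.symm, ?_⟩
  omega

theorem Cx.gen_K : Gen (fun x : V5 => ∀ p ∈ G.Km x, ∃ v, p = btm G.B G.c v x) := by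
  refine (gen_K' G).mono ?_
  rintro x ⟨h1, -⟩ p hp
  rw [h1] at hp
  obtain ⟨v, hv⟩ := hp
  exact ⟨v, hv.symm⟩

theorem Cx.onto : Submodule.span ℂ (Set.range fun p : V5 × V5 => btm G.B G.c p.1 p.2) = ⊤ := by
  by_contra hU
  set U : Submodule ℂ (V5 × ℂ) :=
    Submodule.span ℂ (Set.range fun p : V5 × V5 => btm G.B G.c p.1 p.2) with hUdef
  have hU5 : Module.finrank ℂ U < 6 := by
    have := Submodule.finrank_lt hU
    rwa [Module.finrank_prod, Module.finrank_fin_fun, Module.finrank_self] at this
  have hle : ∀ x, LinearMap.range (tm G x) ≤ U := by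
    rintro x _ ⟨v, rfl⟩
    exact Submodule.subset_span ⟨(v, x), rfl⟩
  have hU4 : 4 ≤ Module.finrank ℂ U := by
    obtain ⟨x, hx1, hx2⟩ := (gen_K' G).exists
    rw [← hx2, hx1]
    exact Submodule.finrank_mono (hle x)
  have hw : ∀ p ∈ U, ∀ q ∈ U, ∀ i j, w11 (avt θ G.τ p) (avt θ G.τ q) i j = 0 := by
    intro p hp q hq i j
    apply eq_zero_of_gen
    refine (gen_K' G).mono ?_
    rintro x ⟨hx1, hx2⟩
    have h1 := ((evm G x).domRestrict U).finrank_range_add_finrank_ker
    have h2 : Module.finrank ℂ (LinearMap.ker ((evm G x).domRestrict U)) = 4 := by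
      have h3 : LinearMap.ker ((evm G x).domRestrict U) = (G.Km x).comap U.subtype := by
        rw [← ker_evm]
        rfl
      rw [h3, ← hx2]
      have h4 : G.Km x ≤ U := by
        rw [hx1]
        exact hle x
      exact (Submodule.comapSubtypeEquivOfLe h4).finrank_eq
    have h5 : Module.finrank ℂ (LinearMap.range ((evm G x).domRestrict U)) ≤ 1 := by omega
    obtain ⟨v, hv⟩ := finrank_le_one_iff.mp h5
    obtain ⟨a, ha⟩ := hv ⟨evm G x p, ⟨⟨p, hp⟩, rfl⟩⟩
    obtain ⟨b, hb⟩ := hv ⟨evm G x q, ⟨⟨q, hq⟩, rfl⟩⟩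
    have ha' : ∀ i, a * (v : V5) i = eval x (avt θ G.τ p i) := fun i =>
      congrFun (congrArg Subtype.val ha) i
    have hb' : ∀ i, b * (v : V5) i = eval x (avt θ G.τ q i) := fun i =>
      congrFun (congrArg Subtype.val hb) i
    unfold w11
    rw [map_sub, map_mul, map_mul, ← ha', ← ha', ← hb', ← hb']
    ring
  -- two independent vectors of the form `(v, 0)` in `U`
  have hs := Submodule.finrank_sup_add_finrank_inf_eq U (LinearMap.range (LinearMap.inl ℂ V5 ℂ))
  have hr : Module.finrank ℂ (LinearMap.range (LinearMap.inl ℂ V5 ℂ)) = 5 := by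
    rw [LinearMap.finrank_range_of_inj LinearMap.inl_injective, Module.finrank_fin_fun]
  have ht : Module.finrank ℂ (U ⊔ LinearMap.range (LinearMap.inl ℂ V5 ℂ) :
      Submodule ℂ (V5 × ℂ)) ≤ 6 := by
    have := Submodule.finrank_le (U ⊔ LinearMap.range (LinearMap.inl ℂ V5 ℂ) :
      Submodule ℂ (V5 × ℂ))
    rwa [Module.finrank_prod, Module.finrank_fin_fun, Module.finrank_self] at this
  have h1 : 1 < Module.finrank ℂ (U ⊓ LinearMap.range (LinearMap.inl ℂ V5 ℂ) :
      Submodule ℂ (V5 × ℂ)) := by omega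
  obtain ⟨a, ha⟩ := Module.finrank_pos_iff_exists_ne_zero.mp (lt_trans one_pos h1)
  obtain ⟨b, hab⟩ := exists_linearIndependent_pair_of_one_lt_finrank h1 ha
  obtain ⟨u, hu⟩ := a.2.2
  obtain ⟨w, hw'⟩ := b.2.2
  have hli : LinearIndependent ℂ ![u, w] := by
    rw [LinearIndependent.pair_iff] at hab ⊢
    intro s t hst
    apply hab s t
    apply Subtype.ext
    show s • (a : V5 × ℂ) + t • (b : V5 × ℂ) = 0
    rw [← hu, ← hw', ← map_smul, ← map_smul, ← map_add, hst, map_zero]
  obtain ⟨i, j, hij⟩ := prop_av G.cy hli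
  apply hij
  have h2 := hw (u, 0) (by
    have := a.2.1
    rw [← hu] at this
    exact this) (w, 0) (by
    have := b.2.1
    rw [← hw'] at this
    exact this) i j
  unfold w11 at h2 ⊢
  rw [avt_zero, avt_zero, avt_zero, avt_zero] at h2
  exact h2

end Pool.Agent.Helper50.FC
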