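import Pool.Agent.Helper71.FC.Rest
import Pool.Agent.Helper71.FC.Bert

/-! K1-12: `V*`-valued sections along a subspace.
`φ : Fin n → Fin m → ℂ` parametrises an `m`-dimensional subspace `U` of `ℂ^n` (any `m`), `cf φ θ` is the restriction of the
coefficients of `θ` to `U`, `EV θ φ d` are the maps `ξ : U → (ℂ^n)*` of degree `d` with `ξ ∧ θ = 0` on `U`. -/

set_option autoImplicit false

namespace Pool.Agent.Helper50.FC

open MvPolynomial
open scoped BigOperators
open Pool.Agent.Helper71.FL (w12 pf ct Dec Closed dd at0 res)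
open Pool.Agent.Helper93 (lsub lmap OF pb)
open Pool.Agent.Helper71.FC

variable {n m k : ℕ}

/-- the coefficients of `θ` restricted to the subspace with parametrisation `φ` -/
noncomputable def cf (φ : Fin n → Fin m → ℂ) (θ : F2 n) : Fin n → Fin n → Pn m :=
  fun i j => lsub φ (θ i j)

/-- `V*`-valued sections of degree `d` along the subspace with parametrisation `φ` -/
noncomputable def EV (θ : F2 n) (φ : Fin n → Fin m → ℂ) (d : ℕ) : Submodule ℂ (Fin n → Pn m) where
  carrier := {ξ | (∀ i, (ξ i).IsHomogeneous d) ∧ ∀ i j l, w12 ξ (cf φ θ) i j l = 0}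
  add_mem' := by
    rintro a b ⟨h1, h2⟩ ⟨h3, h4⟩
    refine ⟨fun i => (h1 i).add (h3 i), fun i j l => ?_⟩
    have := Pool.Agent.Helper71.FL.w12_add a b (cf φ θ) i j l
    exact this.trans (by rw [h2, h4, add_zero])
  zero_mem' := by
    refine ⟨fun i => isHomogeneous_zero _ _ _, fun i j l => ?_⟩
    simp [w12]
  smul_mem' := by
    rintro c a ⟨h1, h2⟩
    refine ⟨fun i => ?_, fun i j l => ?_⟩
    · have := (isHomogeneous_C (Fin m) c).mul (h1 i)
      rw [zero_add] at this
      rw [Pi.smul_apply, smul_eq_C_mul]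
      exact this
    · have := Pool.Agent.Helper71.FL.w12_smul (C c) a (cf φ θ) i j l
      rw [h2, mul_zero] at this
      rw [← this]
      unfold w12
      simp only [Pi.smul_apply, smul_eq_C_mul]

theorem mem_EV {θ : F2 n} {φ : Fin n → Fin m → ℂ} {d : ℕ} {ξ : Fin n → Pn m} :
    ξ ∈ EV θ φ d ↔ (∀ i, (ξ i).IsHomogeneous d) ∧ ∀ i j l, w12 ξ (cf φ θ) i j l = 0 := Iff.rfl

/-- restriction of a `V*`-valued map to a 1-form on the subspace -/
noncomputable def rV (φ : Fin n → Fin m → ℂ) (ξ : Fin n → Pn m) : F1 m :=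
  fun a => ∑ i, C (φ i a) * ξ i

/-- restriction of a `V*`-valued map to a smaller subspace -/
noncomputable def rsV (ψ : Fin m → Fin k → ℂ) (ξ : Fin n → Pn m) : Fin n → Pn k :=
  fun i => lsub ψ (ξ i)

theorem cf_mm (φ : Fin n → Fin m → ℂ) (ψ : Fin m → Fin k → ℂ) (θ : F2 n) (i j : Fin n) :
    cf (mm φ ψ) θ i j = lsub ψ (cf φ θ i j) := by
  exact (lsub_mm φ ψ (θ i j)).symm

theorem cf_idm (θ : F2 n) : cf (idm n) θ = θ := by
  funext i j
  exact lsub_idm (θ i j)

theorem EV_idm (θ : F2 n) (d : ℕ) : EV θ (idm n) d = EE θ d := by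
  ext ξ
  rw [mem_EV, mem_EE, cf_idm]

/-- values -/
theorem EV_eval {θ : F2 n} {φ : Fin n → Fin m → ℂ} {d : ℕ} {ξ : Fin n → Pn m} (h : ξ ∈ EV θ φ d)
    (x : Fin m → ℂ) (i j l : Fin n) :
    w12 (fun i => eval x (ξ i)) (fun i j => eval (lmap φ x) (θ i j)) i j l = 0 := by
  have h1 := congrArg (eval x) (h.2 i j l)
  rw [map_zero] at h1
  rw [← h1]
  unfold w12 cf
  simp only [map_add, map_mul, Pool.Agent.Helper93.eval_lsub]

theorem rsV_mem {θ : F2 n} {φ : Fin n → Fin m → ℂ} {d : ℕ} {ξ : Fin n → Pn m} (h : ξ ∈ EV θ φ d)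
    (ψ : Fin m → Fin k → ℂ) : rsV ψ ξ ∈ EV θ (mm φ ψ) d := by
  refine ⟨fun i => lsub_hom (h.1 i), fun i j l => ?_⟩
  have h1 := congrArg (lsub ψ) (h.2 i j l)
  rw [map_zero] at h1
  rw [← h1]
  unfold w12 rsV
  simp only [map_add, map_mul, cf_mm]

/-! ### auxiliary facts -/

private theorem ev_mm_assoc {a b c d : ℕ} (φ : Fin a → Fin b → ℂ) (ψ : Fin b → Fin c → ℂ)
    (χ : Fin c → Fin d → ℂ) : mm (mm φ ψ) χ = mm φ (mm ψ χ) := by
  funext i j
  unfold mm
  simp only [Finset.sum_mul, Finset.mul_sum]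
  rw [Finset.sum_comm]
  refine Finset.sum_congr rfl fun p _ => Finset.sum_congr rfl fun q _ => ?_
  ring

private theorem ev_mm_idm {a b : ℕ} (φ : Fin a → Fin b → ℂ) : mm φ (idm b) = φ := by
  funext i j
  unfold mm idm
  simp

private theorem ev_idm_mm {a b : ℕ} (φ : Fin a → Fin b → ℂ) : mm (idm a) φ = φ := by
  funext i j
  unfold mm idm
  simp

/-- change of coordinates of the values -/
private noncomputable def ev_tw (g : Fin n → Fin n → ℂ) (ξ : Fin n → Pn m) : Fin n → Pn m :=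
  fun i => ∑ j, C (g j i) * ξ j

private theorem ev_tw_inv {g g' : Fin n → Fin n → ℂ} (hg : Inv g g') (ξ : Fin n → Pn m) :
    ev_tw g' (ev_tw g ξ) = ξ := by
  funext i
  show ∑ j, C (g' j i) * (∑ k, C (g k j) * ξ k) = ξ i
  have h1 : ∑ j, C (g' j i) * (∑ k, C (g k j) * ξ k) = ∑ k, C (mm g g' k i) * ξ k := by
    unfold mm
    simp only [Finset.mul_sum, map_sum, Finset.sum_mul]
    rw [Finset.sum_comm]
    refine Finset.sum_congr rfl fun p _ => Finset.sum_congr rfl fun q _ => ?_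
    rw [C_mul]
    ring
  rw [h1, hg.1]
  unfold idm
  simp

private theorem ev_cf_pb2 (g : Fin n → Fin n → ℂ) (φ : Fin n → Fin m → ℂ) (θ : F2 n) (i j : Fin n) :
    cf φ (pb2 g θ) i j = ∑ k, ∑ l, C (g k i * g l j) * cf (mm g φ) θ k l := by
  have hC : ∀ c : ℂ, lsub φ (C c : Pn n) = C c := by
    intro c; unfold lsub; rw [aeval_C]; rfl
  unfold cf pb2
  simp only [map_sum, map_mul, hC, lsub_mm]

private theorem ev_prod3 {A κ : Type} [CommRing A] [Fintype κ] (f : κ → A) (g : κ → κ → A) :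
    (∑ a, f a) * (∑ b, ∑ c, g b c) = ∑ a, ∑ b, ∑ c, f a * g b c := by
  rw [Finset.sum_mul]
  apply Finset.sum_congr rfl; intro a _
  rw [Finset.mul_sum]
  apply Finset.sum_congr rfl; intro b _
  rw [Finset.mul_sum]

private theorem ev_rot3 {A κ : Type} [AddCommMonoid A] [Fintype κ] (f : κ → κ → κ → A) :
    (∑ b, ∑ c, ∑ a, f b c a) = ∑ a, ∑ b, ∑ c, f b c a := by
  calc (∑ b, ∑ c, ∑ a, f b c a) = ∑ b, ∑ a, ∑ c, f b c a := by
        apply Finset.sum_congr rfl; intro b _
        rw [Finset.sum_comm]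
    _ = _ := by rw [Finset.sum_comm]

private theorem ev_rot3' {A κ : Type} [AddCommMonoid A] [Fintype κ] (f : κ → κ → κ → A) :
    (∑ c, ∑ a, ∑ b, f c a b) = ∑ a, ∑ b, ∑ c, f c a b := by
  rw [Finset.sum_comm]
  apply Finset.sum_congr rfl; intro a _
  rw [Finset.sum_comm]

private theorem ev_tw_w12 (g : Fin n → Fin n → ℂ) (φ : Fin n → Fin m → ℂ) (θ : F2 n)
    (ξ : Fin n → Pn m) (i j l : Fin n) :
    w12 (ev_tw g ξ) (cf φ (pb2 g θ)) i j l =
      ∑ a, ∑ b, ∑ c, C (g a i * g b j * g c l) * w12 ξ (cf (mm g φ) θ) a b c := by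
  have h1 : ∀ i j l : Fin n, ev_tw g ξ i * cf φ (pb2 g θ) j l =
      ∑ a, ∑ b, ∑ c, C (g a i * g b j * g c l) * (ξ a * cf (mm g φ) θ b c) := by
    intro i j l
    rw [ev_cf_pb2]
    unfold ev_tw
    rw [ev_prod3]
    apply Finset.sum_congr rfl; intro a _
    apply Finset.sum_congr rfl; intro b _
    apply Finset.sum_congr rfl; intro c _
    rw [C_mul, C_mul, C_mul]
    ring
  have h2 : ∀ a b c, C (g a i * g b j * g c l) * w12 ξ (cf (mm g φ) θ) a b c =
      C (g a i * g b j * g c l) * (ξ a * cf (mm g φ) θ b c) +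
      C (g a i * g b j * g c l) * (ξ b * cf (mm g φ) θ c a) +
      C (g a i * g b j * g c l) * (ξ c * cf (mm g φ) θ a b) := by
    intro a b c
    unfold w12
    rw [mul_add, mul_add]
  simp only [h2, Finset.sum_add_distrib]
  show ev_tw g ξ i * cf φ (pb2 g θ) j l + ev_tw g ξ j * cf φ (pb2 g θ) l i +
    ev_tw g ξ l * cf φ (pb2 g θ) i j = _
  rw [h1 i j l, h1 j l i, h1 l i j]
  refine congrArg₂ (fun a b => a + b) (congrArg₂ (fun a b => a + b) rfl ?_) ?_
  · rw [ev_rot3]
    apply Finset.sum_congr rfl; intro a _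
    apply Finset.sum_congr rfl; intro b _
    apply Finset.sum_congr rfl; intro c _
    rw [show g b j * g c l * g a i = g a i * g b j * g c l by ring]
  · rw [ev_rot3']
    apply Finset.sum_congr rfl; intro a _
    apply Finset.sum_congr rfl; intro b _
    apply Finset.sum_congr rfl; intro c _
    rw [show g c l * g a i * g b j = g a i * g b j * g c l by ring]

private theorem ev_tw_mem {θ : F2 n} {g : Fin n → Fin n → ℂ} {φ : Fin n → Fin m → ℂ} {d : ℕ}
    {ξ : Fin n → Pn m} (h : ξ ∈ EV θ (mm g φ) d) : ev_tw g ξ ∈ EV (pb2 g θ) φ d := by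
  refine ⟨fun i => ?_, fun i j l => ?_⟩
  · show (∑ j, C (g j i) * ξ j).IsHomogeneous d
    apply IsHomogeneous.sum
    intro j _
    have := (isHomogeneous_C (Fin m) (g j i)).mul (h.1 j)
    rwa [zero_add] at this
  · rw [ev_tw_w12]
    apply Finset.sum_eq_zero; intro a _
    apply Finset.sum_eq_zero; intro b _
    apply Finset.sum_eq_zero; intro c _
    rw [h.2, mul_zero]

private theorem ev_hc_mul {f g : Pn m} {d : ℕ} (hg : g.IsHomogeneous d) (e : ℕ) :
    homogeneousComponent (e + d) (f * g) = homogeneousComponent e f * g := by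
  have h1 : ∀ i, homogeneousComponent (e + d) (homogeneousComponent i f * g) =
      if i = e then homogeneousComponent e f * g else 0 := by
    intro i
    rw [homogeneousComponent_of_mem (n := i + d) ((homogeneousComponent_isHomogeneous i f).mul hg)]
    by_cases h : i = e
    · rw [if_pos h, if_pos (by omega), h]
    · rw [if_neg h, if_neg (by omega)]
  conv_lhs => rw [← sum_homogeneousComponent f, Finset.sum_mul, map_sum]
  rw [Finset.sum_congr rfl (fun i _ => h1 i), Finset.sum_ite_eq']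
  split_ifs with h
  · rfl
  · rw [homogeneousComponent_eq_zero, zero_mul]
    rw [Finset.mem_range] at h
    omega

private theorem ev_hom_div {l f : Pn m} {d : ℕ} (hl : l.IsHomogeneous 1) (hl0 : l ≠ 0)
    (h : (l * f).IsHomogeneous (d + 1)) : f.IsHomogeneous d := by
  have h1 : ∀ e, e ≠ d → homogeneousComponent e f = 0 := by
    intro e he
    have h2 := ev_hc_mul (f := f) hl e
    rw [mul_comm f l, homogeneousComponent_of_mem h, if_neg (by omega)] at h2
    exact (mul_eq_zero.1 h2.symm).resolve_right hl0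
  have h2 : f = homogeneousComponent d f := by
    conv_lhs => rw [← sum_homogeneousComponent f]
    by_cases hd : d ∈ Finset.range (f.totalDegree + 1)
    · exact Finset.sum_eq_single_of_mem d hd (fun e _ he => h1 e he)
    · rw [Finset.sum_eq_zero, homogeneousComponent_eq_zero]
      · rw [Finset.mem_range] at hd; omega
      · intro e he
        exact h1 e (fun hh => hd (hh ▸ he))
  rw [h2]
  exact homogeneousComponent_isHomogeneous d f

/-- change of the parametrisation -/
theorem EV_inv (θ : F2 n) (φ : Fin n → Fin m → ℂ) (d : ℕ) {g g' : Fin m → Fin m → ℂ}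
    (hg : Inv g g') : Module.finrank ℂ (EV θ (mm φ g) d) = Module.finrank ℂ (EV θ φ d) := by
  symm
  have hφ : mm (mm φ g) g' = φ := by
    rw [ev_mm_assoc, hg.1, ev_mm_idm]
  have hmem : ∀ ξ : Fin n → Pn m, ξ ∈ EV θ (mm φ g) d → rsV g' ξ ∈ EV θ φ d := by
    intro ξ hξ
    have := rsV_mem hξ g'
    rwa [hφ] at this
  have hinv : ∀ (a b : Fin m → Fin m → ℂ), Inv a b → ∀ ξ : Fin n → Pn m, rsV b (rsV a ξ) = ξ := by
    intro a b hab ξ
    funext i
    show lsub b (lsub a (ξ i)) = ξ i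
    rw [lsub_mm, hab.1, lsub_idm]
  exact LinearEquiv.finrank_eq
    { toFun := fun ξ => (⟨rsV g ξ.1, rsV_mem ξ.2 g⟩ : EV θ (mm φ g) d)
      map_add' := fun a b => Subtype.ext (by
        funext i
        show lsub g (a.1 i + b.1 i) = lsub g (a.1 i) + lsub g (b.1 i)
        rw [map_add])
      map_smul' := fun c a => Subtype.ext (by
        funext i
        show lsub g (c • a.1 i) = c • lsub g (a.1 i)
        rw [map_smul])
      invFun := fun ξ => ⟨rsV g' ξ.1, hmem ξ.1 ξ.2⟩
      left_inv := fun ξ => Subtype.ext (hinv g g' hg ξ.1)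
      right_inv := fun ξ => Subtype.ext (hinv g' g hg.symm ξ.1) }

/-- change of coordinates in `ℂ^n` -/
theorem EV_pb2 (θ : F2 n) {g g' : Fin n → Fin n → ℂ} (hg : Inv g g') (φ : Fin n → Fin m → ℂ)
    (d : ℕ) : Module.finrank ℂ (EV (pb2 g θ) φ d) = Module.finrank ℂ (EV θ (mm g φ) d) := by
  symm
  have hmem : ∀ ξ : Fin n → Pn m, ξ ∈ EV (pb2 g θ) φ d → ev_tw g' ξ ∈ EV θ (mm g φ) d := by
    intro ξ hξ
    have h1 : mm g' (mm g φ) = φ := by
      rw [← ev_mm_assoc, hg.2, ev_idm_mm]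
    have h2 := ev_tw_mem (θ := pb2 g θ) (g := g') (φ := mm g φ) (d := d) (ξ := ξ) (by
      rw [h1]; exact hξ)
    rwa [pb2_mm, hg.1, pb2_idm] at h2
  exact LinearEquiv.finrank_eq
    { toFun := fun ξ => (⟨ev_tw g ξ.1, ev_tw_mem ξ.2⟩ : EV (pb2 g θ) φ d)
      map_add' := fun a b => Subtype.ext (by
        funext i
        show ∑ j, C (g j i) * (a.1 j + b.1 j) = ∑ j, C (g j i) * a.1 j + ∑ j, C (g j i) * b.1 j
        rw [← Finset.sum_add_distrib]
        refine Finset.sum_congr rfl fun j _ => ?_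
        ring)
      map_smul' := fun c a => Subtype.ext (by
        funext i
        show ∑ j, C (g j i) * (c • a.1 j) = c • ∑ j, C (g j i) * a.1 j
        rw [Finset.smul_sum]
        refine Finset.sum_congr rfl fun j _ => ?_
        rw [smul_eq_C_mul, smul_eq_C_mul]
        ring)
      invFun := fun ξ => ⟨ev_tw g' ξ.1, hmem ξ.1 ξ.2⟩
      left_inv := fun ξ => Subtype.ext (ev_tw_inv hg ξ.1)
      right_inv := fun ξ => Subtype.ext (ev_tw_inv hg.symm ξ.1) }

theorem finite_EV (θ : F2 n) (φ : Fin n → Fin m → ℂ) (d : ℕ) : Module.Finite ℂ (EV θ φ d) := by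
  classical
  let F : EV θ φ d →ₗ[ℂ] (Fin n → (Finset.finsuppAntidiag (Finset.univ : Finset (Fin m)) d) → ℂ) :=
    { toFun := fun ξ i ν => coeff ν.1 (ξ.1 i)
      map_add' := by
        intro a b
        funext i ν
        exact coeff_add _ _ _
      map_smul' := by
        intro c a
        funext i ν
        exact coeff_smul _ _ _ }
  have hF : Function.Injective F := by
    intro a b hab
    apply Subtype.ext
    funext i
    ext ν
    by_cases hν : ν ∈ Finset.finsuppAntidiag (Finset.univ : Finset (Fin m)) d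
    · exact congrFun (congrFun hab i) ⟨ν, hν⟩
    · have hdeg : Finsupp.degree ν ≠ d := by
        intro h
        apply hν
        rw [Finset.mem_finsuppAntidiag]
        refine ⟨?_, Finset.subset_univ _⟩
        rw [← Finsupp.degree_eq_sum]
        exact h
      rw [(a.2.1 i).coeff_eq_zero hdeg, (b.2.1 i).coeff_eq_zero hdeg]
  exact Module.Finite.of_injective F hF

/-- division by a linear form -/
theorem EV_div {θ : F2 n} {φ : Fin n → Fin m → ℂ} {d : ℕ} {l : Pn m} (hl : l.IsHomogeneous 1)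
    (hl0 : l ≠ 0) {ξ η : Fin n → Pn m} (h : ξ ∈ EV θ φ (d + 1)) (he : ∀ i, ξ i = l * η i) :
    η ∈ EV θ φ d := by
  refine ⟨fun i => ev_hom_div hl hl0 (he i ▸ h.1 i), fun i j k => ?_⟩
  have h1 := h.2 i j k
  have h2 : l * w12 η (cf φ θ) i j k = 0 := by
    rw [← h1]
    unfold w12
    rw [he, he, he]
    ring
  exact (mul_eq_zero.1 h2).resolve_left hl0

/-- a section vanishing on the hyperplane `x_0 = 0` of the subspace -/
theorem EV_ker {θ : F2 n} {φ : Fin n → Fin (m + 1) → ℂ} {d : ℕ} {ξ : Fin n → Pn (m + 1)}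
    (h : ξ ∈ EV θ φ (d + 1)) (h0 : ∀ i, at0 m ℂ (ξ i) = 0) :
    ∃ η ∈ EV θ φ d, ∀ i, ξ i = X 0 * η i := by
  choose η hη using fun i => (at0_eq_zero_iff (ξ i)).1 (h0 i)
  exact ⟨η, EV_div (isHomogeneous_X _ _) (X_ne_zero 0) h hη, hη⟩

/-- `rsV` for the hyperplane `x_0 = 0` is `at0` -/
theorem rsV_at0 (ξ : Fin n → Pn (m + 1)) (i : Fin n) :
    rsV (fun (a : Fin (m + 1)) (b : Fin m) => if a = b.succ then (1 : ℂ) else 0) ξ i =
      at0 m ℂ (ξ i) := by
  exact (at0_eq_lsub (ξ i)).symm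

end Pool.Agent.Helper50.FC
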