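import Pool.Agent.Helper50.FC.EV

/-! K1-13: sections along a subspace and the forms of `EE (pb2 φ θ)`.
* `rV_inj`: contract `w12 ξ (cf φ θ) i j l = 0` (sum over `j, l`) with the columns `a`, `b` of `φ`: `ξ i * pb2 φ θ a b = 0`.
* `wedge_eq` (any UFD, any index type): `w11 ζ η i j * Θ k l = w11 ζ η k l * Θ i j`, then coprimality of the coefficients.
* `rV_surj`: put `a_i b := ∑ l, C (φ l b) * cf φ θ i l` (restriction of `i_(e_i) θ`), annihilated by `pb2 φ θ` (`Dec θ` contracted
  with columns of `φ`), so `w11 η a_i = ξ i * pb2 φ θ`; then `∑ i, C (φ i c) * ξ i = η c` (expand `η ∧ pb2 φ θ = 0`) and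
  `w12 ξ (cf φ θ) = 0` (multiply by a non zero coefficient of `pb2 φ θ`, use `Dec θ`). -/

set_option autoImplicit false

namespace Pool.Agent.Helper50.FC

open MvPolynomial
open scoped BigOperators
open Pool.Agent.Helper71.FL (w12 pf ct Dec Closed dd at0 res)
open Pool.Agent.Helper93 (lsub lmap OF pb)
open Pool.Agent.Helper71.FC

variable {n m k : ℕ}

section gen
variable {A ι κ : Type} [CommRing A] [Fintype ι]

/-- contraction of a 1-tensor -/
private def c1 (M : ι → κ → A) (ξ : ι → A) (a : κ) : A := ∑ i, M i a * ξ i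

/-- contraction of a 2-tensor -/
private def c2 (M : ι → κ → A) (c : ι → ι → A) (a b : κ) : A := ∑ i, ∑ j, M i a * M j b * c i j

private theorem e_c2 (M : ι → κ → A) (c : ι → ι → A) (a b : κ) :
    c2 M c a b = ∑ i, M i a * c1 M (c i) b := by
  unfold c2 c1
  refine Finset.sum_congr rfl fun i _ => ?_
  rw [Finset.mul_sum]
  exact Finset.sum_congr rfl fun j _ => by ring

private theorem e_c2' (M : ι → κ → A) (c : ι → ι → A) (a b : κ) :
    c2 M c a b = ∑ j, M j b * c1 M (fun i => c i j) a := by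
  unfold c2 c1
  rw [Finset.sum_comm]
  refine Finset.sum_congr rfl fun i _ => ?_
  rw [Finset.mul_sum]
  exact Finset.sum_congr rfl fun j _ => by ring

/-- contraction of `ξ ∧ c` in the last two slots -/
private theorem con2 (M : ι → κ → A) (ξ : ι → A) (c : ι → ι → A) (i : ι) (a b : κ) :
    ∑ j, ∑ l, M j a * M l b * w12 ξ c i j l
      = ξ i * c2 M c a b + c1 M ξ a * c1 M (fun l => c l i) b + c1 M ξ b * c1 M (c i) a := by
  have e1 : ξ i * c2 M c a b = ∑ j, ∑ l, M j a * M l b * (ξ i * c j l) := by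
    unfold c2
    rw [Finset.mul_sum]
    refine Finset.sum_congr rfl fun j _ => ?_
    rw [Finset.mul_sum]
    exact Finset.sum_congr rfl fun l _ => by ring
  have e2 : c1 M ξ a * c1 M (fun l => c l i) b = ∑ j, ∑ l, M j a * M l b * (ξ j * c l i) := by
    unfold c1
    rw [Finset.sum_mul]
    refine Finset.sum_congr rfl fun j _ => ?_
    rw [Finset.mul_sum]
    exact Finset.sum_congr rfl fun l _ => by ring
  have e3 : c1 M ξ b * c1 M (c i) a = ∑ j, ∑ l, M j a * M l b * (ξ l * c i j) := by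
    unfold c1
    rw [mul_comm, Finset.sum_mul]
    refine Finset.sum_congr rfl fun j _ => ?_
    rw [Finset.mul_sum]
    exact Finset.sum_congr rfl fun l _ => by ring
  rw [e1, e2, e3, ← Finset.sum_add_distrib, ← Finset.sum_add_distrib]
  refine Finset.sum_congr rfl fun j _ => ?_
  rw [← Finset.sum_add_distrib, ← Finset.sum_add_distrib]
  refine Finset.sum_congr rfl fun l _ => ?_
  unfold w12
  ring

/-- contraction of `ξ ∧ c` in all slots -/
private theorem con3 (M : ι → κ → A) (ξ : ι → A) (c : ι → ι → A) (a b e : κ) :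
    w12 (c1 M ξ) (c2 M c) a b e = ∑ i, M i a * ∑ j, ∑ l, M j b * M l e * w12 ξ c i j l := by
  simp only [con2]
  have e1 : c1 M ξ a * c2 M c b e = ∑ i, M i a * (ξ i * c2 M c b e) := by
    conv_lhs => unfold c1
    rw [Finset.sum_mul]
    exact Finset.sum_congr rfl fun i _ => by ring
  have e2 : c1 M ξ b * c2 M c e a = ∑ i, M i a * (c1 M ξ b * c1 M (fun l => c l i) e) := by
    rw [e_c2', Finset.mul_sum]
    exact Finset.sum_congr rfl fun i _ => by ring
  have e3 : c1 M ξ e * c2 M c a b = ∑ i, M i a * (c1 M ξ e * c1 M (c i) b) := by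
    rw [e_c2, Finset.mul_sum]
    exact Finset.sum_congr rfl fun i _ => by ring
  have e0 : w12 (c1 M ξ) (c2 M c) a b e
      = c1 M ξ a * c2 M c b e + c1 M ξ b * c2 M c e a + c1 M ξ e * c2 M c a b := rfl
  rw [e0, e1, e2, e3, ← Finset.sum_add_distrib, ← Finset.sum_add_distrib]
  exact Finset.sum_congr rfl fun i _ => by ring

private theorem c2_alt {c : ι → ι → A} (hc : ∀ i j, c i j = -c j i) (M : ι → κ → A) (a b : κ) :
    c2 M c a b = -c2 M c b a := by
  rw [e_c2, e_c2', ← Finset.sum_neg_distrib]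
  refine Finset.sum_congr rfl fun i _ => ?_
  have : c1 M (c i) b = -c1 M (fun j => c j i) b := by
    unfold c1
    rw [← Finset.sum_neg_distrib]
    exact Finset.sum_congr rfl fun j _ => by rw [hc i j]; ring
  rw [this]; ring

end gen

/-- the matrix `φ` with polynomial entries -/
private noncomputable def MM (φ : Fin n → Fin m → ℂ) : Fin n → Fin m → Pn m := fun i a => C (φ i a)

private theorem rV_eq (φ : Fin n → Fin m → ℂ) (ξ : Fin n → Pn m) : rV φ ξ = c1 (MM φ) ξ := rfl

private theorem pb2_eq (φ : Fin n → Fin m → ℂ) (θ : F2 n) : pb2 φ θ = c2 (MM φ) (cf φ θ) := by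
  funext a b
  unfold pb2 c2 MM cf
  exact Finset.sum_congr rfl fun i _ => Finset.sum_congr rfl fun j _ => by rw [C_mul]

private theorem c1_hom {φ : Fin n → Fin m → ℂ} {ξ : Fin n → Pn m} {d : ℕ}
    (h : ∀ i, (ξ i).IsHomogeneous d) (a : Fin m) : (c1 (MM φ) ξ a).IsHomogeneous d := by
  refine IsHomogeneous.sum _ _ _ fun i _ => ?_
  have := (isHomogeneous_C (Fin m) (φ i a)).mul (h i)
  rw [zero_add] at this
  exact this

theorem rV_mem {θ : F2 n} {φ : Fin n → Fin m → ℂ} {d : ℕ} {ξ : Fin n → Pn m} (h : ξ ∈ EV θ φ d) :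
    rV φ ξ ∈ EE (pb2 φ θ) d := by
  refine ⟨fun a => c1_hom h.1 a, fun a b e => ?_⟩
  rw [rV_eq, pb2_eq, con3]
  refine Finset.sum_eq_zero fun i _ => ?_
  rw [Finset.sum_eq_zero, mul_zero]
  intro j _
  refine Finset.sum_eq_zero fun l _ => ?_
  rw [h.2, mul_zero]

theorem rV_inj {θ : F2 n} {φ : Fin n → Fin m → ℂ} (hne : ∃ a b, pb2 φ θ a b ≠ 0) {d : ℕ}
    {ξ : Fin n → Pn m} (h : ξ ∈ EV θ φ d) (h0 : ∀ a, rV φ ξ a = 0) : ξ = 0 := by
  obtain ⟨a, b, hab⟩ := hne
  funext i
  have h1 := con2 (MM φ) ξ (cf φ θ) i a b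
  have h2 : ∑ j, ∑ l, MM φ j a * MM φ l b * w12 ξ (cf φ θ) i j l = 0 := by
    refine Finset.sum_eq_zero fun j _ => Finset.sum_eq_zero fun l _ => ?_
    rw [h.2, mul_zero]
  have h3 : ∀ e, c1 (MM φ) ξ e = 0 := h0
  rw [h2, h3, h3, zero_mul, zero_mul, add_zero, add_zero, ← pb2_eq] at h1
  exact (mul_eq_zero.1 h1.symm).resolve_right hab

/-- two sections: the wedge product is a multiple of a primitive decomposable 2-form -/
theorem wedge_eq {A : Type} [CommRing A] [IsDomain A] [UniqueFactorizationMonoid A] {ι : Type}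
    [Finite ι] {Θ : ι → ι → A} (halt : ∀ i j, Θ i j = -Θ j i) (hdec : ∀ i j k l,
      Θ i j * Θ k l - Θ i k * Θ j l + Θ i l * Θ j k = 0) (hne : ∃ i j, Θ i j ≠ 0)
    (hp : ∀ p, (∀ i j, p ∣ Θ i j) → IsUnit p) {ζ η : ι → A}
    (hζ : ∀ i j k, w12 ζ Θ i j k = 0) (hη : ∀ i j k, w12 η Θ i j k = 0) :
    ∃ f, ∀ i j, w11 ζ η i j = f * Θ i j := by
  classical
  have _ := hdec
  have h : ∀ i j k l, w11 ζ η i j * Θ k l = w11 ζ η k l * Θ i j := by
    intro i j k l
    have e1 := hη j k l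
    have e2 := hη i k l
    have e3 := hζ i j l
    have e4 := hζ i j k
    unfold w12 at e1 e2 e3 e4
    rw [halt l j] at e1
    rw [halt l i] at e2
    rw [halt l i] at e3
    rw [halt k i] at e4
    unfold w11
    linear_combination ζ i * e1 - ζ j * e2 + η k * e3 - η l * e4
  cases nonempty_fintype ι
  obtain ⟨k, l, hkl⟩ := hne
  obtain ⟨inst⟩ : Nonempty (NormalizedGCDMonoid A) := inferInstance
  have h1 : Θ k l ∣ w11 ζ η k l := by
    have h2 : Θ k l ∣ (Finset.univ : Finset (ι × ι)).gcd (fun q => w11 ζ η k l * Θ q.1 q.2) := by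
      apply Finset.dvd_gcd
      rintro ⟨i, j⟩ _
      show Θ k l ∣ w11 ζ η k l * Θ i j
      rw [← h i j k l]
      exact dvd_mul_left _ _
    have h4 := h2.trans (Finset.gcd_mul_left' (Finset.univ : Finset (ι × ι))
      (fun q : ι × ι => Θ q.1 q.2) (w11 ζ η k l)).dvd
    have h3 : IsUnit ((Finset.univ : Finset (ι × ι)).gcd (fun q => Θ q.1 q.2)) :=
      hp _ (fun i j => Finset.gcd_dvd (f := fun q : ι × ι => Θ q.1 q.2) (Finset.mem_univ (i, j)))
    exact (IsUnit.dvd_mul_right h3).1 h4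
  obtain ⟨f, hf⟩ := h1
  refine ⟨f, fun i j => ?_⟩
  apply mul_right_cancel₀ hkl
  rw [h i j k l, hf]
  ring

private theorem hc_mul' {f g : Pn m} {d : ℕ} (hg : g.IsHomogeneous d) (e : ℕ) :
    homogeneousComponent (e + d) (f * g) = homogeneousComponent e f * g := by
  have h1 : ∀ i, homogeneousComponent (e + d) (homogeneousComponent i f * g) =
      if i = e then homogeneousComponent e f * g else 0 := by
    intro i
    rw [homogeneousComponent_of_mem (n := i + d) ((homogeneousComponent_isHomogeneous i f).mul hg)]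
    by_cases h : i = e
    · rw [if_pos h, if_pos (by omega), h]
    · rw [if_neg h, if_neg (by omega)]
  conv_lhs => rw [← sum_homogeneousComponent f, Finset.sum_mul, map_sum]
  rw [Finset.sum_congr rfl (fun i _ => h1 i), Finset.sum_ite_eq']
  split_ifs with h
  · rfl
  · rw [homogeneousComponent_eq_zero, zero_mul]
    rw [Finset.mem_range] at h
    omega

private theorem hom_quot' {f g : Pn m} {e d : ℕ} (hg : g.IsHomogeneous d) (hg0 : g ≠ 0)
    (h : (f * g).IsHomogeneous (e + d)) : f.IsHomogeneous e := by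
  have h1 := hc_mul' hg e (f := f)
  rw [homogeneousComponent_eq_self h] at h1
  have h2 : f = homogeneousComponent e f := mul_right_cancel₀ hg0 h1
  rw [h2]
  exact homogeneousComponent_isHomogeneous e f

private theorem nz_of_prim' {Θ : F2 m} (hp : Prim2 Θ) : ∃ i j, Θ i j ≠ 0 := by
  by_contra hcon
  push Not at hcon
  have := hp 0 (fun i j => by rw [hcon])
  exact not_isUnit_zero this

private theorem Dec_cf {θ : F2 n} (hdec : Dec θ) (φ : Fin n → Fin m → ℂ) : Dec (cf φ θ) :=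
  Dec.map (lsub φ : Pn n →+* Pn m) hdec

theorem rV_surj {θ : F2 n} (hθ : ∀ i j, (θ i j).IsHomogeneous 3) (hdec : Dec θ)
    {φ : Fin n → Fin m → ℂ} (hp : Prim2 (pb2 φ θ)) {d : ℕ} {η : F1 m}
    (h : η ∈ EE (pb2 φ θ) d) : ∃ ξ ∈ EV θ φ d, rV φ ξ = η := by
  have hcd : Dec (cf φ θ) := Dec_cf hdec φ
  have hpd : Dec (pb2 φ θ) := Dec_pb2 hdec φ
  have hch : ∀ i j, (cf φ θ i j).IsHomogeneous 3 := fun i j => lsub_hom (hθ i j)
  obtain ⟨a0, b0, hab⟩ := nz_of_prim' hp
  -- the forms `a_i`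
  have ha : ∀ i : Fin n, ∀ a b e, w12 (c1 (MM φ) (cf φ θ i)) (pb2 φ θ) a b e = 0 := by
    intro i a b e
    rw [pb2_eq, con3]
    refine Finset.sum_eq_zero fun j _ => ?_
    rw [Finset.sum_eq_zero, mul_zero]
    intro l _
    refine Finset.sum_eq_zero fun p _ => ?_
    have h1 : w12 (cf φ θ i) (cf φ θ) j l p = pf (cf φ θ) i j l p := by
      unfold w12 pf
      rw [hcd.2.1 p j]; ring
    rw [h1, hcd.2.2, mul_zero]
  have hw : ∀ i : Fin n, ∃ f, ∀ a b, w11 η (c1 (MM φ) (cf φ θ i)) a b = f * pb2 φ θ a b :=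
    fun i => wedge_eq hpd.2.1 (fun a b c e => hpd.2.2 a b c e) ⟨a0, b0, hab⟩ hp h.2 (ha i)
  choose ξ hξ using hw
  have hξh : ∀ i, (ξ i).IsHomogeneous d := by
    intro i
    have h1 : (pb2 φ θ a0 b0).IsHomogeneous 3 := by
      rw [pb2_eq]
      unfold c2 MM
      refine IsHomogeneous.sum _ _ _ fun p _ => IsHomogeneous.sum _ _ _ fun q _ => ?_
      have := ((isHomogeneous_C (Fin m) (φ p a0)).mul (isHomogeneous_C (Fin m) (φ q b0))).mul (hch p q)
      simpa using this
    refine hom_quot' h1 hab ?_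
    rw [← hξ i a0 b0]
    unfold w11
    exact ((h.1 a0).mul (c1_hom (hch i) b0)).sub ((h.1 b0).mul (c1_hom (hch i) a0))
  refine ⟨ξ, ⟨hξh, fun i j l => ?_⟩, ?_⟩
  · apply mul_right_cancel₀ hab
    rw [zero_mul]
    have key : ∀ b, c1 (MM φ) (cf φ θ i) b * cf φ θ j l + c1 (MM φ) (cf φ θ j) b * cf φ θ l i
        + c1 (MM φ) (cf φ θ l) b * cf φ θ i j = 0 := by
      intro b
      unfold c1
      rw [Finset.sum_mul, Finset.sum_mul, Finset.sum_mul, ← Finset.sum_add_distrib,
        ← Finset.sum_add_distrib]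
      refine Finset.sum_eq_zero fun p _ => ?_
      have h2 := hcd.2.2 p i j l
      unfold pf at h2
      rw [hcd.2.1 i p, hcd.2.1 j p, hcd.2.1 l p, hcd.2.1 l i]
      linear_combination -(MM φ p b) * h2
    have e1 := hξ i a0 b0
    have e2 := hξ j a0 b0
    have e3 := hξ l a0 b0
    unfold w11 at e1 e2 e3
    unfold w12
    linear_combination -(cf φ θ j l) * e1 - (cf φ θ l i) * e2 - (cf φ θ i j) * e3
      + η a0 * key b0 - η b0 * key a0
  · funext c
    apply mul_right_cancel₀ hab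
    have e1 : rV φ ξ c * pb2 φ θ a0 b0 = ∑ i, MM φ i c * (ξ i * pb2 φ θ a0 b0) := by
      rw [rV_eq]
      unfold c1
      rw [Finset.sum_mul]
      exact Finset.sum_congr rfl fun i _ => by ring
    have e2 : ∑ i, MM φ i c * (ξ i * pb2 φ θ a0 b0)
        = η a0 * pb2 φ θ c b0 - η b0 * pb2 φ θ c a0 := by
      simp only [← hξ]
      rw [pb2_eq, e_c2, e_c2, Finset.mul_sum, Finset.mul_sum, ← Finset.sum_sub_distrib]
      refine Finset.sum_congr rfl fun i _ => ?_
      unfold w11
      ring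
    rw [e1, e2]
    have h3 := h.2 a0 b0 c
    unfold w12 at h3
    rw [hpd.2.1 c b0]
    linear_combination -h3

/-- for a subspace with primitive restriction both kinds of sections agree -/
theorem finrank_EV {θ : F2 n} (hθ : ∀ i j, (θ i j).IsHomogeneous 3) (hdec : Dec θ)
    {φ : Fin n → Fin m → ℂ} (hp : Prim2 (pb2 φ θ)) (d : ℕ) :
    Module.finrank ℂ (EV θ φ d) = Module.finrank ℂ (EE (pb2 φ θ) d) := by
  let L : EV θ φ d →ₗ[ℂ] EE (pb2 φ θ) d :=
    { toFun := fun ξ => ⟨rV φ ξ.1, rV_mem ξ.2⟩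
      map_add' := fun x y => by
        apply Subtype.ext
        funext a
        show rV φ (x.1 + y.1) a = rV φ x.1 a + rV φ y.1 a
        unfold rV
        rw [← Finset.sum_add_distrib]
        exact Finset.sum_congr rfl fun i _ => by rw [Pi.add_apply]; ring
      map_smul' := fun c x => by
        apply Subtype.ext
        funext a
        show rV φ (c • x.1) a = (c • rV φ x.1) a
        rw [Pi.smul_apply]
        unfold rV
        rw [Finset.smul_sum]
        exact Finset.sum_congr rfl fun i _ => by rw [Pi.smul_apply, mul_smul_comm] }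
  refine LinearEquiv.finrank_eq (LinearEquiv.ofBijective L ⟨?_, ?_⟩)
  · rw [injective_iff_map_eq_zero]
    intro ξ hξ
    apply Subtype.ext
    have h1 : rV φ ξ.1 = 0 := congrArg Subtype.val hξ
    exact rV_inj (nz_of_prim' hp) ξ.2 (fun a => congrFun h1 a)
  · intro η
    obtain ⟨ξ, hξ, h1⟩ := rV_surj hθ hdec hp η.2
    exact ⟨⟨ξ, hξ⟩, Subtype.ext h1⟩

end Pool.Agent.Helper50.FC
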