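import Pool.Agent.Helper50.FC.EV

/-! K1-19: generic value and semicontinuity of `dim EV θ φ d`.  Same proof as `gen_finrank_EE` in `Helper71/FC/GenP.lean` (copy the private
lemmas `NN`, `gen_rank`, `mons`, `lin`, .. with `Fin n → Pn m` in place of `F1 m` and the generic substitution `glsub` of the coefficients
`θ i j` in place of `gpb2`). -/

set_option autoImplicit false

namespace Pool.Agent.Helper50.FC

open MvPolynomial
open scoped BigOperators
open Pool.Agent.Helper71.FL (w12 pf ct Dec Closed dd at0 res)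
open Pool.Agent.Helper93 (lsub lmap OF pb)
open Pool.Agent.Helper71.FC

variable {n m k : ℕ}

private theorem genM_iff {n m : ℕ} {p : (Fin n → Fin m → ℂ) → Prop} :
    GenM p ↔ Gen (fun x : Fin n × Fin m → ℂ => p (fun i j => x (i, j))) := by
  constructor
  · rintro ⟨F, hF, h⟩
    exact ⟨F, hF, fun x hx => h (fun i j => x (i, j)) hx⟩
  · rintro ⟨F, hF, h⟩
    exact ⟨F, hF, fun φ hφ => h (fun q => φ q.1 q.2) hφ⟩

private noncomputable def dotF {κ : Type} [Fintype κ] (c : κ → ℂ) : (κ → ℂ) →ₗ[ℂ] ℂ where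
  toFun a := ∑ j, a j * c j
  map_add' := by
    intro a b
    simp only [Pi.add_apply, add_mul, Finset.sum_add_distrib]
  map_smul' := by
    intro t a
    simp only [Pi.smul_apply, smul_eq_mul, RingHom.id_apply]
    rw [Finset.mul_sum]
    exact Finset.sum_congr rfl fun j _ => by ring

/-- the vectors annihilated by a family of rows with polynomial entries -/
private noncomputable def NN {ι R κ : Type} [Fintype κ] (A : R → κ → MvPolynomial ι ℂ)
    (x : ι → ℂ) : Submodule ℂ (κ → ℂ) where
  carrier := {c | ∀ ρ, ∑ j, eval x (A ρ j) * c j = 0}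
  add_mem' := by
    intro a b ha hb ρ
    simp only [Pi.add_apply, mul_add, Finset.sum_add_distrib]
    rw [ha ρ, hb ρ, add_zero]
  zero_mem' := by
    intro ρ
    simp
  smul_mem' := by
    intro r a ha ρ
    simp only [Pi.smul_apply, smul_eq_mul]
    have h : ∀ j, eval x (A ρ j) * (r * a j) = r * (eval x (A ρ j) * a j) := fun j => by ring
    simp only [h]
    rw [← Finset.mul_sum, ha ρ, mul_zero]

private noncomputable def rowMap {r : ℕ} {κ : Type} [Fintype κ] (M : Fin r → κ → ℂ) :
    (κ → ℂ) →ₗ[ℂ] (Fin r → ℂ) where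
  toFun c := fun i => ∑ j, M i j * c j
  map_add' := by
    intro a b
    funext i
    simp only [Pi.add_apply, mul_add, Finset.sum_add_distrib]
  map_smul' := by
    intro t a
    funext i
    simp only [Pi.smul_apply, smul_eq_mul, RingHom.id_apply]
    rw [Finset.mul_sum]
    exact Finset.sum_congr rfl fun j _ => by ring

private theorem rowMap_surj_of_indep {r : ℕ} {κ : Type} [Fintype κ] [DecidableEq κ]
    (M : Fin r → κ → ℂ) (hM : LinearIndependent ℂ M) : Function.Surjective (rowMap M) := by
  have h1 : (Matrix.of M).rank = Fintype.card (Fin r) := LinearIndependent.rank_matrix hM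
  have h2 : Function.Surjective (Matrix.of M).mulVecLin := by
    rw [← LinearMap.range_eq_top]
    apply Submodule.eq_top_of_finrank_eq
    rw [Module.finrank_fintype_fun_eq_card]
    exact h1
  exact h2

private theorem finrank_ker_rowMap {r : ℕ} {κ : Type} [Fintype κ]
    (M : Fin r → κ → ℂ) (hM : Function.Surjective (rowMap M)) :
    Module.finrank ℂ (LinearMap.ker (rowMap M)) + r = Fintype.card κ := by
  have h := (rowMap M).finrank_range_add_finrank_ker
  rw [LinearMap.range_eq_top.2 hM, finrank_top, Module.finrank_fintype_fun_eq_card,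
    Module.finrank_fintype_fun_eq_card, Fintype.card_fin] at h
  rw [add_comm]
  exact h

private theorem gen_rank {ι R κ : Type} [Fintype κ] (A : R → κ → MvPolynomial ι ℂ) :
    ∃ e : ℕ, Gen (fun x => Module.finrank ℂ (NN A x) = e) ∧
      ∀ x, e ≤ Module.finrank ℂ (NN A x) := by
  classical
  obtain ⟨x₀, hx₀⟩ : ∃ x₀, ∀ x, Module.finrank ℂ (NN A x₀) ≤ Module.finrank ℂ (NN A x) := by
    have hne : (Set.range fun x => Module.finrank ℂ (NN A x)).Nonempty := ⟨_, fun _ => 0, rfl⟩
    obtain ⟨x₀, hx₀⟩ := Nat.sInf_mem hne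
    refine ⟨x₀, fun x => ?_⟩
    have h1 : Module.finrank ℂ (NN A x₀) = sInf (Set.range fun x => Module.finrank ℂ (NN A x)) := hx₀
    rw [h1]
    exact Nat.sInf_le ⟨x, rfl⟩
  refine ⟨Module.finrank ℂ (NN A x₀), ?_, hx₀⟩
  let s : Set (κ → ℂ) := Set.range fun ρ => fun j => eval x₀ (A ρ j)
  obtain ⟨f, hf1, hf2, hf3⟩ := Submodule.exists_fun_fin_finrank_span_eq ℂ s
  choose ρ hρ using hf1
  -- the kernel of the chosen rows is the space at `x₀`
  have hsurj := rowMap_surj_of_indep f hf3
  have hN0 : NN A x₀ = LinearMap.ker (rowMap f) := by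
    ext c
    rw [LinearMap.mem_ker]
    constructor
    · intro hc
      funext i
      show ∑ j, f i j * c j = 0
      rw [← hρ i]
      exact hc (ρ i)
    · intro hc ρ'
      have hmem : (fun j => eval x₀ (A ρ' j)) ∈ Submodule.span ℂ (Set.range f) := by
        rw [hf2]
        exact Submodule.subset_span ⟨ρ', rfl⟩
      have hle : Submodule.span ℂ (Set.range f) ≤
          LinearMap.ker (dotF c) := by
        rw [Submodule.span_le]
        rintro _ ⟨i, rfl⟩
        have h1 := congrFun hc i
        exact h1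
      exact hle hmem
  choose b hb using fun k : Fin (Module.finrank ℂ (Submodule.span ℂ s)) =>
    hsurj (Pi.single k 1)
  let P : MvPolynomial ι ℂ := Matrix.det (Matrix.of fun i k => ∑ j, A (ρ i) j * C (b k j))
  have hP : ∀ x, eval x P = Matrix.det (Matrix.of fun i k => ∑ j, eval x (A (ρ i) j) * b k j) := by
    intro x
    show eval x (Matrix.det _) = _
    rw [RingHom.map_det]
    congr 1
    ext i k
    simp
  refine ⟨P, ?_, fun x hx => le_antisymm ?_ (hx₀ x)⟩
  · intro h0
    have h1 := hP x₀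
    rw [h0, map_zero] at h1
    have h2 : (Matrix.of fun i k => ∑ j, eval x₀ (A (ρ i) j) * b k j) = 1 := by
      ext i k
      have h3 := congrFun (hb k) i
      rw [Matrix.of_apply, Matrix.one_apply]
      have h4 : ∑ j, f i j * b k j = (Pi.single k (1 : ℂ) : _ → ℂ) i := h3
      rw [← hρ i] at h4
      rw [h4, Pi.single_apply]
    rw [h2, Matrix.det_one] at h1
    exact zero_ne_one h1
  · -- the rows at `x` are still surjective
    let g : Fin (Module.finrank ℂ (Submodule.span ℂ s)) → κ → ℂ := fun i j => eval x (A (ρ i) j)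
    have hg : Function.Surjective (rowMap g) := by
      rw [hP] at hx
      intro v
      have hu : IsUnit (Matrix.det (Matrix.of fun i k => ∑ j, eval x (A (ρ i) j) * b k j)) :=
        isUnit_iff_ne_zero.2 hx
      let w := (Matrix.of fun i k => ∑ j, eval x (A (ρ i) j) * b k j)⁻¹.mulVec v
      refine ⟨fun j => ∑ k, w k * b k j, ?_⟩
      have h1 : (Matrix.of fun i k => ∑ j, eval x (A (ρ i) j) * b k j).mulVec w = v := by
        show Matrix.mulVec _ (Matrix.mulVec _ v) = v
        rw [Matrix.mulVec_mulVec, Matrix.mul_nonsing_inv _ hu, Matrix.one_mulVec]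
      rw [← h1]
      funext i
      show ∑ j, eval x (A (ρ i) j) * ∑ k, w k * b k j =
        ∑ k, (∑ j, eval x (A (ρ i) j) * b k j) * w k
      simp only [Finset.mul_sum, Finset.sum_mul]
      rw [Finset.sum_comm]
      exact Finset.sum_congr rfl fun k _ => Finset.sum_congr rfl fun j _ => by ring
    have h1 := finrank_ker_rowMap g hg
    have h2 := finrank_ker_rowMap f hsurj
    have hle : NN A x ≤ LinearMap.ker (rowMap g) := by
      intro c hc
      rw [LinearMap.mem_ker]
      funext i
      exact hc (ρ i)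
    have h3 := Submodule.finrank_mono hle
    rw [hN0]
    omega

/-- the monomials of degree `d` in `m` variables -/
private def mons (m d : ℕ) : Finset (Fin m →₀ ℕ) := Finset.univ.finsuppAntidiag d

private theorem mem_mons {m d : ℕ} {s : Fin m →₀ ℕ} : s ∈ mons m d ↔ s.degree = d := by
  unfold mons
  rw [Finset.mem_finsuppAntidiag]
  constructor
  · rintro ⟨h, -⟩
    rw [← h, Finsupp.degree_eq_sum]
  · intro h
    refine ⟨?_, Finset.subset_univ _⟩
    rw [← h, Finsupp.degree_eq_sum]


/-- the homogeneous `V*`-valued map with given coefficients -/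
private noncomputable def lin (n m d : ℕ) : (Fin n × mons m d → ℂ) →ₗ[ℂ] (Fin n → Pn m) where
  toFun c := fun a => ∑ s : mons m d, monomial s.1 (c (a, s))
  map_add' := by
    intro a b
    funext i
    simp only [Pi.add_apply, map_add, Finset.sum_add_distrib]
  map_smul' := by
    intro t a
    funext i
    simp only [Pi.smul_apply, RingHom.id_apply, map_smul, Finset.smul_sum]

private theorem coeff_lin {n m d : ℕ} (c : Fin n × mons m d → ℂ) (a : Fin n) (s : mons m d) :
    coeff s.1 (lin n m d c a) = c (a, s) := by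
  classical
  show coeff s.1 (∑ s : mons m d, monomial s.1 (c (a, s))) = _
  rw [coeff_sum, Finset.sum_eq_single s]
  · rw [coeff_monomial, if_pos rfl]
  · intro t _ ht
    rw [coeff_monomial, if_neg]
    exact fun h => ht (Subtype.ext h)
  · intro h; exact absurd (Finset.mem_univ _) h

private theorem lin_hom {n m d : ℕ} (c : Fin n × mons m d → ℂ) (a : Fin n) :
    (lin n m d c a).IsHomogeneous d := by
  refine IsHomogeneous.sum _ _ _ fun s _ => ?_
  exact isHomogeneous_monomial _ (mem_mons.1 s.2)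

private theorem exists_lin {n m d : ℕ} {ξ : Fin n → Pn m} (h : ∀ a, (ξ a).IsHomogeneous d) :
    ∃ c, lin n m d c = ξ := by
  classical
  refine ⟨fun q => coeff q.2.1 (ξ q.1), ?_⟩
  funext a
  ext t
  by_cases ht : t ∈ mons m d
  · exact coeff_lin _ a ⟨t, ht⟩
  · rw [(h a).coeff_eq_zero (fun h1 => ht (mem_mons.2 h1)),
      (lin_hom _ a).coeff_eq_zero (fun h1 => ht (mem_mons.2 h1))]

private theorem w12_lin_aux {A : Type} [CommRing A] {ι κ : Type} [Fintype κ] {ξ : ι → A}
    (c : κ → A) (E : κ → ι → A) (h : ∀ a, ξ a = ∑ q, c q * E q a) (θ : ι → ι → A) (i j l : ι) :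
    w12 ξ θ i j l = ∑ q, c q * w12 (E q) θ i j l := by
  unfold w12
  rw [h, h, h, Finset.sum_mul, Finset.sum_mul, Finset.sum_mul, ← Finset.sum_add_distrib,
    ← Finset.sum_add_distrib]
  exact Finset.sum_congr rfl fun q _ => by ring

section generic
variable {n : ℕ} (θ : F2 n) (m : ℕ)

/-- generic linear substitution -/
private noncomputable def glsub (n m : ℕ) :
    Pn n →+* MvPolynomial (Fin m) (MvPolynomial (Fin n × Fin m) ℂ) :=
  eval₂Hom (C.comp C) (fun k => ∑ l, C (X (k, l)) * X l)

private noncomputable def gcf : Fin n → Fin n → MvPolynomial (Fin m) (MvPolynomial (Fin n × Fin m) ℂ) :=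
  fun i j => glsub n m (θ i j)

private theorem map_glsub (φ : Fin n → Fin m → ℂ) (f : Pn n) :
    MvPolynomial.map (eval fun q : Fin n × Fin m => φ q.1 q.2) (glsub n m f) = lsub φ f := by
  have h : (MvPolynomial.map (eval fun q : Fin n × Fin m => φ q.1 q.2)).comp (glsub n m) =
      (lsub φ : Pn n →+* Pn m) := by
    apply MvPolynomial.ringHom_ext
    · intro c
      show MvPolynomial.map _ (eval₂Hom (C.comp C) _ (C c)) = (lsub φ) (C c)
      rw [eval₂Hom_C, RingHom.comp_apply, map_C, eval_C]
      unfold lsub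
      rw [aeval_C]
      rfl
    · intro i
      show MvPolynomial.map _ (eval₂Hom (C.comp C) _ (X i)) = (lsub φ) (X i)
      rw [eval₂Hom_X', map_sum]
      unfold lsub
      rw [aeval_X]
      refine Finset.sum_congr rfl fun l _ => ?_
      rw [map_mul, map_C, map_X, eval_X]
  exact congrArg (fun g : Pn n →+* Pn m => g f) h


private theorem map_gcf (φ : Fin n → Fin m → ℂ) (i j : Fin n) :
    MvPolynomial.map (eval fun q : Fin n × Fin m => φ q.1 q.2) (gcf θ m i j) = cf φ θ i j :=
  map_glsub m φ (θ i j)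

/-- the rows -/
private noncomputable def Arow (d : ℕ) (R : (Fin n × Fin n × Fin n) × (Fin m →₀ ℕ))
    (c : Fin n × mons m d) : MvPolynomial (Fin n × Fin m) ℂ :=
  coeff R.2 (w12 (fun a => if a = c.1 then monomial c.2.1 1 else 0) (gcf θ m) R.1.1 R.1.2.1 R.1.2.2)

private theorem eval_Arow (d : ℕ) (R : (Fin n × Fin n × Fin n) × (Fin m →₀ ℕ))
    (c : Fin n × mons m d) (φ : Fin n → Fin m → ℂ) :
    eval (fun q : Fin n × Fin m => φ q.1 q.2) (Arow θ m d R c) =
      coeff R.2 (w12 (fun a => if a = c.1 then monomial c.2.1 (1 : ℂ) else 0) (cf φ θ)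
        R.1.1 R.1.2.1 R.1.2.2) := by
  unfold Arow
  rw [← coeff_map, ← Pool.Agent.Helper71.FL.w12_map]
  congr 2
  · funext a
    split_ifs
    · rw [map_monomial, map_one]
    · rw [map_zero]
  · funext i j
    exact map_gcf θ m φ i j

private theorem EV_eq (d : ℕ) (φ : Fin n → Fin m → ℂ) :
    EV θ φ d = (NN (Arow θ m d) (fun q => φ q.1 q.2)).map (lin n m d) := by
  classical
  have key : ∀ (c : Fin n × mons m d → ℂ) (R : (Fin n × Fin n × Fin n) × (Fin m →₀ ℕ)),
      coeff R.2 (w12 (lin n m d c) (cf φ θ) R.1.1 R.1.2.1 R.1.2.2) =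
      ∑ q, eval (fun q : Fin n × Fin m => φ q.1 q.2) (Arow θ m d R q) * c q := by
    intro c R
    have h1 : ∀ a, lin n m d c a =
        ∑ q : Fin n × mons m d, C (c q) * (if a = q.1 then monomial q.2.1 (1 : ℂ) else 0) := by
      intro a
      rw [Fintype.sum_prod_type, Finset.sum_eq_single a]
      · show ∑ s : mons m d, monomial s.1 (c (a, s)) = _
        refine Finset.sum_congr rfl fun s _ => ?_
        rw [if_pos rfl, C_mul_monomial, mul_one]
      · intro b _ hb
        refine Finset.sum_eq_zero fun s _ => ?_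
        rw [if_neg (fun h => hb h.symm), mul_zero]
      · intro h; exact absurd (Finset.mem_univ _) h
    have h2 : w12 (lin n m d c) (cf φ θ) R.1.1 R.1.2.1 R.1.2.2 =
        ∑ q : Fin n × mons m d, C (c q) * w12 (fun a => if a = q.1 then monomial q.2.1 (1 : ℂ)
          else 0) (cf φ θ) R.1.1 R.1.2.1 R.1.2.2 := by
      exact w12_lin_aux _ _ h1 _ _ _ _
    rw [h2, coeff_sum]
    refine Finset.sum_congr rfl fun q _ => ?_
    rw [coeff_C_mul, eval_Arow, mul_comm]
  ext ξ
  rw [mem_EV, Submodule.mem_map]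
  constructor
  · rintro ⟨h1, h2⟩
    obtain ⟨c, rfl⟩ := exists_lin h1
    refine ⟨c, fun R => ?_, rfl⟩
    rw [← key, h2, coeff_zero]
  · rintro ⟨c, hc, rfl⟩
    refine ⟨fun a => lin_hom c a, fun i j l => ?_⟩
    ext t
    have h1 := key c ((i, j, l), t)
    rw [coeff_zero]
    exact h1.trans (hc ((i, j, l), t))

private theorem finrank_EV_eq (d : ℕ) (φ : Fin n → Fin m → ℂ) :
    Module.finrank ℂ (EV θ φ d) =
      Module.finrank ℂ (NN (Arow θ m d) (fun q => φ q.1 q.2)) := by
  have hinj : Function.Injective (lin n m d) := by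
    intro c c' h
    funext q
    obtain ⟨a, s⟩ := q
    rw [← coeff_lin c a s, ← coeff_lin c' a s, h]
  rw [EV_eq]
  exact (Submodule.equivMapOfInjective (lin n m d) hinj _).finrank_eq.symm

end generic


theorem gen_finrank_EV (θ : F2 n) (m d : ℕ) : ∃ e : ℕ,
    GenM (fun φ : Fin n → Fin m → ℂ => Module.finrank ℂ (EV θ φ d) = e) ∧
    ∀ φ : Fin n → Fin m → ℂ, e ≤ Module.finrank ℂ (EV θ φ d) := by
  obtain ⟨e, h1, h2⟩ := gen_rank (Arow θ m d)
  refine ⟨e, ?_, fun φ => ?_⟩
  · rw [genM_iff]
    refine h1.mono fun x hx => ?_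
    rw [finrank_EV_eq]
    exact hx
  · rw [finrank_EV_eq]
    exact h2 _

/-- openness of `EV θ φ d = 0` -/
theorem EV_bot_gen {θ : F2 n} {m d : ℕ} {φ : Fin n → Fin m → ℂ} (h : EV θ φ d = ⊥) :
    GenM (fun φ : Fin n → Fin m → ℂ => EV θ φ d = ⊥) := by
  obtain ⟨e, h1, h2⟩ := gen_finrank_EV θ m d
  have h3 := h2 φ
  rw [h, finrank_bot] at h3
  refine h1.mono fun ψ hψ => ?_
  haveI := finite_EV θ ψ d
  rw [← Submodule.finrank_eq_zero (R := ℂ), hψ]
  omega

end Pool.Agent.Helper50.FC
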