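import Mathlib

/-! K1-10: kernels of matrices with polynomial entries have polynomial bases, for general values of the parameters.
Proof.  Let `R` be a domain, `K` its fraction field, `A_K : K^c → K^r`.  Take a basis `u_1..u_d` of `ker A_K`, extend it to a basis of `K^c`
(or: a complement `M` of `ker A_K`, `A_K` is injective on `M`, so there is a linear `B : K^r → K^c` with `B A_K m = m` for `m ∈ M`; let `π` be
the projection onto the kernel along `M`; then `B A_K + π = id` after replacing `B` by `(1-π) B`; `π = U W` with `U` the matrix of the basis `u_i`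
and `W` the coordinates, `W U = 1`).  Clear denominators: multiply `B`, `W` by `g1`, `U` by `g2` and put `g = g1 g2` (all denominators of `B g2, ...`:
`IsLocalization.exist_integer_multiples`). -/

set_option autoImplicit false

namespace Pool.Agent.Helper50.FC

open MvPolynomial
open scoped BigOperators

private theorem ker_lin {K V W : Type*} [Field K] [AddCommGroup V] [Module K V] [FiniteDimensional K V]
    [AddCommGroup W] [Module K W] (f : V →ₗ[K] W) :
    ∃ (d : ℕ) (b : W →ₗ[K] V) (u : (Fin d → K) →ₗ[K] V) (w : V →ₗ[K] (Fin d → K)),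
      b ∘ₗ f + u ∘ₗ w = LinearMap.id ∧ f ∘ₗ u = 0 ∧ w ∘ₗ u = LinearMap.id := by
  obtain ⟨N, hN⟩ : ∃ N : Submodule K V, N = LinearMap.ker f := ⟨_, rfl⟩
  obtain ⟨d, bas⟩ : ∃ d : ℕ, Nonempty (Module.Basis (Fin d) K N) :=
    ⟨Module.finrank K N, ⟨Module.finBasis K N⟩⟩
  obtain ⟨bas⟩ := bas
  let u : (Fin d → K) →ₗ[K] V := N.subtype ∘ₗ bas.equivFun.symm.toLinearMap
  have hu : LinearMap.ker u = ⊥ := by
    rw [LinearMap.ker_eq_bot]
    exact N.subtype_injective.comp bas.equivFun.symm.injective
  obtain ⟨w, hw⟩ := LinearMap.exists_leftInverse_of_injective u hu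
  have hle : N ≤ LinearMap.ker (LinearMap.id - u ∘ₗ w) := by
    intro x hx
    obtain ⟨y, hy⟩ : ∃ y, u y = x := ⟨bas.equivFun ⟨x, hx⟩, by simp [u]⟩
    rw [LinearMap.mem_ker, LinearMap.sub_apply, LinearMap.comp_apply, ← hy]
    have h1 := LinearMap.congr_fun hw y
    rw [LinearMap.comp_apply] at h1
    rw [h1]
    simp
  have hker : LinearMap.ker (N.liftQ f hN.le) = ⊥ := by
    subst hN
    exact Submodule.ker_liftQ_eq_bot _ _ _ le_rfl
  obtain ⟨g, hg⟩ := LinearMap.exists_leftInverse_of_injective (N.liftQ f hN.le) hker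
  refine ⟨d, (N.liftQ (LinearMap.id - u ∘ₗ w) hle) ∘ₗ g, u, w, ?_, ?_, hw⟩
  · ext x
    have h1 := LinearMap.congr_fun hg (N.mkQ x)
    rw [LinearMap.comp_apply, Submodule.mkQ_apply, Submodule.liftQ_apply] at h1
    rw [LinearMap.add_apply, LinearMap.comp_apply, LinearMap.comp_apply, h1, LinearMap.id_apply,
      Submodule.liftQ_apply]
    simp
  · ext x
    have h2 : u (Pi.single x 1) ∈ N := (bas.equivFun.symm (Pi.single x 1)).2
    rw [hN] at h2
    simpa using h2

/-- over a domain every matrix `A` has a matrix `U` of kernel vectors with `B A + U W = g`, `A U = 0`, `W U = g` -/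
theorem ker_matrix {R r c : Type} [CommRing R] [IsDomain R] [Fintype r] [Fintype c] [DecidableEq c]
    (A : Matrix r c R) :
    ∃ (d : ℕ) (g : R) (B : Matrix c r R) (U : Matrix c (Fin d) R) (W : Matrix (Fin d) c R),
      g ≠ 0 ∧ B * A + U * W = g • (1 : Matrix c c R) ∧ A * U = 0 ∧ W * U = g • (1 : Matrix (Fin d) (Fin d) R) := by
  classical
  let K := FractionRing R
  let AK : Matrix r c K := A.map (algebraMap R K)
  obtain ⟨d, b, u, w, h1, h2, h3⟩ := ker_lin (Matrix.toLin' AK)
  obtain ⟨BK, hBK⟩ : ∃ BK : Matrix c r K, BK = LinearMap.toMatrix' b := ⟨_, rfl⟩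
  obtain ⟨UK, hUK⟩ : ∃ UK : Matrix c (Fin d) K, UK = LinearMap.toMatrix' u := ⟨_, rfl⟩
  obtain ⟨WK, hWK⟩ : ∃ WK : Matrix (Fin d) c K, WK = LinearMap.toMatrix' w := ⟨_, rfl⟩
  have e1 : BK * AK + UK * WK = 1 := by
    have h := congrArg LinearMap.toMatrix' h1
    rw [map_add, LinearMap.toMatrix'_comp, LinearMap.toMatrix'_comp, LinearMap.toMatrix'_toLin',
      LinearMap.toMatrix'_id] at h
    rw [hBK, hUK, hWK]
    exact h
  have e2 : AK * UK = 0 := by
    have h := congrArg LinearMap.toMatrix' h2
    rw [LinearMap.toMatrix'_comp, LinearMap.toMatrix'_toLin', map_zero] at h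
    rw [hUK]
    exact h
  have e3 : WK * UK = 1 := by
    have h := congrArg LinearMap.toMatrix' h3
    rw [LinearMap.toMatrix'_comp, LinearMap.toMatrix'_id] at h
    rw [hUK, hWK]
    exact h
  -- common denominator
  obtain ⟨g0, hg0⟩ := IsLocalization.exist_integer_multiples_of_finset (nonZeroDivisors R)
    ((Finset.univ : Finset (c × r)).image (fun p => BK p.1 p.2) ∪
      ((Finset.univ : Finset (c × Fin d)).image (fun p => UK p.1 p.2) ∪
        (Finset.univ : Finset (Fin d × c)).image (fun p => WK p.1 p.2)))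
  have hB : ∀ i j, ∃ x : R, algebraMap R K x = algebraMap R K g0 * BK i j := by
    intro i j
    obtain ⟨x, hx⟩ := hg0 (BK i j) (Finset.mem_union_left _ (Finset.mem_image.2 ⟨(i, j), Finset.mem_univ _, rfl⟩))
    exact ⟨x, by rw [hx, Algebra.smul_def]⟩
  have hU : ∀ i j, ∃ x : R, algebraMap R K x = algebraMap R K g0 * UK i j := by
    intro i j
    obtain ⟨x, hx⟩ := hg0 (UK i j) (Finset.mem_union_right _ (Finset.mem_union_left _
      (Finset.mem_image.2 ⟨(i, j), Finset.mem_univ _, rfl⟩)))
    exact ⟨x, by rw [hx, Algebra.smul_def]⟩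
  have hW : ∀ i j, ∃ x : R, algebraMap R K x = algebraMap R K g0 * WK i j := by
    intro i j
    obtain ⟨x, hx⟩ := hg0 (WK i j) (Finset.mem_union_right _ (Finset.mem_union_right _
      (Finset.mem_image.2 ⟨(i, j), Finset.mem_univ _, rfl⟩)))
    exact ⟨x, by rw [hx, Algebra.smul_def]⟩
  choose B' hB' using hB
  choose U' hU' using hU
  choose W' hW' using hW
  have hinj : Function.Injective (algebraMap R K) := IsFractionRing.injective R K
  have hg : (g0 : R) ≠ 0 := nonZeroDivisors.ne_zero g0.2
  refine ⟨d, (g0 : R) * g0, Matrix.of (fun i j => (g0 : R) * B' i j), Matrix.of U', Matrix.of W',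
    mul_ne_zero hg hg, ?_, ?_, ?_⟩
  · ext i j
    apply hinj
    have h := congrFun (congrFun e1 i) j
    rw [Matrix.add_apply, Matrix.mul_apply, Matrix.mul_apply] at h
    rw [Matrix.add_apply, Matrix.mul_apply, Matrix.mul_apply, Matrix.smul_apply, map_add, map_sum,
      map_sum, smul_eq_mul, map_mul]
    have h' : algebraMap R K ((1 : Matrix c c R) i j) = (1 : Matrix c c K) i j := by
      rw [Matrix.one_apply, Matrix.one_apply]
      split_ifs <;> simp
    rw [h', ← h, mul_add, Finset.mul_sum, Finset.mul_sum]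
    congr 1
    · refine Finset.sum_congr rfl fun x _ => ?_
      simp only [Matrix.of_apply, map_mul, hB', AK, Matrix.map_apply]
      ring
    · refine Finset.sum_congr rfl fun x _ => ?_
      simp only [Matrix.of_apply, map_mul, hU', hW']
      ring
  · ext i j
    apply hinj
    have h := congrFun (congrFun e2 i) j
    rw [Matrix.mul_apply, Matrix.zero_apply] at h
    rw [Matrix.mul_apply, Matrix.zero_apply, map_zero, map_sum]
    have h4 : ∑ x, algebraMap R K (A i x * Matrix.of U' x j) =
        algebraMap R K g0 * ∑ x, AK i x * UK x j := by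
      rw [Finset.mul_sum]
      refine Finset.sum_congr rfl fun x _ => ?_
      simp only [Matrix.of_apply, map_mul, hU', AK, Matrix.map_apply]
      ring
    rw [h4, h, mul_zero]
  · ext i j
    apply hinj
    have h := congrFun (congrFun e3 i) j
    rw [Matrix.mul_apply] at h
    rw [Matrix.mul_apply, Matrix.smul_apply, map_sum, smul_eq_mul, map_mul]
    have h' : algebraMap R K ((1 : Matrix (Fin d) (Fin d) R) i j) = (1 : Matrix (Fin d) (Fin d) K) i j := by
      rw [Matrix.one_apply, Matrix.one_apply]
      split_ifs <;> simp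
    rw [h', ← h, Finset.mul_sum]
    refine Finset.sum_congr rfl fun x _ => ?_
    simp only [Matrix.of_apply, map_mul, hU', hW']
    ring

/-- polynomial bases of the kernels of a polynomial family of matrices -/
theorem generic_kernel {κ r c : Type} [Fintype r] [Fintype c] [DecidableEq c] (A : Matrix r c (MvPolynomial κ ℂ)) :
    ∃ (d : ℕ) (u : Fin d → c → MvPolynomial κ ℂ) (F : MvPolynomial κ ℂ), F ≠ 0 ∧
      (∀ a i, ∑ j, A i j * u a j = 0) ∧
      ∀ p : κ → ℂ, eval p F ≠ 0 →
        LinearIndependent ℂ (fun a : Fin d => fun j : c => eval p (u a j)) ∧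
        ∀ w : c → ℂ, (∀ i, ∑ j, eval p (A i j) * w j = 0) →
          ∃ a : Fin d → ℂ, ∀ j, w j = ∑ b, a b * eval p (u b j) := by
  classical
  obtain ⟨d, g, B, U, W, hg, h1, h2, h3⟩ := ker_matrix A
  refine ⟨d, fun a j => U j a, g, hg, ?_, ?_⟩
  · intro a i
    have h := congrFun (congrFun h2 i) a
    rw [Matrix.mul_apply, Matrix.zero_apply] at h
    exact h
  · intro p hp
    have e1 : ∀ i j, ∑ x, eval p (B i x) * eval p (A x j) + ∑ x, eval p (U i x) * eval p (W x j)
        = eval p g * (1 : Matrix c c ℂ) i j := by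
      intro i j
      have h := congrArg (eval p) (congrFun (congrFun h1 i) j)
      rw [Matrix.add_apply, Matrix.mul_apply, Matrix.mul_apply, Matrix.smul_apply, map_add, map_sum,
        map_sum, smul_eq_mul, map_mul] at h
      have h' : eval p ((1 : Matrix c c (MvPolynomial κ ℂ)) i j) = (1 : Matrix c c ℂ) i j := by
        rw [Matrix.one_apply, Matrix.one_apply]
        split_ifs <;> simp
      rw [h'] at h
      simp only [map_mul] at h
      exact h
    have e3 : ∀ i j, ∑ x, eval p (W i x) * eval p (U x j) = eval p g * (1 : Matrix (Fin d) (Fin d) ℂ) i j := by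
      intro i j
      have h := congrArg (eval p) (congrFun (congrFun h3 i) j)
      rw [Matrix.mul_apply, Matrix.smul_apply, map_sum, smul_eq_mul, map_mul] at h
      have h' : eval p ((1 : Matrix (Fin d) (Fin d) (MvPolynomial κ ℂ)) i j) = (1 : Matrix (Fin d) (Fin d) ℂ) i j := by
        rw [Matrix.one_apply, Matrix.one_apply]
        split_ifs <;> simp
      rw [h'] at h
      simp only [map_mul] at h
      exact h
    constructor
    · rw [Fintype.linearIndependent_iff]
      intro s hs a
      have h4 : ∀ x, ∑ b, s b * eval p (U x b) = 0 := by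
        intro x
        have h5 := congrFun hs x
        rw [Finset.sum_apply] at h5
        simpa [Pi.smul_apply, smul_eq_mul] using h5
      have h6 : ∑ x, eval p (W a x) * ∑ b, s b * eval p (U x b) = 0 :=
        Finset.sum_eq_zero fun x _ => by rw [h4 x, mul_zero]
      have h7 : ∑ x, eval p (W a x) * ∑ b, s b * eval p (U x b)
          = ∑ b, s b * ∑ x, eval p (W a x) * eval p (U x b) := by
        simp only [Finset.mul_sum]
        rw [Finset.sum_comm]
        refine Finset.sum_congr rfl fun b _ => Finset.sum_congr rfl fun x _ => ?_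
        ring
      rw [h7] at h6
      simp only [e3, Matrix.one_apply] at h6
      simp only [mul_ite, mul_one, mul_zero, Finset.sum_ite_eq, Finset.mem_univ, if_true] at h6
      exact (mul_eq_zero.1 h6).resolve_right hp
    · intro w hw
      refine ⟨fun b => (∑ x, eval p (W b x) * w x) / eval p g, fun j => ?_⟩
      have h4 : ∑ y, (∑ x, eval p (B j x) * eval p (A x y) + ∑ x, eval p (U j x) * eval p (W x y)) * w y
          = eval p g * w j := by
        simp only [e1, Matrix.one_apply]
        simp only [mul_ite, mul_one, mul_zero, ite_mul, zero_mul, Finset.sum_ite_eq, Finset.mem_univ,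
          if_true]
      have h5 : ∑ y, (∑ x, eval p (B j x) * eval p (A x y)) * w y = 0 := by
        have h6 : ∑ y, (∑ x, eval p (B j x) * eval p (A x y)) * w y
            = ∑ x, eval p (B j x) * ∑ y, eval p (A x y) * w y := by
          simp only [Finset.mul_sum, Finset.sum_mul]
          rw [Finset.sum_comm]
          refine Finset.sum_congr rfl fun b _ => Finset.sum_congr rfl fun x _ => ?_
          ring
        rw [h6]
        exact Finset.sum_eq_zero fun x _ => by rw [hw x, mul_zero]
      have h7 : ∑ y, (∑ x, eval p (U j x) * eval p (W x y)) * w y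
          = ∑ x, eval p (U j x) * ∑ y, eval p (W x y) * w y := by
        simp only [Finset.mul_sum, Finset.sum_mul]
        rw [Finset.sum_comm]
        refine Finset.sum_congr rfl fun b _ => Finset.sum_congr rfl fun x _ => ?_
        ring
      have h8 : ∑ x, eval p (U j x) * ∑ y, eval p (W x y) * w y = eval p g * w j := by
        rw [← h4, ← h7, ← zero_add (∑ y, (∑ x, eval p (U j x) * eval p (W x y)) * w y), ← h5,
          ← Finset.sum_add_distrib]
        refine Finset.sum_congr rfl fun y _ => ?_
        rw [add_mul]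
      have h9 : ∑ b, (∑ x, eval p (W b x) * w x) / eval p g * eval p (U j b)
          = (∑ x, eval p (U j x) * ∑ y, eval p (W x y) * w y) / eval p g := by
        rw [Finset.sum_div]
        refine Finset.sum_congr rfl fun b _ => ?_
        ring
      rw [h9, h8, mul_div_cancel_left₀ _ hp]

/-- if for general `p` the kernel is non-zero then there is a non-zero polynomial kernel vector, and conversely -/
theorem generic_kernel_ne {κ r c : Type} [Fintype r] [Fintype c] [DecidableEq c] (A : Matrix r c (MvPolynomial κ ℂ))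
    (h : ∀ F : MvPolynomial κ ℂ, F ≠ 0 → ∃ p : κ → ℂ, eval p F ≠ 0 ∧
      ∃ w : c → ℂ, w ≠ 0 ∧ ∀ i, ∑ j, eval p (A i j) * w j = 0) :
    ∃ u : c → MvPolynomial κ ℂ, u ≠ 0 ∧ ∀ i, ∑ j, A i j * u j = 0 := by
  obtain ⟨d, u, F, hF, hu, hp⟩ := generic_kernel A
  obtain ⟨p, hpF, w, hw, hAw⟩ := h F hF
  obtain ⟨hli, hsp⟩ := hp p hpF
  obtain ⟨a, ha⟩ := hsp w hAw
  have hd : Nonempty (Fin d) := by
    by_contra hcon
    rw [not_nonempty_iff] at hcon
    apply hw
    funext j
    rw [ha j]
    simp
  obtain ⟨b⟩ := hd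
  refine ⟨u b, ?_, hu b⟩
  intro h0
  apply hli.ne_zero b
  funext j
  rw [h0]
  simp

end Pool.Agent.Helper50.FC
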