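import Pool.Agent.Helper50.FC.Z3a

/-! K1-18: case Y, `z = 3` (second half): `θ` is the form of three linear vector fields.
* `Y3.form`: three independent `A_l ∈ KL θ`, `v l := linF (A_l)`; `v l (p)`, `l = 0, 1, 2`, are independent for `0 ≠ p ∈ P` (`KL_inj`), so
  `mins v` has no zero on `P \ 0` (`mins_ne_zero`); `mins_prop` and primitivity of `θ` give `mins v = c θ`, degrees are equal (3), so
  `c` is a constant, `c ≠ 0`; replace `v 0` by `c⁻¹ v 0`.
* `Y3.ok`: seventh disjunct of `OKF` with `Φ = X`, `P = P0`.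
* `z3`: coordinates from `exists_flag2` and `ge_gen`; transport with `OKF_pb2_iff`, `Cone_pb2`. -/

set_option autoImplicit false

namespace Pool.Agent.Helper50.FC

open MvPolynomial
open scoped BigOperators
open Pool.Agent.Helper71.FL (w12 pf ct Dec Closed dd at0 res)
open Pool.Agent.Helper93 (lsub lmap OF pb)
open Pool.Agent.Helper71.FC
open Pool.Agent.Helper1.FG (mins alp Triv stdF ClV WH)

private theorem single_map' {S S' : Type} [CommRing S] [CommRing S'] (φ : S →+* S') {m : ℕ}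
    (j : Fin m) : (fun i => φ ((Pi.single j 1 : Fin m → S) i)) = (Pi.single j 1 : Fin m → S') := by
  funext i
  by_cases h : i = j
  · subst h
    simp
  · rw [Pi.single_eq_of_ne h, Pi.single_eq_of_ne h, map_zero]

private theorem mins_map' {S S' : Type} [CommRing S] [CommRing S'] (φ : S →+* S') {k : ℕ}
    (r : Fin k → Fin (k + 2) → S) (p : Fin (k + 2) × Fin (k + 2)) :
    mins (fun l i => φ (r l i)) p = φ (mins r p) := by
  unfold Pool.Agent.Helper1.FG.mins
  rw [← Pool.Agent.Helper1.FG.alp_map r φ, single_map' φ p.1, single_map' φ p.2]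

private theorem mins_scale {S : Type} [CommRing S] {k : ℕ} (u : Fin k → S)
    (r : Fin k → Fin (k + 2) → S) (p : Fin (k + 2) × Fin (k + 2)) :
    mins (fun l i => u l * r l i) p = (∏ l, u l) * mins r p := by
  unfold Pool.Agent.Helper1.FG.mins Pool.Agent.Helper1.FG.alp
  have h := Matrix.det_mul_column (Fin.cons 1 (Fin.cons 1 u) : Fin (k + 2) → S)
    (Matrix.of (Fin.cons (Pi.single p.1 1) (Fin.cons (Pi.single p.2 1) r) :
      Fin (k + 2) → Fin (k + 2) → S))
  rw [Fin.prod_univ_succ, Fin.prod_univ_succ] at h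
  simp only [Fin.cons_zero, Fin.cons_succ, one_mul] at h
  rw [← h]
  congr 1
  ext a b
  simp only [Matrix.of_apply]
  refine Fin.cases ?_ (fun a => ?_) a
  · simp only [Fin.cons_zero, one_mul]
  · refine Fin.cases ?_ (fun a => ?_) a
    · simp only [Fin.cons_succ, Fin.cons_zero, one_mul]
    · simp only [Fin.cons_succ]

private theorem hom_det {M : Fin 5 → Fin 5 → Pn 5} {d : Fin 5 → ℕ}
    (h : ∀ a b, (M a b).IsHomogeneous (d a)) :
    (Matrix.det (Matrix.of M)).IsHomogeneous (∑ a, d a) := by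
  rw [Matrix.det_apply]
  refine IsHomogeneous.sum _ _ _ (fun σ _ => ?_)
  have h1 : (∏ i, (Matrix.of M) (σ i) i).IsHomogeneous (∑ i, d (σ i)) :=
    IsHomogeneous.prod _ _ _ (fun i _ => h (σ i) i)
  rw [Equiv.sum_comp σ d] at h1
  rcases Int.units_eq_one_or (Equiv.Perm.sign σ) with h2 | h2
  · rw [h2, one_smul]; exact h1
  · rw [h2, Units.neg_smul, one_smul]; exact h1.neg

private theorem hom_mins {v : Fin 3 → Fin 5 → Pn 5} (hv : ∀ l i, (v l i).IsHomogeneous 1)
    (p : Fin 5 × Fin 5) : (mins (k := 3) v p).IsHomogeneous 3 := by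
  have h := hom_det (M := (Fin.cons (Pi.single p.1 1) (Fin.cons (Pi.single p.2 1) v) :
    Fin 5 → Fin 5 → Pn 5)) (d := ![0, 0, 1, 1, 1]) (by
    have hs : ∀ j b : Fin 5, ((Pi.single j 1 : Fin 5 → Pn 5) b).IsHomogeneous 0 := by
      intro j b
      by_cases hb : b = j
      · subst hb
        rw [Pi.single_eq_same]
        exact isHomogeneous_one _ _
      · rw [Pi.single_eq_of_ne hb]
        exact isHomogeneous_zero _ _ _
    intro a b
    refine Fin.cases ?_ (fun a => ?_) a
    · exact hs _ _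
    · refine Fin.cases ?_ (fun a => ?_) a
      · exact hs _ _
      · have h1 : (![0, 0, 1, 1, 1] : Fin 5 → ℕ) a.succ.succ = 1 := by
          fin_cases a <;> rfl
        rw [h1]
        exact hv a b)
  exact h

private theorem prim_div' {n : ℕ} {θ : F2 n} (hp : ∀ p, (∀ i j, p ∣ θ i j) → IsUnit p) {A : F2 n}
    (h : ∀ i j k l, A i j * θ k l = A k l * θ i j) : ∃ f : Pn n, ∀ i j, A i j = f * θ i j := by
  classical
  obtain ⟨k, l, hkl⟩ : ∃ k l, θ k l ≠ 0 := by
    by_contra hcon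
    push Not at hcon
    have := hp 0 (fun i j => by rw [hcon])
    exact not_isUnit_zero this
  obtain ⟨inst⟩ : Nonempty (NormalizedGCDMonoid (Pn n)) := inferInstance
  have h1 : θ k l ∣ A k l := by
    have h2 : θ k l ∣ (Finset.univ : Finset (Fin n × Fin n)).gcd (fun q => A k l * θ q.1 q.2) := by
      apply Finset.dvd_gcd
      rintro ⟨i, j⟩ _
      show θ k l ∣ A k l * θ i j
      rw [← h i j k l]
      exact dvd_mul_left _ _
    have h4 := h2.trans (Finset.gcd_mul_left' (Finset.univ : Finset (Fin n × Fin n))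
      (fun q : Fin n × Fin n => θ q.1 q.2) (A k l)).dvd
    have h3 : IsUnit ((Finset.univ : Finset (Fin n × Fin n)).gcd (fun q => θ q.1 q.2)) :=
      hp _ (fun i j => Finset.gcd_dvd (f := fun q : Fin n × Fin n => θ q.1 q.2)
        (Finset.mem_univ (i, j)))
    exact (IsUnit.dvd_mul_right h3).1 h4
  obtain ⟨f, hf⟩ := h1
  refine ⟨f, fun i j => ?_⟩
  apply mul_right_cancel₀ hkl
  rw [h i j k l, hf]
  ring

private theorem eval_linF (A : Fin 5 → Fin 5 → ℂ) (i : Fin 5) (p : Fin 5 → ℂ) :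
    eval p (linF A i) = ∑ j, A i j * p j := by
  unfold linF
  rw [map_sum]
  refine Finset.sum_congr rfl fun j _ => ?_
  rw [map_mul, eval_C, eval_X]

private theorem indep {θ : F2 5} (h : Y3 θ) {A : Fin 3 → Fin 5 → Fin 5 → ℂ}
    (hA : ∀ l, A l ∈ KL θ) (hi : LinearIndependent ℂ A) {p : Fin 5 → ℂ} (hp : p ≠ 0)
    (h0 : p 0 = 0) (h1 : p 1 = 0) :
    LinearIndependent ℂ (fun (l : Fin 3) (i : Fin 5) => ∑ j, A l i j * p j) := by
  rw [Fintype.linearIndependent_iff] at hi ⊢
  intro g hg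
  refine hi g ?_
  have h2 : (∑ l, g l • A l) ∈ KL θ :=
    Submodule.sum_mem _ fun l _ => Submodule.smul_mem _ _ (hA l)
  refine h.KL_inj h2 hp h0 h1 fun i => ?_
  have h3 := congrFun hg i
  simp only [Finset.sum_apply, Pi.smul_apply, smul_eq_mul, Pi.zero_apply] at h3 ⊢
  rw [← h3]
  simp only [Finset.sum_mul, Finset.mul_sum]
  rw [Finset.sum_comm]
  refine Finset.sum_congr rfl fun l _ => Finset.sum_congr rfl fun j _ => ?_
  ring

private theorem mins_eval_ne {θ : F2 5} (h : Y3 θ) {A : Fin 3 → Fin 5 → Fin 5 → ℂ}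
    (hA : ∀ l, A l ∈ KL θ) (hi : LinearIndependent ℂ A) {p : Fin 5 → ℂ} (hp : p ≠ 0)
    (h0 : p 0 = 0) (h1 : p 1 = 0) :
    ∃ q, eval p (mins (k := 3) (fun l => linF (A l)) q) ≠ 0 := by
  obtain ⟨q, hq⟩ := mins_ne_zero (indep h hA hi hp h0 h1)
  refine ⟨q, ?_⟩
  rw [← mins_map' (eval p) (fun l => linF (A l)) q]
  simp only [eval_linF]
  exact hq

private theorem eval_P0 (x : Fin 3 → ℂ) (f : Pn 5) :
    eval x (aeval P0 f) = eval (![0, 0, x 0, x 1, x 2] : Fin 5 → ℂ) f := by
  have h1 : ((aeval x : MvPolynomial (Fin 3) ℂ →ₐ[ℂ] ℂ).comp (aeval P0) : Pn 5 →ₐ[ℂ] ℂ) =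
      aeval (![0, 0, x 0, x 1, x 2] : Fin 5 → ℂ) := by
    apply MvPolynomial.algHom_ext
    intro i
    rw [AlgHom.comp_apply, aeval_X, aeval_X]
    unfold P0
    fin_cases i <;> simp
  have h2 := congrArg (fun g : Pn 5 →ₐ[ℂ] ℂ => g f) h1
  simp only [AlgHom.comp_apply] at h2
  rw [MvPolynomial.aeval_eq_eval] at h2
  exact h2

theorem Y3.form {θ : F2 5} (h : Y3 θ) :
    ∃ v : Fin 3 → Fin 5 → Pn 5, (∀ l i, (v l i).IsHomogeneous 1) ∧
      (∀ i j, θ i j = mins (k := 3) v (i, j)) ∧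
      Triv (mins (k := 3) (fun l i => aeval P0 (v l i))) := by
  obtain ⟨B, hB⟩ := exists_linearIndependent_of_le_finrank h.KL_three
  set A : Fin 3 → Fin 5 → Fin 5 → ℂ := fun l => (B l : Fin 5 → Fin 5 → ℂ) with hAdef
  have hA : ∀ l, A l ∈ KL θ := fun l => (B l).2
  have hi : LinearIndependent ℂ A :=
    hB.map' (KL θ).subtype (Submodule.ker_subtype _)
  have hlin : ∀ l i, (linF (A l) i).IsHomogeneous 1 := by
    intro l i
    unfold linF
    refine IsHomogeneous.sum _ _ _ (fun j _ => ?_)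
    have := (isHomogeneous_C (Fin 5) (A l i j)).mul (isHomogeneous_X ℂ j)
    rwa [zero_add] at this
  have hmin := hom_mins (v := fun l => linF (A l)) hlin
  have hprop := mins_prop (Θ := θ) h.fol.dec.2.1 h.fol.dec.1 (v := fun l => linF (A l)) hA
  obtain ⟨c, hc⟩ := prim_div' h.fol.prim (A := fun i j => mins (k := 3) (fun l => linF (A l)) (i, j))
    (fun i j k l => by
      have := hprop i j k l
      linear_combination -this)
  obtain ⟨⟨a, b⟩, hab⟩ := mins_eval_ne h hA hi (p := Pi.single 2 1) (by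
    intro h0
    have := congrFun h0 2
    rw [Pi.single_eq_same] at this
    exact one_ne_zero this) rfl rfl
  have hab' : mins (k := 3) (fun l => linF (A l)) (a, b) ≠ 0 := by
    intro h0
    rw [h0, map_zero] at hab
    exact hab rfl
  have hab2 : mins (k := 3) (fun l => linF (A l)) (a, b) = c * θ a b := hc a b
  have hc0 : c ≠ 0 := by
    intro h0
    rw [h0, zero_mul] at hab2
    exact hab' hab2
  have hθ0 : θ a b ≠ 0 := by
    intro h0
    rw [h0, mul_zero] at hab2
    exact hab' hab2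
  have hdeg : c.totalDegree = 0 := by
    have h1 := totalDegree_mul_of_isDomain hc0 hθ0
    rw [← hab2, (hmin (a, b)).totalDegree hab', (h.fol.hom a b).totalDegree hθ0] at h1
    omega
  rw [totalDegree_eq_zero_iff_eq_C] at hdeg
  set c0 : ℂ := coeff 0 c with hc0def
  have hc00 : c0 ≠ 0 := by
    intro h0
    rw [h0, C_0] at hdeg
    exact hc0 hdeg
  set u : Fin 3 → ℂ := ![c0⁻¹, 1, 1] with hu
  have hpu : ∏ l, u l = c0⁻¹ := by
    rw [Fin.prod_univ_three, hu]
    simp
  refine ⟨fun l i => C (u l) * linF (A l) i, fun l i => ?_, fun i j => ?_, ?_⟩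
  · have := (isHomogeneous_C (Fin 5) (u l)).mul (hlin l i)
    rwa [zero_add] at this
  · rw [mins_scale (fun l => C (u l)) (fun l => linF (A l)), ← map_prod, hpu]
    have h1 : mins (k := 3) (fun l => linF (A l)) (i, j) = c * θ i j := hc i j
    rw [h1, hdeg, ← mul_assoc, ← C_mul, inv_mul_cancel₀ hc00, C_1, one_mul]
  · intro x hx
    by_contra hx0
    have hp : (![0, 0, x 0, x 1, x 2] : Fin 5 → ℂ) ≠ 0 := by
      intro h0
      apply hx0
      funext i
      fin_cases i
      · exact congrFun h0 2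
      · exact congrFun h0 3
      · exact congrFun h0 4
    obtain ⟨q, hq⟩ := mins_eval_ne h hA hi hp rfl rfl
    apply hq
    have h1 := hx q
    rw [← mins_map' (eval x)] at h1
    simp only [eval_P0] at h1
    rw [mins_map' (eval (![0, 0, x 0, x 1, x 2] : Fin 5 → ℂ))
      (fun l i => C (u l) * linF (A l) i), mins_scale (fun l => C (u l)) (fun l => linF (A l)),
      ← map_prod, hpu, map_mul, eval_C] at h1
    rcases mul_eq_zero.1 h1 with h2 | h2
    · exact absurd h2 (inv_ne_zero hc00)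
    · exact h2

theorem Y3.ok {θ : F2 5} (h : Y3 θ) : OKF θ := by
  obtain ⟨v, hv, hθ, hT⟩ := h.form
  refine Or.inr (Or.inr (Or.inr (Or.inr (Or.inr (Or.inr (Or.inl ⟨rfl, X, v, ⟨?_, ?_⟩, ?_, ?_,
    P0, ?_, hT⟩))))))
  · intro i
    exact isHomogeneous_X ℂ i
  · intro l i
    exact hv l i
  · intro i j k
    simp only [← hθ]
    exact h.fol.closed i j k
  · funext a b
    rw [hθ a b]
    unfold Pool.Agent.Helper1.FG.stdF Pool.Agent.Helper1.FG.mins
    have h1 : ∀ a : Fin 5, (fun i => pderiv a (X i : Pn 5)) = Pi.single a 1 := by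
      intro a
      funext i
      by_cases hi : i = a
      · subst hi
        rw [pderiv_X_self, Pi.single_eq_same]
      · rw [pderiv_X_of_ne hi, Pi.single_eq_of_ne hi]
    simp only [h1, aeval_X_left, AlgHom.id_apply]
  · intro i
    unfold P0
    fin_cases i
    · exact isHomogeneous_zero _ _ _
    · exact isHomogeneous_zero _ _ _
    · exact isHomogeneous_X ℂ _
    · exact isHomogeneous_X ℂ _
    · exact isHomogeneous_X ℂ _

theorem z3 {θ : F2 5} (h : Fol θ) (hc : ¬ Cone θ) (h2 : ge θ 3 2 = 0) : OKF θ := by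
  have htr : GenM (fun _ : Fin 5 → Fin 5 → ℂ => True) := (GenM.inv 5).mono fun _ _ => trivial
  have htr2 : GenM (fun _ : Fin 5 → Fin 4 → ℂ => True) :=
    (ge_gen θ 4 0).mono fun _ _ => trivial
  obtain ⟨g, g', hg, -, -, hr, hF, -, hF2, -, hF3⟩ := exists_flag2 (n := 3) le_rfl h htr htr2
    (ge_gen θ 3 2)
  rw [h2] at hr
  refine (OKF_pb2_iff θ hg).1 (Y3.ok ⟨hF, hF2, hF3, ?_, ?_⟩)
  · have h3 : rs2 (rs2 (pb2 g θ)) = pb2 (fun i (j : Fin 3) => g i j.succ.succ) θ := by
      rw [rs2_pb2, rs2_eq_pb2, pb2_mm]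
      congr 1
      funext i j
      show ∑ l : Fin 4, g i l.succ * (if l = j.succ then (1 : ℂ) else 0) = _
      simp
    rw [h3]
    have := finite_EE (pb2 (fun i (j : Fin 3) => g i j.succ.succ) θ) 2
    exact Submodule.finrank_eq_zero.1 hr
  · rw [Cone_pb2 θ hg]
    exact hc

end Pool.Agent.Helper50.FC
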