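import Pool.Agent.Helper50.FC.Glue
import Pool.Agent.Helper50.FC.GenEV
import Pool.Agent.Helper50.FC.Z3
import Pool.Agent.Helper71.FC.CaseY

/-! K1-23: no sections of degree 0 and 1 on general planes, and the interface statements `IYgl`, `IY3`.
* `gl0`: otherwise `1 ≤ ge θ 3 0`, so `EV θ φ 0 ≠ ⊥` for general `φ` (`ge_gen`, `Fol_gen`, `finrank_EV`), `Cop2_gen` and `line0`: `glue0`.
* `line_bot`: `ξ ≠ 0` in `EV θ φ 1` on a plane with `EV θ φ 0 = ⊥`: the linear forms `ξ i` on `ℂ³` are not all proportional (else `ξ = l * ρ`, `EV_div`), so for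
  general `ψ : Fin 3 → Fin 2 → ℂ` two of the `lsub ψ (ξ i)` are not proportional; if moreover `Cop2 (mm φ ψ) θ` then `EV θ (mm φ ψ) 0 = ⊥`
  by `line_rank`.
* `gl1`: otherwise `EV θ φ 1 ≠ ⊥` for general planes, `EV θ φ 0 = ⊥` for general planes (`gl0`), `line_bot` (existence of one line, `GenM.comp` for
  `Cop2`), `EV_bot_gen`, `line1`: `glue1`.
* `IY3_holds`: `z3`; `ge θ 3 3 ≤ 5` from `H3` on a general plane (`ge_gen`, `Fol_gen`). -/

set_option autoImplicit false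

namespace Pool.Agent.Helper50.FC

open MvPolynomial
open scoped BigOperators
open Pool.Agent.Helper71.FL (w12 pf ct Dec Closed dd at0 res)
open Pool.Agent.Helper93 (lsub lmap OF pb)
open Pool.Agent.Helper71.FC

variable {n m k : ℕ}

private theorem gl_ne {θ : F2 n} (hn : 3 ≤ n) (h : Fol θ) {d : ℕ} (hd : ge θ 3 d ≠ 0) :
    GenM (fun φ : Fin n → Fin 3 → ℂ => EV θ φ d ≠ ⊥) := by
  refine ((ge_gen θ 3 d).and (Fol_gen (m := 3) le_rfl hn h)).mono ?_
  rintro φ ⟨h1, h2⟩ h3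
  have h4 := finrank_EV h.hom h.dec h2.prim2 d
  rw [h3, finrank_bot, h1] at h4
  exact hd h4.symm

private theorem gl_bot {θ : F2 n} (hn : 3 ≤ n) (h : Fol θ) {d : ℕ} (hd : ge θ 3 d = 0) :
    GenM (fun φ : Fin n → Fin 3 → ℂ => EV θ φ d = ⊥) := by
  refine ((ge_gen θ 3 d).and (Fol_gen (m := 3) le_rfl hn h)).mono ?_
  rintro φ ⟨h1, h2⟩
  have h4 := finrank_EV h.hom h.dec h2.prim2 d
  rw [h1, hd] at h4
  have := finite_EV θ φ d
  exact (Submodule.finrank_eq_zero (R := ℂ)).mp h4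

theorem gl0 (hn : 3 ≤ n) {θ : F2 n} (h : Fol θ) (h0 : EE θ 0 = ⊥) : ge θ 3 0 = 0 := by
  by_contra hcon
  refine glue0 hn (gl_ne hn h hcon) ?_ h0
  refine (Cop2_gen h.hom h.prim2 (m := 2) le_rfl (by omega)).mono ?_
  intro φ hφ ξ hξ ξ' hξ' hne
  exact line0 h.hom h.dec (by norm_num) hφ hξ hξ' hne

theorem line_bot {θ : F2 n} (hθ : ∀ i j, (θ i j).IsHomogeneous 3) (hdec : Dec θ)
    {φ : Fin n → Fin 3 → ℂ} (h0 : EV θ φ 0 = ⊥) (h1 : EV θ φ 1 ≠ ⊥)
    (hc : GenM (fun ψ : Fin 3 → Fin 2 → ℂ => Cop2 (mm φ ψ) θ)) :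
    GenM (fun ψ : Fin 3 → Fin 2 → ℂ => EV θ (mm φ ψ) 0 = ⊥) := by
  obtain ⟨ξ, hξ, hξ0⟩ := (Submodule.ne_bot_iff _).mp h1
  -- two of the linear forms are not proportional
  have hnp : ∃ (i j : Fin n) (x y : Fin 3 → ℂ),
      eval x (ξ i) * eval y (ξ j) - eval y (ξ i) * eval x (ξ j) ≠ 0 := by
    by_contra hcon
    push Not at hcon
    obtain ⟨i0, hi0⟩ : ∃ i, ξ i ≠ 0 := by
      by_contra hc2
      push Not at hc2
      exact hξ0 (funext hc2)
    obtain ⟨y0, hy0⟩ : ∃ y, eval y (ξ i0) ≠ 0 := by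
      by_contra hc2
      push Not at hc2
      apply hi0
      apply MvPolynomial.funext
      intro y
      rw [hc2, map_zero]
    let ρ : Fin n → Pn 3 := fun j => C (eval y0 (ξ j) / eval y0 (ξ i0))
    have hρ : ∀ j, ξ j = ξ i0 * ρ j := by
      intro j
      apply MvPolynomial.funext
      intro x
      show eval x (ξ j) = eval x (ξ i0 * C (eval y0 (ξ j) / eval y0 (ξ i0)))
      rw [map_mul, eval_C]
      have := hcon i0 j x y0
      field_simp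
      linear_combination -this
    have h2 : ρ ∈ EV θ φ 0 := EV_div (hξ.1 i0) hi0 hξ hρ
    rw [h0, Submodule.mem_bot] at h2
    apply hi0
    rw [hρ i0, h2]
    simp
  obtain ⟨i, j, x, y, hxy⟩ := hnp
  let P : MvPolynomial (Fin 3 × Fin 2) ℂ :=
    rename (fun k => (k, 0)) (ξ i) * rename (fun k => (k, 1)) (ξ j) -
      rename (fun k => (k, 1)) (ξ i) * rename (fun k => (k, 0)) (ξ j)
  have hPe : ∀ ψ : Fin 3 → Fin 2 → ℂ, eval (fun q => ψ q.1 q.2) P =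
      eval (fun k => ψ k 0) (ξ i) * eval (fun k => ψ k 1) (ξ j) -
        eval (fun k => ψ k 1) (ξ i) * eval (fun k => ψ k 0) (ξ j) := by
    intro ψ
    simp only [P, map_sub, map_mul, eval_rename]
    rfl
  have hP0 : P ≠ 0 := by
    intro hP
    have h2 := hPe (fun k l => if l = 0 then x k else y k)
    rw [hP, map_zero] at h2
    apply hxy
    rw [h2]
    simp
  have hgen : GenM (fun ψ : Fin 3 → Fin 2 → ℂ => eval (fun q => ψ q.1 q.2) P ≠ 0) :=
    ⟨P, hP0, fun ψ hψ => hψ⟩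
  refine (hc.and hgen).mono ?_
  rintro ψ ⟨hcop, hne⟩
  by_contra hcon
  obtain ⟨ρ, hρ, hρ0⟩ := (Submodule.ne_bot_iff _).mp hcon
  obtain ⟨l, _, hl⟩ := line_rank hθ hdec (by norm_num) hcop hρ hρ0 (rsV_mem hξ ψ)
  apply hne
  rw [hPe]
  have hconst : ∀ k, ρ k = C (coeff 0 (ρ k)) := by
    intro k
    have h2 := homogeneousComponent_eq_self (hρ.1 k)
    rw [homogeneousComponent_zero] at h2
    exact h2.symm
  have hcol : ∀ (k : Fin n) (q : Fin 2), eval (fun p => ψ p q) (ξ k) =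
      eval (fun p => if p = q then (1 : ℂ) else 0) l * coeff 0 (ρ k) := by
    intro k q
    have h2 := congrArg (eval (fun p => if p = q then (1 : ℂ) else 0)) (hl k)
    have h3 : rsV ψ ξ k = lsub ψ (ξ k) := rfl
    rw [h3, Pool.Agent.Helper93.eval_lsub, map_mul, hconst k, eval_C] at h2
    rw [← h2]
    congr 1
    have h4 : lmap ψ (fun p => if p = q then (1 : ℂ) else 0) = fun p => ψ p q := by
      funext p
      show ∑ l, ψ p l * (if l = q then (1 : ℂ) else 0) = ψ p q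
      simp
    rw [h4]
  rw [hcol, hcol, hcol, hcol]
  ring

theorem gl1 (hn : 3 ≤ n) {θ : F2 n} (h : Fol θ) (h0 : EE θ 0 = ⊥) (h1 : EE θ 1 = ⊥) :
    ge θ 3 1 = 0 := by
  by_contra hcon
  have a1 := gl_ne hn h hcon
  have a2 := gl_bot hn h (gl0 hn h h0)
  have a3 : GenM (fun φ : Fin n → Fin 2 → ℂ => Cop2 φ θ) :=
    Cop2_gen h.hom h.prim2 (m := 2) le_rfl (by omega)
  have a4 := a3.comp (k := 3) (by norm_num) hn
  obtain ⟨φ, ⟨b1, b2⟩, b3⟩ := ((a1.and a2).and a4).exists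
  obtain ⟨ψ, hψ⟩ := (line_bot h.hom h.dec b2 b1 b3).exists
  have a5 : GenM (fun φ : Fin n → Fin 2 → ℂ => EV θ φ 0 = ⊥) := EV_bot_gen hψ
  refine glue1 hn a1 a5 ?_ h1
  refine (a3.and a5).mono ?_
  rintro φ ⟨c1, c2⟩ ξ hξ ξ' hξ' hne
  exact line1 h.hom h.dec (by norm_num) c1 c2 hξ hξ' hne

theorem IYgl_holds : IYgl := fun _ hn _ h _ h0 h1 =>
  ⟨gl0 (by omega) h h0, gl1 (by omega) h h0 h1⟩

theorem IY3_holds : IY3 := by
  intro θ h _ _ g2
  refine ⟨z3 h.fol h.nc g2, ?_⟩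
  obtain ⟨φ, ⟨h1, h2⟩, h3⟩ := (((ge_gen θ 3 3).and (ge_gen θ 3 2)).and
    (Fol_gen (m := 3) le_rfl (by norm_num) h.fol)).exists
  have := finite_EE (pb2 φ θ) 2
  rw [g2] at h2
  have h4 : EE (pb2 φ θ) 2 = ⊥ := (Submodule.finrank_eq_zero (R := ℂ)).mp h2
  rw [← h1]
  exact H3 h3 h4

end Pool.Agent.Helper50.FC
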