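import Pool.Agent.Helper71.FC.GenP

/-! K1-21: pointwise gluing of linear sections from general planes to the whole space (no differential forms here).
`E x` is a space of covectors attached to `x ∈ ℂ^n`, arbitrary.  A section on the subspace with parametrisation `φ : Fin n → Fin m → ℂ` is
a family `A : Fin m → (Fin n → ℂ)` with `∑ t_a A_a ∈ E (φ t)` for all `t`.
PROOF.  `F(φ) ≠ 0` (good planes), `G(ψ) ≠ 0` (good lines, product of the polynomials of `hL0`, `hL`).  For `y_0, .., y_(n-1) ∈ ℂ^n` and `c ∈ ℂ^n` put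
`S_j = ∑_{1 ≤ i ≤ j} c_i y_i` (`j ≥ 1`).  The product over `j ≥ 2` of `F(y_0, S_(j-1), y_j) G(y_0, S_j) G(y_0, y_j)`, times
`G(y_0, S_1) G(y_0, y_1)`, times `det y`, is a non zero polynomial in `(y, c)` (put `c_i = δ_(i, j-1)` in the single factors); fix `y` such that it
is a non zero polynomial in `c` (first step; then replace `E x` by `E (y x)`: we may think of `y_j = e_j`).
CLAIM (induction on `j ≥ 1`): there are `A_0 ≠ 0, A_1, .., A_j` such that `s A_0 + t ∑_{1 ≤ i ≤ j} c_i A_i ∈ E (s y_0 + t S_j)` for all `s, t` and general `c`,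
and `s A_0 + t A_i ∈ E (s y_0 + t y_i)` for all `s, t`, `1 ≤ i ≤ j`.
FACT (a): a non zero section `(A, B)` on a good line `<y_0, z>` has `A ≠ 0` (else it is `t B`: `hL0`).  FACT (b): a section `(A, B, D) ≠ 0` on a plane
`<y_0, z, w>` with `<y_0, z>`, `<y_0, w>` good has `A ≠ 0` (if `A = 0` the restrictions to both lines are zero by (a), so `B = D = 0`).
`j = 1`: a section on the plane `<y_0, S_1, y_2>` restricted to `<y_0, S_1> = <y_0, y_1>`; for the other `c` the line is the same (`c_1 ≠ 0`).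
Step: fix one general `c*`; a section of the plane `<y_0, S_(j-1)(c*), y_j>` has `A ≠ 0` by (b), its restriction to `<y_0, S_(j-1)(c*)>` is a multiple of the
section of the claim (`hL`), so it may be normalised to `A = A_0`; define `A_j` as its value at `y_j`.  For any other general `c` the section on
`<y_0, S_(j-1)(c), y_j>`, normalised by `y_0 ↦ A_0`, has value `∑_{i < j} c_i A_i` at `S_(j-1)(c)` (claim and `hL` on `<y_0, S_(j-1)>`) and value `A_j` at
`y_j` (`hL` on `<y_0, y_j>`, both sections have the value `A_0 ≠ 0` at `y_0`), so its value at `s y_0 + t (S_(j-1) + c_j y_j)` is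
`s A_0 + t ∑_{i ≤ j} c_i A_i`.  For `j = n - 1`: `∑ x_i A_i ∈ E x` for general `x` (`s = x_0`, `t = 1`). -/

set_option autoImplicit false

namespace Pool.Agent.Helper50.FC

open MvPolynomial
open scoped BigOperators
open Pool.Agent.Helper93 (lsub lmap OF pb)
open Pool.Agent.Helper71.FC

variable {n : ℕ}

/-! ### general parameters -/

private theorem gp_exists_eval_ne {ι : Type} {F : MvPolynomial ι ℂ} (hF : F ≠ 0) :
    ∃ x, eval x F ≠ 0 := by
  by_contra hc
  refine hF (MvPolynomial.funext fun x => ?_)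
  by_contra hx
  rw [map_zero] at hx
  exact hc ⟨x, hx⟩

private theorem gp_genM_iff {n m : ℕ} {p : (Fin n → Fin m → ℂ) → Prop} :
    GenM p ↔ Gen (fun x : Fin n × Fin m → ℂ => p (fun i j => x (i, j))) := by
  constructor
  · rintro ⟨F, hF, h⟩
    exact ⟨F, hF, fun x hx => h (fun i j => x (i, j)) hx⟩
  · rintro ⟨F, hF, h⟩
    exact ⟨F, hF, fun φ hφ => h (fun q => φ q.1 q.2) hφ⟩

private theorem gp_eval_bind {ι κ : Type} (t : ι → MvPolynomial κ ℂ) (x : κ → ℂ)
    (F : MvPolynomial ι ℂ) : eval x (bind₁ t F) = eval (fun i => eval x (t i)) F := by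
  induction F using MvPolynomial.induction_on with
  | C c => simp
  | add p q hp hq => rw [map_add, map_add, map_add, hp, hq]
  | mul_X p i hp => rw [map_mul, map_mul, map_mul, hp, bind₁_X_right, eval_X]

private theorem gp_comap {ι κ : Type} {p : (ι → ℂ) → Prop} (hp : Gen p)
    (t : ι → MvPolynomial κ ℂ) (hs : ∀ y : ι → ℂ, ∃ x : κ → ℂ, ∀ i, eval x (t i) = y i) :
    Gen (fun x : κ → ℂ => p (fun i => eval x (t i))) := by
  obtain ⟨F, hF, h⟩ := hp
  refine ⟨bind₁ t F, ?_, fun x hx => h _ ?_⟩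
  · obtain ⟨y, hy⟩ := gp_exists_eval_ne hF
    obtain ⟨x, hx⟩ := hs y
    intro h0
    have h1 := gp_eval_bind t x F
    rw [h0, map_zero] at h1
    have h2 : (fun i => eval x (t i)) = y := _root_.funext hx
    rw [h2] at h1
    exact hy h1.symm
  · rw [gp_eval_bind] at hx
    exact hx

/-! ### sections on lines and planes -/

private def gp_Sec2 (E : (Fin n → ℂ) → Submodule ℂ (Fin n → ℂ)) (v w A B : Fin n → ℂ) : Prop :=
  ∀ s t : ℂ, s • A + t • B ∈ E (s • v + t • w)

private def gp_Sec3 (E : (Fin n → ℂ) → Submodule ℂ (Fin n → ℂ)) (u v w A B D : Fin n → ℂ) : Prop :=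
  ∀ r s t : ℂ, r • A + s • B + t • D ∈ E (r • u + s • v + t • w)

private def gp_Plane (E : (Fin n → ℂ) → Submodule ℂ (Fin n → ℂ)) (u v w : Fin n → ℂ) : Prop :=
  ∃ A B D : Fin n → ℂ, ¬ (A = 0 ∧ B = 0 ∧ D = 0) ∧ gp_Sec3 E u v w A B D

private def gp_Line (E : (Fin n → ℂ) → Submodule ℂ (Fin n → ℂ)) (v w : Fin n → ℂ) : Prop :=
  (∀ B, gp_Sec2 E v w 0 B → B = 0) ∧
  ∀ A B A' B', ¬ (A = 0 ∧ B = 0) → gp_Sec2 E v w A B → gp_Sec2 E v w A' B' →
    ∃ k : ℂ, A' = k • A ∧ B' = k • B

section sec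
variable {E : (Fin n → ℂ) → Submodule ℂ (Fin n → ℂ)} {u v w A B D : Fin n → ℂ}

private theorem gp_left (h : gp_Sec3 E u v w A B D) : gp_Sec2 E u v A B := by
  intro s t
  have := h s t 0
  simpa using this

private theorem gp_right (h : gp_Sec3 E u v w A B D) : gp_Sec2 E u w A D := by
  intro s t
  have := h s 0 t
  simpa using this

private theorem gp_ne (h : gp_Sec3 E u v w A B D) (h0 : ¬ (A = 0 ∧ B = 0 ∧ D = 0))
    (h1 : gp_Line E u v) (h2 : gp_Line E u w) : A ≠ 0 := by
  intro hA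
  subst hA
  exact h0 ⟨rfl, h1.1 _ (gp_left h), h2.1 _ (gp_right h)⟩

private theorem gp_step (h : gp_Plane E u v w) (h1 : gp_Line E u v) (h2 : gp_Line E u w)
    (hA : A ≠ 0) (hs : gp_Sec2 E u v A B) : ∃ D, gp_Sec3 E u v w A B D := by
  obtain ⟨A', B', D', h0, hs'⟩ := h
  have hA' := gp_ne hs' h0 h1 h2
  obtain ⟨k, hk, hk'⟩ := h1.2 A B A' B' (fun h => hA h.1) hs (gp_left hs')
  have hk0 : k ≠ 0 := by
    rintro rfl
    rw [zero_smul] at hk
    exact hA' hk
  refine ⟨k⁻¹ • D', fun r s t => ?_⟩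
  have h3 := Submodule.smul_mem _ k⁻¹ (hs' r s t)
  rw [hk, hk', smul_add, smul_add, smul_comm k⁻¹ r, smul_comm k⁻¹ s, smul_comm k⁻¹ t,
    inv_smul_smul₀ hk0, inv_smul_smul₀ hk0] at h3
  exact h3

end sec

/-- parameters: vectors `y_i` and coefficients `c_i` -/
private abbrev gp_K (n : ℕ) : Type := (ℕ × Fin n) ⊕ ℕ

private def gp_y (q : gp_K n → ℂ) (i : ℕ) : Fin n → ℂ := fun k => q (Sum.inl (i, k))

private def gp_c (q : gp_K n → ℂ) (i : ℕ) : ℂ := q (Sum.inr i)

private def gp_S (y : ℕ → Fin n → ℂ) (c : ℕ → ℂ) (j : ℕ) : Fin n → ℂ :=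
  ∑ i ∈ Finset.range j, c (i + 1) • y (i + 1)

private noncomputable def gp_yP (n : ℕ) (i : ℕ) (k : Fin n) : MvPolynomial (gp_K n) ℂ :=
  X (Sum.inl (i, k))

private noncomputable def gp_SP (n : ℕ) (j : ℕ) (k : Fin n) : MvPolynomial (gp_K n) ℂ :=
  ∑ i ∈ Finset.range j, X (Sum.inr (i + 1)) * X (Sum.inl (i + 1, k))

private theorem gp_eval_y (q : gp_K n → ℂ) (i : ℕ) (k : Fin n) :
    eval q (gp_yP n i k) = gp_y q i k := by
  unfold gp_yP gp_y
  rw [eval_X]

private theorem gp_eval_S (q : gp_K n → ℂ) (j : ℕ) (k : Fin n) :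
    eval q (gp_SP n j k) = gp_S (gp_y q) (gp_c q) j k := by
  unfold gp_SP gp_S gp_y gp_c
  rw [map_sum, Finset.sum_apply]
  refine Finset.sum_congr rfl fun i _ => ?_
  rw [map_mul, eval_X, eval_X, Pi.smul_apply, smul_eq_mul]

/-- test points -/
private def gp_pt (a b d : Fin n → ℂ) (j : ℕ) : gp_K n → ℂ :=
  Sum.elim (fun r => if r.1 = 0 then a r.2 else if r.1 = j + 1 then b r.2 else
    if r.1 = j + 2 then d r.2 else 0) (fun i => if i = j + 1 then 1 else 0)

private theorem gp_pt0 (a b d : Fin n → ℂ) (j : ℕ) : gp_y (gp_pt a b d j) 0 = a := by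
  funext k
  simp [gp_y, gp_pt]

private theorem gp_pt1 (a b d : Fin n → ℂ) (j : ℕ) : gp_y (gp_pt a b d j) (j + 1) = b := by
  funext k
  simp [gp_y, gp_pt]

private theorem gp_pt2 (a b d : Fin n → ℂ) (j : ℕ) : gp_y (gp_pt a b d j) (j + 2) = d := by
  funext k
  simp [gp_y, gp_pt]

private theorem gp_ptS (a b d : Fin n → ℂ) (j : ℕ) :
    gp_S (gp_y (gp_pt a b d j)) (gp_c (gp_pt a b d j)) (j + 1) = b := by
  unfold gp_S
  rw [Finset.sum_eq_single_of_mem j (Finset.mem_range.2 (Nat.lt_succ_self j))]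
  · rw [gp_pt1]
    simp [gp_c, gp_pt]
  · intro i _ hi
    have : gp_c (gp_pt a b d j) (i + 1) = 0 := by
      simp [gp_c, gp_pt, hi]
    rw [this, zero_smul]

private theorem gp_gen3 {E : (Fin n → ℂ) → Submodule ℂ (Fin n → ℂ)}
    (hG : GenM (fun φ : Fin n → Fin 3 → ℂ => ∃ A : Fin 3 → Fin n → ℂ, A ≠ 0 ∧
      ∀ t : Fin 3 → ℂ, (∑ a, t a • A a) ∈ E (lmap φ t)))
    (P Q R : Fin n → MvPolynomial (gp_K n) ℂ)
    (hs : ∀ a b d : Fin n → ℂ, ∃ q : gp_K n → ℂ, (fun k => eval q (P k)) = a ∧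
      (fun k => eval q (Q k)) = b ∧ (fun k => eval q (R k)) = d) :
    Gen (fun q : gp_K n → ℂ => gp_Plane E (fun k => eval q (P k)) (fun k => eval q (Q k))
      (fun k => eval q (R k))) := by
  rw [gp_genM_iff] at hG
  have h := gp_comap hG (fun p : Fin n × Fin 3 => ![P p.1, Q p.1, R p.1] p.2) (by
    intro M
    obtain ⟨q, h0, h1, h2⟩ := hs (fun k => M (k, 0)) (fun k => M (k, 1)) (fun k => M (k, 2))
    refine ⟨q, ?_⟩
    rintro ⟨k, a⟩
    fin_cases a
    · exact congrFun h0 k
    · exact congrFun h1 k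
    · exact congrFun h2 k)
  refine h.mono ?_
  rintro q ⟨A, hA, hE⟩
  refine ⟨A 0, A 1, A 2, ?_, ?_⟩
  · rintro ⟨h0, h1, h2⟩
    apply hA
    funext a
    fin_cases a
    · exact h0
    · exact h1
    · exact h2
  · intro r s t
    have h3 := hE ![r, s, t]
    rw [Fin.sum_univ_three] at h3
    have h4 : lmap (fun (i : Fin n) (j : Fin 3) => eval q ((![P i, Q i, R i] : Fin 3 → _) j))
        ![r, s, t] = r • (fun k => eval q (P k)) + s • (fun k => eval q (Q k)) +
          t • (fun k => eval q (R k)) := by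
      funext k
      show ∑ l : Fin 3, eval q ((![P k, Q k, R k] : Fin 3 → _) l) * ![r, s, t] l = _
      rw [Fin.sum_univ_three]
      simp [mul_comm]
    simp only [Matrix.cons_val_zero, Matrix.cons_val_one, Matrix.cons_val] at h3
    rw [← h4]
    exact h3

private theorem gp_gen2 {E : (Fin n → ℂ) → Submodule ℂ (Fin n → ℂ)}
    (hL0 : GenM (fun ψ : Fin n → Fin 2 → ℂ => ∀ (l : Fin 2 → ℂ) (A : Fin n → ℂ), l ≠ 0 →
      (∀ t : Fin 2 → ℂ, (∑ a, l a * t a) • A ∈ E (lmap ψ t)) → A = 0))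
    (hL : GenM (fun ψ : Fin n → Fin 2 → ℂ => ∀ A A' : Fin 2 → Fin n → ℂ, A ≠ 0 →
      (∀ t : Fin 2 → ℂ, (∑ a, t a • A a) ∈ E (lmap ψ t)) →
      (∀ t : Fin 2 → ℂ, (∑ a, t a • A' a) ∈ E (lmap ψ t)) → ∃ c : ℂ, A' = c • A))
    (P Q : Fin n → MvPolynomial (gp_K n) ℂ)
    (hs : ∀ a b : Fin n → ℂ, ∃ q : gp_K n → ℂ, (fun k => eval q (P k)) = a ∧
      (fun k => eval q (Q k)) = b) :
    Gen (fun q : gp_K n → ℂ => gp_Line E (fun k => eval q (P k)) (fun k => eval q (Q k))) := by
  have hLL := hL0.and hL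
  rw [gp_genM_iff] at hLL
  have h := gp_comap hLL (fun p : Fin n × Fin 2 => ![P p.1, Q p.1] p.2) (by
    intro M
    obtain ⟨q, h0, h1⟩ := hs (fun k => M (k, 0)) (fun k => M (k, 1))
    refine ⟨q, ?_⟩
    rintro ⟨k, a⟩
    fin_cases a
    · exact congrFun h0 k
    · exact congrFun h1 k)
  refine h.mono ?_
  intro q hq
  have hlm : ∀ t : Fin 2 → ℂ, lmap (fun (i : Fin n) (j : Fin 2) =>
      eval q ((![P i, Q i] : Fin 2 → _) j)) t = t 0 • (fun k => eval q (P k)) +
        t 1 • (fun k => eval q (Q k)) := by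
    intro t
    funext k
    show ∑ l : Fin 2, eval q ((![P k, Q k] : Fin 2 → _) l) * t l = _
    rw [Fin.sum_univ_two]
    simp [mul_comm]
  constructor
  · intro B hB
    refine hq.1 ![0, 1] B ?_ ?_
    · intro h0
      have := congrFun h0 1
      simp at this
    · intro t
      have h1 := hB (t 0) (t 1)
      rw [smul_zero, zero_add] at h1
      rw [Fin.sum_univ_two]
      simp only [Matrix.cons_val_zero, Matrix.cons_val_one, zero_mul, one_mul, zero_add]
      have h2 := hlm t
      beta_reduce at h2 ⊢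
      rw [h2]
      exact h1
  · intro A B A' B' h0 h1 h2
    have key : ∀ C D : Fin n → ℂ, gp_Sec2 E (fun k => eval q (P k)) (fun k => eval q (Q k)) C D →
        ∀ t : Fin 2 → ℂ, (∑ a, t a • (![C, D] : Fin 2 → Fin n → ℂ) a) ∈
          E (lmap (fun (i : Fin n) (j : Fin 2) => eval q ((![P i, Q i] : Fin 2 → _) j)) t) := by
      intro C D h t
      rw [hlm t, Fin.sum_univ_two]
      exact h (t 0) (t 1)
    obtain ⟨k, hk⟩ := hq.2 ![A, B] ![A', B'] (by
      intro h
      exact h0 ⟨congrFun h 0, congrFun h 1⟩) (key A B h1) (key A' B' h2)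
    exact ⟨k, congrFun hk 0, congrFun hk 1⟩

theorem glueP (hn : 3 ≤ n) (E : (Fin n → ℂ) → Submodule ℂ (Fin n → ℂ))
    (hG : GenM (fun φ : Fin n → Fin 3 → ℂ => ∃ A : Fin 3 → Fin n → ℂ, A ≠ 0 ∧
      ∀ t : Fin 3 → ℂ, (∑ a, t a • A a) ∈ E (lmap φ t)))
    (hL0 : GenM (fun ψ : Fin n → Fin 2 → ℂ => ∀ (l : Fin 2 → ℂ) (A : Fin n → ℂ), l ≠ 0 →
      (∀ t : Fin 2 → ℂ, (∑ a, l a * t a) • A ∈ E (lmap ψ t)) → A = 0))
    (hL : GenM (fun ψ : Fin n → Fin 2 → ℂ => ∀ A A' : Fin 2 → Fin n → ℂ, A ≠ 0 →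
      (∀ t : Fin 2 → ℂ, (∑ a, t a • A a) ∈ E (lmap ψ t)) →
      (∀ t : Fin 2 → ℂ, (∑ a, t a • A' a) ∈ E (lmap ψ t)) → ∃ c : ℂ, A' = c • A)) :
    ∃ A : Fin n → Fin n → ℂ, A ≠ 0 ∧ Gen (fun x : Fin n → ℂ => (∑ i, x i • A i) ∈ E x) := by
  classical
  obtain ⟨m, rfl⟩ : ∃ m, n = m + 3 := ⟨n - 3, by omega⟩
  -- all conditions on the parameters
  have hgood : Gen (fun q : gp_K (m + 3) → ℂ =>
      ((∀ j : Fin (m + 3), gp_Plane E (gp_y q 0) (gp_S (gp_y q) (gp_c q) (j + 1)) (gp_y q (j + 2))) ∧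
      (∀ j : Fin (m + 3), gp_Line E (gp_y q 0) (gp_S (gp_y q) (gp_c q) (j + 1)))) ∧
      ((∀ j : Fin (m + 3), gp_Line E (gp_y q 0) (gp_y q (j + 1))) ∧
      (gp_Plane E (gp_y q 0) (gp_y q 1) (gp_y q 2) ∧
      ∃ Z, Inv (fun (i k : Fin (m + 3)) => gp_y q i k) Z))) := by
    refine Gen.and (Gen.and ?_ ?_) (Gen.and ?_ (Gen.and ?_ ?_))
    · refine Gen.all fun j => ?_
      refine (gp_gen3 hG (gp_yP _ 0) (gp_SP _ (j + 1)) (gp_yP _ (j + 2)) ?_).mono ?_
      · intro a b d
        refine ⟨gp_pt a b d j, ?_, ?_, ?_⟩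
        · simp only [gp_eval_y]; exact gp_pt0 a b d j
        · simp only [gp_eval_S]; exact gp_ptS a b d j
        · simp only [gp_eval_y]; exact gp_pt2 a b d j
      · intro q hq
        simp only [gp_eval_y, gp_eval_S] at hq
        exact hq
    · refine Gen.all fun j => ?_
      refine (gp_gen2 hL0 hL (gp_yP _ 0) (gp_SP _ (j + 1)) ?_).mono ?_
      · intro a b
        refine ⟨gp_pt a b 0 j, ?_, ?_⟩
        · simp only [gp_eval_y]; exact gp_pt0 a b 0 j
        · simp only [gp_eval_S]; exact gp_ptS a b 0 j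
      · intro q hq
        simp only [gp_eval_y, gp_eval_S] at hq
        exact hq
    · refine Gen.all fun j => ?_
      refine (gp_gen2 hL0 hL (gp_yP _ 0) (gp_yP _ (j + 1)) ?_).mono ?_
      · intro a b
        refine ⟨gp_pt a b 0 j, ?_, ?_⟩
        · simp only [gp_eval_y]; exact gp_pt0 a b 0 j
        · simp only [gp_eval_y]; exact gp_pt1 a b 0 j
      · intro q hq
        simp only [gp_eval_y] at hq
        exact hq
    · refine (gp_gen3 hG (gp_yP _ 0) (gp_yP _ 1) (gp_yP _ 2) ?_).mono ?_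
      · intro a b d
        refine ⟨gp_pt a b d 0, ?_, ?_, ?_⟩
        · simp only [gp_eval_y]; exact gp_pt0 a b d 0
        · simp only [gp_eval_y]; exact gp_pt1 a b d 0
        · simp only [gp_eval_y]; exact gp_pt2 a b d 0
      · intro q hq
        simp only [gp_eval_y] at hq
        exact hq
    · have h1 := GenM.inv (m + 3)
      rw [gp_genM_iff] at h1
      refine (gp_comap h1 (fun p : Fin (m + 3) × Fin (m + 3) =>
        gp_yP (m + 3) p.1 p.2) ?_).mono ?_
      · intro M
        refine ⟨Sum.elim (fun r => if h : r.1 < m + 3 then M (⟨r.1, h⟩, r.2) else 0) (fun _ => 0), ?_⟩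
        rintro ⟨i, k⟩
        rw [gp_eval_y]
        simp [gp_y]
      · intro q hq
        simp only [gp_eval_y] at hq
        exact hq
  obtain ⟨H, hH, hHg⟩ := hgood
  obtain ⟨q, hq⟩ := gp_exists_eval_ne hH
  obtain ⟨-, hLy, hP0, Z, hZ⟩ := hHg q hq
  set y : ℕ → Fin (m + 3) → ℂ := gp_y q with hy
  -- the induction
  set Good : (ℕ → ℂ) → Prop := fun c =>
    (∀ j : Fin (m + 3), gp_Plane E (y 0) (gp_S y c (j + 1)) (y (j + 2))) ∧
    (∀ j : Fin (m + 3), gp_Line E (y 0) (gp_S y c (j + 1))) with hGood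
  have hc0 : Good (gp_c q) := (hHg q hq).1
  have hS : ∀ (c : ℕ → ℂ) (j : ℕ), gp_S y c (j + 1) = gp_S y c j + c (j + 1) • y (j + 1) := by
    intro c j
    exact Finset.sum_range_succ _ _
  have claim : ∀ j : ℕ, j + 1 < m + 3 → ∃ A : ℕ → Fin (m + 3) → ℂ, A 0 ≠ 0 ∧
      (∀ c, Good c → gp_Sec2 E (y 0) (gp_S y c (j + 1)) (A 0) (gp_S A c (j + 1))) := by
    intro j
    induction j with
    | zero =>
      intro _
      obtain ⟨A, B, D, h0, hs⟩ := hP0
      have l1 : gp_Line E (y 0) (y 1) := hLy ⟨0, by omega⟩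
      have l2 : gp_Line E (y 0) (y 2) := hLy ⟨1, by omega⟩
      have hA := gp_ne hs h0 l1 l2
      refine ⟨fun i => if i = 0 then A else B, by simpa using hA, fun c _ => ?_⟩
      intro s t
      have h1 := gp_left hs s (t * c 1)
      simp only [gp_S, zero_add, Finset.sum_range_one, if_pos, one_ne_zero, if_false]
      rw [smul_smul, smul_smul]
      exact h1
    | succ j ih =>
      intro hj
      obtain ⟨A, hA, hs⟩ := ih (by omega)
      have l2 : gp_Line E (y 0) (y (j + 2)) := hLy ⟨j + 1, by omega⟩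
      have key : ∀ c, Good c → ∃ D, gp_Sec3 E (y 0) (gp_S y c (j + 1)) (y (j + 2)) (A 0)
          (gp_S A c (j + 1)) D := by
        intro c hc
        exact gp_step (hc.1 ⟨j, by omega⟩) (hc.2 ⟨j, by omega⟩) l2 hA (hs c hc)
      obtain ⟨D, hD⟩ := key _ hc0
      refine ⟨Function.update A (j + 2) D, ?_, fun c hc => ?_⟩
      · rw [Function.update_of_ne (by omega)]; exact hA
      obtain ⟨D', hD'⟩ := key c hc
      obtain ⟨k, hk, hk'⟩ := l2.2 (A 0) D (A 0) D' (fun h => hA h.1) (gp_right hD) (gp_right hD')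
      have hk1 : k = 1 := by
        have h1 : (k - 1) • A 0 = 0 := by
          rw [sub_smul, one_smul, ← hk, sub_self]
        rcases smul_eq_zero.1 h1 with h | h
        · exact sub_eq_zero.1 h
        · exact absurd h hA
      rw [hk1, one_smul] at hk'
      have hSA : gp_S (Function.update A (j + 2) D) c (j + 1 + 1) =
          gp_S A c (j + 1) + c (j + 2) • D := by
        unfold gp_S
        rw [Finset.sum_range_succ, Function.update_self]
        congr 1
        refine Finset.sum_congr rfl fun i hi => ?_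
        rw [Finset.mem_range] at hi
        rw [Function.update_of_ne (by omega)]
      rw [hSA, hS c (j + 1), Function.update_of_ne (by omega)]
      intro s t
      have h1 := hD' s t (t * c (j + 2))
      rw [hk'] at h1
      rw [smul_add, smul_add, smul_smul, smul_smul, ← add_assoc, ← add_assoc]
      exact h1
  obtain ⟨A, hA0, hA⟩ := claim (m + 1) (by omega)
  -- back to the standard coordinates
  have hfull : ∀ (B : ℕ → Fin (m + 3) → ℂ) (c : ℕ → ℂ),
      c 0 • B 0 + (1 : ℂ) • gp_S B c (m + 1 + 1) = ∑ i : Fin (m + 3), c i • B i := by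
    intro B c
    rw [Fin.sum_univ_eq_sum_range (fun i => c i • B i) (m + 3), Finset.sum_range_succ']
    unfold gp_S
    rw [one_smul]
    exact add_comm _ _
  refine ⟨fun k => ∑ i : Fin (m + 3), Z k i • A i, ?_, ?_⟩
  · intro h0
    apply hA0
    have h1 : ∑ k : Fin (m + 3), gp_y q 0 k • (∑ i : Fin (m + 3), Z k i • A i) = A 0 := by
      have h2 : ∑ k : Fin (m + 3), gp_y q 0 k • (∑ i : Fin (m + 3), Z k i • A i) =
          ∑ i : Fin (m + 3), (mm (fun (i k : Fin (m + 3)) => gp_y q i k) Z 0 i) • A i := by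
        unfold mm
        simp only [Finset.smul_sum, Finset.sum_smul, smul_smul]
        rw [Finset.sum_comm]
        rfl
      rw [h2, hZ.1]
      unfold idm
      rw [Finset.sum_eq_single (0 : Fin (m + 3))]
      · rw [if_pos rfl, one_smul]; rfl
      · intro b _ hb
        rw [if_neg (Ne.symm hb), zero_smul]
      · intro h; exact absurd (Finset.mem_univ _) h
    rw [← h1]
    refine Finset.sum_eq_zero fun k _ => ?_
    have h3 := congrFun h0 k
    beta_reduce at h3
    rw [h3]
    simp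
  · -- the polynomial
    let t : gp_K (m + 3) → MvPolynomial (Fin (m + 3)) ℂ :=
      Sum.elim (fun r => C (q (Sum.inl r)))
        (fun i => if h : i < m + 3 then ∑ k, C (Z k ⟨i, h⟩) * X k else C (q (Sum.inr i)))
    have ht1 : ∀ x : Fin (m + 3) → ℂ, gp_y (fun a => eval x (t a)) = y := by
      intro x
      funext i k
      show eval x (C (q (Sum.inl (i, k)))) = q (Sum.inl (i, k))
      rw [eval_C]
    have ht2 : ∀ (x : Fin (m + 3) → ℂ) (i : Fin (m + 3)),
        gp_c (fun a => eval x (t a)) i = ∑ k, Z k i * x k := by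
      intro x i
      show eval x (if h : (i : ℕ) < m + 3 then ∑ k, C (Z k ⟨i, h⟩) * X k else _) = _
      rw [dif_pos i.2, map_sum]
      refine Finset.sum_congr rfl fun k _ => ?_
      rw [map_mul, eval_C, eval_X]
    refine ⟨bind₁ t H, ?_, ?_⟩
    · intro h0
      let x0 : Fin (m + 3) → ℂ := ∑ i : Fin (m + 3), gp_c q i • y i
      have h1 := gp_eval_bind t x0 H
      rw [h0, map_zero] at h1
      have h2 : (fun a => eval x0 (t a)) = q := by
        funext a
        rcases a with ⟨i, k⟩ | i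
        · show eval x0 (C (q (Sum.inl (i, k)))) = q (Sum.inl (i, k))
          rw [eval_C]
        · by_cases hi : i < m + 3
          · have h3 := ht2 x0 ⟨i, hi⟩
            have h4 : gp_c (fun a => eval x0 (t a)) i = q (Sum.inr i) := by
              rw [show gp_c (fun a => eval x0 (t a)) i =
                gp_c (fun a => eval x0 (t a)) ((⟨i, hi⟩ : Fin (m + 3)) : ℕ) from rfl, h3]
              have h5 : ∑ k, Z k ⟨i, hi⟩ * x0 k = ∑ l : Fin (m + 3), gp_c q l *
                  mm (fun (i k : Fin (m + 3)) => gp_y q i k) Z l ⟨i, hi⟩ := by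
                have h6 : ∀ k, x0 k = ∑ l : Fin (m + 3), gp_c q l * y l k := by
                  intro k
                  show (∑ i : Fin (m + 3), gp_c q i • y i) k = _
                  rw [Finset.sum_apply]
                  rfl
                unfold mm
                simp only [h6, Finset.mul_sum]
                rw [Finset.sum_comm]
                refine Finset.sum_congr rfl fun l _ => Finset.sum_congr rfl fun k _ => ?_
                ring
              rw [h5, hZ.1]
              unfold idm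
              rw [Finset.sum_eq_single (⟨i, hi⟩ : Fin (m + 3))]
              · rw [if_pos rfl, mul_one]; rfl
              · intro b _ hb
                rw [if_neg hb, mul_zero]
              · intro h; exact absurd (Finset.mem_univ _) h
            exact h4
          · show eval x0 (if h : i < m + 3 then ∑ k, C (Z k ⟨i, h⟩) * X k else
              C (q (Sum.inr i))) = q (Sum.inr i)
            rw [dif_neg hi, eval_C]
      rw [h2] at h1
      exact hq h1.symm
    · intro x hx
      rw [gp_eval_bind] at hx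
      have hg := (hHg _ hx).1
      rw [ht1] at hg
      have h1 := hA _ hg (gp_c (fun a => eval x (t a)) 0) 1
      rw [hfull, hfull] at h1
      have h2 : (∑ i : Fin (m + 3), gp_c (fun a => eval x (t a)) i • y i) = x := by
        funext k
        rw [Finset.sum_apply]
        have h3 : ∑ i : Fin (m + 3), (gp_c (fun a => eval x (t a)) i • y i) k =
            ∑ l, x l * mm Z (fun (i k : Fin (m + 3)) => gp_y q i k) l k := by
          unfold mm
          simp only [Pi.smul_apply, smul_eq_mul, ht2, Finset.sum_mul, Finset.mul_sum]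
          rw [Finset.sum_comm]
          refine Finset.sum_congr rfl fun l _ => Finset.sum_congr rfl fun i _ => ?_
          rw [hy]
          ring
        rw [h3, hZ.2]
        unfold idm
        rw [Finset.sum_eq_single k]
        · rw [if_pos rfl, mul_one]
        · intro b _ hb
          rw [if_neg hb, mul_zero]
        · intro h; exact absurd (Finset.mem_univ _) h
      rw [h2] at h1
      have h4 : (∑ k, x k • ∑ i : Fin (m + 3), Z k i • A i) =
          ∑ i : Fin (m + 3), gp_c (fun a => eval x (t a)) i • A i := by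
        simp only [ht2, Finset.smul_sum, Finset.sum_smul, smul_smul]
        rw [Finset.sum_comm]
        refine Finset.sum_congr rfl fun l _ => Finset.sum_congr rfl fun i _ => ?_
        rw [mul_comm]
      rw [h4]
      exact h1

end Pool.Agent.Helper50.FC
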