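import Pool.Agent.Helper50.FC.LineL
import Pool.Agent.Helper50.FC.GlueP

/-! K1-22: gluing of sections of degree 0 and 1 from general planes to the whole space.
* `glue0`: choose (columns) `a, b` such that the line `<a, b>` is good and `<a, b, y>` is good for general `y` (fix the first two columns in the
  polynomial of `hG`).  A non zero constant section on `<a, b, y>` restricts to a non zero constant section on `<a, b>`, so by `hL` all of them are
  multiples of one constant `ξ`; so `w12 ξ θ` vanishes at general `y`: `ξ ∈ EE θ 0`.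
* `glue1`: `glueP` with `E x` = the covectors `A` with `∀ i j l, w12 A (fun i j => eval x (θ i j)) i j l = 0` (a submodule).  A section
  `A : Fin m → Fin n → ℂ` on `φ` is the same as `ξ ∈ EV θ φ 1`, `ξ i = ∑ a, C (A a i) * X a` (a polynomial all of whose values are zero is zero; `eval_lsub`;
  a homogeneous polynomial of degree 1 is a linear form).  `hL0` of `glueP`: `EV_div`-type argument: `l * w12 (C A) (cf ψ θ) = 0`, so `C A ∈ EV θ ψ 0`. -/

set_option autoImplicit false

namespace Pool.Agent.Helper50.FC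

open MvPolynomial
open scoped BigOperators
open Pool.Agent.Helper71.FL (w12 pf ct Dec Closed dd at0 res)
open Pool.Agent.Helper93 (lsub lmap OF pb)
open Pool.Agent.Helper71.FC

variable {n m k : ℕ}

/-! ### linear sections as families of covectors -/

/-- linear section attached to a family of covectors -/
private noncomputable def gls (A : Fin m → Fin n → ℂ) : Fin n → Pn m := fun i => ∑ a, C (A a i) * X a

private theorem eval_gls (A : Fin m → Fin n → ℂ) (t : Fin m → ℂ) (i : Fin n) :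
    eval t (gls A i) = (∑ a, t a • A a) i := by
  unfold gls
  rw [map_sum, Finset.sum_apply]
  refine Finset.sum_congr rfl fun a _ => ?_
  rw [map_mul, eval_C, eval_X, Pi.smul_apply, smul_eq_mul, mul_comm]

private theorem gls_hom (A : Fin m → Fin n → ℂ) (i : Fin n) : (gls A i).IsHomogeneous 1 := by
  unfold gls
  refine IsHomogeneous.sum _ _ _ fun a _ => ?_
  exact (isHomogeneous_X ℂ a).C_mul _

private theorem gls_inj {A : Fin m → Fin n → ℂ} (h : gls A = 0) : A = 0 := by
  classical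
  funext a i
  have h1 := congrArg (eval (Pi.single a (1 : ℂ))) (congrFun h i)
  rw [eval_gls, Finset.sum_apply, Finset.sum_eq_single a] at h1
  · simpa using h1
  · intro b _ hb
    rw [Pi.smul_apply, Pi.single_eq_of_ne hb, zero_smul]
  · intro h; exact absurd (Finset.mem_univ _) h

private theorem gls_zero : gls (0 : Fin m → Fin n → ℂ) = 0 := by
  funext i
  unfold gls
  simp

private theorem exists_gls {ξ : Fin n → Pn m} (h : ∀ i, (ξ i).IsHomogeneous 1) :
    ∃ A : Fin m → Fin n → ℂ, ξ = gls A := by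
  choose a ha using fun i => lf_of_hom (h i)
  exact ⟨fun b i => a i b, funext fun i => ha i⟩

/-- covectors annihilated at a point -/
private noncomputable def gEA (θ : F2 n) (x : Fin n → ℂ) : Submodule ℂ (Fin n → ℂ) where
  carrier := {A | ∀ i j l, w12 A (fun i j => eval x (θ i j)) i j l = 0}
  add_mem' := by
    intro a b h1 h2 i j l
    have := Pool.Agent.Helper71.FL.w12_add a b (fun i j => eval x (θ i j)) i j l
    exact this.trans (by rw [h1, h2, add_zero])
  zero_mem' := by
    intro i j l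
    simp [w12]
  smul_mem' := by
    intro c a h i j l
    have := Pool.Agent.Helper71.FL.w12_smul c a (fun i j => eval x (θ i j)) i j l
    rw [h, mul_zero] at this
    exact this

private theorem gls_mem_EV {θ : F2 n} {φ : Fin n → Fin m → ℂ} {A : Fin m → Fin n → ℂ} :
    gls A ∈ EV θ φ 1 ↔ ∀ t : Fin m → ℂ, (∑ a, t a • A a) ∈ gEA θ (lmap φ t) := by
  constructor
  · intro h t i j l
    have h1 := EV_eval h t i j l
    rw [← h1]
    unfold w12
    simp only [eval_gls]
  · intro h
    refine ⟨gls_hom A, fun i j l => ?_⟩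
    apply MvPolynomial.funext
    intro t
    rw [map_zero]
    have h1 := h t i j l
    rw [← h1]
    unfold w12 cf
    simp only [map_add, map_mul, Pool.Agent.Helper93.eval_lsub, eval_gls]

private theorem const_mem_EV {θ : F2 n} {φ : Fin n → Fin m → ℂ} {ξ : Fin n → Pn m}
    (h : ξ ∈ EV θ φ 0) : ∃ B : Fin n → ℂ, ξ = fun i => C (B i) := by
  have h1 : ∀ i, ∃ b : ℂ, ξ i = C b := by
    intro i
    have h2 := h.1 i
    by_cases h3 : ξ i = 0
    · exact ⟨0, by rw [h3, C_0]⟩
    · exact ⟨_, (totalDegree_eq_zero_iff_eq_C (p := ξ i)).mp (h2.totalDegree h3)⟩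
  choose B hB using h1
  exact ⟨B, funext hB⟩

/-- the first two columns -/
private def ginc : Fin 3 → Fin 2 → ℂ := fun k j => if k = Fin.castSucc j then 1 else 0

private theorem mm_ginc (φ : Fin n → Fin 3 → ℂ) : mm φ ginc = fun i j => φ i (Fin.castSucc j) := by
  funext i j
  unfold mm ginc
  rw [Finset.sum_eq_single (Fin.castSucc j)]
  · rw [if_pos rfl, mul_one]
  · intro k _ hk
    rw [if_neg hk, mul_zero]
  · intro h; exact absurd (Finset.mem_univ _) h

/-- replace the last column -/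
private def gput (φ : Fin n → Fin 3 → ℂ) (y : Fin n → ℂ) : Fin n → Fin 3 → ℂ :=
  fun i j => if j = 2 then y i else φ i j

private theorem mm_gput (φ : Fin n → Fin 3 → ℂ) (y : Fin n → ℂ) :
    mm (gput φ y) ginc = fun i j => φ i (Fin.castSucc j) := by
  rw [mm_ginc]
  funext i j
  unfold gput
  have h : ∀ j : Fin 2, Fin.castSucc j ≠ (2 : Fin 3) := by decide
  rw [if_neg (h j)]

private theorem lmap_gput (φ : Fin n → Fin 3 → ℂ) (y : Fin n → ℂ) :
    lmap (gput φ y) (Pi.single 2 1) = y := by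
  funext i
  show ∑ l, gput φ y i l * (Pi.single 2 1 : Fin 3 → ℂ) l = y i
  rw [Finset.sum_eq_single 2]
  · rw [Pi.single_eq_same, mul_one]
    unfold gput
    rw [if_pos rfl]
  · intro k _ hk
    rw [Pi.single_eq_of_ne hk, mul_zero]
  · intro h; exact absurd (Finset.mem_univ _) h

private theorem geval_bind {ι κ : Type} (t : ι → MvPolynomial κ ℂ) (x : κ → ℂ)
    (F : MvPolynomial ι ℂ) : eval x (bind₁ t F) = eval (fun i => eval x (t i)) F := by
  induction F using MvPolynomial.induction_on with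
  | C c => simp
  | add p q hp hq => simp only [map_add, hp, hq]
  | mul_X p i hp => rw [map_mul, map_mul, hp, map_mul, bind₁_X_right, eval_X]

private theorem gen_gput {p : (Fin n → Fin 3 → ℂ) → Prop} (hp : GenM p) :
    ∃ φ : Fin n → Fin 3 → ℂ, p φ ∧ Gen (fun y : Fin n → ℂ => p (gput φ y)) := by
  obtain ⟨H, hH, h⟩ := hp
  obtain ⟨z, hz⟩ : ∃ z, eval z H ≠ 0 := by
    by_contra hcon
    push Not at hcon
    exact hH (MvPolynomial.funext fun x => by rw [hcon x, map_zero])
  let φ : Fin n → Fin 3 → ℂ := fun i j => z (i, j)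
  have key : ∀ y : Fin n → ℂ, eval y (bind₁ (fun q : Fin n × Fin 3 =>
      (if q.2 = 2 then X q.1 else C (φ q.1 q.2) : Pn n)) H) =
      eval (fun q : Fin n × Fin 3 => gput φ y q.1 q.2) H := by
    intro y
    rw [geval_bind]
    congr 2
    funext q
    unfold gput
    by_cases hq : q.2 = 2
    · rw [if_pos hq, if_pos hq, eval_X]
    · rw [if_neg hq, if_neg hq, eval_C]
  refine ⟨φ, h φ hz, bind₁ (fun q : Fin n × Fin 3 =>
      (if q.2 = 2 then X q.1 else C (φ q.1 q.2) : Pn n)) H, ?_, fun y hy => ?_⟩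
  · intro h0
    have h1 := key (fun i => z (i, 2))
    rw [h0, map_zero] at h1
    apply hz
    rw [h1]
    congr 2
    funext q
    obtain ⟨i, j⟩ := q
    show z (i, j) = if j = 2 then z (i, 2) else z (i, j)
    by_cases hq : j = 2
    · rw [if_pos hq, hq]
    · rw [if_neg hq]
  · rw [key] at hy
    exact h _ hy

theorem glue0 (hn : 3 ≤ n) {θ : F2 n}
    (hG : GenM (fun φ : Fin n → Fin 3 → ℂ => EV θ φ 0 ≠ ⊥))
    (hL : GenM (fun φ : Fin n → Fin 2 → ℂ => ∀ ξ ∈ EV θ φ 0, ∀ ξ' ∈ EV θ φ 0, ξ ≠ 0 →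
      ∃ c : ℂ, ∀ i, ξ' i = C c * ξ i)) : EE θ 0 ≠ ⊥ := by
  have hP := hG.and (hL.cols (k := 3) Fin.castSucc (Fin.castSucc_injective 2))
  obtain ⟨φ, hφ, hgen⟩ := gen_gput hP
  -- a constant section on a good plane, restricted to the line
  have hsec : ∀ φ' : Fin n → Fin 3 → ℂ, EV θ φ' 0 ≠ ⊥ → ∃ B : Fin n → ℂ, B ≠ 0 ∧
      (fun i => C (B i)) ∈ EV θ φ' 0 ∧ (fun i => C (B i)) ∈ EV θ (mm φ' ginc) 0 := by
    intro φ' hφ'
    obtain ⟨ξ, hξ, hξ0⟩ := (Submodule.ne_bot_iff _).1 hφ'
    obtain ⟨B, rfl⟩ := const_mem_EV hξ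
    refine ⟨B, ?_, hξ, ?_⟩
    · rintro rfl
      apply hξ0
      funext i
      show C (0 : ℂ) = 0
      exact C_0
    · have h1 := rsV_mem hξ ginc
      have h2 : rsV ginc (fun i => (C (B i) : Pn 3)) = fun i => (C (B i) : Pn 2) := by
        funext i
        show lsub ginc (C (B i)) = C (B i)
        unfold lsub
        rw [aeval_C]
        rfl
      rwa [h2] at h1
  obtain ⟨A, hA0, hA1, hA2⟩ := hsec φ hφ.1
  rw [mm_ginc] at hA2
  have hAne : (fun i => (C (A i) : Pn 2)) ≠ 0 := by
    intro h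
    apply hA0
    funext i
    exact C_injective _ _ ((congrFun h i).trans C_0.symm)
  have hAgen : ∀ i j l, w12 (fun i => (C (A i) : Pn n)) θ i j l = 0 := by
    intro i j l
    refine eq_zero_of_gen (hgen.mono fun y hy => ?_)
    obtain ⟨B, hB0, hB1, hB2⟩ := hsec _ hy.1
    rw [mm_gput] at hB2
    obtain ⟨c, hc⟩ := hφ.2 _ hA2 _ hB2 hAne
    have hBA : ∀ i, B i = c * A i := by
      intro i
      have h1 := hc i
      rw [← C_mul] at h1
      exact C_injective _ _ h1
    have hc0 : c ≠ 0 := by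
      rintro rfl
      apply hB0
      funext i
      rw [hBA, zero_mul]
      rfl
    have h1 := EV_eval hB1 (Pi.single 2 1) i j l
    rw [lmap_gput] at h1
    have h2 : c * eval y (w12 (fun i => (C (A i) : Pn n)) θ i j l) = 0 := by
      rw [← h1]
      unfold w12
      simp only [map_add, map_mul, eval_C, hBA]
      ring
    exact (mul_eq_zero.1 h2).resolve_left hc0
  intro hbot
  have hmem : (fun i => (C (A i) : Pn n)) ∈ EE θ 0 := ⟨fun i => isHomogeneous_C _ _, hAgen⟩
  rw [hbot] at hmem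
  apply hA0
  funext i
  exact C_injective _ _ ((congrFun ((Submodule.mem_bot ℂ).1 hmem) i).trans C_0.symm)

theorem glue1 (hn : 3 ≤ n) {θ : F2 n}
    (hG : GenM (fun φ : Fin n → Fin 3 → ℂ => EV θ φ 1 ≠ ⊥))
    (hL0 : GenM (fun φ : Fin n → Fin 2 → ℂ => EV θ φ 0 = ⊥))
    (hL : GenM (fun φ : Fin n → Fin 2 → ℂ => ∀ ξ ∈ EV θ φ 1, ∀ ξ' ∈ EV θ φ 1, ξ ≠ 0 →
      ∃ c : ℂ, ∀ i, ξ' i = C c * ξ i)) : EE θ 1 ≠ ⊥ := by
  have g1 : GenM (fun φ : Fin n → Fin 3 → ℂ => ∃ A : Fin 3 → Fin n → ℂ, A ≠ 0 ∧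
      ∀ t : Fin 3 → ℂ, (∑ a, t a • A a) ∈ gEA θ (lmap φ t)) := by
    refine hG.mono fun φ hφ => ?_
    obtain ⟨ξ, hξ, hξ0⟩ := (Submodule.ne_bot_iff _).1 hφ
    obtain ⟨A, rfl⟩ := exists_gls hξ.1
    refine ⟨A, ?_, gls_mem_EV.1 hξ⟩
    rintro rfl
    exact hξ0 gls_zero
  have g2 : GenM (fun ψ : Fin n → Fin 2 → ℂ => ∀ (l : Fin 2 → ℂ) (A : Fin n → ℂ), l ≠ 0 →
      (∀ t : Fin 2 → ℂ, (∑ a, l a * t a) • A ∈ gEA θ (lmap ψ t)) → A = 0) := by
    refine hL0.mono fun ψ hψ l A hl hA => ?_
    have hlf : (lf l : Pn 2) ≠ 0 := by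
      intro h
      apply hl
      funext a
      have h1 : gls (fun (b : Fin 2) (_ : Fin 1) => l b) = 0 := by
        funext i
        exact h
      exact congrFun (congrFun (gls_inj h1) a) 0
    have hmem : (fun i => (C (A i) : Pn 2)) ∈ EV θ ψ 0 := by
      refine ⟨fun i => isHomogeneous_C _ _, fun i j k => ?_⟩
      have h2 : lf l * w12 (fun i => (C (A i) : Pn 2)) (cf ψ θ) i j k = 0 := by
        apply MvPolynomial.funext
        intro t
        have h3 := hA t i j k
        rw [map_zero, ← h3]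
        unfold w12 cf lf
        simp only [map_add, map_mul, map_sum, Pool.Agent.Helper93.eval_lsub, eval_C, eval_X,
          Pi.smul_apply, smul_eq_mul]
        ring
      exact (mul_eq_zero.1 h2).resolve_left hlf
    rw [hψ] at hmem
    funext i
    exact C_injective _ _ ((congrFun ((Submodule.mem_bot ℂ).1 hmem) i).trans C_0.symm)
  have g3 : GenM (fun ψ : Fin n → Fin 2 → ℂ => ∀ A A' : Fin 2 → Fin n → ℂ, A ≠ 0 →
      (∀ t : Fin 2 → ℂ, (∑ a, t a • A a) ∈ gEA θ (lmap ψ t)) →
      (∀ t : Fin 2 → ℂ, (∑ a, t a • A' a) ∈ gEA θ (lmap ψ t)) → ∃ c : ℂ, A' = c • A) := by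
    refine hL.mono fun ψ hψ A A' hA0 hA hA' => ?_
    obtain ⟨c, hc⟩ := hψ _ (gls_mem_EV.2 hA) _ (gls_mem_EV.2 hA') (fun h => hA0 (gls_inj h))
    refine ⟨c, ?_⟩
    have h1 : gls (fun a i => A' a i - c * A a i) = 0 := by
      funext i
      have h2 := hc i
      have h3 : gls (fun a i => A' a i - c * A a i) i = gls A' i - C c * gls A i := by
        unfold gls
        rw [Finset.mul_sum, ← Finset.sum_sub_distrib]
        refine Finset.sum_congr rfl fun a _ => ?_
        rw [C_sub, C_mul]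
        ring
      rw [h3, h2, sub_self]
      rfl
    have h4 := gls_inj h1
    funext a i
    have h5 := congrFun (congrFun h4 a) i
    show A' a i = c * A a i
    exact sub_eq_zero.1 h5
  obtain ⟨A, hA0, hA⟩ := glueP hn (gEA θ) g1 g2 g3
  have hmem : gls A ∈ EE θ 1 := by
    refine ⟨gls_hom A, fun i j l => eq_zero_of_gen (hA.mono fun x hx => ?_)⟩
    have h1 := hx i j l
    rw [← h1]
    unfold w12
    simp only [map_add, map_mul, eval_gls]
  intro hbot
  rw [hbot] at hmem
  exact hA0 (gls_inj ((Submodule.mem_bot ℂ).1 hmem))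

end Pool.Agent.Helper50.FC
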