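import Pool.Agent.Helper71.FC.Bert

/-! K1-14: two coprime members of a net of binary forms without common factor.
`ℂ[x, y]`, forms `f_0, f_1, f_2` of degree `d > 0` without common factor.  Choose `α` with `f := ∑ α_i f_i ≠ 0`; for every irreducible factor `p` of
`f` (finitely many up to units) the set of `β ∈ ℂ³` with `p ∣ ∑ β_i f_i` is a proper subspace (coprimality of the triple); `ℂ³` is not a
finite union of proper subspaces (`Subspace.biUnion_ne_univ_of_top_notMem` or similar).  Independence of `α`, `β`: otherwise `f` divides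
`g` up to a constant, or `g = 0`, and `f` is no unit. -/

set_option autoImplicit false

namespace Pool.Agent.Helper50.FC

open MvPolynomial
open scoped BigOperators
open Pool.Agent.Helper71.FL (w12 pf ct Dec Closed dd at0 res)
open Pool.Agent.Helper93 (lsub lmap OF pb)
open Pool.Agent.Helper71.FC

theorem two_cop {f : Fin 3 → Pn 2} {d : ℕ} (hd : 0 < d) (hf : ∀ i, (f i).IsHomogeneous d)
    (h : CopF f) :
    ∃ α β : Fin 3 → ℂ, LinearIndependent ℂ ![α, β] ∧
      IsRelPrime (∑ i, C (α i) * f i) (∑ i, C (β i) * f i) := by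
  classical
  obtain ⟨i0, hi0⟩ : ∃ i, f i ≠ 0 := by
    by_contra hcon
    push Not at hcon
    exact not_isUnit_zero (h 0 fun i => by rw [hcon i])
  have hα : ∑ i, C ((Pi.single i0 1 : Fin 3 → ℂ) i) * f i = f i0 := by
    rw [Finset.sum_eq_single i0]
    · simp
    · intro b _ hb
      simp [Pi.single_eq_of_ne hb]
    · simp
  have hnu : ¬ IsUnit (f i0) := by
    intro hu
    have h1 := (MvPolynomial.isUnit_iff_totalDegree_of_isReduced.mp hu).2
    rw [(hf i0).totalDegree hi0] at h1
    omega
  let W : Pn 2 → Submodule ℂ (Fin 3 → ℂ) := fun p =>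
    { carrier := {β | p ∣ ∑ i, C (β i) * f i}
      zero_mem' := by simp
      add_mem' := by
        intro a b ha hb
        simp only [Set.mem_setOf_eq, Pi.add_apply, map_add, add_mul, Finset.sum_add_distrib] at *
        exact dvd_add ha hb
      smul_mem' := by
        intro c a ha
        simp only [Set.mem_setOf_eq, Pi.smul_apply, smul_eq_mul, map_mul] at *
        have : ∑ i, C c * C (a i) * f i = C c * ∑ i, C (a i) * f i := by
          rw [Finset.mul_sum]; exact Finset.sum_congr rfl fun i _ => by ring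
        rw [this]
        exact Dvd.dvd.mul_left ha _ }
  have hW : ∀ p β, β ∈ W p ↔ p ∣ ∑ i, C (β i) * f i := fun p β => Iff.rfl
  have htop : (⊤ : Submodule ℂ (Fin 3 → ℂ)) ∉
      (UniqueFactorizationMonoid.factors (f i0)).toFinset.image W := by
    intro hmem
    obtain ⟨p, hp, hpt⟩ := Finset.mem_image.mp hmem
    have hirr := UniqueFactorizationMonoid.irreducible_of_factor p (Multiset.mem_toFinset.mp hp)
    refine hirr.not_isUnit (h p fun i => ?_)
    have h1 : (Pi.single i 1 : Fin 3 → ℂ) ∈ W p := hpt ▸ Submodule.mem_top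
    rw [hW, Finset.sum_eq_single i] at h1
    · simpa using h1
    · intro b _ hb
      simp [Pi.single_eq_of_ne hb]
    · simp
  have hne := Subspace.biUnion_ne_univ_of_top_notMem htop
  obtain ⟨β, hβ⟩ := (Set.ne_univ_iff_exists_notMem _).mp hne
  have hβ2 : ∀ p ∈ UniqueFactorizationMonoid.factors (f i0), ¬ p ∣ ∑ i, C (β i) * f i := by
    intro p hp hdvd
    apply hβ
    simp only [Set.mem_iUnion]
    exact ⟨W p, Finset.mem_image.mpr ⟨p, Multiset.mem_toFinset.mpr hp, rfl⟩, hdvd⟩
  have hrel : IsRelPrime (f i0) (∑ i, C (β i) * f i) := by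
    intro c hc1 hc2
    by_contra hcu
    have hc0 : c ≠ 0 := by
      rintro rfl
      exact hi0 (zero_dvd_iff.mp hc1)
    obtain ⟨p, hp, hpc⟩ := WfDvdMonoid.exists_irreducible_factor hcu hc0
    obtain ⟨q, hq, hpq⟩ := UniqueFactorizationMonoid.exists_mem_factors_of_dvd hi0 hp
      (hpc.trans hc1)
    exact hβ2 q hq (hpq.symm.dvd.trans (hpc.trans hc2))
  refine ⟨Pi.single i0 1, β, ?_, by rw [hα]; exact hrel⟩
  rw [LinearIndependent.pair_iff]
  intro a b hab
  have h1 : C a * f i0 + C b * ∑ i, C (β i) * f i = 0 := by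
    rw [← hα, Finset.mul_sum, Finset.mul_sum, ← Finset.sum_add_distrib]
    refine Finset.sum_eq_zero fun i _ => ?_
    have h2 := congrFun hab i
    simp only [Pi.add_apply, Pi.smul_apply, smul_eq_mul, Pi.zero_apply] at h2
    have h3 := congrArg (C : ℂ → Pn 2) h2
    rw [map_add, map_mul, map_mul, map_zero] at h3
    linear_combination (f i) * h3
  have hb : b = 0 := by
    by_contra hb
    apply hnu
    apply hrel dvd_rfl
    refine ⟨-C (b⁻¹ * a), ?_⟩
    have h2 : (C b⁻¹ : Pn 2) * C b = 1 := by rw [← map_mul, inv_mul_cancel₀ hb, map_one]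
    rw [map_mul]
    linear_combination (-(∑ i, C (β i) * f i)) * h2 + C b⁻¹ * h1
  subst hb
  refine ⟨?_, rfl⟩
  have h2 := congrFun hab i0
  simpa using h2

end Pool.Agent.Helper50.FC
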