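import Pool.Agent.Helper71.FC.Rest
import Pool.Agent.Helper50.FC.TwoCop

/-! K1-15: (H): bounds for `dim E_k` of a plane form by restriction to a general line.
* `syz_finrank`: by `two_cop` and a change of basis of `ℂ³` (`α`, `β` are independent because `f`, `g` are coprime of degree 3; complete to a basis)
  the syzygies `a` become triples `(A1, A2, A3)` with `A1 f + A2 g + A3 h = 0`; the map `a ↦ A3` has values in degree `k + 2`
  (dimension `k + 3`) and kernel `{A1 f + A2 g = 0}` = multiples of `(g, -f)`, of dimension `k` (degree `k + 2 - 3`; `0` if `k = 0`).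
  Total `≤ 2 k + 3`.
* `H_bound`: `cop_gen` (`m = 2`, `n = 3`, the nine coefficients of `θ`) and `exists_basis` give coordinates in which the three coefficients of
  `θ` restricted to `x_0 = 0` are coprime.  Restriction `ξ ↦ (at0 (ξ 0), at0 (ξ 1), at0 (ξ 2))` maps `EE θ (k + 2)` to the syzygies of
  `(at0 θ 1 2, at0 θ 2 0, at0 θ 0 1)` with kernel `X 0 * EE θ (k + 1)`. -/

set_option autoImplicit false

namespace Pool.Agent.Helper50.FC

open MvPolynomial
open scoped BigOperators
open Pool.Agent.Helper71.FL (w12 pf ct Dec Closed dd at0 res)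
open Pool.Agent.Helper93 (lsub lmap OF pb)
open Pool.Agent.Helper71.FC

variable {n m k : ℕ}

/-- syzygies with coefficients of degree `k` -/
noncomputable def Syz (f : Fin 3 → Pn 2) (k : ℕ) : Submodule ℂ (Fin 3 → Pn 2) where
  carrier := {a | (∀ i, (a i).IsHomogeneous k) ∧ ∑ i, a i * f i = 0}
  add_mem' := by
    rintro a b ⟨h1, h2⟩ ⟨h3, h4⟩
    refine ⟨fun i => (h1 i).add (h3 i), ?_⟩
    simp only [Pi.add_apply, add_mul, Finset.sum_add_distrib, h2, h4, add_zero]
  zero_mem' := ⟨fun i => isHomogeneous_zero _ _ _, by simp⟩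
  smul_mem' := by
    rintro c a ⟨h1, h2⟩
    refine ⟨fun i => ?_, ?_⟩
    · have := (isHomogeneous_C (Fin 2) c).mul (h1 i)
      rw [zero_add] at this
      rw [Pi.smul_apply, smul_eq_C_mul]
      exact this
    · simp only [Pi.smul_apply, smul_mul_assoc, ← Finset.smul_sum, h2, smul_zero]

private theorem hb_hc_mul {f g : Pn n} {d : ℕ} (hg : g.IsHomogeneous d) (m : ℕ) :
    homogeneousComponent (m + d) (f * g) = homogeneousComponent m f * g := by
  have h1 : ∀ i, homogeneousComponent (m + d) (homogeneousComponent i f * g) =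
      if i = m then homogeneousComponent m f * g else 0 := by
    intro i
    rw [homogeneousComponent_of_mem (n := i + d) ((homogeneousComponent_isHomogeneous i f).mul hg)]
    by_cases h : i = m
    · rw [if_pos h, if_pos (by omega), h]
    · rw [if_neg h, if_neg (by omega)]
  conv_lhs => rw [← sum_homogeneousComponent f, Finset.sum_mul, map_sum]
  rw [Finset.sum_congr rfl (fun i _ => h1 i), Finset.sum_ite_eq']
  split_ifs with h
  · rfl
  · rw [homogeneousComponent_eq_zero, zero_mul]
    rw [Finset.mem_range] at h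
    omega

private theorem hb_hc_mul_lt {f g : Pn n} {d : ℕ} (hg : g.IsHomogeneous d) {m : ℕ} (hm : m < d) :
    homogeneousComponent m (f * g) = 0 := by
  have h1 : ∀ i, homogeneousComponent m (homogeneousComponent i f * g) = 0 := by
    intro i
    rw [homogeneousComponent_of_mem (n := i + d) ((homogeneousComponent_isHomogeneous i f).mul hg),
      if_neg (by omega)]
  conv_lhs => rw [← sum_homogeneousComponent f, Finset.sum_mul, map_sum]
  exact Finset.sum_eq_zero fun i _ => h1 i

private theorem hb_hom_of_mul {g : Pn (n + 1)} {d : ℕ} (h : (X 0 * g).IsHomogeneous (d + 1)) :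
    g.IsHomogeneous d := by
  intro m hm
  have h1 : coeff (Finsupp.single 0 1 + m) (X 0 * g) ≠ 0 := by
    rw [coeff_X_mul]; exact hm
  have h2 := h h1
  rw [Finsupp.weight_apply] at h2 ⊢
  rw [Finsupp.sum_add_index' (by simp) (by intro a b c; simp),
    Finsupp.sum_single_index (by simp)] at h2
  simp only [Pi.one_apply, smul_eq_mul, mul_one] at h2 ⊢
  omega

private theorem hb_at0_hom {f : Pn (n + 1)} {d : ℕ} (h : f.IsHomogeneous d) :
    (at0 n ℂ f).IsHomogeneous d := by
  rw [at0_eq_lsub]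
  exact lsub_hom h

/-- binary forms of degree `d` -/
private noncomputable def HH (d : ℕ) : Submodule ℂ (Pn 2) := homogeneousSubmodule (Fin 2) ℂ d

private noncomputable def hb_cf (d : ℕ) : Pn 2 →ₗ[ℂ] (Fin (d + 1) → ℂ) where
  toFun p := fun i => coeff (Finsupp.single 0 (i : ℕ) + Finsupp.single 1 (d - (i : ℕ))) p
  map_add' a b := by
    funext i
    exact coeff_add _ _ _
  map_smul' c a := by
    funext i
    exact coeff_smul _ _ _

private theorem hb_cf_inj {d : ℕ} {p : Pn 2} (hp : p.IsHomogeneous d) (h : hb_cf d p = 0) : p = 0 := by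
  ext ν
  rw [coeff_zero]
  by_cases hν : Finsupp.degree ν = d
  · have h1 : ν 0 + ν 1 = d := by
      rw [← hν, Finsupp.degree_eq_sum, Fin.sum_univ_two]
    have h2 : ν = Finsupp.single 0 (ν 0) + Finsupp.single 1 (d - ν 0) := by
      ext i
      fin_cases i
      · simp
      · simp
        omega
    have h3 := congrFun h (⟨ν 0, by omega⟩ : Fin (d + 1))
    rw [h2]
    exact h3
  · exact hp.coeff_eq_zero hν

private theorem hb_fin (d : ℕ) : Module.Finite ℂ (HH d) := by
  apply Module.Finite.of_injective ((hb_cf d).domRestrict (HH d))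
  intro a b hab
  apply Subtype.ext
  rw [← sub_eq_zero]
  apply hb_cf_inj ((HH d).sub_mem a.2 b.2)
  rw [map_sub, sub_eq_zero]
  exact hab

private theorem hb_dim (d : ℕ) : Module.finrank ℂ (HH d) ≤ d + 1 := by
  have h1 : Function.Injective ((hb_cf d).domRestrict (HH d)) := by
    intro a b hab
    apply Subtype.ext
    rw [← sub_eq_zero]
    apply hb_cf_inj ((HH d).sub_mem a.2 b.2)
    rw [map_sub, sub_eq_zero]
    exact hab
  have h2 := LinearMap.finrank_le_finrank_of_injective h1
  rwa [Module.finrank_fin_fun] at h2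

private theorem hb_fr_map {V W : Type} [AddCommGroup V] [Module ℂ V] [AddCommGroup W] [Module ℂ W]
    (f : V →ₗ[ℂ] W) (p : Submodule ℂ V) [FiniteDimensional ℂ p] :
    Module.finrank ℂ (p.map f) + Module.finrank ℂ (p ⊓ LinearMap.ker f : Submodule ℂ V) =
      Module.finrank ℂ p := by
  have h1 := LinearMap.finrank_range_add_finrank_ker (f.domRestrict p)
  rw [LinearMap.range_domRestrict, LinearMap.ker_domRestrict] at h1
  have h2 : Module.finrank ℂ ((LinearMap.ker f).comap p.subtype) =
      Module.finrank ℂ (p ⊓ LinearMap.ker f : Submodule ℂ V) := by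
    rw [← Submodule.map_comap_subtype, Submodule.finrank_map_subtype_eq]
  rw [← h2]
  exact h1

private noncomputable def hb_all (f : Fin 3 → Pn 2) (k : ℕ) : Syz f k →ₗ[ℂ] (Fin 3 → HH k) where
  toFun a := fun i => ⟨a.1 i, a.2.1 i⟩
  map_add' _ _ := rfl
  map_smul' _ _ := rfl

private theorem hb_fin_Syz (f : Fin 3 → Pn 2) (k : ℕ) : Module.Finite ℂ (Syz f k) := by
  have := hb_fin k
  apply Module.Finite.of_injective (hb_all f k)
  intro a b hab
  apply Subtype.ext
  funext i
  exact congrArg Subtype.val (congrFun hab i)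

/-- the linear map `a ↦ Σ c_i a_i` -/
private noncomputable def hb_lin (c : Fin 3 → ℂ) : (Fin 3 → Pn 2) →ₗ[ℂ] Pn 2 where
  toFun a := ∑ i, C (c i) * a i
  map_add' a b := by
    rw [← Finset.sum_add_distrib]
    refine Finset.sum_congr rfl fun i _ => ?_
    rw [Pi.add_apply, mul_add]
  map_smul' r a := by
    rw [RingHom.id_apply, smul_eq_C_mul, Finset.mul_sum]
    refine Finset.sum_congr rfl fun i _ => ?_
    rw [Pi.smul_apply, smul_eq_C_mul]
    ring

private theorem hb_lin_hom {c : Fin 3 → ℂ} {a : Fin 3 → Pn 2} {d : ℕ}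
    (ha : ∀ i, (a i).IsHomogeneous d) : (hb_lin c a).IsHomogeneous d := by
  show (∑ i, C (c i) * a i).IsHomogeneous d
  apply IsHomogeneous.sum
  intro i _
  have := (isHomogeneous_C (Fin 2) (c i)).mul (ha i)
  rwa [zero_add] at this

/-- multiples of a form of degree 3 in degree `k + 2` -/
private theorem hb_mult {G : Pn 2} (hG : G.IsHomogeneous 3) {k : ℕ} {M : Submodule ℂ (Pn 2)}
    (hM : ∀ p ∈ M, p.IsHomogeneous (k + 2) ∧ G ∣ p) : Module.finrank ℂ M ≤ k := by
  cases k with
  | zero =>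
    have h1 : M = ⊥ := by
      rw [eq_bot_iff]
      intro p hp
      rw [Submodule.mem_bot]
      obtain ⟨h1, c, hc⟩ := hM p hp
      rw [← homogeneousComponent_eq_self h1, hc, mul_comm]
      exact hb_hc_mul_lt hG (by norm_num)
    rw [h1, finrank_bot]
  | succ j =>
    have h1 : M ≤ (HH j).map (LinearMap.mulLeft ℂ G) := by
      intro p hp
      obtain ⟨h1, c, hc⟩ := hM p hp
      refine ⟨homogeneousComponent j c, homogeneousComponent_isHomogeneous _ _, ?_⟩
      rw [LinearMap.mulLeft_apply]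
      have h2 := homogeneousComponent_eq_self h1
      rw [← h2, hc, mul_comm G c, show j + 1 + 2 = j + 3 from rfl, hb_hc_mul hG, mul_comm]
    have := hb_fin j
    have h2 := Submodule.finrank_mono h1
    have h3 := Submodule.finrank_map_le (LinearMap.mulLeft ℂ G) (HH j)
    have h4 := hb_dim j
    omega

theorem syz_finrank {f : Fin 3 → Pn 2} (hf : ∀ i, (f i).IsHomogeneous 3) (h : CopF f) (k : ℕ) :
    Module.finrank ℂ (Syz f (k + 2)) ≤ 2 * k + 3 := by
  obtain ⟨α, β, hli, hcop⟩ := two_cop (by norm_num) hf h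
  obtain ⟨g, g', ⟨hg1, hg2⟩, hgv⟩ := exists_basis (n := 3) (r := 2) (by norm_num) ![α, β] hli
  have hα : ∀ i, g i 0 = α i := by
    intro i
    have h1 := congrFun (hgv 0) i
    have h2 : lmap g (fun j => if j = Fin.castLE (by norm_num : 2 ≤ 3) (0 : Fin 2) then 1 else 0) i =
        g i 0 := by
      show ∑ l, g i l * (if l = (0 : Fin 3) then (1 : ℂ) else 0) = g i 0
      simp
    rw [← h2, h1]
    rfl
  have hβ : ∀ i, g i 1 = β i := by
    intro i
    have h1 := congrFun (hgv 1) i
    have h2 : lmap g (fun j => if j = Fin.castLE (by norm_num : 2 ≤ 3) (1 : Fin 2) then 1 else 0) i =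
        g i 1 := by
      show ∑ l, g i l * (if l = (1 : Fin 3) then (1 : ℂ) else 0) = g i 1
      simp
    rw [← h2, h1]
    rfl
  set F : Pn 2 := ∑ i, C (α i) * f i with hF
  set G : Pn 2 := ∑ i, C (β i) * f i with hG
  have hFh : F.IsHomogeneous 3 := hb_lin_hom (c := α) hf
  have hGh : G.IsHomogeneous 3 := hb_lin_hom (c := β) hf
  have hG0 : G ≠ 0 := by
    intro h0
    rw [h0] at hcop
    have h1 : IsUnit F := hcop (dvd_refl _) (dvd_zero _)
    rw [MvPolynomial.isUnit_iff_eq_C_of_isReduced] at h1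
    obtain ⟨c, hc, hc'⟩ := h1
    have h2 : F.IsHomogeneous 0 := by
      rw [hc']
      exact isHomogeneous_C _ _
    have h3 : F ≠ 0 := by
      rw [hc']
      intro h4
      rw [C_eq_zero] at h4
      rw [h4] at hc
      exact not_isUnit_zero hc
    have h4 := h2.inj_right hFh h3
    norm_num at h4
  have := hb_fin_Syz f (k + 2)
  -- the third coordinate
  have e1 := hb_fr_map (hb_lin (g' 2)) (Syz f (k + 2))
  have h1 : Module.finrank ℂ ((Syz f (k + 2)).map (hb_lin (g' 2))) ≤ k + 3 := by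
    have h2 : (Syz f (k + 2)).map (hb_lin (g' 2)) ≤ HH (k + 2) := by
      rintro _ ⟨a, ha, rfl⟩
      exact hb_lin_hom ha.1
    have := hb_fin (k + 2)
    exact (Submodule.finrank_mono h2).trans (hb_dim (k + 2))
  set K : Submodule ℂ (Fin 3 → Pn 2) := Syz f (k + 2) ⊓ LinearMap.ker (hb_lin (g' 2)) with hK
  have : FiniteDimensional ℂ K := Submodule.finiteDimensional_of_le inf_le_left
  have e2 := hb_fr_map (hb_lin (g' 0)) K
  -- the relation in the new coordinates
  have key : ∀ a ∈ K, hb_lin (g' 0) a * F + hb_lin (g' 1) a * G = 0 := by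
    rintro a ⟨ha, ha2⟩
    have h0 : hb_lin (g' 2) a = 0 := LinearMap.mem_ker.1 ha2
    have h3 : ∀ i, C (g i 0) * hb_lin (g' 0) a + C (g i 1) * hb_lin (g' 1) a = a i := by
      intro i
      have h4 : ∀ j, g i 0 * g' 0 j + g i 1 * g' 1 j + g i 2 * g' 2 j = if i = j then 1 else 0 := by
        intro j
        have h5 := congrFun (congrFun hg1 i) j
        unfold mm idm at h5
        rw [Fin.sum_univ_three] at h5
        exact h5
      have h5 : C (g i 0) * hb_lin (g' 0) a + C (g i 1) * hb_lin (g' 1) a +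
          C (g i 2) * hb_lin (g' 2) a = a i := by
        show C (g i 0) * (∑ j, C (g' 0 j) * a j) + C (g i 1) * (∑ j, C (g' 1 j) * a j) +
          C (g i 2) * (∑ j, C (g' 2 j) * a j) = a i
        rw [Finset.mul_sum, Finset.mul_sum, Finset.mul_sum, ← Finset.sum_add_distrib,
          ← Finset.sum_add_distrib]
        have h6 : ∀ j, C (g i 0) * (C (g' 0 j) * a j) + C (g i 1) * (C (g' 1 j) * a j) +
            C (g i 2) * (C (g' 2 j) * a j) = if i = j then a j else 0 := by
          intro j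
          have h7 := congrArg (C : ℂ → Pn 2) (h4 j)
          rw [C_add, C_add, C_mul, C_mul, C_mul] at h7
          split_ifs with hij
          · rw [if_pos hij, C_1] at h7
            linear_combination (a j) * h7
          · rw [if_neg hij, C_0] at h7
            linear_combination (a j) * h7
        rw [Finset.sum_congr rfl fun j _ => h6 j, Finset.sum_ite_eq, if_pos (Finset.mem_univ _)]
      rw [h0, mul_zero, add_zero] at h5
      exact h5
    have h6 := ha.2
    have h7 : hb_lin (g' 0) a * F + hb_lin (g' 1) a * G = ∑ i, a i * f i := by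
      rw [hF, hG, Finset.mul_sum, Finset.mul_sum, ← Finset.sum_add_distrib]
      refine Finset.sum_congr rfl fun i _ => ?_
      rw [← h3 i, hα, hβ]
      ring
    rw [h7, h6]
  have h2 : K ⊓ LinearMap.ker (hb_lin (g' 0)) = ⊥ := by
    rw [eq_bot_iff]
    rintro a ⟨ha, ha0⟩
    rw [Submodule.mem_bot]
    have h3 := key a ha
    have h4 : hb_lin (g' 0) a = 0 := LinearMap.mem_ker.1 ha0
    rw [h4, zero_mul, zero_add] at h3
    have h5 : hb_lin (g' 1) a = 0 := (mul_eq_zero.1 h3).resolve_right hG0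
    have h6 : hb_lin (g' 2) a = 0 := LinearMap.mem_ker.1 ha.2
    funext i
    have h4' : ∀ j, g i 0 * g' 0 j + g i 1 * g' 1 j + g i 2 * g' 2 j = if i = j then 1 else 0 := by
      intro j
      have h5 := congrFun (congrFun hg1 i) j
      unfold mm idm at h5
      rw [Fin.sum_univ_three] at h5
      exact h5
    have h8 : C (g i 0) * hb_lin (g' 0) a + C (g i 1) * hb_lin (g' 1) a +
        C (g i 2) * hb_lin (g' 2) a = a i := by
      show C (g i 0) * (∑ j, C (g' 0 j) * a j) + C (g i 1) * (∑ j, C (g' 1 j) * a j) +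
        C (g i 2) * (∑ j, C (g' 2 j) * a j) = a i
      rw [Finset.mul_sum, Finset.mul_sum, Finset.mul_sum, ← Finset.sum_add_distrib,
        ← Finset.sum_add_distrib]
      have h6 : ∀ j, C (g i 0) * (C (g' 0 j) * a j) + C (g i 1) * (C (g' 1 j) * a j) +
          C (g i 2) * (C (g' 2 j) * a j) = if i = j then a j else 0 := by
        intro j
        have h7 := congrArg (C : ℂ → Pn 2) (h4' j)
        rw [C_add, C_add, C_mul, C_mul, C_mul] at h7
        split_ifs with hij
        · rw [if_pos hij, C_1] at h7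
          linear_combination (a j) * h7
        · rw [if_neg hij, C_0] at h7
          linear_combination (a j) * h7
      rw [Finset.sum_congr rfl fun j _ => h6 j, Finset.sum_ite_eq, if_pos (Finset.mem_univ _)]
    rw [← h8, h4, h5, h6, mul_zero, mul_zero, mul_zero, add_zero, add_zero]
    rfl
  rw [h2, finrank_bot, add_zero] at e2
  have h3 : Module.finrank ℂ (K.map (hb_lin (g' 0))) ≤ k := by
    apply hb_mult hGh
    rintro _ ⟨a, ha, rfl⟩
    refine ⟨hb_lin_hom ha.1.1, ?_⟩
    have h4 : G ∣ hb_lin (g' 0) a * F := by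
      refine ⟨-hb_lin (g' 1) a, ?_⟩
      linear_combination key a ha
    exact hcop.symm.dvd_of_dvd_mul_right h4
  omega

private noncomputable def hb_R : F1 3 →ₗ[ℂ] (Fin 3 → Pn 2) where
  toFun ξ := fun i => at0 2 ℂ (ξ i)
  map_add' a b := by
    funext i
    show at0 2 ℂ (a i + b i) = at0 2 ℂ (a i) + at0 2 ℂ (b i)
    rw [map_add]
  map_smul' c a := by
    funext i
    show at0 2 ℂ (c • a i) = c • at0 2 ℂ (a i)
    rw [map_smul]

private noncomputable def hb_x1 : F1 3 →ₗ[ℂ] F1 3 where
  toFun ξ := fun i => X 0 * ξ i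
  map_add' a b := by
    funext i
    show X 0 * (a i + b i) = X 0 * a i + X 0 * b i
    ring
  map_smul' c a := by
    funext i
    show X 0 * (c • a i) = c • (X 0 * a i)
    rw [smul_eq_C_mul, smul_eq_C_mul]
    ring

private theorem hb_special {θ : F2 3} (h : Fol θ) (hc : ∀ p, (∀ i j, p ∣ at0 2 ℂ (θ i j)) → IsUnit p)
    (k : ℕ) :
    Module.finrank ℂ (EE θ (k + 2)) ≤ Module.finrank ℂ (EE θ (k + 1)) + (2 * k + 3) := by
  set f : Fin 3 → Pn 2 := ![at0 2 ℂ (θ 1 2), at0 2 ℂ (θ 2 0), at0 2 ℂ (θ 0 1)] with hf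
  have hfh : ∀ i, (f i).IsHomogeneous 3 := by
    intro i
    fin_cases i
    · exact hb_at0_hom (h.hom 1 2)
    · exact hb_at0_hom (h.hom 2 0)
    · exact hb_at0_hom (h.hom 0 1)
  have hfc : CopF f := by
    intro p hp
    have h0 : p ∣ at0 2 ℂ (θ 1 2) := hp 0
    have h1 : p ∣ at0 2 ℂ (θ 2 0) := hp 1
    have h2 : p ∣ at0 2 ℂ (θ 0 1) := hp 2
    apply hc
    intro i j
    fin_cases i <;> fin_cases j
    · show p ∣ at0 2 ℂ (θ 0 0)
      rw [h.dec.1, map_zero]
      exact dvd_zero _
    · exact h2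
    · show p ∣ at0 2 ℂ (θ 0 2)
      rw [h.dec.2.1, map_neg]
      exact (dvd_neg).2 h1
    · show p ∣ at0 2 ℂ (θ 1 0)
      rw [h.dec.2.1, map_neg]
      exact (dvd_neg).2 h2
    · show p ∣ at0 2 ℂ (θ 1 1)
      rw [h.dec.1, map_zero]
      exact dvd_zero _
    · exact h0
    · exact h1
    · show p ∣ at0 2 ℂ (θ 2 1)
      rw [h.dec.2.1, map_neg]
      exact (dvd_neg).2 h0
    · show p ∣ at0 2 ℂ (θ 2 2)
      rw [h.dec.1, map_zero]
      exact dvd_zero _
  have i1 := finite_EE θ (k + 2)
  have i2 := finite_EE θ (k + 1)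
  have e1 := hb_fr_map hb_R (EE θ (k + 2))
  have h1 : (EE θ (k + 2)).map hb_R ≤ Syz f (k + 2) := by
    rintro _ ⟨ξ, hξ, rfl⟩
    refine ⟨fun i => hb_at0_hom (hξ.1 i), ?_⟩
    rw [Fin.sum_univ_three]
    have h2 := congrArg (at0 2 ℂ) (hξ.2 0 1 2)
    unfold w12 at h2
    rw [map_zero, map_add, map_add, map_mul, map_mul, map_mul] at h2
    exact h2
  have h2 : EE θ (k + 2) ⊓ LinearMap.ker hb_R ≤ (EE θ (k + 1)).map hb_x1 := by
    rintro ξ ⟨hξ, hξ0⟩
    have h3 : ∀ i, ∃ g, ξ i = X 0 * g := by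
      intro i
      rw [← at0_eq_zero_iff]
      exact congrFun (LinearMap.mem_ker.1 hξ0) i
    choose η hη using h3
    refine ⟨η, ⟨fun i => ?_, fun i j l => ?_⟩, (funext hη).symm⟩
    · apply hb_hom_of_mul
      rw [← hη]
      exact hξ.1 i
    · have h4 := hξ.2 i j l
      have h5 : ξ = fun l => X 0 * η l := funext hη
      rw [h5] at h4
      have h6 := Pool.Agent.Helper71.FL.w12_smul (X 0) η θ i j l
      rw [h6] at h4
      exact (mul_eq_zero.1 h4).resolve_left (X_ne_zero 0)
  have i3 := hb_fin_Syz f (k + 2)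
  have e2 := Submodule.finrank_mono h1
  have e3 := Submodule.finrank_mono h2
  have e4 := Submodule.finrank_map_le hb_x1 (EE θ (k + 1))
  have e5 := syz_finrank hfh hfc k
  omega

private theorem hb_sig (g : Fin 3 → Fin 3 → ℂ) :
    mm g (fun (k : Fin (2 + 1)) (l : Fin 2) => if k = l.succ then (1 : ℂ) else 0) =
      fun i (j : Fin 2) => g i j.succ := by
  funext i j
  show ∑ l, g i l * (if l = j.succ then (1 : ℂ) else 0) = g i j.succ
  simp

private theorem hb_at0_lsub (g : Fin 3 → Fin 3 → ℂ) (f : Pn 3) :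
    lsub (fun i (j : Fin 2) => g i j.succ) f = at0 2 ℂ (lsub g f) := by
  rw [at0_eq_lsub, lsub_mm, hb_sig]

private theorem hb_pull {g g' : Fin 3 → Fin 3 → ℂ} (hg : Inv g g') (θ : F2 3) (a b : Fin 3) :
    lsub g (θ a b) = ∑ k, ∑ l, C (g' k a * g' l b) * pb2 g θ k l := by
  have h6 : pb2 g' (pb2 g θ) = θ := by
    rw [pb2_mm, hg.1, pb2_idm]
  have h8 : θ a b = ∑ k, ∑ l, C (g' k a * g' l b) * lsub g' (pb2 g θ k l) :=
    (congrFun (congrFun h6 a) b).symm
  rw [h8, map_sum]
  refine Finset.sum_congr rfl fun k _ => ?_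
  rw [map_sum]
  refine Finset.sum_congr rfl fun l _ => ?_
  rw [map_mul, lsub_mm, hg.2, lsub_idm]
  congr 1
  unfold lsub
  rw [aeval_C]
  rfl

theorem H_bound {θ : F2 3} (h : Fol θ) (k : ℕ) :
    Module.finrank ℂ (EE θ (k + 2)) ≤ Module.finrank ℂ (EE θ (k + 1)) + (2 * k + 3) := by
  have h1 : CopF (fun q : Fin 3 × Fin 3 => θ q.1 q.2) :=
    fun p hp => h.prim p fun i j => hp (i, j)
  have h2 := cop_gen (m := 2) (n := 3) (d := 3) (le_refl 2) (by norm_num)
    (f := fun q : Fin 3 × Fin 3 => θ q.1 q.2) (fun q => h.hom _ _) h1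
  obtain ⟨g, h3, g', hg⟩ := ((h2.cols (k := 3) Fin.succ (Fin.succ_injective 2)).and
    (GenM.inv 3)).exists
  have hq : ∀ p, (∀ i j, p ∣ at0 2 ℂ (pb2 g θ i j)) → IsUnit p := by
    intro p hp
    refine h3 p fun q => ?_
    obtain ⟨a, b⟩ := q
    have h5 : lsub (fun i (j : Fin 2) => g i j.succ) (θ a b) =
        ∑ k, ∑ l, at0 2 ℂ (C (g' k a * g' l b)) * at0 2 ℂ (pb2 g θ k l) := by
      rw [hb_at0_lsub, hb_pull hg, map_sum]
      refine Finset.sum_congr rfl fun k _ => ?_
      rw [map_sum]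
      refine Finset.sum_congr rfl fun l _ => ?_
      rw [map_mul]
    have h6 : p ∣ lsub (fun i (j : Fin 2) => g i j.succ) (θ a b) := by
      rw [h5]
      exact Finset.dvd_sum fun k _ => Finset.dvd_sum fun l _ => (hp k l).mul_left _
    exact h6
  have h4 := hb_special (Fol_pb2 h hg) hq k
  rwa [finrank_EE_pb2 θ _ hg, finrank_EE_pb2 θ _ hg] at h4

theorem H3 {θ : F2 3} (h : Fol θ) (h2 : EE θ 2 = ⊥) : Module.finrank ℂ (EE θ 3) ≤ 5 := by
  have := H_bound h 1
  rw [show (1 + 2 : ℕ) = 3 from rfl, show (1 + 1 : ℕ) = 2 from rfl, h2] at this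
  simpa using this

theorem H4 {θ : F2 3} (h : Fol θ) (h2 : EE θ 2 = ⊥) : Module.finrank ℂ (EE θ 4) ≤ 12 := by
  have h3 := H3 h h2
  have := H_bound h 2
  rw [show (2 + 2 : ℕ) = 4 from rfl, show (2 + 1 : ℕ) = 3 from rfl] at this
  omega

end Pool.Agent.Helper50.FC
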