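import Pool.Agent.Helper71.FC.Defs

/-! K1-3: linear substitutions and forms.  `lsub φ`, `pb φ`, `pb2 φ` for `φ : Fin n → Fin m → ℂ`
(`lsub φ (X k) = ∑ l, C (φ k l) * X l`, `pb φ ξ i = ∑ j, C (φ j i) * lsub φ (ξ j)`).
Proofs: chain rule by `MvPolynomial.induction_on`; the rest is index bookkeeping (`Finset.sum_comm`, `Finset.mul_sum`).
`w12_pb`: both sides are `∑ a b c, C (φ a i * φ b j * φ c k) * lsub φ (w12 ξ θ a b c)`.  For `pb2_comp` use
`lsub ψ (lsub φ f) = lsub (φψ) f`. -/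

set_option autoImplicit false

namespace Pool.Agent.Helper50.FC

open MvPolynomial
open Pool.Agent.Helper71.FC
open Pool.Agent.Helper71.FL (w12 pf ct Dec Closed dd)
open Pool.Agent.Helper93 (lsub lmap OF pb)
open scoped BigOperators

variable {n m k : ℕ}

/-- matrix product -/
def mm (φ : Fin n → Fin m → ℂ) (ψ : Fin m → Fin k → ℂ) : Fin n → Fin k → ℂ := fun i l => ∑ j, φ i j * ψ j l

/-- the identity matrix -/
def one (n : ℕ) : Fin n → Fin n → ℂ := fun i j => if i = j then 1 else 0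

theorem lsub_X (φ : Fin n → Fin m → ℂ) (i : Fin n) : lsub φ (X i) = ∑ l, C (φ i l) * X l := by
  unfold lsub; rw [aeval_X]

theorem lsub_hom (φ : Fin n → Fin m → ℂ) {f : Pn n} {d : ℕ} (hf : f.IsHomogeneous d) :
    (lsub φ f).IsHomogeneous d := by
  unfold lsub
  have h := hf.aeval (n := 1) (fun k => ∑ l, C (φ k l) * X l) (fun k => ?_)
  · rw [one_mul] at h
    exact h
  · refine IsHomogeneous.sum _ _ _ (fun l _ => ?_)
    have := (isHomogeneous_C (Fin m) (φ k l)).mul (isHomogeneous_X ℂ l)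
    rw [zero_add] at this
    exact this

theorem pderiv_lsub (φ : Fin n → Fin m → ℂ) (f : Pn n) (l : Fin m) :
    pderiv l (lsub φ f) = ∑ i, C (φ i l) * lsub φ (pderiv i f) := by
  induction f using MvPolynomial.induction_on with
  | C c =>
    have h1 : lsub φ (C c) = C c := by unfold lsub; rw [aeval_C]; rfl
    rw [h1, pderiv_C]
    symm
    refine Finset.sum_eq_zero fun i _ => ?_
    rw [pderiv_C, map_zero, mul_zero]
  | add p q hp hq =>
    rw [map_add, map_add, hp, hq, ← Finset.sum_add_distrib]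
    refine Finset.sum_congr rfl fun i _ => ?_
    rw [map_add, map_add, mul_add]
  | mul_X p k hp =>
    have h1 : pderiv l (lsub φ (X k)) = C (φ k l) := by
      rw [lsub_X, map_sum, Finset.sum_eq_single l]
      · rw [pderiv_mul, pderiv_C, pderiv_X_self, zero_mul, zero_add, mul_one]
      · intro b _ hb
        rw [pderiv_mul, pderiv_C, pderiv_X_of_ne hb, zero_mul, zero_add, mul_zero]
      · intro h; exact absurd (Finset.mem_univ _) h
    rw [map_mul, pderiv_mul, hp, h1, Finset.sum_mul]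
    have h2 : ∀ i, C (φ i l) * lsub φ (pderiv i (p * X k)) =
        C (φ i l) * lsub φ (pderiv i p) * lsub φ (X k) +
          (if k = i then lsub φ p * C (φ i l) else 0) := by
      intro i
      rw [pderiv_mul, map_add, map_mul, map_mul, pderiv_X]
      by_cases hki : k = i
      · subst hki
        rw [if_pos rfl, Pi.single_eq_same, map_one]
        ring
      · rw [if_neg hki, Pi.single_eq_of_ne hki, map_zero]
        ring
    rw [Finset.sum_congr rfl (fun i _ => h2 i), Finset.sum_add_distrib, Finset.sum_ite_eq,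
      if_pos (Finset.mem_univ _)]

theorem df_lsub (φ : Fin n → Fin m → ℂ) (f : Pn n) : df (lsub φ f) = pb φ (df f) := by
  funext l
  exact pderiv_lsub φ f l

private theorem lsub_C (φ : Fin n → Fin m → ℂ) (c : ℂ) : lsub φ (C c) = C c := by
  unfold lsub; rw [aeval_C]; rfl

private theorem lsub_Cm (φ : Fin n → Fin m → ℂ) (c : ℂ) (f : Pn n) :
    lsub φ (C c * f) = C c * lsub φ f := by
  rw [map_mul, lsub_C]

private theorem s2 {A : Type} [AddCommMonoid A] {a b : ℕ} (F : Fin a → Fin b → A) :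
    ∑ x, ∑ y, F x y = ∑ y, ∑ x, F x y := Finset.sum_comm

private theorem s3a {A : Type} [AddCommMonoid A] {a b c : ℕ} (F : Fin a → Fin b → Fin c → A) :
    ∑ y, ∑ z, ∑ x, F x y z = ∑ x, ∑ y, ∑ z, F x y z := by
  calc ∑ y, ∑ z, ∑ x, F x y z = ∑ y, ∑ x, ∑ z, F x y z :=
        Finset.sum_congr rfl fun y _ => Finset.sum_comm
    _ = _ := Finset.sum_comm

private theorem s3b {A : Type} [AddCommMonoid A] {a b c : ℕ} (F : Fin a → Fin b → Fin c → A) :
    ∑ z, ∑ x, ∑ y, F x y z = ∑ x, ∑ y, ∑ z, F x y z := by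
  calc ∑ z, ∑ x, ∑ y, F x y z = ∑ x, ∑ z, ∑ y, F x y z := Finset.sum_comm
    _ = _ := Finset.sum_congr rfl fun x _ => Finset.sum_comm

private theorem s4 {A : Type} [AddCommMonoid A] {a b c d : ℕ}
    (F : Fin a → Fin b → Fin c → Fin d → A) :
    ∑ p, ∑ q, ∑ x, ∑ y, F x y p q = ∑ x, ∑ y, ∑ p, ∑ q, F x y p q := by
  calc ∑ p, ∑ q, ∑ x, ∑ y, F x y p q = ∑ x, ∑ p, ∑ q, ∑ y, F x y p q :=
        s3a (fun x p q => ∑ y, F x y p q)
    _ = _ := Finset.sum_congr rfl fun x _ => s3a (fun y p q => F x y p q)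

private theorem mul_ss {A : Type} [CommRing A] {a b c : ℕ} (f : Fin a → A)
    (g : Fin b → Fin c → A) :
    (∑ x, f x) * (∑ y, ∑ z, g y z) = ∑ x, ∑ y, ∑ z, f x * g y z := by
  rw [Finset.sum_mul]
  refine Finset.sum_congr rfl fun x _ => ?_
  rw [Finset.mul_sum]
  refine Finset.sum_congr rfl fun y _ => ?_
  rw [Finset.mul_sum]

private theorem ss_mul_ss {A : Type} [CommRing A] {a b c d : ℕ} (f : Fin a → Fin b → A)
    (g : Fin c → Fin d → A) :
    (∑ x, ∑ y, f x y) * (∑ z, ∑ w, g z w) = ∑ x, ∑ y, ∑ z, ∑ w, f x y * g z w := by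
  rw [Finset.sum_mul]
  refine Finset.sum_congr rfl fun x _ => ?_
  rw [mul_ss]

theorem lsub_lsub (φ : Fin n → Fin m → ℂ) (ψ : Fin m → Fin k → ℂ) (f : Pn n) :
    lsub ψ (lsub φ f) = lsub (mm φ ψ) f := by
  have h : (lsub ψ).comp (lsub φ) = lsub (mm φ ψ) := by
    refine MvPolynomial.algHom_ext fun i => ?_
    rw [AlgHom.comp_apply, lsub_X, lsub_X, map_sum]
    have h1 : ∀ j, lsub ψ (C (φ i j) * X j) = ∑ l, C (φ i j * ψ j l) * X l := by
      intro j
      rw [map_mul, lsub_C, lsub_X, Finset.mul_sum]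
      refine Finset.sum_congr rfl fun l _ => ?_
      rw [C_mul, mul_assoc]
    rw [Finset.sum_congr rfl (fun j _ => h1 j), Finset.sum_comm]
    refine Finset.sum_congr rfl fun l _ => ?_
    rw [← Finset.sum_mul, ← map_sum]
    rfl
  exact congrArg (fun g : Pn n →ₐ[ℂ] Pn k => g f) h

theorem lsub_one (f : Pn n) : lsub (one n) f = f := by
  have h : lsub (one n) = AlgHom.id ℂ (Pn n) := by
    refine MvPolynomial.algHom_ext fun i => ?_
    rw [lsub_X, AlgHom.id_apply, Finset.sum_eq_single i]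
    · unfold one
      rw [if_pos rfl, C_1, one_mul]
    · intro b _ hb
      unfold one
      rw [if_neg (Ne.symm hb), C_0, zero_mul]
    · intro h; exact absurd (Finset.mem_univ _) h
  rw [h]
  rfl

theorem pb_pb' (φ : Fin n → Fin m → ℂ) (ψ : Fin m → Fin k → ℂ) (ξ : F1 n) :
    pb ψ (pb φ ξ) = pb (mm φ ψ) ξ := by
  funext l
  unfold pb
  have h1 : ∀ j, C (ψ j l) * lsub ψ (∑ i, C (φ i j) * lsub φ (ξ i)) =
      ∑ i, C (φ i j * ψ j l) * lsub (mm φ ψ) (ξ i) := by
    intro j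
    rw [map_sum, Finset.mul_sum]
    refine Finset.sum_congr rfl fun i _ => ?_
    rw [map_mul, lsub_C, lsub_lsub, C_mul]
    ring
  rw [Finset.sum_congr rfl (fun j _ => h1 j), Finset.sum_comm]
  refine Finset.sum_congr rfl fun i _ => ?_
  rw [← Finset.sum_mul, ← map_sum]
  rfl

theorem pb_one (ξ : F1 n) : pb (one n) ξ = ξ := by
  funext l
  unfold pb
  rw [Finset.sum_eq_single l]
  · unfold one
    rw [if_pos rfl, C_1, one_mul]
    exact lsub_one _
  · intro b _ hb
    unfold one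
    rw [if_neg hb, C_0, zero_mul]
  · intro h; exact absurd (Finset.mem_univ _) h

theorem pb2_pb2 (φ : Fin n → Fin m → ℂ) (ψ : Fin m → Fin k → ℂ) (θ : F2 n) :
    pb2 ψ (pb2 φ θ) = pb2 (mm φ ψ) θ := by
  funext i j
  unfold pb2
  have h1 : ∀ p q, C (ψ p i * ψ q j) * lsub ψ (∑ a, ∑ b, C (φ a p * φ b q) * lsub φ (θ a b)) =
      ∑ a, ∑ b, C ((φ a p * ψ p i) * (φ b q * ψ q j)) * lsub (mm φ ψ) (θ a b) := by
    intro p q
    rw [map_sum, Finset.mul_sum]
    refine Finset.sum_congr rfl fun a _ => ?_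
    rw [map_sum, Finset.mul_sum]
    refine Finset.sum_congr rfl fun b _ => ?_
    rw [lsub_Cm, lsub_lsub, ← mul_assoc, ← C_mul]
    congr 2
    ring
  rw [Finset.sum_congr rfl (fun p _ => Finset.sum_congr rfl (fun q _ => h1 p q)),
    s4 (fun a b p q => C ((φ a p * ψ p i) * (φ b q * ψ q j)) * lsub (mm φ ψ) (θ a b))]
  refine Finset.sum_congr rfl fun a _ => Finset.sum_congr rfl fun b _ => ?_
  have h3 : mm φ ψ a i * mm φ ψ b j = ∑ p, ∑ q, (φ a p * ψ p i) * (φ b q * ψ q j) := by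
    unfold mm
    rw [Finset.sum_mul_sum]
  rw [h3, map_sum, Finset.sum_mul]
  refine Finset.sum_congr rfl fun p _ => ?_
  rw [map_sum, Finset.sum_mul]

theorem pb2_one (θ : F2 n) : pb2 (one n) θ = θ := by
  funext i j
  unfold pb2
  rw [Finset.sum_eq_single i, Finset.sum_eq_single j]
  · unfold one
    rw [if_pos rfl, if_pos rfl, mul_one, C_1, one_mul]
    exact lsub_one _
  · intro b _ hb
    unfold one
    rw [if_neg hb, mul_zero, C_0, zero_mul]
  · intro h; exact absurd (Finset.mem_univ _) h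
  · intro b _ hb
    refine Finset.sum_eq_zero fun l _ => ?_
    unfold one
    rw [if_neg hb, zero_mul, C_0, zero_mul]
  · intro h; exact absurd (Finset.mem_univ _) h

theorem pb2_w11 (φ : Fin n → Fin m → ℂ) (α β : F1 n) :
    pb2 φ (w11 α β) = w11 (pb φ α) (pb φ β) := by
  funext i j
  unfold pb2 w11 pb
  rw [Finset.sum_mul_sum, Finset.sum_mul_sum,
    s2 (fun x y => C (φ x j) * lsub φ (α x) * (C (φ y i) * lsub φ (β y))),
    ← Finset.sum_sub_distrib]
  refine Finset.sum_congr rfl fun a _ => ?_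
  rw [← Finset.sum_sub_distrib]
  refine Finset.sum_congr rfl fun b _ => ?_
  simp only [map_sub, map_mul]
  ring

theorem w12_pb (φ : Fin n → Fin m → ℂ) (ξ : F1 n) (θ : F2 n) (i j l : Fin m) :
    w12 (pb φ ξ) (pb2 φ θ) i j l =
      ∑ a, ∑ b, ∑ c, C (φ a i * φ b j * φ c l) * lsub φ (w12 ξ θ a b c) := by
  unfold w12 pb pb2
  rw [mul_ss, mul_ss, mul_ss,
    s3a (fun a b c => C (φ b j) * lsub φ (ξ b) * (C (φ c l * φ a i) * lsub φ (θ c a))),
    s3b (fun a b c => C (φ c l) * lsub φ (ξ c) * (C (φ a i * φ b j) * lsub φ (θ a b))),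
    ← Finset.sum_add_distrib, ← Finset.sum_add_distrib]
  refine Finset.sum_congr rfl fun a _ => ?_
  rw [← Finset.sum_add_distrib, ← Finset.sum_add_distrib]
  refine Finset.sum_congr rfl fun b _ => ?_
  rw [← Finset.sum_add_distrib, ← Finset.sum_add_distrib]
  refine Finset.sum_congr rfl fun c _ => ?_
  simp only [map_add, map_mul]
  ring

theorem pb2_hom (φ : Fin n → Fin m → ℂ) {θ : F2 n} {d : ℕ} (h : ∀ i j, (θ i j).IsHomogeneous d) (i j : Fin m) :
    (pb2 φ θ i j).IsHomogeneous d := by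
  unfold pb2
  refine IsHomogeneous.sum _ _ _ (fun a _ => IsHomogeneous.sum _ _ _ (fun b _ => ?_))
  have := (isHomogeneous_C (Fin m) (φ a i * φ b j)).mul (lsub_hom φ (h a b))
  rw [zero_add] at this
  exact this

theorem pb_hom (φ : Fin n → Fin m → ℂ) {ξ : F1 n} {d : ℕ} (h : ∀ i, (ξ i).IsHomogeneous d) (i : Fin m) :
    (pb φ ξ i).IsHomogeneous d := by
  unfold pb
  refine IsHomogeneous.sum _ _ _ (fun a _ => ?_)
  have := (isHomogeneous_C (Fin m) (φ a i)).mul (lsub_hom φ (h a))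
  rw [zero_add] at this
  exact this

theorem Dec_pb2 (φ : Fin n → Fin m → ℂ) {θ : F2 n} (h : Dec θ) : Dec (pb2 φ θ) := by
  have h2 : ∀ i j, pb2 φ θ i j = - pb2 φ θ j i := by
    intro i j
    unfold pb2
    rw [s2 (fun a b => C (φ a i * φ b j) * lsub φ (θ a b)), ← Finset.sum_neg_distrib]
    refine Finset.sum_congr rfl fun a _ => ?_
    rw [← Finset.sum_neg_distrib]
    refine Finset.sum_congr rfl fun b _ => ?_
    rw [h.2.1 b a, map_neg, mul_comm (φ b i)]
    ring
  refine ⟨fun i => ?_, h2, fun i j k l => ?_⟩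
  · have h3 := h2 i i
    have h4 : (2 : MvPolynomial (Fin m) ℂ) * pb2 φ θ i i = 0 := by
      rw [two_mul]
      nth_rewrite 1 [h3]
      exact neg_add_cancel _
    rcases mul_eq_zero.mp h4 with h5 | h5
    · exact absurd h5 two_ne_zero
    · exact h5
  · have h0 : pf (pb2 φ θ) i j k l = ∑ a, ∑ b, ∑ c, ∑ d,
        C (φ a i * φ b j * φ c k * φ d l) * lsub φ (pf θ a b c d) := by
      unfold pf pb2
      rw [ss_mul_ss, ss_mul_ss, ss_mul_ss, ← Finset.sum_sub_distrib, ← Finset.sum_add_distrib]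
      refine Finset.sum_congr rfl fun a _ => ?_
      rw [s2 (fun c b => ∑ d, C (φ a i * φ c k) * lsub φ (θ a c) *
          (C (φ b j * φ d l) * lsub φ (θ b d))),
        s3b (fun b c d => C (φ a i * φ d l) * lsub φ (θ a d) *
          (C (φ b j * φ c k) * lsub φ (θ b c))), ← Finset.sum_sub_distrib,
        ← Finset.sum_add_distrib]
      refine Finset.sum_congr rfl fun b _ => ?_
      rw [← Finset.sum_sub_distrib, ← Finset.sum_add_distrib]
      refine Finset.sum_congr rfl fun c _ => ?_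
      rw [← Finset.sum_sub_distrib, ← Finset.sum_add_distrib]
      refine Finset.sum_congr rfl fun d _ => ?_
      simp only [map_add, map_sub, map_mul]
      ring
    rw [h0]
    refine Finset.sum_eq_zero fun a _ => Finset.sum_eq_zero fun b _ =>
      Finset.sum_eq_zero fun c _ => Finset.sum_eq_zero fun d _ => ?_
    rw [h.2.2, map_zero, mul_zero]

theorem Closed_pb2 (φ : Fin n → Fin m → ℂ) {θ : F2 n} (h0 : ∀ i, θ i i = 0) (h1 : ∀ i j, θ i j = - θ j i)
    (h : Closed θ) : Closed (pb2 φ θ) := by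
  intro i j l
  have hp : ∀ i j l, pderiv i (pb2 φ θ j l) =
      ∑ a, ∑ b, ∑ c, C (φ a i * φ b j * φ c l) * lsub φ (pderiv a (θ b c)) := by
    intro i j l
    rw [← s3a (fun a b c => C (φ a i * φ b j * φ c l) * lsub φ (pderiv a (θ b c)))]
    unfold pb2
    rw [map_sum]
    refine Finset.sum_congr rfl fun b _ => ?_
    rw [map_sum]
    refine Finset.sum_congr rfl fun c _ => ?_
    rw [pderiv_mul, pderiv_C, zero_mul, zero_add, pderiv_lsub, Finset.mul_sum]
    refine Finset.sum_congr rfl fun a _ => ?_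
    simp only [C_mul]
    ring
  rw [hp, hp, hp, s3a (fun x y z => C (φ y j * φ z l * φ x i) * lsub φ (pderiv y (θ z x))),
    s3b (fun x y z => C (φ z l * φ x i * φ y j) * lsub φ (pderiv z (θ x y))),
    ← Finset.sum_add_distrib, ← Finset.sum_add_distrib]
  refine Finset.sum_eq_zero fun a _ => ?_
  rw [← Finset.sum_add_distrib, ← Finset.sum_add_distrib]
  refine Finset.sum_eq_zero fun b _ => ?_
  rw [← Finset.sum_add_distrib, ← Finset.sum_add_distrib]
  refine Finset.sum_eq_zero fun c _ => ?_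
  have h2 := congrArg (lsub φ) (h a b c)
  simp only [map_add, map_zero] at h2
  have h3 := congrArg (fun x => C (φ a i) * C (φ b j) * C (φ c l) * x) h2
  simp only [mul_zero] at h3
  rw [← h3]
  simp only [C_mul]
  ring

theorem dd_pb (φ : Fin n → Fin m → ℂ) (A : F1 n) : dd (pb φ A) = pb2 φ (dd A) := by
  funext i j
  unfold dd pb pb2
  have hp : ∀ i j, pderiv i (∑ b, C (φ b j) * lsub φ (A b)) =
      ∑ b, ∑ a, C (φ a i * φ b j) * lsub φ (pderiv a (A b)) := by
    intro i j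
    rw [map_sum]
    refine Finset.sum_congr rfl fun b _ => ?_
    rw [pderiv_mul, pderiv_C, zero_mul, zero_add, pderiv_lsub, Finset.mul_sum]
    refine Finset.sum_congr rfl fun a _ => ?_
    rw [C_mul]
    ring
  rw [hp, hp, s2 (fun b a => C (φ a i * φ b j) * lsub φ (pderiv a (A b))),
    ← Finset.sum_sub_distrib]
  refine Finset.sum_congr rfl fun a _ => ?_
  rw [← Finset.sum_sub_distrib]
  refine Finset.sum_congr rfl fun b _ => ?_
  rw [map_sub, mul_comm (φ b j)]
  ring

theorem ct_pb (φ : Fin n → Fin m → ℂ) (θ : F2 n) (w : F1 m) (l : Fin m) :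
    ct w (pb2 φ θ) l =
      ∑ j, C (φ j l) * (∑ i, (∑ a, w a * C (φ i a)) * lsub φ (θ i j)) := by
  unfold ct pb2
  have h1 : ∀ i, w i * ∑ a, ∑ j, C (φ a i * φ j l) * lsub φ (θ a j) =
      ∑ a, ∑ j, C (φ j l) * (w i * C (φ a i) * lsub φ (θ a j)) := by
    intro i
    rw [Finset.mul_sum]
    refine Finset.sum_congr rfl fun a _ => ?_
    rw [Finset.mul_sum]
    refine Finset.sum_congr rfl fun j _ => ?_
    rw [C_mul]
    ring
  rw [Finset.sum_congr rfl (fun i _ => h1 i),
    s3b (fun a j i => C (φ j l) * (w i * C (φ a i) * lsub φ (θ a j))),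
    s2 (fun a j => ∑ i, C (φ j l) * (w i * C (φ a i) * lsub φ (θ a j)))]
  refine Finset.sum_congr rfl fun j _ => ?_
  rw [Finset.mul_sum]
  refine Finset.sum_congr rfl fun a _ => ?_
  rw [Finset.sum_mul, Finset.mul_sum]

/-- invertible change of coordinates: the properties of the classification are invariant -/
theorem Fol_pb2 (φ ψ : Fin n → Fin n → ℂ) (h1 : mm φ ψ = one n) (h2 : mm ψ φ = one n) {θ : F2 n} (h : Fol θ) :
    Fol (pb2 φ θ) := by
  have hb : ∀ f : Pn n, lsub φ (lsub ψ f) = f := by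
    intro f
    rw [lsub_lsub, h2, lsub_one]
  refine ⟨pb2_hom φ h.hom, Dec_pb2 φ h.dec, Closed_pb2 φ h.dec.1 h.dec.2.1 h.closed, ?_⟩
  intro p hp
  have h3 : IsUnit (lsub ψ p) := by
    refine h.prim _ fun i j => ?_
    have h4 : θ i j = pb2 ψ (pb2 φ θ) i j := by rw [pb2_pb2, h1, pb2_one]
    rw [h4]
    unfold pb2
    refine Finset.dvd_sum fun a _ => Finset.dvd_sum fun b _ => ?_
    exact Dvd.dvd.mul_left (map_dvd (lsub ψ) (hp a b)) _
  have h5 := h3.map (lsub φ)
  rw [hb] at h5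
  exact h5

theorem Cone_pb2 (φ ψ : Fin n → Fin n → ℂ) (h1 : mm φ ψ = one n) (h2 : mm ψ φ = one n) {θ : F2 n} (h : Cone (pb2 φ θ)) :
    Cone θ := by
  obtain ⟨v, hv, hv2⟩ := h
  refine ⟨fun i => ∑ a, φ i a * v a, ?_, ?_⟩
  · intro h0
    apply hv
    funext b
    have h3 : v b = ∑ i, ψ b i * (∑ a, φ i a * v a) := by
      have h4 : ∀ i, ψ b i * (∑ a, φ i a * v a) = ∑ a, ψ b i * φ i a * v a := by
        intro i
        rw [Finset.mul_sum]
        refine Finset.sum_congr rfl fun a _ => ?_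
        ring
      rw [Finset.sum_congr rfl (fun i _ => h4 i), Finset.sum_comm]
      have h5 : ∀ a, ∑ i, ψ b i * φ i a * v a = one n b a * v a := by
        intro a
        rw [← h2, ← Finset.sum_mul]
        rfl
      rw [Finset.sum_congr rfl (fun a _ => h5 a), Finset.sum_eq_single b]
      · unfold one
        rw [if_pos rfl, one_mul]
      · intro a _ ha
        unfold one
        rw [if_neg (Ne.symm ha), zero_mul]
      · intro h; exact absurd (Finset.mem_univ _) h
    rw [h3]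
    refine Finset.sum_eq_zero fun i _ => ?_
    have h6 : (∑ a, φ i a * v a) = 0 := congrFun h0 i
    rw [h6, mul_zero]
  · have h3 : pb φ (av θ (fun i => ∑ a, φ i a * v a)) = 0 := by
      funext l
      have h4 := hv2 l
      unfold av at h4
      rw [ct_pb] at h4
      rw [Pi.zero_apply, ← h4]
      unfold pb
      refine Finset.sum_congr rfl fun j _ => ?_
      congr 1
      unfold av ct
      rw [map_sum]
      refine Finset.sum_congr rfl fun i _ => ?_
      rw [map_mul]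
      congr 1
      unfold cv
      rw [lsub_C, map_sum]
      refine Finset.sum_congr rfl fun a _ => ?_
      rw [C_mul, mul_comm]
    have h5 : av θ (fun i => ∑ a, φ i a * v a) = 0 := by
      have h6 := pb_pb' φ ψ (av θ (fun i => ∑ a, φ i a * v a))
      rw [h1, pb_one, h3] at h6
      rw [← h6]
      funext l
      unfold pb
      refine Finset.sum_eq_zero fun j _ => ?_
      rw [Pi.zero_apply, map_zero, mul_zero]
    intro j
    rw [h5]
    rfl

theorem EE_pb2 (φ : Fin n → Fin m → ℂ) {θ : F2 n} {k : ℕ} {ξ : F1 n} (h : ξ ∈ EE θ k) :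
    pb φ ξ ∈ EE (pb2 φ θ) k := by
  obtain ⟨h1, h2⟩ := mem_EE.mp h
  refine mem_EE.mpr ⟨fun i => pb_hom φ h1 i, fun i j l => ?_⟩
  rw [w12_pb]
  refine Finset.sum_eq_zero fun a _ => Finset.sum_eq_zero fun b _ =>
    Finset.sum_eq_zero fun c _ => ?_
  rw [h2, map_zero, mul_zero]

theorem Fam14_pb2 (φ : Fin n → Fin m → ℂ) {θ : F2 n} (h : Fam14 θ) : Fam14 (pb2 φ θ) := by
  obtain ⟨l, g, hl, hg, hθ⟩ := h
  refine ⟨lsub φ l, lsub φ g, lsub_hom φ hl, lsub_hom φ hg, fun i j => ?_⟩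
  have h1 : θ = w11 (df l) (df g) := by funext i j; exact hθ i j
  rw [h1, pb2_w11, df_lsub, df_lsub]

theorem Fam23_pb2 (φ : Fin n → Fin m → ℂ) {θ : F2 n} (h : Fam23 θ) : Fam23 (pb2 φ θ) := by
  obtain ⟨l, g, hl, hg, hθ⟩ := h
  refine ⟨lsub φ l, lsub φ g, lsub_hom φ hl, lsub_hom φ hg, fun i j => ?_⟩
  have h1 : θ = w11 (df l) (df g) := by funext i j; exact hθ i j
  rw [h1, pb2_w11, df_lsub, df_lsub]

theorem Fam3_pb2 (φ : Fin n → Fin m → ℂ) {e : Fin 3 → ℕ} {θ : F2 n} (h : Fam3 e θ) : Fam3 e (pb2 φ θ) := by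
  obtain ⟨Φ, r, h1, h2, h3, hθ⟩ := h
  refine ⟨fun a => lsub φ (Φ a), r, fun a => lsub_hom φ (h1 a), h2, h3, fun i j => ?_⟩
  have h4 : ∀ f : MvPolynomial (Fin 3) ℂ,
      aeval (fun a => lsub φ (Φ a)) f = lsub φ (aeval Φ f) := by
    intro f
    have h5 : (lsub φ).comp (aeval Φ) = aeval (fun a => lsub φ (Φ a)) := by
      refine MvPolynomial.algHom_ext fun i => ?_
      rw [AlgHom.comp_apply, aeval_X, aeval_X]
    rw [← h5]
    rfl
  have h6 : ∀ a : Fin 3, w11 (df (lsub φ (Φ (a + 1)))) (df (lsub φ (Φ (a + 2)))) i j =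
      ∑ p, ∑ q, C (φ p i * φ q j) * lsub φ (w11 (df (Φ (a + 1))) (df (Φ (a + 2))) p q) := by
    intro a
    rw [df_lsub, df_lsub, ← pb2_w11]
    rfl
  unfold pb2
  have h7 : ∀ p q, C (φ p i * φ q j) * lsub φ (θ p q) =
      ∑ a : Fin 3, lsub φ (aeval Φ (r a)) *
        (C (φ p i * φ q j) * lsub φ (w11 (df (Φ (a + 1))) (df (Φ (a + 2))) p q)) := by
    intro p q
    rw [hθ p q, map_sum, Finset.mul_sum]
    refine Finset.sum_congr rfl fun a _ => ?_
    rw [map_mul (lsub φ)]
    ring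
  rw [Finset.sum_congr rfl (fun p _ => Finset.sum_congr rfl (fun q _ => h7 p q)),
    s3a (fun a p q => lsub φ (aeval Φ (r a)) *
        (C (φ p i * φ q j) * lsub φ (w11 (df (Φ (a + 1))) (df (Φ (a + 2))) p q)))]
  refine Finset.sum_congr rfl fun a _ => ?_
  rw [h4, h6, Finset.mul_sum]
  refine Finset.sum_congr rfl fun p _ => ?_
  rw [Finset.mul_sum]

end Pool.Agent.Helper50.FC
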