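import Pool.Agent.Helper50.FC.EV2
import Pool.Agent.Helper50.FC.Div

/-! K1-20: sections along a line on which `θ` has no zeros.
`φ : Fin n → Fin 2 → ℂ`; the coefficients of `θ` restricted to the line have no common factor (`Cop2 φ θ`; true for general `φ` by `cop_gen`,
`m = 2`).
* `line_w`: `wedge_eq` gives `w11 ξ ξ' = f * cf φ θ`; the left side is homogeneous of degree `j + k < 3`, the right side has a non zero
  coefficient `cf φ θ a b`, homogeneous of degree 3, so `f = 0`.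
* `line0`: two constant sections are proportional.
* `line1`: `w11 ξ ξ' = 0`.  The linear forms `ξ a` are not all multiples of one linear form `l` (then `ξ = l * ρ`, `ρ` constant, in `EV θ φ 0`, `EV_div`), so
  there are `a`, `b` with `ξ a`, `ξ b` coprime; `ξ a * ξ' b = ξ b * ξ' a` gives `ξ' a = c ξ a`, `ξ' b = c ξ b` and then `ξ' = c ξ`.
* `line_rank`: `0 ≠ ρ ∈ EV θ φ 0` and `ξ ∈ EV θ φ 1`: `w11 ρ ξ = 0`, so `ξ = l * ρ`. -/

set_option autoImplicit false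

namespace Pool.Agent.Helper50.FC

open MvPolynomial
open scoped BigOperators
open Pool.Agent.Helper71.FL (w12 pf ct Dec Closed dd at0 res)
open Pool.Agent.Helper93 (lsub lmap OF pb)
open Pool.Agent.Helper71.FC

variable {n m k : ℕ}

/-- the restricted coefficients have no common factor -/
def Cop2 (φ : Fin n → Fin m → ℂ) (θ : F2 n) : Prop := CopF (fun q : Fin n × Fin n => cf φ θ q.1 q.2)

theorem Cop2_gen {θ : F2 n} (hθ : ∀ i j, (θ i j).IsHomogeneous 3) (hp : Prim2 θ) (hm : 2 ≤ m)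
    (hmn : m ≤ n) : GenM (fun φ : Fin n → Fin m → ℂ => Cop2 φ θ) := by
  exact cop_gen (ι := Fin n × Fin n) hm hmn (f := fun q => θ q.1 q.2) (fun q => hθ q.1 q.2)
    (fun p hp' => hp p (fun i j => hp' (i, j)))

private theorem ll_nz {θ : F2 n} {φ : Fin n → Fin m → ℂ} (h : Cop2 φ θ) : ∃ i j, cf φ θ i j ≠ 0 := by
  by_contra hcon
  push Not at hcon
  have := h 0 (fun q => by show 0 ∣ cf φ θ q.1 q.2; rw [hcon])
  exact not_isUnit_zero this

private theorem ll_const {f : Pn m} (h : f.IsHomogeneous 0) : ∃ c : ℂ, f = C c :=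
  ⟨coeff 0 f, totalDegree_eq_zero_iff_eq_C.1 (Nat.le_zero.1 h.totalDegree_le)⟩

/-- a quotient of two forms of degree one is constant -/
private theorem ll_quot {f g u : Pn m} (hf : f.IsHomogeneous 1) (hf0 : f ≠ 0) (hg : g.IsHomogeneous 1)
    (h : g = f * u) : ∃ c : ℂ, u = C c := by
  by_cases hu : u = 0
  · exact ⟨0, by rw [hu, map_zero]⟩
  · have h1 : g.totalDegree = f.totalDegree + u.totalDegree := by
      rw [h]; exact totalDegree_mul_of_isDomain hf0 hu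
    have h2 : f.totalDegree = 1 := hf.totalDegree hf0
    have h3 : g.totalDegree ≤ 1 := hg.totalDegree_le
    exact ⟨_, totalDegree_eq_zero_iff_eq_C.1 (by omega : u.totalDegree = 0)⟩

theorem line_w {θ : F2 n} (hθ : ∀ i j, (θ i j).IsHomogeneous 3) (hdec : Dec θ) (hm : 0 < m)
    {φ : Fin n → Fin m → ℂ} (h : Cop2 φ θ) {j k : ℕ} (hjk : j + k < 3) {ξ ξ' : Fin n → Pn m}
    (hξ : ξ ∈ EV θ φ j) (hξ' : ξ' ∈ EV θ φ k) (a b : Fin n) : w11 ξ ξ' a b = 0 := by
  have _ := hm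
  have hcd : Dec (cf φ θ) := Dec.map (lsub φ : Pn n →+* Pn m) hdec
  obtain ⟨i0, j0, h0⟩ := ll_nz h
  obtain ⟨f, hf⟩ := wedge_eq hcd.2.1 (fun i j k l => hcd.2.2 i j k l) ⟨i0, j0, h0⟩
    (fun p hp => h p (fun q => hp q.1 q.2)) hξ.2 hξ'.2
  have hf0 : f = 0 := by
    by_contra hne
    have h1 := hf i0 j0
    have h2 : (w11 ξ ξ' i0 j0).IsHomogeneous (j + k) := by
      unfold w11
      exact ((hξ.1 i0).mul (hξ'.1 j0)).sub ((hξ.1 j0).mul (hξ'.1 i0))
    have h3 : (w11 ξ ξ' i0 j0).totalDegree = f.totalDegree + (cf φ θ i0 j0).totalDegree := by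
      rw [h1]; exact totalDegree_mul_of_isDomain hne h0
    have h4 : (cf φ θ i0 j0).totalDegree = 3 :=
      IsHomogeneous.totalDegree (lsub_hom (hθ i0 j0)) h0
    have h5 := h2.totalDegree_le
    omega
  rw [hf a b, hf0, zero_mul]

theorem line0 {θ : F2 n} (hθ : ∀ i j, (θ i j).IsHomogeneous 3) (hdec : Dec θ) (hm : 0 < m)
    {φ : Fin n → Fin m → ℂ} (h : Cop2 φ θ) {ξ ξ' : Fin n → Pn m} (hξ : ξ ∈ EV θ φ 0)
    (hξ' : ξ' ∈ EV θ φ 0) (h0 : ξ ≠ 0) : ∃ c : ℂ, ∀ i, ξ' i = C c * ξ i := by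
  obtain ⟨i0, hi0⟩ := Function.ne_iff.1 h0
  obtain ⟨c, hc⟩ := ll_const (hξ.1 i0)
  obtain ⟨c', hc'⟩ := ll_const (hξ'.1 i0)
  have hc0 : c ≠ 0 := by
    rintro rfl
    rw [map_zero] at hc
    exact hi0 hc
  refine ⟨c' / c, fun i => ?_⟩
  have h1 := line_w hθ hdec hm h (by norm_num) hξ hξ' i0 i
  unfold w11 at h1
  have h2 : C (c' / c) * C c = (C c' : Pn m) := by rw [← C_mul, div_mul_cancel₀ _ hc0]
  have h3 : (C c : Pn m) ≠ 0 := by rw [← hc]; exact hi0
  apply mul_left_cancel₀ h3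
  rw [hc, hc'] at h1
  linear_combination h1 - ξ i * h2

theorem line1 {θ : F2 n} (hθ : ∀ i j, (θ i j).IsHomogeneous 3) (hdec : Dec θ) (hm : 0 < m)
    {φ : Fin n → Fin m → ℂ} (h : Cop2 φ θ) (h0 : EV θ φ 0 = ⊥) {ξ ξ' : Fin n → Pn m}
    (hξ : ξ ∈ EV θ φ 1) (hξ' : ξ' ∈ EV θ φ 1) (hne : ξ ≠ 0) : ∃ c : ℂ, ∀ i, ξ' i = C c * ξ i := by
  obtain ⟨i0, hi0⟩ := Function.ne_iff.1 hne
  have hi0' : ξ i0 ≠ 0 := hi0
  have hw := line_w hθ hdec hm h (by norm_num) hξ hξ'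
  -- some coefficient is not proportional to `ξ i0`
  obtain ⟨i1, hi1⟩ : ∃ i1, ∀ c : ℂ, ξ i1 ≠ C c * ξ i0 := by
    by_contra hcon
    push Not at hcon
    choose c hc using hcon
    have h1 : (fun i => (C (c i) : Pn m)) ∈ EV θ φ 0 := by
      refine ⟨fun i => isHomogeneous_C _ _, fun i j l => ?_⟩
      apply mul_left_cancel₀ hi0'
      rw [mul_zero, ← hξ.2 i j l]
      unfold w12
      rw [hc i, hc j, hc l]
      ring
    rw [h0, Submodule.mem_bot] at h1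
    have h2 : (C (c i0) : Pn m) = 0 := congrFun h1 i0
    apply hi0'
    rw [hc i0, h2, zero_mul]
  have hreg : Pool.Agent.Helper28.FolReg.Reg2 (ξ i0) (ξ i1) := reg2_linear ![ξ i0, ξ i1] (fun i => by
    fin_cases i
    · exact hξ.1 i0
    · exact hξ.1 i1) (by
    intro c hc
    rw [Fin.sum_univ_two] at hc
    change C (c 0) * ξ i0 + C (c 1) * ξ i1 = 0 at hc
    by_cases h1 : c 1 = 0
    · rw [h1, map_zero, zero_mul, add_zero] at hc
      have h2 := (mul_eq_zero.1 hc).resolve_right hi0'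
      rw [C_eq_zero] at h2
      funext i
      fin_cases i
      · exact h2
      · exact h1
    · exfalso
      apply hi1 (-(c 0) / c 1)
      have h2 : C (c 1) * C (-(c 0) / c 1) = (C (-(c 0)) : Pn m) := by
        rw [← C_mul, mul_div_cancel₀ _ h1]
      have h3 : (C (c 1) : Pn m) ≠ 0 := by rw [Ne, C_eq_zero]; exact h1
      apply mul_left_cancel₀ h3
      rw [map_neg] at h2
      linear_combination hc - ξ i0 * h2)
  obtain ⟨u, hu⟩ := hreg.2 (ξ' i0) ⟨ξ' i1, by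
    have := hw i0 i1
    unfold w11 at this
    linear_combination -this⟩
  obtain ⟨c, hc⟩ := ll_quot (hξ.1 i0) hi0' (hξ'.1 i0) hu
  refine ⟨c, fun i => ?_⟩
  apply mul_left_cancel₀ hi0'
  have h1 := hw i0 i
  unfold w11 at h1
  rw [hu, hc] at h1
  linear_combination h1

theorem line_rank {θ : F2 n} (hθ : ∀ i j, (θ i j).IsHomogeneous 3) (hdec : Dec θ) (hm : 0 < m)
    {φ : Fin n → Fin m → ℂ} (h : Cop2 φ θ) {ρ ξ : Fin n → Pn m} (hρ : ρ ∈ EV θ φ 0)
    (hρ0 : ρ ≠ 0) (hξ : ξ ∈ EV θ φ 1) :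
    ∃ l : Pn m, l.IsHomogeneous 1 ∧ ∀ i, ξ i = l * ρ i := by
  obtain ⟨i0, hi0⟩ := Function.ne_iff.1 hρ0
  have hw := line_w hθ hdec hm h (by norm_num) hρ hξ
  obtain ⟨c, hc⟩ := ll_const (hρ.1 i0)
  have hc0 : c ≠ 0 := by
    rintro rfl
    rw [map_zero] at hc
    exact hi0 hc
  have h3 : (C c : Pn m) ≠ 0 := by rw [← hc]; exact hi0
  refine ⟨C (1 / c) * ξ i0, ?_, fun i => ?_⟩
  · have := (isHomogeneous_C (Fin m) (1 / c)).mul (hξ.1 i0)
    simpa using this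
  · apply mul_left_cancel₀ h3
    have h1 := hw i0 i
    unfold w11 at h1
    have h2 : C c * C (1 / c) = (1 : Pn m) := by
      rw [← C_mul, mul_one_div_cancel hc0, map_one]
    rw [hc] at h1
    linear_combination h1 - ξ i0 * ρ i * h2

end Pool.Agent.Helper50.FC
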