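import Pool.Agent.Helper50.FC.Lin
import Pool.Agent.Helper50.FC.Div

/-! K1-4: linear normal forms.
Proofs.  `exists_coord`: the coefficient vectors of the `l i` are linearly independent, complete them to a basis of `Fin n → ℂ` indexed
so that the `e i`-th vector is that of `l i` (e.g. a `Basis` obtained from `Basis.extend` and an equivalence with `Fin n` extending `e`;
or: choose a linear automorphism carrying one independent family to the other, `exists_equiv` of subspaces), `φ` = inverse of the matrix with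
these rows.  `exists_frame`: the same for columns.  `quad_split`: `H` = symmetric matrix of second derivatives.  If three of the forms
`∂_i q = ∑ H_ij x_j` are linearly independent use `reg3_linear`.  Otherwise rank `H ≤ 2`, so `q` is a form in at most two linear forms, a
binary quadratic form over `ℂ` splits.  (For instance: some `∂_a q ≠ 0`; choose coordinates so that all `∂_i q` are combinations of `x_0, x_1`.)
`alt_split`: some `A a b ≠ 0`; `A i j = (A a i A b j - A a j A b i) / A a b` by `pf A a b i j = 0`. -/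

set_option autoImplicit false

namespace Pool.Agent.Helper50.FC

open MvPolynomial
open Pool.Agent.Helper71.FC
open Pool.Agent.Helper28.FolReg (Reg2 Reg3)
open Pool.Agent.Helper71.FL (w12 pf ct Dec Closed dd)
open Pool.Agent.Helper93 (lsub lmap OF pb)
open scoped BigOperators

variable {n : ℕ}

private theorem complete {k : ℕ} (v : Fin k → Fin n → ℂ) (hv : LinearIndependent ℂ v) (e : Fin k → Fin n)
    (he : Function.Injective e) :
    ∃ B B' : Fin n → Fin n → ℂ, mm B B' = one n ∧ mm B' B = one n ∧ ∀ i, B (e i) = v i := by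
  classical
  have hb : ∀ i, Module.Basis.sumExtend hv (Sum.inl i) = v i := by
    intro i
    unfold Module.Basis.sumExtend
    simp only [Module.Basis.reindex_apply, Module.Basis.extend_apply_self]
    rfl
  have hfin : Finite (Fin k ⊕ Module.Basis.sumExtendIndex hv) :=
    Module.Finite.finite_basis (Module.Basis.sumExtend hv)
  have _ : Finite (Module.Basis.sumExtendIndex hv) :=
    Finite.of_injective (Sum.inr : _ → Fin k ⊕ Module.Basis.sumExtendIndex hv) Sum.inr_injective
  have : Fintype (Module.Basis.sumExtendIndex hv) := Fintype.ofFinite _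
  have h1 : n = k + Fintype.card (Module.Basis.sumExtendIndex hv) := by
    have h2 := Module.finrank_eq_card_basis (Module.Basis.sumExtend hv)
    rw [Module.finrank_fin_fun, Fintype.card_sum, Fintype.card_fin] at h2
    exact h2
  have h3 : n = k + Fintype.card ((Set.range e)ᶜ : Set (Fin n)) := by
    have h4 := Fintype.card_congr (Equiv.Set.sumCompl (Set.range e))
    rw [Fintype.card_sum, Fintype.card_fin, ← Fintype.card_congr (Equiv.ofInjective e he),
      Fintype.card_fin] at h4
    exact h4.symm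
  have h5 : Fintype.card (Module.Basis.sumExtendIndex hv) =
      Fintype.card ((Set.range e)ᶜ : Set (Fin n)) := by omega
  let σ : Fin k ⊕ Module.Basis.sumExtendIndex hv ≃ Fin n :=
    (Equiv.sumCongr (Equiv.ofInjective e he) (Fintype.equivOfCardEq h5)).trans
      (Equiv.Set.sumCompl (Set.range e))
  have hσ : ∀ i, σ (Sum.inl i) = e i := fun i => rfl
  let b := (Module.Basis.sumExtend hv).reindex σ
  have hbe : ∀ i, b (e i) = v i := by
    intro i
    rw [← hσ i, ← hb i]
    simp only [b, Module.Basis.reindex_apply, Equiv.symm_apply_apply]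
  have hPQ := Module.Basis.toMatrix_mul_toMatrix_flip (Pi.basisFun ℂ (Fin n)) b
  have hQP := Module.Basis.toMatrix_mul_toMatrix_flip b (Pi.basisFun ℂ (Fin n))
  refine ⟨fun j m => (Pi.basisFun ℂ (Fin n)).toMatrix b m j,
    fun m l => b.toMatrix (Pi.basisFun ℂ (Fin n)) l m, ?_, ?_, ?_⟩
  · funext i l
    have h6 := congrFun (congrFun hQP l) i
    rw [Matrix.mul_apply, Matrix.one_apply] at h6
    unfold mm one
    simp only [eq_comm (a := i) (b := l)]
    rw [← h6]
    exact Finset.sum_congr rfl (fun m _ => mul_comm _ _)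
  · funext i l
    have h6 := congrFun (congrFun hPQ l) i
    rw [Matrix.mul_apply, Matrix.one_apply] at h6
    unfold mm one
    simp only [eq_comm (a := i) (b := l)]
    rw [← h6]
    exact Finset.sum_congr rfl (fun m _ => mul_comm _ _)
  · intro i
    funext m
    change (Pi.basisFun ℂ (Fin n)).toMatrix b m (e i) = v i m
    rw [Module.Basis.toMatrix_apply, hbe i, Pi.basisFun_repr]

/-- linear form with given coefficients -/
private noncomputable def lf (v : Fin n → ℂ) : Pn n := ∑ i, C (v i) * X i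

private theorem lf_hom (v : Fin n → ℂ) : (lf v).IsHomogeneous 1 := by
  refine IsHomogeneous.sum _ _ _ (fun i _ => ?_)
  have := (isHomogeneous_C (Fin n) (v i)).mul (isHomogeneous_X ℂ i)
  rwa [zero_add] at this

private theorem lf_pd (v : Fin n → ℂ) (k : Fin n) : pderiv k (lf v) = C (v k) := by
  unfold lf
  rw [map_sum, Finset.sum_eq_single k]
  · rw [pderiv_C_mul, pderiv_X_self, mul_one]
  · intro b _ hb
    rw [pderiv_C_mul, pderiv_X_of_ne hb, mul_zero]
  · intro hk; exact absurd (Finset.mem_univ k) hk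

private theorem hom0 {p : Pn n} (hp : p.IsHomogeneous 0) : p = C (coeff 0 p) :=
  totalDegree_eq_zero_iff_eq_C.1 (Nat.le_zero.1 hp.totalDegree_le)

private theorem hom1 {l : Pn n} (hl : l.IsHomogeneous 1) :
    l = lf (fun i => coeff 0 (pderiv i l)) := by
  have h1 := hl.sum_X_mul_pderiv
  rw [one_smul] at h1
  have h3 : lf (fun i => coeff 0 (pderiv i l)) = ∑ i, X i * pderiv i l := by
    unfold lf
    refine Finset.sum_congr rfl (fun i _ => ?_)
    have h2 : (pderiv i l).IsHomogeneous 0 := hl.pderiv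
    rw [← hom0 h2, mul_comm]
  rw [h3, h1]

private theorem lf_add (v w : Fin n → ℂ) : lf (v + w) = lf v + lf w := by
  unfold lf
  rw [← Finset.sum_add_distrib]
  refine Finset.sum_congr rfl (fun i _ => ?_)
  rw [Pi.add_apply, C_add, add_mul]

private theorem lf_smul (c : ℂ) (v : Fin n → ℂ) : lf (c • v) = C c * lf v := by
  unfold lf
  rw [Finset.mul_sum]
  refine Finset.sum_congr rfl (fun i _ => ?_)
  rw [Pi.smul_apply, smul_eq_mul, C_mul, mul_assoc]

private theorem lf_zero : lf (0 : Fin n → ℂ) = 0 := by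
  unfold lf
  refine Finset.sum_eq_zero (fun i _ => ?_)
  rw [Pi.zero_apply, C_0, zero_mul]

private theorem lf_sum {k : ℕ} (c : Fin k → ℂ) (v : Fin k → Fin n → ℂ) :
    lf (∑ i, c i • v i) = ∑ i, C (c i) * lf (v i) := by
  unfold lf
  simp only [Finset.mul_sum]
  rw [Finset.sum_comm]
  refine Finset.sum_congr rfl (fun i _ => ?_)
  rw [Finset.sum_apply, map_sum, Finset.sum_mul]
  refine Finset.sum_congr rfl (fun j _ => ?_)
  rw [Pi.smul_apply, smul_eq_mul, C_mul, mul_assoc]

private theorem lsub_lf (φ : Fin n → Fin n → ℂ) (v : Fin n → ℂ) :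
    lsub φ (lf v) = lf (fun m => ∑ j, v j * φ j m) := by
  unfold lf
  rw [map_sum]
  have h1 : ∀ j, lsub φ (C (v j) * X j) = ∑ m, C (v j * φ j m) * X m := by
    intro j
    rw [map_mul, lsub_X]
    have h2 : lsub φ (C (v j)) = C (v j) := by
      unfold lsub
      rw [algHom_C]
      rfl
    rw [h2, Finset.mul_sum]
    refine Finset.sum_congr rfl (fun m _ => ?_)
    rw [C_mul, mul_assoc]
  rw [Finset.sum_congr rfl (fun j _ => h1 j), Finset.sum_comm]
  refine Finset.sum_congr rfl (fun m _ => ?_)
  rw [map_sum, Finset.sum_mul]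

private theorem lf_one (a : Fin n) : lf (one n a) = X a := by
  unfold lf one
  rw [Finset.sum_eq_single a]
  · rw [if_pos rfl, C_1, one_mul]
  · intro b _ hb
    rw [if_neg (Ne.symm hb), C_0, zero_mul]
  · intro hk; exact absurd (Finset.mem_univ a) hk

/-- linearly independent linear forms become coordinates after a linear change -/
theorem exists_coord {k : ℕ} (l : Fin k → Pn n) (hl : ∀ i, (l i).IsHomogeneous 1)
    (hi : ∀ c : Fin k → ℂ, ∑ i, C (c i) * l i = 0 → c = 0) (e : Fin k → Fin n) (he : Function.Injective e) :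
    ∃ φ ψ : Fin n → Fin n → ℂ, mm φ ψ = one n ∧ mm ψ φ = one n ∧ ∀ i, lsub φ (l i) = X (e i) := by
  classical
  let v : Fin k → Fin n → ℂ := fun i j => coeff 0 (pderiv j (l i))
  have hlv : ∀ i, l i = lf (v i) := fun i => hom1 (hl i)
  have hv : LinearIndependent ℂ v := by
    rw [Fintype.linearIndependent_iff]
    intro g hg i
    have h1 : ∑ i, C (g i) * l i = 0 := by
      have h2 := lf_sum g v
      rw [hg, lf_zero] at h2
      rw [h2]
      exact Finset.sum_congr rfl (fun i _ => by rw [hlv i])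
    exact congrFun (hi g h1) i
  obtain ⟨B, B', h1, h2, h3⟩ := complete v hv e he
  refine ⟨B', B, h2, h1, fun i => ?_⟩
  rw [hlv i, lsub_lf, ← lf_one]
  congr 1
  funext m
  have h4 := congrFun (congrFun h1 (e i)) m
  unfold mm at h4
  rw [h3 i] at h4
  exact h4

/-- linearly independent vectors become coordinate vectors after a linear change -/
theorem exists_frame {k : ℕ} (w : Fin k → Fin n → ℂ) (hw : LinearIndependent ℂ w) (e : Fin k → Fin n)
    (he : Function.Injective e) :
    ∃ φ ψ : Fin n → Fin n → ℂ, mm φ ψ = one n ∧ mm ψ φ = one n ∧ ∀ i j, φ j (e i) = w i j := by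
  obtain ⟨B, B', h1, h2, h3⟩ := complete w hw e he
  refine ⟨fun i j => B j i, fun i j => B' j i, ?_, ?_, ?_⟩
  · funext i l
    have h4 := congrFun (congrFun h2 l) i
    unfold mm one at h4 ⊢
    simp only [eq_comm (a := i) (b := l)]
    rw [← h4]
    exact Finset.sum_congr rfl (fun m _ => mul_comm _ _)
  · funext i l
    have h4 := congrFun (congrFun h1 l) i
    unfold mm one at h4 ⊢
    simp only [eq_comm (a := i) (b := l)]
    rw [← h4]
    exact Finset.sum_congr rfl (fun m _ => mul_comm _ _)
  · intro i j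
    exact congrFun (h3 i) j

private theorem pdc (i j : Fin n) (p : Pn n) : pderiv i (pderiv j p) = pderiv j (pderiv i p) := by
  have h : ⁅(pderiv i : Derivation ℂ (Pn n) (Pn n)), (pderiv j : Derivation ℂ (Pn n) (Pn n))⁆ = 0 := by
    refine MvPolynomial.derivation_ext (fun k => ?_)
    rw [Derivation.commutator_apply]
    classical
    simp only [pderiv_X, Derivation.zero_apply]
    rw [Pi.single_apply, Pi.single_apply]
    split_ifs <;> simp
  have h2 := congrArg (fun D => D p) h
  simp only [Derivation.commutator_apply, Derivation.zero_apply] at h2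
  exact sub_eq_zero.1 h2

private theorem three_or {V : Type} [AddCommGroup V] [Module ℂ V] (hn : 0 < n) (f : Fin n → V) :
    (∃ a b c, ∀ x : Fin 3 → ℂ, x 0 • f a + x 1 • f b + x 2 • f c = 0 → x = 0) ∨
    ∃ a b, ∀ i, ∃ x y : ℂ, f i = x • f a + y • f b := by
  by_cases h0 : ∀ i, f i = 0
  · exact Or.inr ⟨⟨0, hn⟩, ⟨0, hn⟩, fun i => ⟨0, 0, by simp [h0 i]⟩⟩
  push Not at h0
  obtain ⟨a, ha⟩ := h0
  by_cases h1 : ∀ i, ∃ x : ℂ, f i = x • f a
  · refine Or.inr ⟨a, a, fun i => ?_⟩
    obtain ⟨x, hx⟩ := h1 i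
    exact ⟨x, 0, by rw [hx, zero_smul, add_zero]⟩
  push Not at h1
  obtain ⟨b, hb⟩ := h1
  by_cases h2 : ∀ i, ∃ x y : ℂ, f i = x • f a + y • f b
  · exact Or.inr ⟨a, b, h2⟩
  push Not at h2
  obtain ⟨c, hc⟩ := h2
  refine Or.inl ⟨a, b, c, fun x hx => ?_⟩
  have hx2 : x 2 = 0 := by
    by_contra hne
    apply hc (-(x 2)⁻¹ * x 0) (-(x 2)⁻¹ * x 1)
    have h3 : x 2 • f c = -(x 0 • f a) - x 1 • f b := by
      rw [← sub_eq_zero, ← hx]; abel
    have h4 : f c = (x 2)⁻¹ • (x 2 • f c) := by rw [smul_smul, inv_mul_cancel₀ hne, one_smul]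
    rw [h4, h3, smul_sub, smul_neg, smul_smul, smul_smul, neg_mul, neg_mul, neg_smul, neg_smul]
    abel
  rw [hx2, zero_smul, add_zero] at hx
  have hx1 : x 1 = 0 := by
    by_contra hne
    apply hb (-(x 1)⁻¹ * x 0)
    have h3 : x 1 • f b = -(x 0 • f a) := by
      rw [← sub_eq_zero, ← hx]; abel
    have h4 : f b = (x 1)⁻¹ • (x 1 • f b) := by rw [smul_smul, inv_mul_cancel₀ hne, one_smul]
    rw [h4, h3, smul_neg, smul_smul, neg_mul, neg_smul]
  rw [hx1, zero_smul, add_zero] at hx
  have hx0 : x 0 = 0 := (smul_eq_zero.1 hx).resolve_right ha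
  funext i
  fin_cases i
  · exact hx0
  · exact hx1
  · exact hx2

private theorem binary_split (α β γ : ℂ) (u v : Pn n) (hu : u.IsHomogeneous 1) (hv : v.IsHomogeneous 1) :
    ∃ l1 l2 : Pn n, l1.IsHomogeneous 1 ∧ l2.IsHomogeneous 1 ∧
      C α * u * u + 2 * C β * u * v + C γ * v * v = l1 * l2 := by
  have hC : ∀ (c : ℂ) {p : Pn n}, p.IsHomogeneous 1 → (C c * p).IsHomogeneous 1 := by
    intro c p hp
    have := (isHomogeneous_C (Fin n) c).mul hp
    rwa [zero_add] at this
  by_cases hα : α = 0
  · refine ⟨v, C (2 * β) * u + C γ * v, hv, (hC _ hu).add (hC _ hv), ?_⟩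
    rw [hα, C_0, C_mul]
    have h2 : (C (2 : ℂ) : Pn n) = 2 := rfl
    rw [h2]
    ring
  · obtain ⟨s, hs⟩ := IsAlgClosed.exists_eq_mul_self (discrim α (2 * β) γ)
    obtain ⟨r, hr⟩ := exists_quadratic_eq_zero hα ⟨s, hs⟩
    refine ⟨u - C r * v, C α * u + C (α * r + 2 * β) * v, hu.sub (hC _ hv),
      (hC _ hu).add (hC _ hv), ?_⟩
    have h1 : (C α * (C r * C r) + C 2 * C β * C r + C γ : Pn n) = 0 := by
      rw [← C_mul, ← C_mul, ← C_mul, ← C_mul, ← C_add, ← C_add, hr, C_0]
    have h2 : (C (2 : ℂ) : Pn n) = 2 := rfl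
    rw [C_add, C_mul, C_mul, h2]
    rw [h2] at h1
    linear_combination v * v * h1

/-- a quadratic form has three partial derivatives forming a regular sequence, or splits -/
theorem quad_split {q : Pn n} (hq : q.IsHomogeneous 2) :
    (∃ i0 i1 i2, Reg3 (pderiv i0 q) (pderiv i1 q) (pderiv i2 q)) ∨
    ∃ l1 l2 : Pn n, l1.IsHomogeneous 1 ∧ l2.IsHomogeneous 1 ∧ q = l1 * l2 := by
  have hC : ∀ (c : ℂ) {p : Pn n}, p.IsHomogeneous 1 → (C c * p).IsHomogeneous 1 := by
    intro c p hp
    have := (isHomogeneous_C (Fin n) c).mul hp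
    rwa [zero_add] at this
  have hE := hq.sum_X_mul_pderiv
  rcases Nat.eq_zero_or_pos n with hn | hn
  · subst hn
    right
    refine ⟨0, 0, isHomogeneous_zero _ _ _, isHomogeneous_zero _ _ _, ?_⟩
    rw [Finset.univ_eq_empty, Finset.sum_empty] at hE
    have h2 : (2 : Pn 0) * q = 0 := by
      rw [two_mul, ← two_nsmul]; exact hE.symm
    have h3 : (2 : Pn 0) ≠ 0 := two_ne_zero
    rw [(mul_eq_zero.1 h2).resolve_left h3, mul_zero]
  have hpd : ∀ i, (pderiv i q).IsHomogeneous 1 := fun i => hq.pderiv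
  rcases three_or hn (fun i => pderiv i q) with ⟨a, b, c, habc⟩ | ⟨a, b, hab⟩
  · left
    refine ⟨a, b, c, ?_⟩
    have h1 := reg3_linear ![pderiv a q, pderiv b q, pderiv c q] (by
      intro i
      fin_cases i
      · exact hpd a
      · exact hpd b
      · exact hpd c) (by
      intro x hx
      apply habc x
      rw [Fin.sum_univ_three] at hx
      simpa [smul_eq_C_mul] using hx)
    exact h1
  · right
    choose x y hxy using hab
    -- second derivatives
    have hH : ∀ i j, ∃ h : ℂ, pderiv i (pderiv j q) = C h := fun i j =>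
      ⟨_, hom0 (hpd j).pderiv⟩
    obtain ⟨haa, hhaa⟩ := hH a a
    obtain ⟨hba, hhba⟩ := hH b a
    obtain ⟨hbb, hhbb⟩ := hH b b
    have hhab : pderiv a (pderiv b q) = C hba := by rw [pdc, hhba]
    have hl : ∀ i, pderiv i q = C (x i) * pderiv a q + C (y i) * pderiv b q := by
      intro i
      have := hxy i
      rw [smul_eq_C_mul, smul_eq_C_mul] at this
      exact this
    have h2q : 2 * q = lf x * pderiv a q + lf y * pderiv b q := by
      rw [two_mul, ← two_nsmul, ← hE]
      unfold lf
      rw [Finset.sum_mul, Finset.sum_mul, ← Finset.sum_add_distrib]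
      refine Finset.sum_congr rfl (fun i _ => ?_)
      rw [hl i]
      ring
    have hA : pderiv a q = C haa * lf x + C hba * lf y := by
      have h3 := (hpd a).sum_X_mul_pderiv
      rw [one_smul] at h3
      rw [← h3]
      unfold lf
      rw [Finset.mul_sum, Finset.mul_sum, ← Finset.sum_add_distrib]
      refine Finset.sum_congr rfl (fun i _ => ?_)
      rw [pdc i a, hl i, map_add, pderiv_C_mul, pderiv_C_mul, hhaa, hhab]
      ring
    have hB : pderiv b q = C hba * lf x + C hbb * lf y := by
      have h3 := (hpd b).sum_X_mul_pderiv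
      rw [one_smul] at h3
      rw [← h3]
      unfold lf
      rw [Finset.mul_sum, Finset.mul_sum, ← Finset.sum_add_distrib]
      refine Finset.sum_congr rfl (fun i _ => ?_)
      rw [pdc i b, hl i, map_add, pderiv_C_mul, pderiv_C_mul, hhba, hhbb]
      ring
    obtain ⟨l1, l2, g1, g2, g3⟩ := binary_split haa hba hbb (lf x) (lf y) (lf_hom x) (lf_hom y)
    refine ⟨C (1 / 2) * l1, l2, hC _ g1, g2, ?_⟩
    have h4 : 2 * q = l1 * l2 := by
      rw [h2q, hA, hB, ← g3]; ring
    have h5 : (C (1 / 2 : ℂ) : Pn n) * 2 = 1 := by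
      have h6 : (2 : Pn n) = C 2 := rfl
      rw [h6, ← C_mul]; norm_num
    calc q = C (1 / 2) * 2 * q := by rw [h5, one_mul]
      _ = C (1 / 2) * l1 * l2 := by rw [mul_assoc, h4, mul_assoc]

/-- a constant 2-form of rank two -/
theorem alt_split {A : Fin n → Fin n → ℂ} (h0 : ∀ i, A i i = 0) (h1 : ∀ i j, A i j = - A j i)
    (hA : A ≠ 0) (hp : ∀ i j k l, A i j * A k l - A i k * A j l + A i l * A j k = 0) :
    ∃ l1 l2 : Pn n, l1.IsHomogeneous 1 ∧ l2.IsHomogeneous 1 ∧
      (∀ c : Fin 2 → ℂ, ∑ i, C (c i) * (![l1, l2] i) = 0 → c = 0) ∧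
      ∀ i j, C (A i j) = w11 (df l1) (df l2) i j := by
  obtain ⟨a, b, hab⟩ : ∃ a b, A a b ≠ 0 := by
    by_contra hcon
    push Not at hcon
    exact hA (funext fun a => funext fun b => hcon a b)
  refine ⟨lf (fun i => A a i), lf (fun j => A b j / A a b), lf_hom _, lf_hom _, ?_, ?_⟩
  · intro c hc
    rw [Fin.sum_univ_two] at hc
    simp only [Matrix.cons_val_zero, Matrix.cons_val_one] at hc
    have e1 := congrArg (pderiv a) hc
    have e2 := congrArg (pderiv b) hc
    rw [map_add, pderiv_C_mul, pderiv_C_mul, lf_pd, lf_pd, map_zero, ← C_mul, ← C_mul, ← C_add,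
      C_eq_zero] at e1 e2
    rw [h0 a, h1 b a] at e1
    rw [h0 b] at e2
    have hc1 : c 1 = 0 := by
      have : c 1 * (-A a b / A a b) = 0 := by linear_combination e1
      rw [neg_div, div_self hab] at this
      linear_combination -this
    have hc0 : c 0 = 0 := by
      rw [hc1, zero_mul, add_zero] at e2
      exact (mul_eq_zero.1 e2).resolve_right hab
    funext i
    fin_cases i
    · exact hc0
    · exact hc1
  · intro i j
    unfold w11 df
    rw [lf_pd, lf_pd, lf_pd, lf_pd, ← C_mul, ← C_mul, ← C_sub]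
    congr 1
    have h2 := hp a b i j
    field_simp
    linear_combination h2

end Pool.Agent.Helper50.FC
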