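import Pool.Agent.Helper50.FC.NF
import Pool.Agent.Helper50.FC.Poin

/-! K1-5: `E#_0 ≠ 0` gives R(1,4).
Proofs.  `P0_adapted`: component `(a,j,k)` of `dx_a ∧ θ = 0` gives `θ_jk = 0` for `j,k ≠ a`; put `η_k = θ_ak`; closedness
(component `(a,j,k)`) gives `∂_j η_k = ∂_k η_j` for `j,k ≠ a`; `poincare_rel` with `J = univ \ {a}`.
`fam14_of_E0`: the components of `ξ` are constants `c_i`; `l = ∑ c_i x_i`; `exists_coord` (k = 1) gives `φ` with `lsub φ l = X a`; then
`pb φ ξ = df (X a)` (`ξ = df l`, `df_lsub`), `EE_pb2`, `Fol_pb2`, `P0_adapted`, and `Fam14_pb2` with the inverse matrix (`pb2_pb2`, `pb2_one`). -/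

set_option autoImplicit false

namespace Pool.Agent.Helper50.FC

open MvPolynomial
open Pool.Agent.Helper71.FC
open Pool.Agent.Helper71.FL (w12 pf ct Dec Closed dd)
open Pool.Agent.Helper93 (lsub lmap OF pb)
open scoped BigOperators

variable {n : ℕ}

theorem P0_adapted {θ : F2 n} (h : Fol θ) (a : Fin n) (h0 : df (X a) ∈ EE θ 0) :
    ∃ g : Pn n, g.IsHomogeneous 4 ∧ ∀ i j, θ i j = w11 (df (X a)) (df g) i j := by
  have hX : ∀ i, df (X a : Pn n) i = if i = a then 1 else 0 := by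
    intro i
    unfold df
    by_cases hi : i = a
    · rw [if_pos hi, hi, pderiv_X_self]
    · rw [if_neg hi, pderiv_X_of_ne (Ne.symm hi)]
  have h1 : ∀ j k, j ≠ a → k ≠ a → θ j k = 0 := by
    intro j k hj hk
    have h2 := (mem_EE.1 h0).2 a j k
    unfold w12 at h2
    rw [hX, hX, hX, if_pos rfl, if_neg hj, if_neg hk] at h2
    linear_combination h2
  obtain ⟨g, hg1, hg2⟩ := poincare_rel (Finset.univ.erase a) (fun k => θ a k) 3
    (fun j _ => h.hom a j) (by
      intro i hi j hj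
      have hi' := Finset.ne_of_mem_erase hi
      have hj' := Finset.ne_of_mem_erase hj
      have h2 := h.closed a i j
      rw [h1 i j hi' hj', map_zero, h.dec.2.1 j a, map_neg] at h2
      linear_combination -h2)
  have hg3 : ∀ j, j ≠ a → pderiv j g = θ a j := fun j hj =>
    hg2 j (Finset.mem_erase.2 ⟨hj, Finset.mem_univ j⟩)
  refine ⟨g, hg1, fun i j => ?_⟩
  unfold w11
  rw [hX, hX]
  by_cases hi : i = a
  · by_cases hj : j = a
    · rw [hi, hj, h.dec.1 a]; ring
    · rw [if_pos hi, if_neg hj, hi]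
      change θ a j = 1 * pderiv j g - 0 * pderiv a g
      rw [hg3 j hj]; ring
  · by_cases hj : j = a
    · rw [if_neg hi, if_pos hj, hj]
      change θ i a = 0 * pderiv a g - 1 * pderiv i g
      rw [hg3 i hi, h.dec.2.1 i a]; ring
    · rw [if_neg hi, if_neg hj, h1 i j hi hj]; ring

theorem fam14_of_E0 {θ : F2 n} (h : Fol θ) (h0 : EE θ 0 ≠ ⊥) : Fam14 θ := by
  obtain ⟨ξ, hξ, hξ0⟩ := Submodule.exists_mem_ne_zero_of_ne_bot h0
  have hc : ∀ i, ξ i = C (coeff 0 (ξ i)) := fun i =>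
    totalDegree_eq_zero_iff_eq_C.1 (Nat.le_zero.1 (((mem_EE.1 hξ).1 i).totalDegree_le))
  obtain ⟨a, ha⟩ : ∃ a, ξ a ≠ 0 := by
    by_contra hcon
    push Not at hcon
    exact hξ0 (funext hcon)
  set l : Pn n := ∑ i, C (coeff 0 (ξ i)) * X i with hl
  have hl1 : l.IsHomogeneous 1 := by
    refine IsHomogeneous.sum _ _ _ (fun i _ => ?_)
    have := (isHomogeneous_C (Fin n) (coeff 0 (ξ i))).mul (isHomogeneous_X ℂ i)
    rwa [zero_add] at this
  have hdf : df l = ξ := by
    funext k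
    unfold df
    rw [hl, map_sum, Finset.sum_eq_single k]
    · rw [pderiv_C_mul, pderiv_X_self, mul_one, ← hc k]
    · intro b _ hb
      rw [pderiv_C_mul, pderiv_X_of_ne hb, mul_zero]
    · intro hk; exact absurd (Finset.mem_univ k) hk
  have hl0 : l ≠ 0 := by
    intro hz
    apply ha
    rw [← hdf, hz]
    unfold df
    rw [map_zero]
  obtain ⟨φ, ψ, h1, h2, h3⟩ := exists_coord (k := 1) (fun _ => l) (fun _ => hl1) (by
    intro c hc'
    rw [Fin.sum_univ_one] at hc'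
    rcases mul_eq_zero.1 hc' with h4 | h4
    · funext i
      rw [Subsingleton.elim i 0]
      exact C_eq_zero.1 h4
    · exact absurd h4 hl0) (fun _ => a) (fun x y _ => Subsingleton.elim x y)
  have h5 : df (X a) ∈ EE (pb2 φ θ) 0 := by
    have h6 := EE_pb2 φ hξ
    rw [← hdf, ← df_lsub, h3 0] at h6
    exact h6
  obtain ⟨g, hg1, hg2⟩ := P0_adapted (Fol_pb2 φ ψ h1 h2 h) a h5
  have h7 : Fam14 (pb2 φ θ) := ⟨X a, g, isHomogeneous_X ℂ a, hg1, hg2⟩
  have h8 := Fam14_pb2 ψ h7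
  rwa [pb2_pb2, h1, pb2_one] at h8

end Pool.Agent.Helper50.FC
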