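import Pool.Agent.Helper50.FC.Poin
import Pool.Agent.Helper50.FC.Div

/-! K1-7: `μ ∈ E#_1` with `dμ = dx_a ∧ dx_b`.
Proof.  `J = {j | j ≠ a,b}`.  `μ - x_a dx_b` is closed, `= dq`, `q` quadratic (`poincare1`): `μ_j = ∂_j q` (`j ∈ J`), `μ_a = ∂_a q`,
`μ_b = x_a + ∂_b q`.  `dμ ∧ θ = 0` (differentiate `μ ∧ θ = 0`, `dθ = 0`), component `(a,b,j,k)`: `θ_jk = 0` for `j,k ∈ J`.
Put `α_k = θ_ak`, `β_k = θ_bk`, `f = θ_ab`.  `μ ∧ θ = 0`: `(a,j,k)`: `μ_j α_k = μ_k α_j`; `(b,j,k)`: `μ_j β_k = μ_k β_j`;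
`(a,b,k)`: `μ_a β_k - μ_b α_k + μ_k f = 0`.
(a) `μ_j = 0` for all `j ∈ J`: `μ_a, μ_b` are forms in `x_a, x_b`, linearly independent (otherwise `μ = l · (constant form)`, the constant
form lies in `E#_0 = 0`), so `μ_a β_k = μ_b α_k` gives `α_k = μ_a ρ_k`, `β_k = μ_b ρ_k` (`reg2_linear`, `Reg2.dvd_mul`).  Closedness
`(j,k,a)`: `μ_a (∂_j ρ_k - ∂_k ρ_j) = 0`; `poincare_rel`: `ρ_k = ∂_k c`.  `f' := f - (μ_a ∂_b c - μ_b ∂_a c)`:
`θ = f' dx_a∧dx_b + μ∧dc`, closedness: `∂_k (f' + c) = 0`, `h := f' + c` depends on `x_a, x_b`.  `Φ = (x_a, x_b, c)`, `r = (μ_b, - μ_a, h - x_2)`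
(via `few`), `div r = ∂_a μ_b - ∂_b μ_a - 1 = 0`.  This is `Fam3 (1,1,3)`.
(b) `(μ_j)_(j ∈ J)` coprime: `div1_hom` gives quadrics `A, B`: `α_k = A μ_k`, `β_k = B μ_k`; then `f = A μ_b - B μ_a`, i.e.
`θ = (A dx_a + B dx_b) ∧ μ`.  Closedness `(j,k,a)`: `∂_j A μ_k = ∂_k A μ_j`, so `∂_j A = l μ_j`, `l` constant; the same `∂_j B = k μ_j`; so
`A = l q + a0`, `B = k q + b0`, `a0, b0` in `x_a, x_b`; closedness `(a,b,k)`: `∂_a b0 - ∂_b a0 + l x_a = 0`.  `Φ = (x_a, x_b, q)`,
`r = (k x_2 + b0, -(l x_2 + a0), x_0 (l x_2 + a0))`, `div r = ∂_0 b0 - ∂_1 a0 + l x_0 = 0` (`few_inj`).  This is `Fam3 (1,1,2)`.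
(c) otherwise the `μ_j` have a common linear factor: `μ_j = l c_j`, `c_j` constants, not all zero (`j ∈ J`); `n ≥ 4`: there is `v ≠ 0` with
`v_a = v_b = 0`, `∑ v_j c_j = 0`; `α_k = g c_k`, `β_k = g' c_k` (from `μ_j α_k = μ_k α_j`), so `a_v = 0`: cone, contradiction. -/

set_option autoImplicit false

namespace Pool.Agent.Helper50.FC

open MvPolynomial
open Pool.Agent.Helper71.FC
open Pool.Agent.Helper28.FolReg (Reg2 Reg3)
open Pool.Agent.Helper71.FL (w12 pf ct Dec Closed dd)
open scoped BigOperators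

variable {n : ℕ}

/-- the part in the directions outside `{a, b}` -/
def out (a b : Fin n) (μ : F1 n) : {j : Fin n // j ≠ a ∧ j ≠ b} → Pn n := fun j => μ j.1

private theorem hc_mul' {p q : Pn n} {a : ℕ} (hp : p.IsHomogeneous a) (b : ℕ) :
    homogeneousComponent (a + b) (p * q) = p * homogeneousComponent b q := by
  have hs := sum_homogeneousComponent q
  have h1 : p * q = ∑ i ∈ Finset.range (q.totalDegree + 1), p * homogeneousComponent i q := by
    rw [← Finset.mul_sum, hs]
  rw [h1, map_sum]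
  have h2 : ∀ i ∈ Finset.range (q.totalDegree + 1),
      homogeneousComponent (a + b) (p * homogeneousComponent i q) =
        if i = b then p * homogeneousComponent b q else 0 := by
    intro i _
    have h3 : p * homogeneousComponent i q ∈ homogeneousSubmodule (Fin n) ℂ (a + i) :=
      hp.mul (homogeneousComponent_isHomogeneous i q)
    rw [homogeneousComponent_of_mem h3]
    by_cases h4 : i = b
    · subst h4
      rw [if_pos rfl, if_pos rfl]
    · rw [if_neg h4, if_neg (by omega)]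
  rw [Finset.sum_congr rfl h2, Finset.sum_ite_eq' (Finset.range (q.totalDegree + 1)) b]
  split_ifs with h5
  · rfl
  · rw [Finset.mem_range, not_lt] at h5
    rw [homogeneousComponent_eq_zero b q (by omega), mul_zero]

private theorem pdX (i a : Fin n) : pderiv i (X a : Pn n) = if i = a then 1 else 0 := by
  by_cases h : i = a
  · subst h; rw [pderiv_X_self, if_pos rfl]
  · rw [pderiv_X_of_ne (Ne.symm h), if_neg h]

private theorem ddv {a b : Fin n} (hab : a ≠ b) {μ : F1 n}
    (hd : ∀ i j, dd μ i j = w11 (df (X a)) (df (X b)) i j) :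
    pderiv a (μ b) - pderiv b (μ a) = 1 ∧
    (∀ j, j ≠ a → j ≠ b → ∀ i, pderiv i (μ j) = pderiv j (μ i)) := by
  refine ⟨?_, ?_⟩
  · have := hd a b
    unfold dd w11 df at this
    rw [this, pderiv_X_self, pderiv_X_self, pderiv_X_of_ne hab, pderiv_X_of_ne (Ne.symm hab)]
    ring
  · intro j hja hjb i
    have := hd i j
    unfold dd w11 df at this
    rw [pderiv_X_of_ne (Ne.symm hja), pderiv_X_of_ne (Ne.symm hjb)] at this
    have h2 : pderiv i (μ j) - pderiv j (μ i) = 0 := by rw [this]; ring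
    exact sub_eq_zero.1 h2

/-- consequences of `μ ∧ θ = 0`, `dμ = dx_a ∧ dx_b` -/
theorem P1III_prep {θ : F2 n} (h : Fol θ) {a b : Fin n} (hab : a ≠ b) {μ : F1 n} (hE : μ ∈ EE θ 1)
    (hd : ∀ i j, dd μ i j = w11 (df (X a)) (df (X b)) i j) :
    (∃ q : Pn n, q.IsHomogeneous 2 ∧ μ a = pderiv a q ∧ μ b = X a + pderiv b q ∧
      ∀ j, j ≠ a → j ≠ b → μ j = pderiv j q) ∧
    (∀ j k, j ≠ a → j ≠ b → k ≠ a → k ≠ b → θ j k = 0) ∧
    (∀ j k, j ≠ a → j ≠ b → k ≠ a → k ≠ b → μ j * θ a k = μ k * θ a j ∧ μ j * θ b k = μ k * θ b j) ∧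
    (∀ k, k ≠ a → k ≠ b → μ a * θ b k - μ b * θ a k + μ k * θ a b = 0) := by
  obtain ⟨h11, hdj⟩ := ddv hab hd
  have hw := hE.2
  have hcl := h.closed
  have hsk := h.dec.2.1
  have hz : ∀ j k, j ≠ a → j ≠ b → k ≠ a → k ≠ b → θ j k = 0 := by
    intro j k hja hjb hka hkb
    have e1 := congrArg (pderiv a) (hw b j k)
    have e2 := congrArg (pderiv b) (hw a j k)
    have e3 := congrArg (pderiv j) (hw a b k)
    have e4 := congrArg (pderiv k) (hw a b j)
    unfold w12 at e1 e2 e3 e4
    have c1 := hcl b j k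
    have c2 := hcl a j k
    have c3 := hcl a b k
    have c4 := hcl a b j
    have d1 := hdj j hja hjb a
    have d2 := hdj j hja hjb b
    have d3 := hdj k hka hkb a
    have d4 := hdj k hka hkb b
    have d5 := hdj k hka hkb j
    simp only [hsk k a, hsk k b, hsk j a, map_add, Derivation.leibniz, smul_eq_mul,
      map_zero, map_neg] at e1 e2 e3 e4 c1 c2 c3 c4
    linear_combination (e1 - e2 + e3 - e4) - (-θ b k * d1 + θ b j * d3 + θ a k * d2 - θ a j * d4 + θ a b * d5)
      - (μ b * c2 - μ j * c3 + μ k * c4 - μ a * c1) - θ j k * h11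
  refine ⟨?_, hz, ?_, ?_⟩
  · obtain ⟨q, hq1, hq2⟩ := poincare1 (fun i => μ i - (if i = b then X a else 0)) 1
      (fun j => (hE.1 j).sub (by
        split_ifs
        · exact isHomogeneous_X _ _
        · exact isHomogeneous_zero _ _ _)) (by
      intro i j
      have := hd i j
      unfold dd w11 df at this
      simp only [map_sub, apply_ite (pderiv i), apply_ite (pderiv j), pdX, map_zero] at this ⊢
      split_ifs at this ⊢ <;> linear_combination this)
    refine ⟨q, hq1, ?_, ?_, ?_⟩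
    · have := hq2 a
      simp only [if_neg hab, sub_zero] at this
      exact this.symm
    · have := hq2 b
      simp only [if_true] at this
      rw [this]; ring
    · intro j _ hjb
      have := hq2 j
      simp only [if_neg hjb, sub_zero] at this
      exact this.symm
  · intro j k hja hjb hka hkb
    have e1 := hw a j k
    have e2 := hw b j k
    unfold w12 at e1 e2
    rw [hz j k hja hjb hka hkb, hsk k a] at e1
    rw [hz j k hja hjb hka hkb, hsk k b] at e2
    constructor
    · linear_combination -e1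
    · linear_combination -e2
  · intro k _ _
    have e1 := hw a b k
    unfold w12 at e1
    rw [hsk k a] at e1
    linear_combination e1

theorem P1III_a {θ : F2 n} (h : Fol θ) {a b : Fin n} (hab : a ≠ b) {μ : F1 n} (hE : μ ∈ EE θ 1)
    (hd : ∀ i j, dd μ i j = w11 (df (X a)) (df (X b)) i j) (h0 : EE θ 0 = ⊥)
    (hμ : ∀ j, j ≠ a → j ≠ b → μ j = 0) : Fam3 ![1, 1, 3] θ := by
  obtain ⟨h11, hdj⟩ := ddv hab hd
  obtain ⟨-, hz, -, hk⟩ := P1III_prep h hab hE hd
  have hw := hE.2
  have hcl := h.closed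
  have hsk := h.dec.2.1
  have hba : b ≠ a := Ne.symm hab
  -- independence
  have hind : ∀ c : Fin 2 → ℂ, ∑ i, C (c i) * (![μ a, μ b] : Fin 2 → Pn n) i = 0 → c = 0 := by
    intro c hc
    rw [Fin.sum_univ_two] at hc
    change C (c 0) * μ a + C (c 1) * μ b = 0 at hc
    set ξ : F1 n := fun i => if i = a then C (c 1) else if i = b then - C (c 0) else 0 with hξ
    have hξa : ξ a = C (c 1) := by rw [hξ]; exact if_pos rfl
    have hξb : ξ b = - C (c 0) := by rw [hξ]; simp only [if_neg hba, if_true]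
    have hξk : ∀ k, k ≠ a → k ≠ b → ξ k = 0 := by
      intro k h1 h2; rw [hξ]; simp only [if_neg h1, if_neg h2]
    have h1 : ∀ i, C (c 1) * μ i = μ a * ξ i := by
      intro i
      by_cases hia : i = a
      · rw [hia, hξa]; ring
      · by_cases hib : i = b
        · rw [hib, hξb]; linear_combination hc
        · rw [hξk i hia hib, hμ i hia hib]; ring
    have h2 : ∀ i, - C (c 0) * μ i = μ b * ξ i := by
      intro i
      by_cases hia : i = a
      · rw [hia, hξa]; linear_combination -hc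
      · by_cases hib : i = b
        · rw [hib, hξb]; ring
        · rw [hξk i hia hib, hμ i hia hib]; ring
    have h3 : ∀ i j k, μ a * w12 ξ θ i j k = 0 := by
      intro i j k
      have := hw i j k
      unfold w12 at this ⊢
      linear_combination C (c 1) * this - h1 i * θ j k - h1 j * θ k i - h1 k * θ i j
    have h4 : ∀ i j k, μ b * w12 ξ θ i j k = 0 := by
      intro i j k
      have := hw i j k
      unfold w12 at this ⊢
      linear_combination - C (c 0) * this - h2 i * θ j k - h2 j * θ k i - h2 k * θ i j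
    have h5 : ∀ i j k, w12 ξ θ i j k = 0 := by
      intro i j k
      by_contra h6
      have e1 := (mul_eq_zero.1 (h3 i j k)).resolve_right h6
      have e2 := (mul_eq_zero.1 (h4 i j k)).resolve_right h6
      rw [e1, e2, map_zero, map_zero, sub_zero] at h11
      exact zero_ne_one h11
    have h6 : ξ ∈ EE θ 0 := by
      refine ⟨fun i => ?_, h5⟩
      by_cases hia : i = a
      · rw [hia, hξa]; exact isHomogeneous_C _ _
      · by_cases hib : i = b
        · rw [hib, hξb]; exact (isHomogeneous_C _ _).neg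
        · rw [hξk i hia hib]; exact isHomogeneous_zero _ _ _
    rw [h0, Submodule.mem_bot] at h6
    have e1 : C (c 1) = (0 : Pn n) := by rw [← hξa, h6]; rfl
    have e2 : C (c 0) = (0 : Pn n) := by
      have : - C (c 0) = (0 : Pn n) := by rw [← hξb, h6]; rfl
      exact neg_eq_zero.1 this
    rw [C_eq_zero] at e1 e2
    funext i
    fin_cases i
    · exact e2
    · exact e1
  have hreg : Reg2 (μ a) (μ b) := reg2_linear ![μ a, μ b] (fun i => by
    fin_cases i
    · exact hE.1 a
    · exact hE.1 b) hind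
  have ha0 : μ a ≠ 0 := by
    intro h1
    have := hreg.1 1 (by rw [h1, zero_mul])
    exact one_ne_zero this
  have hρ' : ∀ k, ∃ r : Pn n, r.IsHomogeneous 2 ∧ (k ≠ a → k ≠ b → θ a k = μ a * r ∧ θ b k = μ b * r) := by
    intro k
    by_cases hkab : k ≠ a ∧ k ≠ b
    · have e := hk k hkab.1 hkab.2
      rw [hμ k hkab.1 hkab.2] at e
      obtain ⟨c, hc1, hc2⟩ := hreg.dvd_mul (a := θ a k) (b := θ b k) (by linear_combination -e)
      refine ⟨homogeneousComponent 2 c, homogeneousComponent_isHomogeneous _ _, fun _ _ => ⟨?_, ?_⟩⟩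
      · rw [← hc_mul' (hE.1 a) 2, ← hc1]
        exact (homogeneousComponent_eq_self (h.hom a k)).symm
      · rw [← hc_mul' (hE.1 b) 2, ← hc2]
        exact (homogeneousComponent_eq_self (h.hom b k)).symm
    · refine ⟨0, isHomogeneous_zero _ _ _, fun h1 h2 => absurd ⟨h1, h2⟩ hkab⟩
  choose ρ hρ1 hρ2 using hρ'
  classical
  have hmem : ∀ j, j ∈ Finset.univ.filter (fun j : Fin n => j ≠ a ∧ j ≠ b) ↔ (j ≠ a ∧ j ≠ b) := by
    intro j; simp
  obtain ⟨c, hc1, hc2⟩ := poincare_rel (Finset.univ.filter (fun j : Fin n => j ≠ a ∧ j ≠ b)) ρ 2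
    (fun j _ => hρ1 j) (by
      intro i hi j hj
      obtain ⟨hia, hib⟩ := (hmem i).1 hi
      obtain ⟨hja, hjb⟩ := (hmem j).1 hj
      have e := hcl i j a
      rw [hsk j a, hz i j hia hib hja hjb, (hρ2 i hia hib).1, (hρ2 j hja hjb).1] at e
      simp only [Derivation.leibniz, smul_eq_mul, map_neg, map_zero] at e
      have e1 := hdj i hia hib a
      have e2 := hdj j hja hjb a
      rw [hμ i hia hib, map_zero] at e1
      rw [hμ j hja hjb, map_zero] at e2
      have e3 : μ a * (pderiv i (ρ j) - pderiv j (ρ i)) = 0 := by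
        linear_combination -e + ρ j * e1 - ρ i * e2
      exact sub_eq_zero.1 ((mul_eq_zero.1 e3).resolve_left ha0))
  have hc3 : ∀ k, k ≠ a → k ≠ b → pderiv k c = ρ k := fun k h1 h2 => hc2 k ((hmem k).2 ⟨h1, h2⟩)
  -- h := f' + c
  have hhom : (θ a b - (μ a * pderiv b c - μ b * pderiv a c) + c).IsHomogeneous 3 := by
    have k1 : (μ a * pderiv b c).IsHomogeneous 3 := by
      have := (hE.1 a).mul (hc1.pderiv (i := b)); simpa using this
    have k2 : (μ b * pderiv a c).IsHomogeneous 3 := by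
      have := (hE.1 b).mul (hc1.pderiv (i := a)); simpa using this
    exact ((h.hom a b).sub (k1.sub k2)).add hc1
  have hH : ∀ k, k ≠ a → k ≠ b →
      pderiv k (θ a b - (μ a * pderiv b c - μ b * pderiv a c) + c) = 0 := by
    intro k hka hkb
    have e := hcl a b k
    rw [hsk k a, (hρ2 k hka hkb).1, (hρ2 k hka hkb).2] at e
    have e1 := hdj k hka hkb a
    have e2 := hdj k hka hkb b
    rw [hμ k hka hkb, map_zero] at e1 e2
    have e3 : pderiv k (pderiv b c) = pderiv b (ρ k) := by rw [pd_comm, hc3 k hka hkb]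
    have e4 : pderiv k (pderiv a c) = pderiv a (ρ k) := by rw [pd_comm, hc3 k hka hkb]
    simp only [map_sub, map_add, map_neg, Derivation.leibniz, smul_eq_mul, e3, e4, hc3 k hka hkb] at e ⊢
    linear_combination e - ρ k * h11 + pderiv b c * e1 - pderiv a c * e2
  set H := θ a b - (μ a * pderiv b c - μ b * pderiv a c) + c with hHdef
  obtain ⟨rb, b1, b2, b3, b4, b5⟩ := few hab (hE.1 b) (fun j h1 h2 => by
    rw [← hdj j h1 h2 b, hμ j h1 h2, map_zero]) ![X a, X b, c] rfl rfl ![1, 1, 3] rfl rfl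
  obtain ⟨ra, a1, a2, a3, a4, a5⟩ := few hab (hE.1 a) (fun j h1 h2 => by
    rw [← hdj j h1 h2 a, hμ j h1 h2, map_zero]) ![X a, X b, c] rfl rfl ![1, 1, 3] rfl rfl
  obtain ⟨rh, k1, k2, k3, k4, k5⟩ := few hab hhom hH ![X a, X b, c] rfl rfl ![1, 1, 3] rfl rfl
  refine ⟨![X a, X b, c], ![rb, -ra, rh - X 2], ?_, ?_, ?_, ?_⟩
  · intro i
    fin_cases i
    · exact isHomogeneous_X _ _
    · exact isHomogeneous_X _ _
    · exact hc1
  · intro i
    fin_cases i
    · exact b1
    · exact a1.neg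
    · refine IsWeightedHomogeneous.sub k1 ?_
      exact isWeightedHomogeneous_X ℂ ![1, 1, 3] 2
  · rw [Fin.sum_univ_three]
    change pderiv 0 rb + pderiv 1 (-ra) + pderiv 2 (rh - X 2) = 0
    refine few_inj hab ![X a, X b, c] rfl rfl ?_ ?_
    · rw [map_sub, k2, pderiv_X_self, map_neg]
      simp only [map_add, map_sub, map_neg, map_zero]
      rw [pd_comm 2 0, pd_comm 2 1, a2, b2]
      simp
    · rw [map_sub, k2, pderiv_X_self, map_neg]
      simp only [map_add, map_sub, map_neg, map_zero, map_one]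
      rw [b4, a5]
      linear_combination h11
  · intro i j
    rw [Fin.sum_univ_three]
    change θ i j = aeval ![X a, X b, c] rb * w11 (df (X b)) (df c) i j
      + aeval ![X a, X b, c] (-ra) * w11 (df c) (df (X a)) i j
      + aeval ![X a, X b, c] (rh - X 2) * w11 (df (X a)) (df (X b)) i j
    rw [map_neg, map_sub, aeval_X, b3, a3, k3]
    change θ i j = μ b * w11 (df (X b)) (df c) i j + -μ a * w11 (df c) (df (X a)) i j
      + (H - c) * w11 (df (X a)) (df (X b)) i j
    rw [hHdef]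
    unfold w11 df
    simp only [pdX]
    by_cases hia : i = a
    · subst hia
      by_cases hja : j = i
      · subst hja
        rw [h.dec.1 j]; simp [hab]
      · by_cases hjb : j = b
        · subst hjb
          simp [hab, hba]
          ring
        · rw [(hρ2 j hja hjb).1]
          simp [hab, hja, hjb, hc3 j hja hjb]
    · by_cases hib : i = b
      · subst hib
        by_cases hja : j = a
        · subst hja
          rw [hsk i j]
          simp [hab, hba]
          ring
        · by_cases hjb : j = i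
          · subst hjb
            rw [h.dec.1 j]; simp [hba]
          · rw [(hρ2 j hja hjb).2]
            simp [hba, hja, hjb, hc3 j hja hjb]
      · by_cases hja : j = a
        · subst hja
          rw [hsk i j, (hρ2 i hia hib).1]
          simp [hab, hia, hib, hc3 i hia hib]
        · by_cases hjb : j = b
          · subst hjb
            rw [hsk i j, (hρ2 i hia hib).2]
            simp [hba, hia, hib, hc3 i hia hib]
          · rw [hz i j hia hib hja hjb]
            simp [hia, hib, hja, hjb]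

theorem P1III_b {θ : F2 n} (h : Fol θ) {a b : Fin n} (hab : a ≠ b) {μ : F1 n} (hE : μ ∈ EE θ 1)
    (hd : ∀ i j, dd μ i j = w11 (df (X a)) (df (X b)) i j)
    (hμ : Prim (out a b μ)) (hne : ∃ j, j ≠ a ∧ j ≠ b ∧ μ j ≠ 0) : Fam3 ![1, 1, 2] θ := by
  obtain ⟨h11, hdj⟩ := ddv hab hd
  obtain ⟨⟨q, hq, hqa, hqb, hqj⟩, hz, hjk, hk⟩ := P1III_prep h hab hE hd
  have hcl := h.closed
  have hsk := h.dec.2.1
  have hba : b ≠ a := Ne.symm hab
  obtain ⟨k0, hk0a, hk0b, hk0⟩ := hne
  obtain ⟨A, hA1, -, hA2'⟩ := div1_hom (ξ := fun j : {j : Fin n // j ≠ a ∧ j ≠ b} => θ a j.1)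
    (a := 3) (b := 1) hμ (by
      intro i j
      have := (hjk i.1 j.1 i.2.1 i.2.2 j.2.1 j.2.2).1
      unfold w11 out
      linear_combination -this) (fun i => h.hom a i.1) (fun i => hE.1 i.1)
  obtain ⟨B, hB1, -, hB2'⟩ := div1_hom (ξ := fun j : {j : Fin n // j ≠ a ∧ j ≠ b} => θ b j.1)
    (a := 3) (b := 1) hμ (by
      intro i j
      have := (hjk i.1 j.1 i.2.1 i.2.2 j.2.1 j.2.2).2
      unfold w11 out
      linear_combination -this) (fun i => h.hom b i.1) (fun i => hE.1 i.1)
  have hA2 : ∀ k, k ≠ a → k ≠ b → θ a k = A * μ k := fun k h1 h2 => hA2' ⟨k, h1, h2⟩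
  have hB2 : ∀ k, k ≠ a → k ≠ b → θ b k = B * μ k := fun k h1 h2 => hB2' ⟨k, h1, h2⟩
  clear hA2' hB2'
  norm_num at hA1 hB1
  have hf : θ a b = A * μ b - B * μ a := by
    have e := hk k0 hk0a hk0b
    rw [hA2 k0 hk0a hk0b, hB2 k0 hk0a hk0b] at e
    have e2 : μ k0 * (θ a b - (A * μ b - B * μ a)) = 0 := by linear_combination e
    exact sub_eq_zero.1 ((mul_eq_zero.1 e2).resolve_left hk0)
  have hAc : ∀ j k, j ≠ a → j ≠ b → k ≠ a → k ≠ b → pderiv j A * μ k = pderiv k A * μ j := by
    intro j k hja hjb hka hkb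
    have e := hcl j k a
    rw [hsk k a, hz j k hja hjb hka hkb, hA2 j hja hjb, hA2 k hka hkb] at e
    simp only [Derivation.leibniz, smul_eq_mul, map_neg, map_zero] at e
    have e1 := hdj k hka hkb j
    linear_combination -e - A * e1
  have hBc : ∀ j k, j ≠ a → j ≠ b → k ≠ a → k ≠ b → pderiv j B * μ k = pderiv k B * μ j := by
    intro j k hja hjb hka hkb
    have e := hcl j k b
    rw [hsk k b, hz j k hja hjb hka hkb, hB2 j hja hjb, hB2 k hka hkb] at e
    simp only [Derivation.leibniz, smul_eq_mul, map_neg, map_zero] at e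
    have e1 := hdj k hka hkb j
    linear_combination -e - B * e1
  have hconst : ∀ F : Pn n, F.IsHomogeneous 2 →
      (∀ j k, j ≠ a → j ≠ b → k ≠ a → k ≠ b → pderiv j F * μ k = pderiv k F * μ j) →
      ∃ l : ℂ, ∀ j, j ≠ a → j ≠ b → pderiv j F = C l * μ j := by
    intro F hF hFc
    obtain ⟨g, hg1, -, hg2⟩ := div1_hom (ξ := fun j : {j : Fin n // j ≠ a ∧ j ≠ b} => pderiv j.1 F)
      (a := 1) (b := 1) hμ (by
        intro i j
        have := hFc i.1 j.1 i.2.1 i.2.2 j.2.1 j.2.2
        unfold w11 out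
        linear_combination this) (fun i => by
          have := hF.pderiv (i := i.1); simpa using this) (fun i => hE.1 i.1)
    have h3 : g.totalDegree = 0 := Nat.le_zero.1 hg1.totalDegree_le
    rw [totalDegree_eq_zero_iff_eq_C] at h3
    refine ⟨coeff 0 g, fun j h1 h2 => ?_⟩
    rw [← h3]
    exact hg2 ⟨j, h1, h2⟩
  obtain ⟨l, hl⟩ := hconst A hA1 hAc
  obtain ⟨m, hm⟩ := hconst B hB1 hBc
  have hrel : pderiv a B - pderiv b A + C l * μ b - C m * μ a = 0 := by
    have e := hcl a b k0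
    rw [hsk k0 a, hA2 k0 hk0a hk0b, hB2 k0 hk0a hk0b, hf] at e
    simp only [Derivation.leibniz, smul_eq_mul, map_neg, map_sub, hl k0 hk0a hk0b, hm k0 hk0a hk0b] at e
    have e1 := hdj k0 hk0a hk0b a
    have e2 := hdj k0 hk0a hk0b b
    have e3 : μ k0 * (pderiv a B - pderiv b A + C l * μ b - C m * μ a) = 0 := by
      linear_combination e - B * e1 + A * e2
    exact (mul_eq_zero.1 e3).resolve_left hk0
  have ha0 : (A - C l * q).IsHomogeneous 2 := hA1.sub (by
    have := (isHomogeneous_C (Fin n) l).mul hq; simpa using this)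
  have hb0 : (B - C m * q).IsHomogeneous 2 := hB1.sub (by
    have := (isHomogeneous_C (Fin n) m).mul hq; simpa using this)
  obtain ⟨ra, a1, a2, a3, a4, a5⟩ := few hab ha0 (fun j h1 h2 => by
    simp only [map_sub, Derivation.leibniz, smul_eq_mul, pderiv_C, hl j h1 h2, hqj j h1 h2]
    ring) ![X a, X b, q] rfl rfl ![1, 1, 2] rfl rfl
  obtain ⟨rb, b1, b2, b3, b4, b5⟩ := few hab hb0 (fun j h1 h2 => by
    simp only [map_sub, Derivation.leibniz, smul_eq_mul, pderiv_C, hm j h1 h2, hqj j h1 h2]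
    ring) ![X a, X b, q] rfl rfl ![1, 1, 2] rfl rfl
  have hx2 : IsWeightedHomogeneous ![1, 1, 2] (X 2 : MvPolynomial (Fin 3) ℂ) 2 :=
    isWeightedHomogeneous_X ℂ ![1, 1, 2] 2
  have hx0 : IsWeightedHomogeneous ![1, 1, 2] (X 0 : MvPolynomial (Fin 3) ℂ) 1 :=
    isWeightedHomogeneous_X ℂ ![1, 1, 2] 0
  have hcx : ∀ t : ℂ, IsWeightedHomogeneous ![1, 1, 2] (C t * X 2 : MvPolynomial (Fin 3) ℂ) 2 := by
    intro t
    have := (isWeightedHomogeneous_C (![1, 1, 2] : Fin 3 → ℕ) t).mul hx2
    simpa using this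
  refine ⟨![X a, X b, q], ![C m * X 2 + rb, -(C l * X 2 + ra), X 0 * (C l * X 2 + ra)], ?_, ?_, ?_, ?_⟩
  · intro i
    fin_cases i
    · exact isHomogeneous_X _ _
    · exact isHomogeneous_X _ _
    · exact hq
  · intro i
    fin_cases i
    · exact (hcx m).add b1
    · exact ((hcx l).add a1).neg
    · exact hx0.mul ((hcx l).add a1)
  · rw [Fin.sum_univ_three]
    change pderiv 0 (C m * X 2 + rb) + pderiv 1 (-(C l * X 2 + ra)) + pderiv 2 (X 0 * (C l * X 2 + ra)) = 0
    have x20 : pderiv 0 (X 2 : MvPolynomial (Fin 3) ℂ) = 0 := pderiv_X_of_ne (by decide)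
    have x21 : pderiv 1 (X 2 : MvPolynomial (Fin 3) ℂ) = 0 := pderiv_X_of_ne (by decide)
    have x02 : pderiv 2 (X 0 : MvPolynomial (Fin 3) ℂ) = 0 := pderiv_X_of_ne (by decide)
    have key : pderiv 0 (C m * X 2 + rb) + pderiv 1 (-(C l * X 2 + ra)) + pderiv 2 (X 0 * (C l * X 2 + ra))
        = pderiv 0 rb - pderiv 1 ra + C l * X 0 := by
      simp only [map_add, map_neg, Derivation.leibniz, smul_eq_mul, pderiv_C, x20, x21, x02,
        pderiv_X_self, a2]
      ring
    rw [key]
    refine few_inj hab ![X a, X b, q] rfl rfl ?_ ?_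
    · simp only [map_add, map_sub, Derivation.leibniz, smul_eq_mul, pderiv_C, x02]
      rw [pd_comm 2 0, pd_comm 2 1, a2, b2]
      simp
    · simp only [map_add, map_sub, map_mul, aeval_X, aeval_C, b4, a5]
      change pderiv a B - pderiv a (C m * q) - (pderiv b A - pderiv b (C l * q)) + C l * X a = 0
      simp only [Derivation.leibniz, smul_eq_mul, pderiv_C]
      rw [hqa, hqb] at hrel
      linear_combination hrel
  · intro i j
    rw [Fin.sum_univ_three]
    change θ i j = aeval ![X a, X b, q] (C m * X 2 + rb) * w11 (df (X b)) (df q) i j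
      + aeval ![X a, X b, q] (-(C l * X 2 + ra)) * w11 (df q) (df (X a)) i j
      + aeval ![X a, X b, q] (X 0 * (C l * X 2 + ra)) * w11 (df (X a)) (df (X b)) i j
    simp only [map_add, map_neg, map_mul, aeval_X, aeval_C, a3, b3]
    change θ i j = (C m * q + (B - C m * q)) * w11 (df (X b)) (df q) i j
      + -(C l * q + (A - C l * q)) * w11 (df q) (df (X a)) i j
      + X a * (C l * q + (A - C l * q)) * w11 (df (X a)) (df (X b)) i j
    unfold w11 df
    simp only [pdX]
    have qa' : pderiv a q = μ a := hqa.symm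
    have qb' : pderiv b q = μ b - X a := by rw [hqb]; ring
    by_cases hia : i = a
    · subst hia
      by_cases hja : j = i
      · subst hja
        rw [h.dec.1 j]; simp [hab]
      · by_cases hjb : j = b
        · subst hjb
          rw [hf, qa', qb']
          simp [hab, hba]
          ring
        · rw [hA2 j hja hjb]
          simp [hab, hja, hjb, ← hqj j hja hjb]
    · by_cases hib : i = b
      · subst hib
        by_cases hja : j = a
        · subst hja
          rw [hsk i j, hf, qa', qb']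
          simp [hab, hba]
          ring
        · by_cases hjb : j = i
          · subst hjb
            rw [h.dec.1 j]; simp [hba]
          · rw [hB2 j hja hjb]
            simp [hba, hja, hjb, ← hqj j hja hjb]
      · by_cases hja : j = a
        · subst hja
          rw [hsk i j, hA2 i hia hib]
          simp [hab, hia, hib, ← hqj i hia hib]
        · by_cases hjb : j = b
          · subst hjb
            rw [hsk i j, hB2 i hia hib]
            simp [hba, hia, hib, ← hqj i hia hib]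
          · rw [hz i j hia hib hja hjb]
            simp [hia, hib, hja, hjb]

theorem P1III_c {θ : F2 n} (h : Fol θ) (hn : 4 ≤ n) {a b : Fin n} (hab : a ≠ b) {μ : F1 n} (hE : μ ∈ EE θ 1)
    (hd : ∀ i j, dd μ i j = w11 (df (X a)) (df (X b)) i j)
    (hμ : ¬ Prim (out a b μ)) (hne : ∃ j, j ≠ a ∧ j ≠ b ∧ μ j ≠ 0) : Cone θ := by
  obtain ⟨-, hz, hjk, -⟩ := P1III_prep h hab hE hd
  have hsk := h.dec.2.1
  obtain ⟨j0, hj0a, hj0b, hj0⟩ := hne
  unfold Prim at hμ
  push Not at hμ
  obtain ⟨p, hp1, hp2⟩ := hμ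
  have hp3 : ∀ j, j ≠ a → j ≠ b → p ∣ μ j := fun j h1 h2 => hp1 ⟨j, h1, h2⟩
  obtain ⟨j1, hj1⟩ : ∃ j1 : Fin n, j1 ∉ ({a, b, j0} : Finset (Fin n)) := by
    by_contra hcon
    push Not at hcon
    have h1 : (Finset.univ : Finset (Fin n)) ⊆ {a, b, j0} := fun x _ => hcon x
    have h2 := Finset.card_le_card h1
    rw [Finset.card_univ, Fintype.card_fin] at h2
    have h3 := Finset.card_le_three (a := a) (b := b) (c := j0)
    omega
  simp only [Finset.mem_insert, Finset.mem_singleton, not_or] at hj1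
  obtain ⟨hj1a, hj1b, hj10⟩ := hj1
  obtain ⟨s, hs⟩ := hp3 j0 hj0a hj0b
  obtain ⟨t, ht⟩ := hp3 j1 hj1a hj1b
  have hp0 : p ≠ 0 := by rintro rfl; rw [zero_mul] at hs; exact hj0 hs
  have hs0 : s ≠ 0 := by rintro rfl; rw [mul_zero] at hs; exact hj0 hs
  have hpd : 1 ≤ p.totalDegree := by
    by_contra h1
    have h2 : p.totalDegree = 0 := by omega
    rw [totalDegree_eq_zero_iff_eq_C] at h2
    apply hp2
    rw [h2]
    rw [h2] at hp0
    refine IsUnit.map C ?_
    rw [isUnit_iff_ne_zero]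
    intro h3
    rw [h3, map_zero] at hp0
    exact hp0 rfl
  have hdeg : ∀ j (u : Pn n), μ j = p * u → ∃ c : ℂ, u = C c := by
    intro j u hu
    by_cases hu0 : u = 0
    · exact ⟨0, by rw [hu0, map_zero]⟩
    · have h1 : (μ j).totalDegree = p.totalDegree + u.totalDegree := by
        rw [hu]; exact totalDegree_mul_of_isDomain hp0 hu0
      have h2 : (μ j).totalDegree ≤ 1 := (hE.1 j).totalDegree_le
      have h3 : u.totalDegree = 0 := by omega
      exact ⟨_, totalDegree_eq_zero_iff_eq_C.1 h3⟩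
  obtain ⟨c0, hc0⟩ := hdeg j0 s hs
  obtain ⟨c1, hc1⟩ := hdeg j1 t ht
  have hc0' : c0 ≠ 0 := by rintro rfl; rw [map_zero] at hc0; exact hs0 hc0
  -- c0 μ_j1 = c1 μ_j0
  rw [hc0] at hs
  rw [hc1] at ht
  refine ⟨fun i => if i = j0 then c1 else if i = j1 then -c0 else 0, ?_, ?_⟩
  · intro h1
    have h2 := congrFun h1 j1
    simp only [if_neg hj10, if_true, Pi.zero_apply, neg_eq_zero] at h2
    exact hc0' h2
  · intro j
    have h1 : av θ (fun i => if i = j0 then c1 else if i = j1 then -c0 else 0) j =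
        C c1 * θ j0 j - C c0 * θ j1 j := by
      unfold av ct cv
      have h2 : ∀ i : Fin n, C (if i = j0 then c1 else if i = j1 then -c0 else 0) * θ i j =
          (if i = j0 then C c1 * θ j0 j else 0) + (if i = j1 then - C c0 * θ j1 j else 0) := by
        intro i
        by_cases hi0 : i = j0
        · rw [if_pos hi0, if_pos hi0, if_neg (by rw [hi0]; exact Ne.symm hj10), hi0, add_zero]
        · by_cases hi1 : i = j1
          · rw [if_neg hi0, if_pos hi1, if_neg hi0, if_pos hi1, hi1, map_neg, zero_add]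
          · rw [if_neg hi0, if_neg hi1, if_neg hi0, if_neg hi1, map_zero, zero_mul, zero_add]
      rw [Finset.sum_congr rfl (fun i _ => h2 i), Finset.sum_add_distrib, Finset.sum_ite_eq',
        Finset.sum_ite_eq', if_pos (Finset.mem_univ _), if_pos (Finset.mem_univ _)]
      ring
    rw [h1]
    have hcase : ∀ d : Fin n, μ j0 * θ d j1 = μ j1 * θ d j0 → C c1 * θ j0 d - C c0 * θ j1 d = 0 := by
      intro d hdd
      rw [hs, ht] at hdd
      have e : p * (C c1 * θ j0 d - C c0 * θ j1 d) = 0 := by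
        rw [hsk j0 d, hsk j1 d]
        linear_combination hdd
      exact (mul_eq_zero.1 e).resolve_left hp0
    by_cases hja : j = a
    · rw [hja]
      exact hcase a (hjk j0 j1 hj0a hj0b hj1a hj1b).1
    · by_cases hjb : j = b
      · rw [hjb]
        exact hcase b (hjk j0 j1 hj0a hj0b hj1a hj1b).2
      · rw [hz j0 j hj0a hj0b hja hjb, hz j1 j hj1a hj1b hja hjb]
        ring

theorem P1III {θ : F2 n} (h : Fol θ) (hn : 4 ≤ n) (hc : ¬ Cone θ) {a b : Fin n} (hab : a ≠ b) {μ : F1 n}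
    (hE : μ ∈ EE θ 1) (hd : ∀ i j, dd μ i j = w11 (df (X a)) (df (X b)) i j) (h0 : EE θ 0 = ⊥) :
    Fam3 ![1, 1, 3] θ ∨ Fam3 ![1, 1, 2] θ := by
  by_cases h1 : ∃ j, j ≠ a ∧ j ≠ b ∧ μ j ≠ 0
  · by_cases h2 : Prim (out a b μ)
    · exact Or.inr (P1III_b h hab hE hd h2 h1)
    · exact absurd (P1III_c h hn hab hE hd h2 h1) hc
  · left
    apply P1III_a h hab hE hd h0
    intro j hj1 hj2
    by_contra h3
    exact h1 ⟨j, hj1, hj2, h3⟩

end Pool.Agent.Helper50.FC
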