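import Pool.Agent.Helper50.FC.P1a
import Pool.Agent.Helper50.FC.P1b
import Pool.Agent.Helper50.FC.NF

/-! K1-8: `E#_0 = 0`, `E#_1 ≠ 0`, not a cone, `n ≥ 5`.
Proof.  `0 ≠ μ ∈ E#_1`, `A = dμ` (constants `A i j`, `dd μ i j = C (A i j)`), `pf A = 0` by `P1skew`.
`A = 0`: `μ = dq` (`poincare1`), `quad_split`: either `P1I`, or `q = l1 l2`.  In the second case: if `l1, l2` are linearly dependent then
`q = c l²`, `μ = 2 c l dl` and `dl ∈ E#_0` (cancel `l`), contradiction; otherwise `exists_coord` (k = 2) with `lsub φ l_i = X (e i)`,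
`pb φ μ = df (X a * X b)`, `P1II` for `pb2 φ θ` and back with `Fam3_pb2` (inverse matrix, `pb2_pb2`, `pb2_one`).
`A ≠ 0`: `alt_split`, `exists_coord`, so `dd (pb φ μ) = pb2 φ (dd μ) = w11 (df X_a) (df X_b)`; `P1III` for `pb2 φ θ` (`Fol_pb2`, `Cone_pb2`, `EE_pb2`;
`EE (pb2 φ θ) 0 = ⊥` by transporting back). -/

set_option autoImplicit false

namespace Pool.Agent.Helper50.FC

open MvPolynomial
open Pool.Agent.Helper71.FC
open Pool.Agent.Helper28.FolReg (Reg2 Reg3)
open Pool.Agent.Helper71.FL (w12 pf ct Dec Closed dd)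
open Pool.Agent.Helper93 (lsub lmap OF pb)
open scoped BigOperators

variable {n : ℕ}

/-- a homogeneous polynomial of degree zero is a constant -/
private theorem const_of_hom {p : Pn n} (hp : p.IsHomogeneous 0) : C (coeff 0 p) = p := by
  have h1 : p.totalDegree = 0 := Nat.le_zero.1 hp.totalDegree_le
  exact (totalDegree_eq_zero_iff_eq_C.1 h1).symm

private theorem pb_zero (φ : Fin n → Fin n → ℂ) : pb φ (0 : F1 n) = 0 := by
  funext i
  unfold pb
  simp

private theorem back {φ ψ : Fin n → Fin n → ℂ} (h1 : mm φ ψ = one n) (θ : F2 n) :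
    pb2 ψ (pb2 φ θ) = θ := by
  rw [pb2_pb2, h1, pb2_one]

private theorem EE0_back {φ ψ : Fin n → Fin n → ℂ} (h1 : mm φ ψ = one n) (h2 : mm ψ φ = one n) {θ : F2 n}
    (h0 : EE θ 0 = ⊥) : EE (pb2 φ θ) 0 = ⊥ := by
  rw [Submodule.eq_bot_iff]
  intro ξ hξ
  have h3 := EE_pb2 ψ hξ
  rw [back h1, h0, Submodule.mem_bot] at h3
  have h4 : pb φ (pb ψ ξ) = ξ := by rw [pb_pb', h2, pb_one]
  rw [← h4, h3, pb_zero]

/-- the case `μ = d (l1 l2)` -/
private theorem case_split {θ : F2 n} (h : Fol θ) (hn : 5 ≤ n) (h0 : EE θ 0 = ⊥) {l1 l2 : Pn n}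
    (hl1 : l1.IsHomogeneous 1) (hl2 : l2.IsHomogeneous 1) (hE : df (l1 * l2) ∈ EE θ 1)
    (hne : df (l1 * l2) ≠ 0) : Fam3 ![1, 1, 3] θ := by
  by_cases hi : ∀ c : Fin 2 → ℂ, ∑ i, C (c i) * (![l1, l2] i) = 0 → c = 0
  · obtain ⟨φ, ψ, e1, e2, e3⟩ := exists_coord (k := 2) ![l1, l2]
      (by intro i; fin_cases i <;> simp [hl1, hl2]) hi ![⟨0, by omega⟩, ⟨1, by omega⟩]
      (by intro i j hij; fin_cases i <;> fin_cases j <;> simp_all)
    have e30 : lsub φ l1 = X ⟨0, by omega⟩ := by simpa using e3 0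
    have e31 : lsub φ l2 = X ⟨1, by omega⟩ := by simpa using e3 1
    have h3 := EE_pb2 φ hE
    rw [← df_lsub, map_mul, e30, e31] at h3
    have h4 := P1II (Fol_pb2 φ ψ e1 e2 h) (by simp) h3
    have h5 := Fam3_pb2 ψ h4
    rwa [back e1] at h5
  · exfalso
    push Not at hi
    obtain ⟨c, hc1, hc2⟩ := hi
    rw [Fin.sum_univ_two] at hc1
    simp only [Matrix.cons_val_zero, Matrix.cons_val_one] at hc1
    -- df (l1 l2) = C a * l * dl
    have key : ∃ (a : ℂ) (l : Pn n), l.IsHomogeneous 1 ∧ l1 * l2 = C a * (l * l) := by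
      by_cases hc0 : c 0 = 0
      · have hc3 : c 1 ≠ 0 := by
          intro h5
          apply hc2
          funext i
          fin_cases i <;> simp [hc0, h5]
        rw [hc0, map_zero, zero_mul, zero_add] at hc1
        have h6 : l2 = 0 := (mul_eq_zero.1 hc1).resolve_left (by
          intro h7; exact hc3 (C_injective _ _ (by rw [h7, map_zero])))
        exact ⟨0, l1, hl1, by rw [h6]; simp⟩
      · refine ⟨- (c 1 / c 0), l2, hl2, ?_⟩
        have h6 : (C (c 0) : Pn n) * (l1 - C (- (c 1 / c 0)) * l2) = 0 := by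
          have h7 : (C (c 0) : Pn n) * C (- (c 1 / c 0)) = - C (c 1) := by
            rw [← C_mul, ← C_neg]
            congr 1
            field_simp
          rw [mul_sub, ← mul_assoc, h7]
          linear_combination hc1
        have h8 := (mul_eq_zero.1 h6).resolve_left (by
          intro h7; exact hc0 (C_injective _ _ (by rw [h7, map_zero])))
        rw [sub_eq_zero.1 h8]
        ring
    obtain ⟨a, l, hl, hq⟩ := key
    have hd : ∀ i, df (l1 * l2) i = (C (2 * a) * l) * df l i := by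
      intro i
      rw [hq]
      unfold df
      rw [pderiv_C_mul, Derivation.leibniz, smul_eq_mul, C_mul]
      have : (C (2 : ℂ) : Pn n) = 2 := map_ofNat C 2
      rw [this]
      ring
    have hla : (C (2 * a) * l : Pn n) ≠ 0 := by
      intro h5
      apply hne
      funext i
      rw [hd i, h5, zero_mul]
      rfl
    have hdl : df l ∈ EE θ 0 := by
      rw [mem_EE]
      refine ⟨fun i => ?_, fun i j k => ?_⟩
      · have := hl.pderiv (i := i)
        exact this
      · have h5 := (mem_EE.1 hE).2 i j k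
        have h6 : w12 (df (l1 * l2)) θ i j k = (C (2 * a) * l) * w12 (df l) θ i j k := by
          unfold w12
          rw [hd, hd, hd]
          ring
        rw [h6] at h5
        exact (mul_eq_zero.1 h5).resolve_left hla
    rw [h0, Submodule.mem_bot] at hdl
    apply hne
    funext i
    rw [hd i, hdl]
    simp

theorem P1 {θ : F2 n} (h : Fol θ) (hn : 5 ≤ n) (hc : ¬ Cone θ) (h0 : EE θ 0 = ⊥) (h1 : EE θ 1 ≠ ⊥) :
    Fam23 θ ∨ Fam3 ![1, 1, 3] θ ∨ Fam3 ![1, 1, 2] θ := by
  obtain ⟨μ, hμ, hμ0⟩ := Submodule.exists_mem_ne_zero_of_ne_bot h1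
  have hhom : ∀ i, (μ i).IsHomogeneous 1 := (mem_EE.1 hμ).1
  have hdd : ∀ i j, C (coeff 0 (dd μ i j)) = dd μ i j := by
    intro i j
    apply const_of_hom
    unfold dd
    have e1 := (hhom j).pderiv (i := i)
    have e2 := (hhom i).pderiv (i := j)
    simpa using e1.sub e2
  set A : Fin n → Fin n → ℂ := fun i j => coeff 0 (dd μ i j) with hA
  by_cases hA0 : A = 0
  · -- closed
    have hcl : ∀ i j, pderiv i (μ j) = pderiv j (μ i) := by
      intro i j
      have h2 := hdd i j
      have h3 : coeff 0 (dd μ i j) = 0 := congrFun (congrFun hA0 i) j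
      rw [h3, map_zero] at h2
      unfold dd at h2
      exact sub_eq_zero.1 h2.symm
    obtain ⟨q, hq1, hq2⟩ := poincare1 μ 1 hhom hcl
    have hμq : μ = df q := by
      funext j
      exact (hq2 j).symm
    rcases quad_split hq1 with ⟨i0, i1, i2, hr⟩ | ⟨l1, l2, hl1, hl2, hq3⟩
    · left
      exact P1I h hq1 (hμq ▸ hμ) hr
    · right; left
      rw [hμq, hq3] at hμ hμ0
      exact case_split h hn h0 hl1 hl2 hμ hμ0
  · right
    have hpf : ∀ i j k l, A i j * A k l - A i k * A j l + A i l * A j k = 0 := by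
      intro i j k l
      apply C_injective (Fin n) ℂ
      have h2 := P1skew h hn hc hμ i j k l
      unfold pf at h2
      rw [← hdd i j, ← hdd k l, ← hdd i k, ← hdd j l, ← hdd i l, ← hdd j k] at h2
      rw [map_zero, map_add, map_sub, C_mul, C_mul, C_mul]
      exact h2
    obtain ⟨l1, l2, hl1, hl2, hli, hAl⟩ := alt_split (A := A)
      (by intro i; change coeff 0 (dd μ i i) = 0; unfold dd; simp)
      (by intro i j; change coeff 0 (dd μ i j) = - coeff 0 (dd μ j i); unfold dd; simp) hA0 hpf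
    obtain ⟨φ, ψ, e1, e2, e3⟩ := exists_coord (k := 2) ![l1, l2]
      (by intro i; fin_cases i <;> simp [hl1, hl2]) hli ![⟨0, by omega⟩, ⟨1, by omega⟩]
      (by intro i j hij; fin_cases i <;> fin_cases j <;> simp_all)
    have e30 : lsub φ l1 = X ⟨0, by omega⟩ := by simpa using e3 0
    have e31 : lsub φ l2 = X ⟨1, by omega⟩ := by simpa using e3 1
    have hddμ : dd μ = w11 (df l1) (df l2) := by
      funext i j
      rw [← hdd i j]
      exact hAl i j
    have hd : ∀ i j, dd (pb φ μ) i j = w11 (df (X ⟨0, by omega⟩)) (df (X ⟨1, by omega⟩)) i j := by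
      intro i j
      rw [dd_pb, hddμ, pb2_w11, ← df_lsub, ← df_lsub, e30, e31]
    have h3 := P1III (Fol_pb2 φ ψ e1 e2 h) (by omega) (fun h4 => hc (Cone_pb2 φ ψ e1 e2 h4)) (by simp)
      (EE_pb2 φ hμ) hd (EE0_back e1 e2 h0)
    rcases h3 with h3 | h3
    · left
      have h5 := Fam3_pb2 ψ h3
      rwa [back e1] at h5
    · right
      have h5 := Fam3_pb2 ψ h3
      rwa [back e1] at h5

end Pool.Agent.Helper50.FC
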