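import Pool.Agent.Helper50.FC.Poin
import Pool.Agent.Helper50.FC.Div

/-! K1-6: `μ ∈ E#_1`: the constant 2-form `A = dμ` has rank at most two; the cases `μ = dq` (rank `q ≥ 3`) and `μ = d(x_a x_b)`.
Proofs.
`dmu_wedge`: `0 = d(μ ∧ θ) = dμ ∧ θ - μ ∧ dθ`, i.e. the six terms `A_ij θ_kl - A_ik θ_jl + A_il θ_jk + A_kl θ_ij - A_jl θ_ik + A_jk θ_il`
vanish (differentiate `w12 μ θ`, add up, use closedness).
`P1skew`: suppose `pf A ≠ 0`.  If `v` is a constant vector with `i_v A = 0` then contracting `A ∧ θ = 0` gives `A ∧ a_v = 0`; if `a_v ≠ 0`, say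
`(a_v)_a ≠ 0`, then `(a_v)_a A_jk = (a_v)_j A_ak - (a_v)_k A_aj`, which forces `pf A = 0`: so `a_v = 0` and `v = 0` (not a cone).  So `A` is
nondegenerate.  Take `x` with `θ_x ≠ 0`; `D = ker θ_x` has dimension `n - 2` (θ_x alternating, `pf = 0`, nonzero) and `A ∧ θ_x = 0` gives
`A(u,w) = 0` for `u,w ∈ D` (evaluate on `u, w, e_i, e_j` with `θ_x(e_i,e_j) ≠ 0`).  `D ⊆ D^⊥` and `dim D^⊥ = n - (n-2) = 2` gives `n ≤ 4`.
`P1I`: `saito_hom` gives `θ = dq ∧ ξ`, `ξ` of degree 2; closedness: `dq ∧ dξ = 0`, `saito_hom` gives `dξ = dq ∧ ζ`, `ζ` constant, `ζ = dl`;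
`ξ - q dl` is closed (`d(q dl) = dq ∧ dl`), `= dc` by `poincare1`; `θ = dq ∧ (q dl + dc) = dq ∧ d(c + q l)`.
`P1II`: `μ = x_b dx_a + x_a dx_b`.  Component `(a,b,k)`, `k ≠ a,b`: `x_b θ_bk + x_a θ_ka = 0`, so `θ_ak = x_b ρ_k`, `θ_bk = x_a ρ_k`
(`x_a, x_b` regular); `(a,j,k)`: `θ_jk = 0`.  Closedness `(j,k,a)`: `∂_j ρ_k = ∂_k ρ_j`, `poincare_rel`: `ρ_k = ∂_k c` for `k ≠ a,b`, `c` cubic.
`h := θ_ab - (x_b ∂_b c - x_a ∂_a c)`, `θ = h dx_a∧dx_b + d(x_a x_b) ∧ dc`, closedness `(a,b,k)`: `∂_k h = 0`.  `Φ = (x_a, x_b, c)`,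
`r = (x_0, - x_1, r_h)` with `few`; `div r = 1 - 1 + 0`. -/

set_option autoImplicit false

namespace Pool.Agent.Helper50.FC

open MvPolynomial
open Pool.Agent.Helper71.FC
open Pool.Agent.Helper28.FolReg (Reg2 Reg3)
open Pool.Agent.Helper71.FL (w12 pf ct Dec Closed dd)
open scoped BigOperators

variable {n : ℕ}

private theorem pdc {σ R : Type} [CommRing R] (i j : σ) (p : MvPolynomial σ R) :
    pderiv i (pderiv j p) = pderiv j (pderiv i p) := by
  classical
  have h : ⁅(pderiv i : Derivation R (MvPolynomial σ R) (MvPolynomial σ R)),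
      (pderiv j : Derivation R (MvPolynomial σ R) (MvPolynomial σ R))⁆ = 0 := by
    apply MvPolynomial.derivation_ext
    intro k
    rw [Derivation.commutator_apply]
    rw [pderiv_X, pderiv_X]
    simp only [Pi.single_apply, Derivation.coe_zero, Pi.zero_apply]
    have h0 : ∀ (a b : σ) (q : Prop) [Decidable q], pderiv a (if q then (1 : MvPolynomial σ R) else 0)
        = 0 := by
      intro a b q _
      split_ifs
      · exact pderiv_one
      · exact map_zero _
    rw [h0 i i, h0 j j, sub_zero]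
  have h2 := congrArg (fun D : Derivation R (MvPolynomial σ R) (MvPolynomial σ R) => D p) h
  simp only [Derivation.commutator_apply, Derivation.coe_zero, Pi.zero_apply] at h2
  exact sub_eq_zero.mp h2

theorem dmu_wedge {θ : F2 n} (h : Fol θ) {μ : F1 n} (hμ : ∀ i j k, w12 μ θ i j k = 0) (i j k l : Fin n) :
    dd μ i j * θ k l - dd μ i k * θ j l + dd μ i l * θ j k + dd μ k l * θ i j - dd μ j l * θ i k
      + dd μ j k * θ i l = 0 := by
  have alt := h.dec.2.1
  have dalt : ∀ m i j, pderiv m (θ i j) = - pderiv m (θ j i) := by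
    intro m i j
    rw [alt i j, map_neg]
  have c := h.closed
  have h1 := congrArg (pderiv i) (hμ j k l)
  have h2 := congrArg (pderiv j) (hμ i k l)
  have h3 := congrArg (pderiv k) (hμ i j l)
  have h4 := congrArg (pderiv l) (hμ i j k)
  unfold w12 at h1 h2 h3 h4
  simp only [map_add, pderiv_mul, map_zero] at h1 h2 h3 h4
  unfold dd
  linear_combination h1 - h2 + h3 - h4 + μ i * (c j k l) - μ j * (c i k l) + μ k * (c i j l)
    - μ l * (c i j k)
    + μ i * (- dalt k j l) + μ j * (dalt l k i) + μ k * (- dalt i l j) + μ l * (dalt j i k)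
    + (- pderiv i (μ k)) * alt l j + (pderiv j (μ k) - pderiv k (μ j)) * alt l i
    + (pderiv l (μ j)) * alt k i

private theorem dd_const {μ : F1 n} (hμ : ∀ i, (μ i).IsHomogeneous 1) (i j : Fin n) :
    dd μ i j = C (coeff 0 (dd μ i j)) := by
  have h1 := (hμ j).pderiv (i := i)
  have h2 := (hμ i).pderiv (i := j)
  have h : (dd μ i j).IsHomogeneous 0 := h1.sub h2
  exact totalDegree_eq_zero_iff_eq_C.mp (Nat.le_zero.mp h.totalDegree_le)

theorem P1skew {θ : F2 n} (h : Fol θ) (hn : 5 ≤ n) (hc : ¬ Cone θ) {μ : F1 n} (hμ : μ ∈ EE θ 1)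
    (i j k l : Fin n) : pf (dd μ) i j k l = 0 := by
  have hA : ∀ i j, dd μ i j = C (coeff 0 (dd μ i j)) := dd_const hμ.1
  have hw := dmu_wedge h hμ.2
  have h0 : ∃ i0 j0, θ i0 j0 ≠ 0 := by
    by_contra hh
    push Not at hh
    exact not_isUnit_zero (h.prim 0 (fun i j => by rw [hh i j]))
  obtain ⟨i0, j0, h1⟩ := h0
  obtain ⟨x, hx⟩ : ∃ x : Fin n → ℂ, eval x (θ i0 j0) ≠ 0 := by
    by_contra hh
    push Not at hh
    exact h1 (MvPolynomial.funext (fun x => by rw [hh x, map_zero]))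
  have hwx : ∀ i j k l, coeff 0 (dd μ i j) * eval x (θ k l) - coeff 0 (dd μ i k) * eval x (θ j l)
      + coeff 0 (dd μ i l) * eval x (θ j k) + coeff 0 (dd μ k l) * eval x (θ i j)
      - coeff 0 (dd μ j l) * eval x (θ i k) + coeff 0 (dd μ j k) * eval x (θ i l) = 0 := by
    intro i j k l
    have h2 := congrArg (eval x) (hw i j k l)
    rw [hA i j, hA i k, hA i l, hA k l, hA j l, hA j k] at h2
    simpa using h2
  have hT : ∀ i j, eval x (θ i j) = - eval x (θ j i) := by
    intro i j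
    rw [h.dec.2.1 i j, map_neg]
  have hpf : ∀ k l, eval x (θ i0 j0) * eval x (θ k l) = eval x (θ i0 k) * eval x (θ j0 l)
      - eval x (θ i0 l) * eval x (θ j0 k) := by
    intro k l
    have h2 := congrArg (eval x) (h.dec.2.2 i0 j0 k l)
    unfold pf at h2
    simp only [map_add, map_sub, map_mul, map_zero] at h2
    linear_combination h2
  obtain ⟨u, hu0, e1, e2, e3, e4⟩ : ∃ u : Fin n → ℂ, u ≠ 0 ∧ (∑ i, eval x (θ i0 i) * u i) = 0 ∧
      (∑ i, eval x (θ j0 i) * u i) = 0 ∧ (∑ i, coeff 0 (dd μ i i0) * u i) = 0 ∧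
      (∑ i, coeff 0 (dd μ i j0) * u i) = 0 := by
    let M : Matrix (Fin 4) (Fin n) ℂ := ![fun i => eval x (θ i0 i), fun i => eval x (θ j0 i),
      fun i => coeff 0 (dd μ i i0), fun i => coeff 0 (dd μ i j0)]
    have hk : LinearMap.ker M.mulVecLin ≠ ⊥ := by
      apply LinearMap.ker_ne_bot_of_finrank_lt
      rw [Module.finrank_fin_fun, Module.finrank_fin_fun]
      omega
    obtain ⟨u, hu, hu0⟩ := (Submodule.ne_bot_iff _).mp hk
    have h2 : M.mulVec u = 0 := hu
    exact ⟨u, hu0, congrFun h2 0, congrFun h2 1, congrFun h2 2, congrFun h2 3⟩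
  have uT : ∀ l, (∑ k, u k * eval x (θ k l)) = 0 := by
    intro l
    have h2 : eval x (θ i0 j0) * (∑ k, u k * eval x (θ k l)) =
        eval x (θ j0 l) * (∑ k, eval x (θ i0 k) * u k)
        - eval x (θ i0 l) * ∑ k, eval x (θ j0 k) * u k := by
      rw [Finset.mul_sum, Finset.mul_sum, Finset.mul_sum, ← Finset.sum_sub_distrib]
      apply Finset.sum_congr rfl
      intro k _
      linear_combination u k * hpf k l
    rw [e1, e2, mul_zero, mul_zero, sub_zero] at h2
    exact (mul_eq_zero.mp h2).resolve_left hx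
  have uA : ∀ l, (∑ k, u k * coeff 0 (dd μ k l)) = 0 := by
    have hcon : ∀ j k l, (∑ i, u i * coeff 0 (dd μ i j)) * eval x (θ k l)
        - (∑ i, u i * coeff 0 (dd μ i k)) * eval x (θ j l)
        + (∑ i, u i * coeff 0 (dd μ i l)) * eval x (θ j k) = 0 := by
      intro j k l
      have h2 : (∑ i, u i * coeff 0 (dd μ i j)) * eval x (θ k l)
        - (∑ i, u i * coeff 0 (dd μ i k)) * eval x (θ j l)
        + (∑ i, u i * coeff 0 (dd μ i l)) * eval x (θ j k)
        + coeff 0 (dd μ k l) * (∑ i, u i * eval x (θ i j))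
        - coeff 0 (dd μ j l) * (∑ i, u i * eval x (θ i k))
        + coeff 0 (dd μ j k) * (∑ i, u i * eval x (θ i l)) = 0 := by
        rw [Finset.sum_mul, Finset.sum_mul, Finset.sum_mul, Finset.mul_sum, Finset.mul_sum,
          Finset.mul_sum, ← Finset.sum_sub_distrib, ← Finset.sum_add_distrib,
          ← Finset.sum_add_distrib, ← Finset.sum_sub_distrib, ← Finset.sum_add_distrib]
        apply Finset.sum_eq_zero
        intro i _
        linear_combination u i * hwx i j k l
      rw [uT, uT, uT, mul_zero, mul_zero, mul_zero, add_zero, sub_zero, add_zero] at h2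
      exact h2
    have e3' : (∑ i, u i * coeff 0 (dd μ i i0)) = 0 := by
      rw [← e3]; exact Finset.sum_congr rfl (fun i _ => mul_comm _ _)
    have e4' : (∑ i, u i * coeff 0 (dd μ i j0)) = 0 := by
      rw [← e4]; exact Finset.sum_congr rfl (fun i _ => mul_comm _ _)
    intro m
    have h2 := hcon m i0 j0
    rw [e3', e4', zero_mul, zero_mul, sub_zero, add_zero] at h2
    exact (mul_eq_zero.mp h2).resolve_right hx
  have uP : ∀ l, (∑ k, C (u k) * dd μ k l) = 0 := by
    intro l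
    have h2 : (∑ k, C (u k) * dd μ k l) = C (∑ k, u k * coeff 0 (dd μ k l)) := by
      rw [map_sum]
      apply Finset.sum_congr rfl
      intro k _
      rw [C_mul, ← hA k l]
    rw [h2, uA, C_0]
  have hav : ∀ j, av θ u j = ∑ i, C (u i) * θ i j := fun j => rfl
  have hcon : ∀ j k l, dd μ k l * av θ u j - dd μ j l * av θ u k + dd μ j k * av θ u l = 0 := by
    intro j k l
    have h2 : (∑ i, C (u i) * dd μ i j) * θ k l - (∑ i, C (u i) * dd μ i k) * θ j l
        + (∑ i, C (u i) * dd μ i l) * θ j k + dd μ k l * (∑ i, C (u i) * θ i j)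
        - dd μ j l * (∑ i, C (u i) * θ i k) + dd μ j k * (∑ i, C (u i) * θ i l) = 0 := by
      rw [Finset.sum_mul, Finset.sum_mul, Finset.sum_mul, Finset.mul_sum, Finset.mul_sum,
        Finset.mul_sum, ← Finset.sum_sub_distrib, ← Finset.sum_add_distrib,
        ← Finset.sum_add_distrib, ← Finset.sum_sub_distrib, ← Finset.sum_add_distrib]
      apply Finset.sum_eq_zero
      intro i _
      linear_combination C (u i) * hw i j k l
    rw [uP, uP, uP, zero_mul, zero_mul, zero_mul] at h2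
    rw [hav, hav, hav]
    linear_combination h2
  obtain ⟨c, hcc⟩ : ∃ c, av θ u c ≠ 0 := by
    by_contra hh
    push Not at hh
    exact hc ⟨u, hu0, hh⟩
  have hd : ∀ k l, av θ u c * dd μ k l = av θ u k * dd μ c l - av θ u l * dd μ c k := by
    intro k l
    linear_combination hcon c k l
  have h2 : av θ u c * (av θ u c * pf (dd μ) i j k l) = 0 := by
    have h3 : av θ u c * (av θ u c * pf (dd μ) i j k l) =
        (av θ u c * dd μ i j) * (av θ u c * dd μ k l) - (av θ u c * dd μ i k) * (av θ u c * dd μ j l)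
        + (av θ u c * dd μ i l) * (av θ u c * dd μ j k) := by
      unfold pf; ring
    rw [h3, hd i j, hd k l, hd i k, hd j l, hd i l, hd j k]
    ring
  exact (mul_eq_zero.mp ((mul_eq_zero.mp h2).resolve_left hcc)).resolve_left hcc

theorem P1I {θ : F2 n} (h : Fol θ) {q : Pn n} (hq : q.IsHomogeneous 2) (hE : df q ∈ EE θ 1)
    {i0 i1 i2 : Fin n} (hr : Reg3 (pderiv i0 q) (pderiv i1 q) (pderiv i2 q)) : Fam23 θ := by
  have hr' : Reg3 (df q i0) (df q i1) (df q i2) := hr
  obtain ⟨ξ, hξ, hθ⟩ := saito_hom hr' h.dec.1 h.dec.2.1 hE.2 (a := 1) (b := 2) hE.1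
    (fun i j => h.hom i j)
  have dθ : ∀ m i j, pderiv m (θ i j) = pderiv m (pderiv i q) * ξ j + pderiv i q * pderiv m (ξ j)
      - pderiv m (pderiv j q) * ξ i - pderiv j q * pderiv m (ξ i) := by
    intro m i j
    have h1 : θ i j = pderiv i q * ξ j - pderiv j q * ξ i := hθ i j
    rw [h1, map_sub, pderiv_mul, pderiv_mul]
    ring
  have hw : ∀ i j k, w12 (df q) (dd ξ) i j k = 0 := by
    intro i j k
    have h1 := h.closed i j k
    rw [dθ, dθ, dθ] at h1
    unfold w12 dd df
    linear_combination (-1 : Pn n) * h1 + ξ i * (pdc j k q) - ξ j * (pdc i k q)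
      - ξ k * (pdc j i q)
  have hd1 : ∀ i, dd ξ i i = 0 := by
    intro i
    unfold dd
    ring
  have hd2 : ∀ i j, dd ξ i j = - dd ξ j i := by
    intro i j
    unfold dd
    ring
  have hdh : ∀ i j, (dd ξ i j).IsHomogeneous (1 + 0) := by
    intro i j
    have h1 := (hξ j).pderiv (i := i)
    have h2 := (hξ i).pderiv (i := j)
    exact h1.sub h2
  obtain ⟨ζ, hζ, hdζ⟩ := saito_hom hr' hd1 hd2 hw (a := 1) (b := 0) hE.1 hdh
  have hζc : ∀ i, ζ i = C (coeff 0 (ζ i)) := fun i =>
    totalDegree_eq_zero_iff_eq_C.mp (Nat.le_zero.mp (hζ i).totalDegree_le)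
  obtain ⟨c, hc, hdc⟩ := poincare1 (fun j => ξ j - q * ζ j) 2
    (fun j => (hξ j).sub (by simpa using hq.mul (hζ j))) (by
      intro i j
      have h1 : dd ξ i j = pderiv i q * ζ j - pderiv j q * ζ i := hdζ i j
      unfold dd at h1
      have h2 : ∀ m i, pderiv m (ζ i) = 0 := by
        intro m i
        rw [hζc i, pderiv_C]
      simp only [map_sub, pderiv_mul, h2]
      linear_combination h1)
  let l : Pn n := ∑ i, C (coeff 0 (ζ i)) * X i
  have hl : l.IsHomogeneous 1 := by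
    apply IsHomogeneous.sum
    intro i _
    have h1 := (isHomogeneous_C (Fin n) (coeff 0 (ζ i))).mul (isHomogeneous_X ℂ i)
    rwa [zero_add] at h1
  have hdl : ∀ j, pderiv j l = ζ j := by
    classical
    intro j
    show pderiv j (∑ i, C (coeff 0 (ζ i)) * X i) = ζ j
    rw [map_sum, Finset.sum_eq_single j]
    · rw [pderiv_C_mul, pderiv_X_self, mul_one, ← hζc j]
    · intro b _ hb
      rw [pderiv_C_mul, pderiv_X_of_ne hb, mul_zero]
    · intro hh
      exact absurd (Finset.mem_univ j) hh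
  refine ⟨q, c + q * l, hq, hc.add (by simpa using hq.mul hl), ?_⟩
  intro i j
  rw [hθ i j]
  unfold w11 df
  simp only [map_add, pderiv_mul]
  rw [hdl, hdl, hdc, hdc]
  ring

private theorem hom_of_X_mul {a : Fin n} {ρ : Pn n} {m : ℕ} (h : (X a * ρ).IsHomogeneous (m + 1)) :
    ρ.IsHomogeneous m := by
  intro d hd
  have h1 : coeff (Finsupp.single a 1 + d) (X a * ρ) ≠ 0 := by rwa [coeff_X_mul]
  have h2 := h h1
  rw [map_add] at h2
  simp only [Finsupp.weight_single, Pi.one_apply, smul_eq_mul, mul_one] at h2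
  omega

private theorem df_XX {a b : Fin n} (hab : a ≠ b) : df (X a * X b : Pn n) a = X b ∧
    df (X a * X b : Pn n) b = X a ∧ ∀ k, k ≠ a → k ≠ b → df (X a * X b : Pn n) k = 0 := by
  unfold df
  refine ⟨?_, ?_, ?_⟩
  · rw [pderiv_mul, pderiv_X_self, pderiv_X_of_ne hab.symm]; ring
  · rw [pderiv_mul, pderiv_X_self, pderiv_X_of_ne hab]; ring
  · intro k h1 h2
    rw [pderiv_mul, pderiv_X_of_ne h1.symm, pderiv_X_of_ne h2.symm]; ring

theorem P1II {θ : F2 n} (h : Fol θ) {a b : Fin n} (hab : a ≠ b) (hE : df (X a * X b) ∈ EE θ 1) :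
    Fam3 ![1, 1, 3] θ := by
  classical
  obtain ⟨ma, mb, mk⟩ := df_XX hab
  have hw := hE.2
  have alt := h.dec.2.1
  have Xa : (X a : Pn n) ≠ 0 := X_ne_zero a
  have Xb : (X b : Pn n) ≠ 0 := X_ne_zero b
  have hjk : ∀ j k, j ≠ a → j ≠ b → k ≠ a → k ≠ b → θ j k = 0 := by
    intro j k h1 h2 h3 h4
    have h5 := hw a j k
    unfold w12 at h5
    rw [ma, mk j h1 h2, mk k h3 h4, zero_mul, zero_mul, add_zero, add_zero] at h5
    exact (mul_eq_zero.mp h5).resolve_left Xb
  have hk : ∀ k, k ≠ a → k ≠ b → X b * θ b k = X a * θ a k := by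
    intro k h1 h2
    have h5 := hw a b k
    unfold w12 at h5
    rw [ma, mb, mk k h1 h2, zero_mul, add_zero, alt k a] at h5
    linear_combination h5
  have hdiv : ∀ k, ∃ ρ : Pn n, k ≠ a → k ≠ b → θ b k = X a * ρ ∧ θ a k = X b * ρ := by
    intro k
    by_cases h1 : k = a
    · exact ⟨0, fun h2 => absurd h1 h2⟩
    by_cases h2 : k = b
    · exact ⟨0, fun _ h3 => absurd h2 h3⟩
    have h3 : (X a : Pn n) ∣ X b * θ b k := ⟨θ a k, hk k h1 h2⟩
    have h4 : (X a : Pn n) ∣ θ b k := by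
      rcases (X_prime (i := a) (R := ℂ)).dvd_or_dvd h3 with h5 | h5
      · exact absurd h5 (by
          rw [X_dvd_X]
          exact hab)
      · exact h5
    obtain ⟨ρ, hρ⟩ := h4
    refine ⟨ρ, fun _ _ => ⟨hρ, ?_⟩⟩
    have h6 := hk k h1 h2
    rw [hρ] at h6
    apply mul_left_cancel₀ Xa
    linear_combination - h6
  choose ρ hρ using hdiv
  have hρh : ∀ k, k ≠ a → k ≠ b → (ρ k).IsHomogeneous 2 := by
    intro k h1 h2
    apply hom_of_X_mul (a := a)
    rw [← (hρ k h1 h2).1]
    exact h.hom b k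
  have pX : ∀ j k : Fin n, j ≠ k → ∀ f : Pn n, pderiv j (X k * f) = X k * pderiv j f := by
    intro j k hjk f
    rw [pderiv_mul, pderiv_X_of_ne hjk.symm, zero_mul, zero_add]
  have pXs : ∀ (k : Fin n) (f : Pn n), pderiv k (X k * f) = f + X k * pderiv k f := by
    intro k f
    rw [pderiv_mul, pderiv_X_self, one_mul]
  have hρc : ∀ j k, j ≠ a → j ≠ b → k ≠ a → k ≠ b → pderiv j (ρ k) = pderiv k (ρ j) := by
    intro j k h1 h2 h3 h4
    have h5 := h.closed j k a
    rw [alt k a, hjk j k h1 h2 h3 h4, (hρ k h3 h4).2, (hρ j h1 h2).2, map_neg, pX j b h2,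
      pX k b h4, map_zero] at h5
    apply mul_left_cancel₀ Xb
    linear_combination - h5
  obtain ⟨c, hc, hdc⟩ := poincare_rel (Finset.univ.filter (fun j : Fin n => j ≠ a ∧ j ≠ b)) ρ 2
    (fun j hj => hρh j (Finset.mem_filter.mp hj).2.1 (Finset.mem_filter.mp hj).2.2)
    (fun i hi j hj => hρc i j (Finset.mem_filter.mp hi).2.1 (Finset.mem_filter.mp hi).2.2
      (Finset.mem_filter.mp hj).2.1 (Finset.mem_filter.mp hj).2.2)
  have hdc' : ∀ k, k ≠ a → k ≠ b → pderiv k c = ρ k := fun k h1 h2 =>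
    hdc k (Finset.mem_filter.mpr ⟨Finset.mem_univ k, h1, h2⟩)
  have hpc : ∀ i, (pderiv i c).IsHomogeneous 2 := fun i => hc.pderiv (i := i)
  have hXc : ∀ i j, (X i * pderiv j c : Pn n).IsHomogeneous 3 := by
    intro i j
    have h1 := (isHomogeneous_X ℂ i).mul (hpc j)
    exact h1
  have hh : (θ a b - (X b * pderiv b c - X a * pderiv a c)).IsHomogeneous 3 :=
    (h.hom a b).sub ((hXc b b).sub (hXc a a))
  have hk0 : ∀ k, k ≠ a → k ≠ b →
      pderiv k (θ a b - (X b * pderiv b c - X a * pderiv a c)) = 0 := by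
    intro k h1 h2
    have h5 := h.closed a b k
    rw [(hρ k h1 h2).1, alt k a, (hρ k h1 h2).2, map_neg, pXs, pXs] at h5
    rw [map_sub, map_sub, pX k b h2, pX k a h1, pdc k b, pdc k a, hdc' k h1 h2]
    linear_combination h5
  obtain ⟨r, hr1, hr2, hr3, -, -⟩ := few hab hh hk0 ![X a, X b, c] rfl rfl ![1, 1, 3] rfl rfl
  have daa : df (X a : Pn n) a = 1 := pderiv_X_self a
  have dbb : df (X b : Pn n) b = 1 := pderiv_X_self b
  have dak : ∀ k, k ≠ a → df (X a : Pn n) k = 0 := fun k hk => pderiv_X_of_ne hk.symm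
  have dbk : ∀ k, k ≠ b → df (X b : Pn n) k = 0 := fun k hk => pderiv_X_of_ne hk.symm
  refine ⟨![X a, X b, c], ![X 0, - X 1, r], ?_, ?_, ?_, ?_⟩
  · intro i
    fin_cases i
    · exact isHomogeneous_X ℂ a
    · exact isHomogeneous_X ℂ b
    · exact hc
  · intro i
    fin_cases i
    · exact isWeightedHomogeneous_X ℂ ![1, 1, 3] (0 : Fin 3)
    · have h1 := isWeightedHomogeneous_X ℂ ![1, 1, 3] (1 : Fin 3)
      intro d hd
      apply h1
      show coeff d (X 1) ≠ 0
      intro h2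
      apply hd
      show coeff d (- X 1) = 0
      rw [coeff_neg, h2, neg_zero]
    · exact hr1
  · rw [Fin.sum_univ_three]
    show pderiv 0 (X 0) + pderiv 1 (- X 1) + pderiv 2 r = 0
    rw [hr2, map_neg, pderiv_X_self, pderiv_X_self]
    ring
  · intro i j
    rw [Fin.sum_univ_three]
    show θ i j = aeval ![X a, X b, c] (X 0) * w11 (df (X b)) (df c) i j
      + aeval ![X a, X b, c] (- X 1) * w11 (df c) (df (X a)) i j
      + aeval ![X a, X b, c] r * w11 (df (X a)) (df (X b)) i j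
    rw [hr3, map_neg, aeval_X, aeval_X]
    show θ i j = X a * w11 (df (X b)) (df c) i j + (- X b) * w11 (df c) (df (X a)) i j
      + (θ a b - (X b * pderiv b c - X a * pderiv a c)) * w11 (df (X a)) (df (X b)) i j
    unfold w11
    have dfc : ∀ k, df c k = pderiv k c := fun k => rfl
    rw [dfc, dfc]
    by_cases ia : i = a
    · subst ia
      by_cases ja : j = i
      · subst ja
        rw [h.dec.1]; ring
      · by_cases jb : j = b
        · subst jb
          rw [daa, dbb, dak j ja, dbk i hab]; ring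
        · rw [daa, dak j ja, dbk j jb, dbk i hab, hdc' j ja jb, (hρ j ja jb).2]; ring
    · by_cases ib : i = b
      · subst ib
        by_cases ja : j = a
        · subst ja
          rw [daa, dbb, dak i ia, dbk j hab, alt i j]; ring
        · by_cases jb : j = i
          · subst jb
            rw [h.dec.1]; ring
          · rw [dbb, dak j ja, dbk j jb, dak i ia, hdc' j ja jb, (hρ j ja jb).1]; ring
      · by_cases ja : j = a
        · subst ja
          rw [daa, dak i ia, dbk i ib, dbk j hab, hdc' i ia ib, alt i j, (hρ i ia ib).2]; ring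
        · by_cases jb : j = b
          · subst jb
            rw [dbb, dak i ia, dbk i ib, dak j ja, hdc' i ia ib, alt i j, (hρ i ia ib).1]; ring
          · rw [dak i ia, dbk i ib, dak j ja, dbk j jb, hjk i j ia ib ja jb]; ring

end Pool.Agent.Helper50.FC
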