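import Pool.Agent.Helper50.FC.Div
import Pool.Agent.Helper50.FC.Lin

/-! K1-11: a coprime family of homogeneous polynomials has no common zero on a general line.
Proofs.  `two_comb`: if `A` is coprime there are combinations `f = ∑ c_i A_i`, `g = ∑ d_i A_i` without common factor: take `f = ∑ c_i A_i ≠ 0` with
finitely many prime factors `π`; for every `π` some `A_i` is not divisible by `π`, so the `d` with `π ∣ ∑ d_i A_i` form a proper subspace;
finitely many proper subspaces do not cover `ℂ^ι` (`Subspace.biUnion_ne_univ_of_top_nmem` or similar).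
`prim_line`: after a linear change of coordinates `f(e_0) ≠ 0` (`f ≠ 0`), so `f` is (up to a constant) monic in `x_0`; `f, g` coprime in
`ℂ[x_1..][x_0]`, hence coprime over the fraction field of `ℂ[x_1..]` (Gauss), so `u f + v g = r(x_1..) ≠ 0`.  If `r(y) ≠ 0` then `f, g` have no
common zero on the affine line `y + ℂ e_0`, and `f(e_0) ≠ 0`: no common zero on the plane spanned by `y, e_0`.
`prim_line_gen`: no common zero on the line through `x, y` is an open condition in `(x, y)`: two coprime binary forms `f, g` of degree `d`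
(restrictions) have a non-zero resultant; or: for `K` large every binary form of degree `K` is in the ideal, i.e. a maximal minor is non-zero
(`Helper28/FolReg/Open.lean`, `open_mem`). -/

set_option autoImplicit false

namespace Pool.Agent.Helper50.FC

open MvPolynomial
open Pool.Agent.Helper71.FC
open Pool.Agent.Helper93 (lsub lmap OF pb)
open scoped BigOperators

variable {n : ℕ} {ι : Type}

theorem two_comb [Fintype ι] {A : ι → Pn n} (hA : Prim A) :
    ∃ c d : ι → ℂ, (∑ i, C (c i) * A i) ≠ 0 ∧
      ∀ p : Pn n, p ∣ ∑ i, C (c i) * A i → p ∣ ∑ i, C (d i) * A i → IsUnit p := by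
  classical
  obtain ⟨i0, hi0⟩ : ∃ i0, A i0 ≠ 0 := by
    by_contra hne
    push Not at hne
    have := hA 0 (fun i => by rw [hne i])
    exact not_isUnit_zero this
  have hc : (∑ i, C ((Pi.single i0 (1 : ℂ) : ι → ℂ) i) * A i) = A i0 := by
    rw [Finset.sum_eq_single i0]
    · simp
    · intro b _ hb
      simp [Pi.single_eq_of_ne hb]
    · intro h
      exact absurd (Finset.mem_univ _) h
  let V : Pn n → Subspace ℂ (ι → ℂ) := fun p =>
    { carrier := {d | p ∣ ∑ i, C (d i) * A i}
      add_mem' := by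
        intro a b ha hb
        have : (∑ i, C ((a + b) i) * A i) = (∑ i, C (a i) * A i) + ∑ i, C (b i) * A i := by
          rw [← Finset.sum_add_distrib]
          refine Finset.sum_congr rfl fun i _ => ?_
          rw [Pi.add_apply, C_add, add_mul]
        show p ∣ ∑ i, C ((a + b) i) * A i
        rw [this]
        exact dvd_add ha hb
      zero_mem' := by
        show p ∣ ∑ i, C ((0 : ι → ℂ) i) * A i
        simp
      smul_mem' := by
        intro c a ha
        have : (∑ i, C ((c • a) i) * A i) = C c * ∑ i, C (a i) * A i := by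
          rw [Finset.mul_sum]
          refine Finset.sum_congr rfl fun i _ => ?_
          rw [Pi.smul_apply, smul_eq_mul, C_mul, mul_assoc]
        show p ∣ ∑ i, C ((c • a) i) * A i
        rw [this]
        exact Dvd.dvd.mul_left ha _ }
  have hV : ∀ p : Pn n, ¬ IsUnit p → V p ≠ ⊤ := by
    intro p hp htop
    apply hp
    refine hA p fun i => ?_
    have h1 : (Pi.single i (1 : ℂ) : ι → ℂ) ∈ V p := by rw [htop]; trivial
    have h2 : p ∣ ∑ j, C ((Pi.single i (1 : ℂ) : ι → ℂ) j) * A j := h1
    rw [Finset.sum_eq_single i] at h2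
    · simpa using h2
    · intro b _ hb
      simp [Pi.single_eq_of_ne hb]
    · intro h
      exact absurd (Finset.mem_univ _) h
  let S : Finset (Subspace ℂ (ι → ℂ)) :=
    ((UniqueFactorizationMonoid.factors (A i0)).toFinset).image V
  have hS : ⊤ ∉ S := by
    intro hmem
    obtain ⟨p, hp, hpt⟩ := Finset.mem_image.mp hmem
    have hirr := UniqueFactorizationMonoid.irreducible_of_factor p (Multiset.mem_toFinset.mp hp)
    exact hV p hirr.not_isUnit hpt
  have hcov := Subspace.biUnion_ne_univ_of_top_notMem hS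
  obtain ⟨d, hd⟩ := (Set.ne_univ_iff_exists_notMem _).mp hcov
  refine ⟨Pi.single i0 1, d, by rw [hc]; exact hi0, ?_⟩
  intro p hp1 hp2
  rw [hc] at hp1
  by_contra hu
  have hp0 : p ≠ 0 := by
    rintro rfl
    exact hi0 (zero_dvd_iff.mp hp1)
  obtain ⟨q, hq, hqp⟩ := WfDvdMonoid.exists_irreducible_factor hu hp0
  obtain ⟨q', hq', hass⟩ := UniqueFactorizationMonoid.exists_mem_factors_of_dvd hi0 hq
    (hqp.trans hp1)
  apply hd
  rw [Set.mem_iUnion₂]
  refine ⟨V q', Finset.mem_image_of_mem _ (Multiset.mem_toFinset.mpr hq'), ?_⟩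
  show q' ∣ ∑ i, C (d i) * A i
  exact (hass.dvd_iff_dvd_left.mp hqp).trans hp2

/-- restriction of a polynomial to an affine line -/
private noncomputable def ln {B : Type} [CommRing B] [Algebra ℂ B] (u v : Fin n → B) :
    Pn n →ₐ[ℂ] Polynomial B :=
  aeval (fun j => Polynomial.C (u j) * Polynomial.X + Polynomial.C (v j))

private theorem ln_map {B B' : Type} [CommRing B] [Algebra ℂ B] [CommRing B'] [Algebra ℂ B']
    (φ : B →ₐ[ℂ] B') (u v : Fin n → B) (f : Pn n) :
    (ln u v f).map (φ : B →+* B') = ln (fun j => φ (u j)) (fun j => φ (v j)) f := by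
  have h : (Polynomial.mapAlgHom φ).comp (ln u v) = ln (fun j => φ (u j)) (fun j => φ (v j)) := by
    refine MvPolynomial.algHom_ext fun j => ?_
    simp [ln]
  exact congrArg (fun F : Pn n →ₐ[ℂ] Polynomial B' => F f) h

private theorem ln_eval {B : Type} [CommRing B] [Algebra ℂ B] (u v : Fin n → B) (t : B) (f : Pn n) :
    (ln u v f).eval t = aeval (fun j => u j * t + v j) f := by
  have h : ((Polynomial.aeval t).restrictScalars ℂ).comp (ln u v)
      = (aeval (fun j => u j * t + v j) : Pn n →ₐ[ℂ] B) := by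
    refine MvPolynomial.algHom_ext fun j => ?_
    simp [ln]
  have h2 := congrArg (fun F : Pn n →ₐ[ℂ] B => F f) h
  simpa [Polynomial.coe_aeval_eq_eval] using h2

private theorem prod_coeff {B κ : Type} [CommRing B] (s : Finset κ) (F : κ → Polynomial B)
    (e : κ → ℕ) (h : ∀ j ∈ s, (F j).natDegree ≤ e j) :
    (∏ j ∈ s, F j).natDegree ≤ ∑ j ∈ s, e j ∧
      (∏ j ∈ s, F j).coeff (∑ j ∈ s, e j) = ∏ j ∈ s, (F j).coeff (e j) := by
  classical
  induction s using Finset.induction_on with
  | empty => simp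
  | insert a s ha ih =>
    obtain ⟨h1, h2⟩ := ih (fun j hj => h j (Finset.mem_insert_of_mem hj))
    have h3 := h a (Finset.mem_insert_self a s)
    rw [Finset.prod_insert ha, Finset.sum_insert ha, Finset.prod_insert ha]
    refine ⟨Polynomial.natDegree_mul_le.trans (Nat.add_le_add h3 h1), ?_⟩
    rw [Polynomial.coeff_mul_add_eq_of_natDegree_le h3 h1, h2]

private theorem ln_deg {B : Type} [CommRing B] [Algebra ℂ B] (u v : Fin n → B) {f : Pn n} {d : ℕ}
    (hf : f.IsHomogeneous d) :
    (ln u v f).natDegree ≤ d ∧ (ln u v f).coeff d = aeval u f := by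
  classical
  have hlin : ∀ j, (Polynomial.C (u j) * Polynomial.X + Polynomial.C (v j)).natDegree ≤ 1 :=
    fun j => Polynomial.natDegree_linear_le
  have hmon : ∀ m ∈ f.support,
      (∏ j, (Polynomial.C (u j) * Polynomial.X + Polynomial.C (v j)) ^ m j).natDegree ≤ d ∧
      (∏ j, (Polynomial.C (u j) * Polynomial.X + Polynomial.C (v j)) ^ m j).coeff d
        = ∏ j, u j ^ m j := by
    intro m hm
    have hdm : ∑ j, m j = d := by
      have := hf (mem_support_iff.mp hm)
      rw [Finsupp.weight_apply, Finsupp.sum_fintype _ _ (by simp)] at this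
      simpa using this
    have hpow : ∀ j, ((Polynomial.C (u j) * Polynomial.X + Polynomial.C (v j)) ^ m j).natDegree
        ≤ m j := by
      intro j
      calc _ ≤ m j * _ := Polynomial.natDegree_pow_le
        _ ≤ m j * 1 := Nat.mul_le_mul_left _ (hlin j)
        _ = m j := mul_one _
    constructor
    · calc _ ≤ ∑ j, _ := Polynomial.natDegree_prod_le _ _
        _ ≤ ∑ j, m j := Finset.sum_le_sum fun j _ => hpow j
        _ = d := hdm
    · have h1 := (prod_coeff Finset.univ
        (fun j => (Polynomial.C (u j) * Polynomial.X + Polynomial.C (v j)) ^ m j)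
        (fun j => m j) (fun j _ => hpow j)).2
      rw [hdm] at h1
      rw [h1]
      refine Finset.prod_congr rfl fun j _ => ?_
      have h2 := Polynomial.coeff_pow_of_natDegree_le (n := 1) (hlin j) (m := m j)
      rw [mul_one] at h2
      rw [h2]
      simp
  have hexp : ln u v f = ∑ m ∈ f.support, Polynomial.C (algebraMap ℂ B (coeff m f)) *
      ∏ j, (Polynomial.C (u j) * Polynomial.X + Polynomial.C (v j)) ^ m j := by
    unfold ln
    rw [aeval_def, eval₂_eq']
    rfl
  rw [hexp]
  constructor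
  · refine Polynomial.natDegree_sum_le_of_forall_le _ _ fun m hm => ?_
    exact (Polynomial.natDegree_C_mul_le _ _).trans (hmon m hm).1
  · rw [Polynomial.finsetSum_coeff, aeval_def, eval₂_eq']
    refine Finset.sum_congr rfl fun m hm => ?_
    rw [Polynomial.coeff_C_mul, (hmon m hm).2]

/-- coprimality after passing to a generic parallel line -/
private theorem ln_coprime {f g : Pn n} {d : ℕ} (hf : f.IsHomogeneous d) (hg : g.IsHomogeneous d)
    (hco : ∀ p : Pn n, p ∣ f → p ∣ g → IsUnit p) {a : Fin n → ℂ} (ha : eval a f ≠ 0)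
    (hd : d ≠ 0) :
    Polynomial.resultant (ln (fun j => C (a j)) (fun j => (X j : Pn n)) f)
      (ln (fun j => C (a j)) (fun j => (X j : Pn n)) g) d d ≠ 0 := by
  classical
  have hf0 : f ≠ 0 := by
    rintro rfl
    simp at ha
  -- substitution automorphisms
  let S : (Fin n → ℂ) → Polynomial (Pn n) →+* Polynomial (Pn n) := fun b =>
    Polynomial.eval₂RingHom ((ln (fun j => C (b j)) (fun j => (X j : Pn n))) : Pn n →+* _)
      Polynomial.X
  have hSC : ∀ b p, S b (Polynomial.C p) = ln (fun j => C (b j)) (fun j => (X j : Pn n)) p := by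
    intro b p
    simp [S]
  have hSX : ∀ b, S b Polynomial.X = Polynomial.X := by
    intro b
    simp [S]
  have hSS : ∀ b, (S b).comp (S (-b)) = RingHom.id _ := by
    intro b
    refine Polynomial.ringHom_ext' ?_ ?_
    · refine MvPolynomial.ringHom_ext ?_ ?_
      · intro c
        show S b (S (-b) (Polynomial.C (C c))) = Polynomial.C (C c)
        rw [hSC]
        have : ln (fun j => C ((-b) j)) (fun j => (X j : Pn n)) (C c) = Polynomial.C (C c) := by
          unfold ln
          rw [aeval_C]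
          rfl
        rw [this, hSC]
        unfold ln
        rw [aeval_C]
        rfl
      · intro j
        show S b (S (-b) (Polynomial.C (X j))) = Polynomial.C (X j)
        rw [hSC]
        have : ln (fun j => C ((-b) j)) (fun j => (X j : Pn n)) (X j)
            = Polynomial.C (C (- b j)) * Polynomial.X + Polynomial.C (X j) := by
          unfold ln
          rw [aeval_X]
          rfl
        rw [this, map_add, map_mul, hSX, hSC, hSC]
        unfold ln
        rw [aeval_C, aeval_X]
        have h5 : (algebraMap ℂ (Polynomial (Pn n))) (-b j) = Polynomial.C (C (- b j)) := rfl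
        rw [h5, C_neg, Polynomial.C_neg]
        ring
    · show S b (S (-b) Polynomial.X) = Polynomial.X
      rw [hSX, hSX]
  set F : Polynomial (Pn n) := ln (fun j => C (a j)) (fun j => (X j : Pn n)) f with hF
  set G : Polynomial (Pn n) := ln (fun j => C (a j)) (fun j => (X j : Pn n)) g with hG
  have hback : ∀ p, S (-a) (ln (fun j => C (a j)) (fun j => (X j : Pn n)) p) = Polynomial.C p := by
    intro p
    have h1 := congrArg (fun T : Polynomial (Pn n) →+* Polynomial (Pn n) => T (Polynomial.C p))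
      (hSS (-a))
    rw [neg_neg] at h1
    have h2 : S (-a) (S a (Polynomial.C p)) = Polynomial.C p := h1
    rw [hSC] at h2
    exact h2
  have hcoFG : ∀ h : Polynomial (Pn n), h ∣ F → h ∣ G → IsUnit h := by
    intro h h1 h2
    have h3 : S (-a) h ∣ Polynomial.C f := by
      rw [← hback f]
      exact map_dvd _ h1
    have h4 : S (-a) h ∣ Polynomial.C g := by
      rw [← hback g]
      exact map_dvd _ h2
    have h5 : (S (-a) h).natDegree = 0 := by
      have := Polynomial.natDegree_le_of_dvd h3 (by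
        rw [Ne, Polynomial.C_eq_zero]
        exact hf0)
      rw [Polynomial.natDegree_C] at this
      omega
    obtain ⟨c, hc⟩ := Polynomial.natDegree_eq_zero.mp h5
    rw [← hc] at h3 h4
    have h6 : IsUnit c := by
      refine hco c ?_ ?_
      · have := (Polynomial.C_dvd_iff_dvd_coeff c (Polynomial.C f)).mp h3 0
        rwa [Polynomial.coeff_C_zero] at this
      · have := (Polynomial.C_dvd_iff_dvd_coeff c (Polynomial.C g)).mp h4 0
        rwa [Polynomial.coeff_C_zero] at this
    have h7 : IsUnit (S (-a) h) := by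
      rw [← hc]
      exact h6.map Polynomial.C
    have h8 : S a (S (-a) h) = h :=
      congrArg (fun T : Polynomial (Pn n) →+* Polynomial (Pn n) => T h) (hSS a)
    rw [← h8]
    exact h7.map (S a)
  obtain ⟨hFd, hFc⟩ := ln_deg (fun j => (C (a j) : Pn n)) (fun j => (X j : Pn n)) hf
  obtain ⟨hGd, -⟩ := ln_deg (fun j => (C (a j) : Pn n)) (fun j => (X j : Pn n)) hg
  have hFc' : F.coeff d = C (eval a f) := by
    rw [hF, hFc]
    have h9 : (aeval (fun j => (C (a j) : Pn n)) : Pn n →ₐ[ℂ] Pn n)
        = (Algebra.ofId ℂ (Pn n)).comp (aeval a) := by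
      refine MvPolynomial.algHom_ext fun j => ?_
      simp [Algebra.ofId_apply]
    rw [h9, AlgHom.comp_apply, Algebra.ofId_apply, aeval_eq_eval]
    rfl
  let K := FractionRing (Pn n)
  let e : ℂ := (eval a f)⁻¹
  have he : e * eval a f = 1 := inv_mul_cancel₀ ha
  set F1 : Polynomial (Pn n) := Polynomial.C (C e) * F with hF1
  have hF1m : F1.Monic := by
    refine Polynomial.monic_of_natDegree_le_of_coeff_eq_one d
      ((Polynomial.natDegree_C_mul_le _ _).trans hFd) ?_
    rw [hF1, Polynomial.coeff_C_mul, hFc', ← C_mul, he, C_1]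
  have hFF1 : F = Polynomial.C (C (eval a f)) * F1 := by
    rw [hF1, ← mul_assoc, ← Polynomial.C_mul, ← C_mul, mul_comm (eval a f), he, C_1,
      Polynomial.C_1, one_mul]
  let i : Pn n →+* K := algebraMap (Pn n) K
  have hi : Function.Injective i := IsFractionRing.injective (Pn n) K
  have hcoK : IsCoprime (F1.map i) (G.map i) := by
    suffices hsuff : IsUnit (EuclideanDomain.gcd (F1.map i) (G.map i)) from
      (EuclideanDomain.gcd_isUnit_iff (α := Polynomial K)).mp hsuff
    set h := EuclideanDomain.gcd (F1.map i) (G.map i) with hh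
    have h1 : h ∣ F1.map i := EuclideanDomain.gcd_dvd_left _ _
    have h2 : h ∣ G.map i := EuclideanDomain.gcd_dvd_right _ _
    have hne : h ≠ 0 := by
      intro h0
      rw [h0, zero_dvd_iff, Polynomial.map_eq_zero_iff hi] at h1
      exact hF1m.ne_zero h1
    obtain ⟨h', hh'⟩ := IsIntegrallyClosed.eq_map_mul_C_of_dvd K hF1m h1
    have hlc : h.leadingCoeff ≠ 0 := Polynomial.leadingCoeff_ne_zero.mpr hne
    have hlu : IsUnit (Polynomial.C h.leadingCoeff) :=
      Polynomial.isUnit_C.mpr (isUnit_iff_ne_zero.mpr hlc)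
    have hm' : (h'.map i).Monic := by
      have h3 : (h'.map i).leadingCoeff * h.leadingCoeff = h.leadingCoeff := by
        conv_rhs => rw [← hh']
        rw [Polynomial.leadingCoeff_mul, Polynomial.leadingCoeff_C]
      exact mul_right_cancel₀ hlc (by rw [h3, one_mul])
    have hm : h'.Monic := by
      have := (Function.Injective.monic_map_iff hi).mpr hm'
      exact this
    have h3 : h' ∣ F1 := by
      rw [← Polynomial.map_dvd_map i hi hm]
      exact (Dvd.intro _ hh').trans h1
    have h4 : h' ∣ G := by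
      rw [← Polynomial.map_dvd_map i hi hm]
      exact (Dvd.intro _ hh').trans h2
    have h5 : IsUnit h' := hcoFG h' (by rw [hFF1]; exact Dvd.dvd.mul_left h3 _) h4
    rw [← hh']
    exact (h5.map (Polynomial.mapRingHom i)).mul hlu
  have hcoK2 : IsCoprime (F.map i) (G.map i) := by
    have h1 : F.map i = Polynomial.C (i (C (eval a f))) * F1.map i := by
      rw [hFF1, Polynomial.map_mul, Polynomial.map_C]
    rw [h1]
    have hu : IsUnit (Polynomial.C (i (C (eval a f)))) := by
      refine Polynomial.isUnit_C.mpr (isUnit_iff_ne_zero.mpr ?_)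
      rw [Ne, map_eq_zero_iff i hi]
      simpa using ha
    exact (isCoprime_mul_unit_left_left hu _ _).mpr hcoK
  intro hres
  have h1 : Polynomial.resultant (F.map i) (G.map i) d d = 0 := by
    rw [Polynomial.resultant_map_map, hres, map_zero]
  have hFK : (F.map i).natDegree = d := by
    refine le_antisymm (Polynomial.natDegree_map_le.trans hFd) ?_
    refine Polynomial.le_natDegree_of_ne_zero ?_
    rw [Polynomial.coeff_map, hFc', Ne, map_eq_zero_iff i hi]
    simpa using ha
  have hGK : (G.map i).natDegree ≤ d := Polynomial.natDegree_map_le.trans hGd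
  have h2 := Polynomial.resultant_add_right_deg (F.map i) (G.map i) d (G.map i).natDegree
    (d - (G.map i).natDegree) le_rfl
  rw [Nat.add_sub_cancel' hGK, h1] at h2
  have h3 : Polynomial.resultant (F.map i) (G.map i) d (G.map i).natDegree = 0 := by
    rcases mul_eq_zero.mp h2.symm with h4 | h4
    · exfalso
      refine pow_ne_zero _ ?_ h4
      rw [Polynomial.coeff_map, hFc', Ne, map_eq_zero_iff i hi]
      simpa using ha
    · exact h4
  have h4 : Polynomial.resultant (F.map i) (G.map i) = 0 := by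
    rw [hFK]
    exact h3
  exact (Polynomial.resultant_eq_zero_iff.mp h4).2 hcoK2

private theorem gen_pair {f g : Pn n} {d : ℕ} (hf : f.IsHomogeneous d) (hg : g.IsHomogeneous d)
    (hf0 : f ≠ 0) (hco : ∀ p : Pn n, p ∣ f → p ∣ g → IsUnit p) :
    ∃ F : MvPolynomial (Fin n × Fin 2) ℂ, F ≠ 0 ∧ ∀ φ : Fin n → Fin 2 → ℂ,
      eval (fun q => φ q.1 q.2) F ≠ 0 →
      ∀ s t : ℂ, (s ≠ 0 ∨ t ≠ 0) → eval (fun j => φ j 0 * s + φ j 1 * t) f ≠ 0 ∨
        eval (fun j => φ j 0 * s + φ j 1 * t) g ≠ 0 := by
  classical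
  have hhom : ∀ {h : Pn n}, h.IsHomogeneous d → ∀ (c : ℂ) (w : Fin n → ℂ),
      eval (fun j => c * w j) h = c ^ d * eval w h := by
    intro h hh c w
    rw [eval_eq', eval_eq', Finset.mul_sum]
    refine Finset.sum_congr rfl fun m hm => ?_
    have hdm : ∑ j, m j = d := by
      have := hh (mem_support_iff.mp hm)
      rw [Finsupp.weight_apply, Finsupp.sum_fintype _ _ (by simp)] at this
      simpa using this
    have h1 : ∏ j, (c * w j) ^ m j = c ^ d * ∏ j, w j ^ m j := by
      rw [← hdm, ← Finset.prod_pow_eq_pow_sum, ← Finset.prod_mul_distrib]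
      refine Finset.prod_congr rfl fun j _ => ?_
      rw [mul_pow]
    rw [h1]
    ring
  rcases Nat.eq_zero_or_pos d with hd | hd
  · subst hd
    refine ⟨1, one_ne_zero, fun φ _ s t _ => Or.inl ?_⟩
    obtain ⟨c, rfl⟩ : ∃ c, f = C c := ⟨coeff 0 f, by
      exact totalDegree_eq_zero_iff_eq_C.mp ((totalDegree_zero_iff_isHomogeneous (Fin n)).mpr hf)⟩
    simpa using hf0
  have hpt : ∃ a : Fin n → ℂ, eval a f ≠ 0 := by
    by_contra hne
    push Not at hne
    exact hf0 (MvPolynomial.funext fun x => by rw [hne x, map_zero])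
  obtain ⟨a, ha⟩ := hpt
  have hr := ln_coprime hf hg hco ha hd.ne'
  obtain ⟨y, hy⟩ : ∃ y : Fin n → ℂ, eval y (Polynomial.resultant
      (ln (fun j => C (a j)) (fun j => (X j : Pn n)) f)
      (ln (fun j => C (a j)) (fun j => (X j : Pn n)) g) d d) ≠ 0 := by
    by_contra hne
    push Not at hne
    exact hr (MvPolynomial.funext fun x => by rw [hne x, map_zero])
  let xx : Fin n → MvPolynomial (Fin n × Fin 2) ℂ := fun j => X (j, 0)
  let yy : Fin n → MvPolynomial (Fin n × Fin 2) ℂ := fun j => X (j, 1)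
  have hspec : ∀ (φ : Fin n → Fin 2 → ℂ) (h : Pn n),
      (ln xx yy h).map ((aeval (fun q : Fin n × Fin 2 => φ q.1 q.2) :
        MvPolynomial (Fin n × Fin 2) ℂ →ₐ[ℂ] ℂ) : MvPolynomial (Fin n × Fin 2) ℂ →+* ℂ)
        = ln (fun j => φ j 0) (fun j => φ j 1) h := by
    intro φ h
    rw [ln_map]
    simp [xx, yy]
  refine ⟨aeval xx f * Polynomial.resultant (ln xx yy f) (ln xx yy g) d d, ?_, ?_⟩
  · intro h0
    let φ : Fin n → Fin 2 → ℂ := fun j q => if q = 0 then a j else y j
    have h1 := congrArg (aeval (fun q : Fin n × Fin 2 => φ q.1 q.2) :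
        MvPolynomial (Fin n × Fin 2) ℂ →ₐ[ℂ] ℂ) h0
    rw [map_mul, map_zero] at h1
    rcases mul_eq_zero.mp h1 with h2 | h2
    · apply ha
      have h3 : ((aeval (fun q : Fin n × Fin 2 => φ q.1 q.2) :
        MvPolynomial (Fin n × Fin 2) ℂ →ₐ[ℂ] ℂ).comp (aeval xx) : Pn n →ₐ[ℂ] ℂ) = aeval a := by
        refine MvPolynomial.algHom_ext fun j => ?_
        simp [xx, φ]
      have h4 := congrArg (fun T : Pn n →ₐ[ℂ] ℂ => T f) h3
      rw [← coe_aeval_eq_eval]
      exact h4.symm.trans h2
    · apply hy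
      have h3 : eval y (Polynomial.resultant
          (ln (fun j => C (a j)) (fun j => (X j : Pn n)) f)
          (ln (fun j => C (a j)) (fun j => (X j : Pn n)) g) d d)
          = Polynomial.resultant (ln a y f) (ln a y g) d d := by
        rw [← coe_aeval_eq_eval]
        show ((aeval y : Pn n →ₐ[ℂ] ℂ) : Pn n →+* ℂ) _ = _
        rw [← Polynomial.resultant_map_map, ln_map, ln_map]
        have hu1 : (fun j => (aeval y : Pn n →ₐ[ℂ] ℂ) (C (a j))) = a := by
          funext j
          rw [aeval_C]
          rfl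
        have hu2 : (fun j => (aeval y : Pn n →ₐ[ℂ] ℂ) (X j)) = y := by
          funext j
          rw [aeval_X]
        rw [hu1, hu2]
      rw [h3]
      have h4 : (aeval (fun q : Fin n × Fin 2 => φ q.1 q.2) :
          MvPolynomial (Fin n × Fin 2) ℂ →ₐ[ℂ] ℂ)
          (Polynomial.resultant (ln xx yy f) (ln xx yy g) d d)
          = Polynomial.resultant (ln a y f) (ln a y g) d d := by
        show ((aeval (fun q : Fin n × Fin 2 => φ q.1 q.2) :
          MvPolynomial (Fin n × Fin 2) ℂ →ₐ[ℂ] ℂ) : MvPolynomial (Fin n × Fin 2) ℂ →+* ℂ) _ = _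
        rw [← Polynomial.resultant_map_map, hspec, hspec]
        simp [φ]
      rw [← h4]
      exact h2
  · intro φ hφ s t hst
    have hφ' : (aeval (fun q : Fin n × Fin 2 => φ q.1 q.2) :
        MvPolynomial (Fin n × Fin 2) ℂ →ₐ[ℂ] ℂ)
        (aeval xx f * Polynomial.resultant (ln xx yy f) (ln xx yy g) d d) ≠ 0 := by
      rw [aeval_eq_eval]
      exact hφ
    rw [map_mul] at hφ'
    have hA1 : eval (fun j => φ j 0) f ≠ 0 := by
      have h3 : ((aeval (fun q : Fin n × Fin 2 => φ q.1 q.2) :
        MvPolynomial (Fin n × Fin 2) ℂ →ₐ[ℂ] ℂ).comp (aeval xx) : Pn n →ₐ[ℂ] ℂ)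
        = aeval (fun j => φ j 0) := by
        refine MvPolynomial.algHom_ext fun j => ?_
        simp [xx]
      have h4 := congrArg (fun T : Pn n →ₐ[ℂ] ℂ => T f) h3
      rw [← coe_aeval_eq_eval]
      intro h5
      exact left_ne_zero_of_mul hφ' (h4.trans h5)
    have hA2 : Polynomial.resultant (ln (fun j => φ j 0) (fun j => φ j 1) f)
        (ln (fun j => φ j 0) (fun j => φ j 1) g) d d ≠ 0 := by
      rw [← hspec, ← hspec, Polynomial.resultant_map_map]
      exact right_ne_zero_of_mul hφ'
    by_cases ht : t = 0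
    · subst ht
      have hs : s ≠ 0 := by
        rcases hst with h | h
        · exact h
        · exact absurd rfl h
      left
      have h6 : (fun j => φ j 0 * s + φ j 1 * 0) = fun j => s * φ j 0 := by
        funext j
        ring
      rw [h6, hhom hf]
      exact mul_ne_zero (pow_ne_zero _ hs) hA1
    · by_contra hcon
      push Not at hcon
      obtain ⟨hz1, hz2⟩ := hcon
      have hscale : (fun j => φ j 0 * s + φ j 1 * t) = fun j => t * (φ j 0 * (s / t) + φ j 1) := by
        funext j
        field_simp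
      rw [hscale, hhom hf] at hz1
      rw [hscale, hhom hg] at hz2
      have ht' : t ^ d ≠ 0 := pow_ne_zero _ ht
      have hz1' := (mul_eq_zero.mp hz1).resolve_left ht'
      have hz2' := (mul_eq_zero.mp hz2).resolve_left ht'
      obtain ⟨p, q, -, -, hpq⟩ := Polynomial.exists_mul_add_mul_eq_C_resultant
        (ln (fun j => φ j 0) (fun j => φ j 1) f) (ln (fun j => φ j 0) (fun j => φ j 1) g)
        (ln_deg _ _ hf).1 (ln_deg _ _ hg).1 (Or.inl hd.ne')
      have h7 := congrArg (Polynomial.eval (s / t)) hpq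
      rw [Polynomial.eval_add, Polynomial.eval_mul, Polynomial.eval_mul, Polynomial.eval_C,
        ln_eval, ln_eval, aeval_eq_eval, hz1', hz2', zero_mul, zero_mul, add_zero] at h7
      exact hA2 h7.symm

private theorem comb_hom [Fintype ι] {A : ι → Pn n} {d : ℕ} (hd : ∀ i, (A i).IsHomogeneous d)
    (c : ι → ℂ) : (∑ i, C (c i) * A i).IsHomogeneous d := by
  refine IsHomogeneous.sum _ _ _ fun i _ => ?_
  have := (isHomogeneous_C (Fin n) (c i)).mul (hd i)
  rwa [zero_add] at this

private theorem comb_ne [Fintype ι] {A : ι → Pn n} {c : ι → ℂ} {z : Fin n → ℂ}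
    (h : eval z (∑ i, C (c i) * A i) ≠ 0) : ∃ i, eval z (A i) ≠ 0 := by
  by_contra hne
  push Not at hne
  apply h
  rw [map_sum]
  refine Finset.sum_eq_zero fun i _ => ?_
  rw [map_mul, hne i, mul_zero]

private theorem gen_line [Fintype ι] {A : ι → Pn n} {d : ℕ} (hd : ∀ i, (A i).IsHomogeneous d)
    (hA : Prim A) :
    ∃ F : MvPolynomial (Fin n × Fin 2) ℂ, F ≠ 0 ∧ ∀ φ : Fin n → Fin 2 → ℂ,
      eval (fun q => φ q.1 q.2) F ≠ 0 →
      ∀ s t : ℂ, (s ≠ 0 ∨ t ≠ 0) → ∃ i, eval (fun j => φ j 0 * s + φ j 1 * t) (A i) ≠ 0 := by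
  obtain ⟨c, e, h1, h2⟩ := two_comb hA
  obtain ⟨F, hF, hF2⟩ := gen_pair (comb_hom hd c) (comb_hom hd e) h1 h2
  refine ⟨F, hF, fun φ hφ s t hst => ?_⟩
  rcases hF2 φ hφ s t hst with h | h
  · exact comb_ne h
  · exact comb_ne h

theorem prim_line [Fintype ι] (hn : 2 ≤ n) {A : ι → Pn n} {d : ℕ} (hd : ∀ i, (A i).IsHomogeneous d) (hA : Prim A) :
    ∃ x y : Fin n → ℂ, ∀ s t : ℂ, (s ≠ 0 ∨ t ≠ 0) → ∃ i, eval (fun j => s * x j + t * y j) (A i) ≠ 0 := by
  obtain ⟨F, hF, hF2⟩ := gen_line hd hA
  obtain ⟨z, hz⟩ : ∃ z : Fin n × Fin 2 → ℂ, eval z F ≠ 0 := by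
    by_contra hne
    push Not at hne
    exact hF (MvPolynomial.funext fun x => by rw [hne x, map_zero])
  refine ⟨fun j => z (j, 0), fun j => z (j, 1), fun s t hst => ?_⟩
  obtain ⟨i, hi⟩ := hF2 (fun j q => z (j, q)) hz s t hst
  refine ⟨i, ?_⟩
  have : (fun j => s * z (j, 0) + t * z (j, 1)) = fun j => z (j, 0) * s + z (j, 1) * t := by
    funext j
    ring
  rw [this]
  exact hi

/-- the same for general `x, y` -/
theorem prim_line_gen [Fintype ι] (hn : 2 ≤ n) {A : ι → Pn n} {d : ℕ} (hd : ∀ i, (A i).IsHomogeneous d) (hA : Prim A) :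
    ∃ F : MvPolynomial (Fin n × Fin 2) ℂ, F ≠ 0 ∧ ∀ φ : Fin n → Fin 2 → ℂ, eval (fun q => φ q.1 q.2) F ≠ 0 →
      ∀ s t : ℂ, (s ≠ 0 ∨ t ≠ 0) → ∃ i, eval (fun j => φ j 0 * s + φ j 1 * t) (A i) ≠ 0 :=
  gen_line hd hA

end Pool.Agent.Helper50.FC
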