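import Pool.Agent.Helper50.FC.KL
import Pool.Agent.Helper50.FC.HB
import Pool.Agent.Helper71.FC.Flag
import Pool.Agent.Helper71.FC.OK

/-! K1-17 (first half): case Y, `z = 3`: `θ` on `ℂ^5`, `EE 2 = 0` on general planes.  Then `θ` is the form of three linear vector fields.
Coordinates: `H : x_0 = 0`, `P : x_0 = x_1 = 0`.
* `Y3.e4`: `H3`, `H4` on `P`, then `EE_rs_le` twice (`EE_rs_bot`, `EE_bot_of_le`): `e_3(H) ≤ 5`, `e_4(H) ≤ 12 + 5`, `e_3(V) ≤ 5`, `e_4(V) ≤ 17 + 5`.
* `Y3.KL_three`: `25 ≤ finrank (KL θ) + 22`.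
* `Y3.KL_inj`: let `A p = 0`, `0 ≠ p ∈ P`.  For `y ∈ P`, `u := A y`: `0 = (ct (linF A) θ)(s p + t y) = t * (av θ u)(s p + t y)`, so `av θ u` vanishes
  on the plane `<p, y>`; if `y ∉ ℂ p` let `l` be the linear form on `P` with kernel `<p, y>`: `(av θ u)|P = l * η`, `η ∈ EE (rs2 (rs2 θ)) 2 = 0`; so
  the restriction of `av θ u` to `P` is zero, and `av θ u = 0` by `EE_rs_inj` twice, `u = 0` (no cone).  So `A y = 0` for `y ∈ P`.  For
  arbitrary `z`, `u := A z`: `0 = (ct (linF A) θ)(q + s z) = s * (av θ u)(q + s z)` for `q ∈ P`, so `av θ u` vanishes on `P`, `u = 0` as before. -/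

set_option autoImplicit false

namespace Pool.Agent.Helper50.FC

open MvPolynomial
open scoped BigOperators
open Pool.Agent.Helper71.FL (w12 pf ct Dec Closed dd at0 res)
open Pool.Agent.Helper93 (lsub lmap OF pb)
open Pool.Agent.Helper71.FC
open Pool.Agent.Helper1.FG (mins alp Triv stdF ClV WH)

/-- good coordinates for case Y with `E_2(P) = 0` -/
structure Y3 (θ : F2 5) : Prop where
  fol : Fol θ
  folH : Fol (rs2 θ)
  folP : Fol (rs2 (rs2 θ))
  e2 : EE (rs2 (rs2 θ)) 2 = ⊥
  nc : ¬ Cone θ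

/-- the plane `x_0 = x_1 = 0` -/
noncomputable def P0 : Fin 5 → MvPolynomial (Fin 3) ℂ := ![0, 0, X 0, X 1, X 2]

private theorem z3_nz {n : ℕ} {θ : F2 n} (h : Fol θ) : ∃ i j, θ i j ≠ 0 := by
  by_contra hc
  push Not at hc
  exact not_isUnit_zero (h.prim 0 (fun i j => by rw [hc i j]))

private theorem Y3.eH2 {θ : F2 5} (h : Y3 θ) : EE (rs2 θ) 2 = ⊥ :=
  EE_rs_bot (n := 2) (z3_nz h.folP) h.e2

private theorem Y3.eV2 {θ : F2 5} (h : Y3 θ) : EE θ 2 = ⊥ :=
  EE_rs_bot (n := 3) (z3_nz h.folH) h.eH2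

theorem Y3.e4 {θ : F2 5} (h : Y3 θ) : Module.finrank ℂ (EE θ 4) ≤ 22 := by
  have p3 := H3 h.folP h.e2
  have p4 := H4 h.folP h.e2
  have h2 : Module.finrank ℂ (EE (rs2 θ) 2) = 0 := by rw [h.eH2, finrank_bot]
  have v2 : Module.finrank ℂ (EE θ 2) = 0 := by rw [h.eV2, finrank_bot]
  have h3 : Module.finrank ℂ (EE (rs2 θ) 3) ≤
      Module.finrank ℂ (EE (rs2 (rs2 θ)) 3) + Module.finrank ℂ (EE (rs2 θ) 2) :=
    EE_rs_le (z3_nz h.folP) 2
  have h4 : Module.finrank ℂ (EE (rs2 θ) 4) ≤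
      Module.finrank ℂ (EE (rs2 (rs2 θ)) 4) + Module.finrank ℂ (EE (rs2 θ) 3) :=
    EE_rs_le (z3_nz h.folP) 3
  have v3 : Module.finrank ℂ (EE θ 3) ≤
      Module.finrank ℂ (EE (rs2 θ) 3) + Module.finrank ℂ (EE θ 2) :=
    EE_rs_le (z3_nz h.folH) 2
  have v4 : Module.finrank ℂ (EE θ 4) ≤
      Module.finrank ℂ (EE (rs2 θ) 4) + Module.finrank ℂ (EE θ 3) :=
    EE_rs_le (z3_nz h.folH) 3
  omega

theorem Y3.KL_three {θ : F2 5} (h : Y3 θ) : 3 ≤ Module.finrank ℂ (KL θ) := by
  have h1 := KL_finrank h.fol.hom h.fol.dec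
  have h2 := h.e4
  omega

private theorem eval_at0 {n : ℕ} (f : Pn (n + 1)) (y : Fin n → ℂ) :
    eval y (at0 n ℂ f) = eval (Fin.cons 0 y : Fin (n + 1) → ℂ) f := by
  unfold at0
  induction f using MvPolynomial.induction_on with
  | C c =>
    have h1 : (aeval (Fin.cons (0 : MvPolynomial (Fin n) ℂ) (fun i => (X i : MvPolynomial (Fin n) ℂ)))
      (C c : Pn (n + 1))) = (C c : Pn n) := by
      rw [aeval_C]
      rfl
    rw [h1, eval_C, eval_C]
  | add p q hp hq => rw [map_add, map_add, map_add, hp, hq]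
  | mul_X p i hp =>
    rw [map_mul, map_mul, map_mul, hp, aeval_X, eval_X]
    congr 1
    refine Fin.cases ?_ (fun i' => ?_) i
    · rw [Fin.cons_zero, Fin.cons_zero, map_zero]
    · rw [Fin.cons_succ, Fin.cons_succ, eval_X]

private theorem eval_at00 {n : ℕ} (f : Pn (n + 2)) (y : Fin n → ℂ) :
    eval y (at0 n ℂ (at0 (n + 1) ℂ f)) = eval (Fin.cons 0 (Fin.cons 0 y) : Fin (n + 2) → ℂ) f := by
  rw [eval_at0, eval_at0]

private theorem av_mem {n : ℕ} {θ : F2 n} (hF : Fol θ) (u : Fin n → ℂ) : av θ u ∈ EE θ 3 := by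
  refine ⟨fun j => ?_, fun i j l => Pool.Agent.Helper71.FL.w12_ct hF.dec _ i j l⟩
  unfold av ct cv
  apply IsHomogeneous.sum
  intro i _
  have h := (isHomogeneous_C (Fin n) (u i)).mul (hF.hom i j)
  rwa [zero_add] at h

theorem Y3.av_inj {θ : F2 5} (h : Y3 θ) {u : Fin 5 → ℂ}
    (h0 : ∀ x : Fin 5 → ℂ, x 0 = 0 → x 1 = 0 → ∀ j : Fin 3, eval x (av θ u j.succ.succ) = 0) :
    u = 0 := by
  have h1 := av_mem h.fol u
  have h2 : res (av θ u) ∈ EE (rs2 θ) 3 := res_mem_EE h1
  have h3 : res (av θ u) = 0 := by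
    refine EE_rs_inj (n := 2) (z3_nz h.folP) h.e2 h2 (fun j => ?_)
    apply MvPolynomial.funext
    intro y
    rw [map_zero]
    show eval y (at0 3 ℂ (at0 4 ℂ (av θ u j.succ.succ))) = 0
    rw [eval_at00]
    exact h0 _ rfl rfl j
  have h4 : av θ u = 0 := by
    refine EE_rs_inj (n := 3) (z3_nz h.folH) h.eH2 h1 (fun j => ?_)
    exact congrFun h3 j
  by_contra hu
  exact h.nc ⟨u, hu, fun j => congrFun h4 j⟩

/-- a polynomial that vanishes on a punctured line vanishes at the missing point -/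
private theorem line_zero {ι : Type} (F : MvPolynomial ι ℂ) (x z : ι → ℂ) (t : ℂ)
    (h : ∀ r : ℂ, (t + r) * eval (fun i => x i + r * z i) F = 0) : eval x F = 0 := by
  let g : Polynomial ℂ := aeval (fun i => Polynomial.C (x i) + Polynomial.X * Polynomial.C (z i)) F
  have hg : ∀ r : ℂ, g.eval r = eval (fun i => x i + r * z i) F := by
    intro r
    show Polynomial.eval r (aeval _ F) = _
    rw [← Polynomial.coe_evalRingHom, map_aeval]
    have h1 : (Polynomial.evalRingHom r).comp (algebraMap ℂ (Polynomial ℂ)) = RingHom.id ℂ := by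
      ext c
      simp
    rw [h1]
    have h2 : (fun i => (Polynomial.evalRingHom r)
        (Polynomial.C (x i) + Polynomial.X * Polynomial.C (z i))) = fun i => x i + r * z i := by
      funext i
      simp only [Polynomial.coe_evalRingHom, Polynomial.eval_add, Polynomial.eval_C,
        Polynomial.eval_mul, Polynomial.eval_X]
    rw [h2]
    rfl
  have h1 : (Polynomial.C t + Polynomial.X) * g = 0 := by
    apply Polynomial.funext
    intro r
    rw [Polynomial.eval_mul, Polynomial.eval_add, Polynomial.eval_C, Polynomial.eval_X, hg,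
      Polynomial.eval_zero]
    exact h r
  have h2 : (Polynomial.C t + Polynomial.X : Polynomial ℂ) ≠ 0 := by
    rw [add_comm]
    exact Polynomial.X_add_C_ne_zero t
  have h3 := (mul_eq_zero.1 h1).resolve_left h2
  have h4 := hg 0
  rw [h3, Polynomial.eval_zero] at h4
  simpa using h4.symm

/-- a polynomial vanishing on a hyperplane is divisible by its equation -/
private theorem dvd_of_vanish {n : ℕ} {a : Fin n → ℂ} {i : Fin n} (hi : a i ≠ 0) {f : Pn n}
    (h : ∀ x : Fin n → ℂ, ∑ j, a j * x j = 0 → eval x f = 0) : (lf a : Pn n) ∣ f := by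
  classical
  let c : Fin n → ℂ := fun j => if j = i then (a i)⁻¹ else 0
  let σ : Fin n → Pn n := fun j => X j - C (c j) * lf a
  have hev : ∀ x : Fin n → ℂ, eval x (lf a : Pn n) = ∑ j, a j * x j := by
    intro x
    unfold lf
    rw [map_sum]
    exact Finset.sum_congr rfl fun j _ => by rw [map_mul, eval_C, eval_X]
  have hac : ∑ j, a j * c j = 1 := by
    rw [Finset.sum_eq_single i]
    · show a i * (if i = i then (a i)⁻¹ else 0) = 1
      rw [if_pos rfl, mul_inv_cancel₀ hi]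
    · intro j _ hj
      show a j * (if j = i then (a i)⁻¹ else 0) = 0
      rw [if_neg hj, mul_zero]
    · intro h; exact absurd (Finset.mem_univ _) h
  have h1 : (aeval σ f : Pn n) = 0 := by
    apply MvPolynomial.funext
    intro x
    rw [map_zero]
    have h2 : eval x (aeval σ f : Pn n) = eval (fun j => eval x (σ j)) f := by
      have h3 : ((eval x).comp ((aeval σ : Pn n →ₐ[ℂ] Pn n) : Pn n →+* Pn n)) =
          eval (fun j => eval x (σ j)) := by
        apply MvPolynomial.ringHom_ext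
        · intro r
          simp
        · intro j
          simp
      exact RingHom.congr_fun h3 f
    rw [h2]
    apply h
    have h4 : ∀ j, eval x (σ j) = x j - c j * ∑ k, a k * x k := by
      intro j
      show eval x (X j - C (c j) * lf a) = _
      rw [map_sub, map_mul, eval_X, eval_C, hev]
    simp only [h4, mul_sub]
    rw [Finset.sum_sub_distrib]
    have h5 : ∑ j, a j * (c j * ∑ k, a k * x k) = (∑ j, a j * c j) * ∑ k, a k * x k := by
      rw [Finset.sum_mul]
      exact Finset.sum_congr rfl fun j _ => by ring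
    rw [h5, hac, one_mul, sub_self]
  have h2 : Ideal.Quotient.mkₐ ℂ (Ideal.span {(lf a : Pn n)}) f = 0 := by
    have h3 : (Ideal.Quotient.mkₐ ℂ (Ideal.span {(lf a : Pn n)})) =
        (Ideal.Quotient.mkₐ ℂ (Ideal.span {(lf a : Pn n)})).comp (aeval σ : Pn n →ₐ[ℂ] Pn n) := by
      apply MvPolynomial.algHom_ext
      intro j
      rw [AlgHom.comp_apply, aeval_X]
      show _ = Ideal.Quotient.mkₐ ℂ (Ideal.span {(lf a : Pn n)}) (X j - C (c j) * lf a)
      have h4 : Ideal.Quotient.mkₐ ℂ (Ideal.span {(lf a : Pn n)}) (lf a) = 0 := by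
        rw [Ideal.Quotient.mkₐ_eq_mk, Ideal.Quotient.eq_zero_iff_mem]
        exact Ideal.mem_span_singleton_self _
      rw [map_sub, map_mul, h4, mul_zero, sub_zero]
    rw [h3, AlgHom.comp_apply, h1, map_zero]
  rw [Ideal.Quotient.mkₐ_eq_mk, Ideal.Quotient.eq_zero_iff_mem, Ideal.mem_span_singleton] at h2
  exact h2

/-- vector product -/
private def cr (p y : Fin 3 → ℂ) : Fin 3 → ℂ :=
  ![p 1 * y 2 - p 2 * y 1, p 2 * y 0 - p 0 * y 2, p 0 * y 1 - p 1 * y 0]

private theorem span3 {p y x : Fin 3 → ℂ} (ha : cr p y ≠ 0) (hx : ∑ j, cr p y j * x j = 0) :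
    ∃ s t : ℂ, ∀ i, x i = s * p i + t * y i := by
  have hx' : (p 1 * y 2 - p 2 * y 1) * x 0 + (p 2 * y 0 - p 0 * y 2) * x 1 +
      (p 0 * y 1 - p 1 * y 0) * x 2 = 0 := by
    rw [Fin.sum_univ_three] at hx
    exact hx
  obtain ⟨k, hk⟩ := Function.ne_iff.mp ha
  fin_cases k
  · have h0 : p 1 * y 2 - p 2 * y 1 ≠ 0 := hk
    refine ⟨(x 1 * y 2 - x 2 * y 1) / (p 1 * y 2 - p 2 * y 1),
      (p 1 * x 2 - p 2 * x 1) / (p 1 * y 2 - p 2 * y 1), fun i => ?_⟩
    rw [div_mul_eq_mul_div, div_mul_eq_mul_div, ← add_div, eq_div_iff h0]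
    fin_cases i
    · show x 0 * _ = _ * p 0 + _ * y 0
      linear_combination hx'
    · show x 1 * _ = _ * p 1 + _ * y 1
      ring
    · show x 2 * _ = _ * p 2 + _ * y 2
      ring
  · have h0 : p 2 * y 0 - p 0 * y 2 ≠ 0 := hk
    refine ⟨(x 2 * y 0 - x 0 * y 2) / (p 2 * y 0 - p 0 * y 2),
      (p 2 * x 0 - p 0 * x 2) / (p 2 * y 0 - p 0 * y 2), fun i => ?_⟩
    rw [div_mul_eq_mul_div, div_mul_eq_mul_div, ← add_div, eq_div_iff h0]
    fin_cases i
    · show x 0 * _ = _ * p 0 + _ * y 0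
      ring
    · show x 1 * _ = _ * p 1 + _ * y 1
      linear_combination hx'
    · show x 2 * _ = _ * p 2 + _ * y 2
      ring
  · have h0 : p 0 * y 1 - p 1 * y 0 ≠ 0 := hk
    refine ⟨(x 0 * y 1 - x 1 * y 0) / (p 0 * y 1 - p 1 * y 0),
      (p 0 * x 1 - p 1 * x 0) / (p 0 * y 1 - p 1 * y 0), fun i => ?_⟩
    rw [div_mul_eq_mul_div, div_mul_eq_mul_div, ← add_div, eq_div_iff h0]
    fin_cases i
    · show x 0 * _ = _ * p 0 + _ * y 0
      ring
    · show x 1 * _ = _ * p 1 + _ * y 1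
      ring
    · show x 2 * _ = _ * p 2 + _ * y 2
      linear_combination hx'

private theorem prop3 {p y : Fin 3 → ℂ} (hp : p ≠ 0) (ha : cr p y = 0) :
    ∃ c : ℂ, ∀ i, y i = c * p i := by
  have e0 : p 1 * y 2 - p 2 * y 1 = 0 := congrFun ha 0
  have e1 : p 2 * y 0 - p 0 * y 2 = 0 := congrFun ha 1
  have e2 : p 0 * y 1 - p 1 * y 0 = 0 := congrFun ha 2
  obtain ⟨k, hk⟩ := Function.ne_iff.mp hp
  refine ⟨y k / p k, fun i => ?_⟩
  have hk' : p k ≠ 0 := hk
  rw [div_mul_eq_mul_div, eq_div_iff hk']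
  fin_cases k <;> fin_cases i
  · show y 0 * p 0 = y 0 * p 0
    rfl
  · show y 1 * p 0 = y 0 * p 1
    linear_combination e2
  · show y 2 * p 0 = y 0 * p 2
    linear_combination -e1
  · show y 0 * p 1 = y 1 * p 0
    linear_combination -e2
  · show y 1 * p 1 = y 1 * p 1
    rfl
  · show y 2 * p 1 = y 1 * p 2
    linear_combination e0
  · show y 0 * p 2 = y 2 * p 0
    linear_combination e1
  · show y 1 * p 2 = y 2 * p 1
    linear_combination -e0
  · show y 2 * p 2 = y 2 * p 2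
    rfl

private theorem KL_eval {θ : F2 5} {A : Fin 5 → Fin 5 → ℂ} (hA : A ∈ KL θ) {u x : Fin 5 → ℂ}
    {c : ℂ} (hx : ∀ i, ∑ k, A i k * x k = c * u i) (j : Fin 5) : c * eval x (av θ u j) = 0 := by
  have h1 : ct (linF A) θ j = 0 := hA j
  have h2 := congrArg (eval x) h1
  unfold ct linF at h2
  rw [map_sum, map_zero] at h2
  unfold av ct cv
  rw [map_sum, Finset.mul_sum, ← h2]
  apply Finset.sum_congr rfl
  intro i _
  rw [map_mul, map_mul, eval_C, map_sum]
  have h3 : ∑ k, eval x (C (A i k) * X k : Pn 5) = c * u i := by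
    rw [← hx i]
    exact Finset.sum_congr rfl fun k _ => by rw [map_mul, eval_C, eval_X]
  rw [h3]
  ring

private theorem cons_cons {n : ℕ} {x : Fin (n + 2) → ℂ} (h0 : x 0 = 0) (h1 : x 1 = 0) :
    x = Fin.cons 0 (Fin.cons 0 (fun i : Fin n => x i.succ.succ)) := by
  funext i
  refine Fin.cases ?_ (fun i' => ?_) i
  · rw [Fin.cons_zero, h0]
  · rw [Fin.cons_succ]
    refine Fin.cases ?_ (fun i'' => ?_) i'
    · rw [Fin.cons_zero]
      exact h1
    · rw [Fin.cons_succ]

/-- a section over `P` of degree 3 vanishing on a hyperplane of `P` vanishes -/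
private theorem sec_zero {ψ : F2 3} (h2 : EE ψ 2 = ⊥) {f : F1 3} (hf : f ∈ EE ψ 3)
    {a : Fin 3 → ℂ} (ha : a ≠ 0)
    (h : ∀ x : Fin 3 → ℂ, ∑ j, a j * x j = 0 → ∀ j, eval x (f j) = 0) : f = 0 := by
  obtain ⟨i, hi⟩ := Function.ne_iff.mp ha
  have hi' : a i ≠ 0 := hi
  have hd : ∀ j, ∃ g, f j = lf a * g := fun j => dvd_of_vanish hi' (fun x hx => h x hx j)
  choose g hg using hd
  have hl1 : (lf a : Pn 3).IsHomogeneous 1 := by
    unfold lf
    apply IsHomogeneous.sum
    intro j _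
    have h3 := (isHomogeneous_C (Fin 3) (a j)).mul (isHomogeneous_X ℂ j)
    rwa [zero_add] at h3
  have hl0 : (lf a : Pn 3) ≠ 0 := by
    intro h3
    apply hi'
    have h4 : eval (Pi.single i 1) (lf a : Pn 3) = a i := by
      unfold lf
      rw [map_sum, Finset.sum_eq_single i]
      · rw [map_mul, eval_C, eval_X, Pi.single_eq_same, mul_one]
      · intro j _ hj
        rw [map_mul, eval_C, eval_X, Pi.single_eq_of_ne hj, mul_zero]
      · intro h5; exact absurd (Finset.mem_univ _) h5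
    rw [← h4, h3, map_zero]
  have hc : ∀ j, f j = lf a * homogeneousComponent 2 (g j) := by
    intro j
    have h3 := sat_hc_mul 2 1 (g j) (lf a) hl1
    rw [mul_comm (g j), ← hg j] at h3
    have h4 : homogeneousComponent (2 + 1) (f j) = f j := homogeneousComponent_eq_self (hf.1 j)
    rw [h4] at h3
    rw [h3, mul_comm]
  have hm : (fun j => homogeneousComponent 2 (g j) : F1 3) ∈ EE ψ 2 := by
    refine ⟨fun j => homogeneousComponent_isHomogeneous 2 (g j), fun i j l => ?_⟩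
    have h3 := hf.2 i j l
    have h4 : f = fun j => lf a * homogeneousComponent 2 (g j) := funext hc
    rw [h4, Pool.Agent.Helper71.FL.w12_smul] at h3
    exact (mul_eq_zero.1 h3).resolve_left hl0
  rw [h2, Submodule.mem_bot] at hm
  funext j
  rw [hc j]
  have h5 : homogeneousComponent 2 (g j) = 0 := congrFun hm j
  rw [h5, mul_zero]
  rfl

private theorem KL_plane {θ : F2 5} (h : Y3 θ) {A : Fin 5 → Fin 5 → ℂ} (hA : A ∈ KL θ)
    {p : Fin 5 → ℂ} (hp : p ≠ 0) (h0 : p 0 = 0) (h1 : p 1 = 0)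
    (hAp : ∀ i, ∑ j, A i j * p j = 0) {y : Fin 5 → ℂ} (hy0 : y 0 = 0) (hy1 : y 1 = 0) :
    ∀ i, ∑ j, A i j * y j = 0 := by
  have hp5 := cons_cons (n := 3) h0 h1
  have hy5 := cons_cons (n := 3) hy0 hy1
  have hp' : (fun i : Fin 3 => p i.succ.succ) ≠ 0 := by
    intro h2
    apply hp
    rw [hp5]
    funext i
    refine Fin.cases ?_ (fun i' => ?_) i
    · rfl
    · refine Fin.cases ?_ (fun i'' => ?_) i'
      · rfl
      · exact congrFun h2 i''
  by_cases ha : cr (fun i : Fin 3 => p i.succ.succ) (fun i : Fin 3 => y i.succ.succ) = 0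
  · obtain ⟨c, hc⟩ := prop3 hp' ha
    have hyc : ∀ k, y k = c * p k := by
      intro k
      refine Fin.cases ?_ (fun k' => ?_) k
      · rw [hy0, h0, mul_zero]
      · refine Fin.cases ?_ (fun k'' => ?_) k'
        · show y 1 = c * p 1
          rw [hy1, h1, mul_zero]
        · exact hc k''
    intro i
    have h2 : ∑ j, A i j * y j = c * ∑ j, A i j * p j := by
      rw [Finset.mul_sum]
      exact Finset.sum_congr rfl fun j _ => by rw [hyc j]; ring
    rw [h2, hAp, mul_zero]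
  · have hu : (fun i => ∑ j, A i j * y j) = 0 := by
      set u : Fin 5 → ℂ := fun i => ∑ j, A i j * y j with hudef
      have hvan : ∀ x : Fin 3 → ℂ,
          ∑ j, cr (fun i : Fin 3 => p i.succ.succ) (fun i : Fin 3 => y i.succ.succ) j * x j = 0 →
          ∀ j, eval (Fin.cons 0 (Fin.cons 0 x) : Fin 5 → ℂ) (av θ u j) = 0 := by
        intro x hx j
        obtain ⟨s, t, hst⟩ := span3 ha hx
        have hx5 : ∀ k, (Fin.cons 0 (Fin.cons 0 x) : Fin 5 → ℂ) k = s * p k + t * y k := by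
          intro k
          refine Fin.cases ?_ (fun k' => ?_) k
          · rw [Fin.cons_zero, hy0, h0]
            ring
          · rw [Fin.cons_succ]
            refine Fin.cases ?_ (fun k'' => ?_) k'
            · rw [Fin.cons_zero]
              show (0 : ℂ) = s * p 1 + t * y 1
              rw [hy1, h1]
              ring
            · rw [Fin.cons_succ]
              exact hst k''
        apply line_zero (av θ u j) (Fin.cons 0 (Fin.cons 0 x) : Fin 5 → ℂ) y t
        intro r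
        apply KL_eval hA
        intro i
        have h2 : ∑ k, A i k * ((Fin.cons 0 (Fin.cons 0 x) : Fin 5 → ℂ) k + r * y k) =
            s * (∑ k, A i k * p k) + (t + r) * ∑ k, A i k * y k := by
          rw [Finset.mul_sum, Finset.mul_sum, ← Finset.sum_add_distrib]
          exact Finset.sum_congr rfl fun k _ => by rw [hx5 k]; ring
        rw [h2, hAp, mul_zero, zero_add]
      have hf : res (res (av θ u)) ∈ EE (rs2 (rs2 θ)) 3 := res_mem_EE (res_mem_EE (av_mem h.fol u))
      have hfz : res (res (av θ u)) = 0 := by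
        refine sec_zero h.e2 hf ha (fun x hx j => ?_)
        show eval x (at0 3 ℂ (at0 4 ℂ (av θ u j.succ.succ))) = 0
        rw [eval_at00]
        exact hvan x hx _
      apply h.av_inj
      intro x hx0 hx1 j
      rw [cons_cons (n := 3) hx0 hx1, ← eval_at00]
      have h2 : at0 3 ℂ (at0 4 ℂ (av θ u j.succ.succ)) = 0 := congrFun hfz j
      rw [h2, map_zero]
    exact fun i => congrFun hu i

theorem Y3.KL_inj {θ : F2 5} (h : Y3 θ) {A : Fin 5 → Fin 5 → ℂ} (hA : A ∈ KL θ)
    {p : Fin 5 → ℂ} (hp : p ≠ 0) (h0 : p 0 = 0) (h1 : p 1 = 0)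
    (hAp : ∀ i, ∑ j, A i j * p j = 0) : A = 0 := by
  have hz : ∀ z : Fin 5 → ℂ, (fun i => ∑ j, A i j * z j) = 0 := by
    intro z
    apply h.av_inj
    intro q hq0 hq1 j
    apply line_zero _ q z 0
    intro r
    apply KL_eval hA
    intro i
    have h2 : ∑ k, A i k * (q k + r * z k) =
        (∑ k, A i k * q k) + (0 + r) * ∑ k, A i k * z k := by
      rw [Finset.mul_sum, ← Finset.sum_add_distrib]
      exact Finset.sum_congr rfl fun k _ => by ring
    rw [h2, KL_plane h hA hp h0 h1 hAp hq0 hq1, zero_add]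
  funext i k
  have h2 := congrFun (hz (Pi.single k 1)) i
  simpa [Pi.single_apply] using h2

end Pool.Agent.Helper50.FC
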