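import Pool.Agent.Helper50.FC.Z4ii
import Pool.Agent.Helper12.Z4.Defs

/-! Adaptor: `z4_ii` in terms of helper12's `RL θ`. -/

set_option autoImplicit false

namespace Pool.Agent.Helper50.FC

open MvPolynomial
open scoped BigOperators
open Pool.Agent.Helper71.FL (w12 pf ct Dec Closed dd at0 res)
open Pool.Agent.Helper71.FC
open Pool.Agent.Helper12.Z4 (KX RL)

/-- an injective linear map onto a space of the same dimension is surjective (additive monoid version) -/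
private theorem surj_of_inj {M : Type} [AddCommMonoid M] [Module ℂ M] {m : ℕ}
    (f : (Fin m → ℂ) →ₗ[ℂ] M) (hf : ∀ v, f v = 0 → v = 0) (hm : Module.finrank ℂ M = m)
    (h0 : 0 < m) : Function.Injective f ∧ Function.Surjective f := by
  letI : AddCommGroup M := Module.addCommMonoidToAddCommGroup ℂ
  haveI : Module.Finite ℂ M := Module.finite_of_finrank_pos (by rw [hm]; exact h0)
  have hi : Function.Injective f := by
    rw [← LinearMap.ker_eq_bot, LinearMap.ker_eq_bot']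
    exact hf
  refine ⟨hi, ?_⟩
  have h1 : Module.finrank ℂ (Fin m → ℂ) = Module.finrank ℂ M := by
    rw [Module.finrank_fin_fun, hm]
  exact (LinearMap.injective_iff_surjective_of_finrank_eq_finrank h1).mp hi

theorem z4_ii_RL {θ : F2 5} (h : CY θ) (h6 : Module.finrank ℂ (EE θ 3) = 6)
    (h5 : Module.finrank ℂ (RL θ) = 5) (Bt : (Fin 5 → ℂ) →ₗ[ℂ] RL θ)
    (hB : ∀ x, (Bt x : (Fin 5 → ℂ) →ₗ[ℂ] EE θ 3) x = 0) (hker : LinearMap.ker Bt = ⊥)
    (hgen : Gen (fun x : Fin 5 → ℂ => ∀ X ∈ RL θ, X x = 0 →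
      ∃ c : ℂ, X = c • (Bt x : (Fin 5 → ℂ) →ₗ[ℂ] EE θ 3))) : False := by
  have hLk : ∀ v, Bt v = 0 → v = 0 := by
    intro v hv
    have h2 : v ∈ LinearMap.ker Bt := hv
    rw [hker] at h2
    exact (Submodule.mem_bot ℂ).mp h2
  obtain ⟨hi, hs⟩ := surj_of_inj Bt hLk h5 (by norm_num)
  refine z4_ii h h6 ((RL θ).subtype ∘ₗ Bt) (fun x => hB x) (fun v x i => (Bt v).2 x i)
    (fun v hv => hLk v (Subtype.ext hv)) ?_ ?_
  · intro Ψ hΨ
    obtain ⟨z, hz⟩ := hs ⟨Ψ, fun x i => hΨ x i⟩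
    exact ⟨z, (congrArg Subtype.val hz).symm⟩
  · refine hgen.mono fun x hx u hu => ?_
    obtain ⟨c, hc⟩ := hx (Bt u : (Fin 5 → ℂ) →ₗ[ℂ] EE θ 3) (Bt u).2 hu
    refine ⟨c, hi ?_⟩
    rw [map_smul]
    exact Subtype.ext hc

end Pool.Agent.Helper50.FC
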